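import Mathlib

set_option autoImplicit false
set_option linter.unusedSectionVars false

/-!
# Simple vigorous groups: topological preliminaries
-/

namespace Pool.Agent.N59.VG

open Set Topology

section Top
variable {X : Type*} [TopologicalSpace X]

/-- nonempty open sets are infinite -/
def Perf (X : Type*) [TopologicalSpace X] : Prop := ∀ U : Set X, IsOpen U → U.Nonempty → U.Infinite

variable [CompactSpace X] [T2Space X] [TotallyDisconnectedSpace X]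

lemma exists_clopen_nhds {x : X} {U : Set X} (hU : IsOpen U) (hx : x ∈ U) :
    ∃ V, IsClopen V ∧ x ∈ V ∧ V ⊆ U := compact_exists_isClopen_in_isOpen hU hx

lemma exists_clopen_avoid {x : X} {U : Set X} (hU : IsOpen U) (hx : x ∈ U) {s : Set X}
    (hs : s.Finite) (hxs : x ∉ s) : ∃ V, IsClopen V ∧ x ∈ V ∧ V ⊆ U ∧ ∀ y ∈ s, y ∉ V := by
  obtain ⟨V, hV, hxV, hVU⟩ := exists_clopen_nhds (hU.inter hs.isClosed.isOpen_compl) ⟨hx, hxs⟩
  exact ⟨V, hV, hxV, fun y hy => (hVU hy).1, fun y hy hyV => (hVU hyV).2 hy⟩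

lemma exists_split (hP : Perf X) {U : Set X} (hU : IsOpen U) (hn : U.Nonempty) (ι : Type*)
    [Finite ι] : ∃ f : ι → Set X, (∀ i, IsClopen (f i)) ∧ (∀ i, (f i).Nonempty) ∧ (∀ i, f i ⊆ U) ∧
      (∀ i j, i ≠ j → Disjoint (f i) (f j)) ∧ ∃ x ∈ U, ∀ i, x ∉ f i := by
  have hinf : U.Infinite := hP U hU hn
  have : Infinite U := hinf.to_subtype
  obtain ⟨n, ⟨e⟩⟩ := Finite.exists_equiv_fin (Option ι)
  let p0 : Fin n ↪ U := (Fin.valEmbedding).trans (Infinite.natEmbedding U)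
  let p : Option ι → X := fun i => (p0 (e i) : X)
  have hp : Function.Injective p := fun a b h => e.injective (p0.injective (Subtype.ext h))
  have hpU : ∀ i, p i ∈ U := fun i => (p0 (e i)).2
  obtain ⟨W, hW, hWd⟩ := (Set.finite_range p).t2_separation
  have h1 : ∀ i : ι, ∃ V, IsClopen V ∧ p (some i) ∈ V ∧ V ⊆ U ∩ W (p (some i)) := fun i =>
    exists_clopen_nhds (hU.inter (hW _).2) ⟨hpU _, (hW _).1⟩
  choose f hf1 hf2 hf3 using h1
  refine ⟨f, hf1, fun i => ⟨_, hf2 i⟩, fun i x hx => (hf3 i hx).1, fun i j hij => ?_,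
    p none, hpU none, fun i hi => ?_⟩
  · have h2 : Disjoint (W (p (some i))) (W (p (some j))) :=
      hWd ⟨_, rfl⟩ ⟨_, rfl⟩ (fun h => hij (Option.some.inj (hp h)))
    exact h2.mono (fun x hx => (hf3 i hx).2) (fun x hx => (hf3 j hx).2)
  · have h2 : Disjoint (W (p (some i))) (W (p none)) :=
      hWd ⟨_, rfl⟩ ⟨_, rfl⟩ (fun h => by simpa using hp h)
    exact Set.disjoint_left.1 h2 (hf3 i hi).2 (hW _).1

/-- simple vigorous groups of homeomorphisms, as groups of permutations -/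
structure SV (Γ : Subgroup (Equiv.Perm X)) : Prop where
  perf : Perf X
  ne : Nonempty X
  cont : ∀ g ∈ Γ, Continuous g
  vig : ∀ A B C : Set X, IsClopen A → IsClopen B → IsClopen C → B ⊆ A → C ⊆ A → B.Nonempty →
    C.Nonempty → B ≠ A → C ≠ A → ∃ g ∈ Γ, (∀ x ∈ B, g x ∈ C) ∧ ∀ x, x ∉ A → g x = x
  simp : ∀ N : Subgroup (Equiv.Perm X), N ≤ Γ → (∀ n ∈ N, ∀ g ∈ Γ, g * n * g⁻¹ ∈ N) →
    (∃ n ∈ N, n ≠ 1) → Γ ≤ N

variable {Γ : Subgroup (Equiv.Perm X)}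

lemma SV.img (h : SV Γ) {g : Equiv.Perm X} (hg : g ∈ Γ) {A : Set X} (hA : IsClopen A) :
    IsClopen (g '' A) := by
  have h1 : g '' A = (g⁻¹ : Equiv.Perm X) ⁻¹' A := by
    rw [Equiv.image_eq_preimage_symm]; rfl
  rw [h1]
  exact hA.preimage (h.cont _ (Γ.inv_mem hg))

lemma SV.imgo (h : SV Γ) {g : Equiv.Perm X} (hg : g ∈ Γ) {A : Set X} (hA : IsOpen A) :
    IsOpen (g '' A) := by
  have h1 : g '' A = (g⁻¹ : Equiv.Perm X) ⁻¹' A := by
    rw [Equiv.image_eq_preimage_symm]; rfl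
  rw [h1]
  exact hA.preimage (h.cont _ (Γ.inv_mem hg))

lemma ne_of_mem_not_mem {A B : Set X} {x : X} (h1 : x ∈ A) (h2 : x ∉ B) : B ≠ A := by
  rintro rfl; exact h2 h1

end Top

/-! ### three-cycles -/

section Is3
variable {X : Type*}

@[simp] lemma ai (f : Equiv.Perm X) (x : X) : f (f⁻¹ x) = x := Equiv.apply_symm_apply f x

@[simp] lemma ia (f : Equiv.Perm X) (x : X) : f⁻¹ (f x) = x := Equiv.symm_apply_apply f x

/-- `A, u A, v A` are pairwise disjoint -/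
structure D3 (A : Set X) (u v : X → X) : Prop where
  d1 : ∀ x ∈ A, u x ∉ A
  d2 : ∀ x ∈ A, v x ∉ A
  d3 : ∀ x ∈ A, ∀ y ∈ A, u x ≠ v y

/-- `c` maps `x → u x → v x → x` for `x ∈ A` and fixes the other points -/
structure Is3 (c : Equiv.Perm X) (A : Set X) (u v : X → X) : Prop where
  p1 : ∀ x ∈ A, c x = u x
  p2 : ∀ x ∈ A, c (u x) = v x
  p3 : ∀ x ∈ A, c (v x) = x
  p4 : ∀ y, y ∉ A → (∀ x ∈ A, y ≠ u x) → (∀ x ∈ A, y ≠ v x) → c y = y

lemma Is3.unique {c c' : Equiv.Perm X} {A : Set X} {u v : X → X} (h : Is3 c A u v)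
    (h' : Is3 c' A u v) : c = c' := by
  ext y
  by_cases h1 : y ∈ A
  · rw [h.p1 y h1, h'.p1 y h1]
  · by_cases h2 : ∃ x ∈ A, y = u x
    · obtain ⟨x, hx, rfl⟩ := h2
      rw [h.p2 x hx, h'.p2 x hx]
    · by_cases h3 : ∃ x ∈ A, y = v x
      · obtain ⟨x, hx, rfl⟩ := h3
        rw [h.p3 x hx, h'.p3 x hx]
      · push Not at h2 h3
        rw [h.p4 y h1 h2 h3, h'.p4 y h1 h2 h3]

lemma Is3.congr {c : Equiv.Perm X} {A : Set X} {u v u' v' : X → X} (h : Is3 c A u v)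
    (hu : ∀ x ∈ A, u x = u' x) (hv : ∀ x ∈ A, v x = v' x) : Is3 c A u' v' where
  p1 x hx := by rw [← hu x hx]; exact h.p1 x hx
  p2 x hx := by rw [← hu x hx, ← hv x hx]; exact h.p2 x hx
  p3 x hx := by rw [← hv x hx]; exact h.p3 x hx
  p4 y h1 h2 h3 := h.p4 y h1 (fun x hx => by rw [hu x hx]; exact h2 x hx)
    (fun x hx => by rw [hv x hx]; exact h3 x hx)

lemma Is3.conj {c : Equiv.Perm X} {A : Set X} {u v : X → X} (h : Is3 c A u v)
    (t : Equiv.Perm X) :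
    Is3 (t * c * t⁻¹) (t '' A) (fun x => t (u (t⁻¹ x))) (fun x => t (v (t⁻¹ x))) where
  p1 := by
    rintro _ ⟨x, hx, rfl⟩
    simp [h.p1 x hx]
  p2 := by
    rintro _ ⟨x, hx, rfl⟩
    simp [h.p2 x hx]
  p3 := by
    rintro _ ⟨x, hx, rfl⟩
    simp [h.p3 x hx]
  p4 := by
    intro y h1 h2 h3
    have h4 : c (t⁻¹ y) = t⁻¹ y := by
      apply h.p4
      · intro h5
        exact h1 ⟨_, h5, by simp⟩
      · intro x hx h5
        apply h2 (t x) ⟨x, hx, rfl⟩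
        simp [← h5]
      · intro x hx h5
        apply h3 (t x) ⟨x, hx, rfl⟩
        simp [← h5]
    show t (c (t⁻¹ y)) = y
    rw [h4, ai]

lemma Is3.pow3 {c : Equiv.Perm X} {A : Set X} {u v : X → X} (h : Is3 c A u v) : c ^ 3 = 1 := by
  have h0 : ∀ y, c (c (c y)) = y := by
    intro y
    by_cases h1 : y ∈ A
    · rw [h.p1 y h1, h.p2 y h1, h.p3 y h1]
    · by_cases h2 : ∃ x ∈ A, y = u x
      · obtain ⟨x, hx, rfl⟩ := h2
        rw [h.p2 x hx, h.p3 x hx, h.p1 x hx]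
      · by_cases h3 : ∃ x ∈ A, y = v x
        · obtain ⟨x, hx, rfl⟩ := h3
          rw [h.p3 x hx, h.p1 x hx, h.p2 x hx]
        · push Not at h2 h3
          rw [h.p4 y h1 h2 h3, h.p4 y h1 h2 h3, h.p4 y h1 h2 h3]
  ext y
  simp [pow_succ, h0 y]

/-- the commutator of two elements whose supports meet in `A` is a three-cycle -/
lemma comm3 {x y : Equiv.Perm X} {A X1 X2 : Set X} (hx : ∀ p, p ∉ X1 → x p = p)
    (hy : ∀ p, p ∉ X2 → y p = p) (h12 : ∀ p ∈ X1, p ∈ X2 → p ∈ A) (hA1 : A ⊆ X1) (hA2 : A ⊆ X2)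
    (hxA : ∀ p ∈ A, x p ∉ A) (hyA : ∀ p ∈ A, y p ∉ A) : Is3 (x * y * x⁻¹ * y⁻¹) A x y := by
  have xi : ∀ p, p ∉ X1 → x⁻¹ p = p := fun p hp => by
    rw [Equiv.Perm.inv_eq_iff_eq, hx p hp]
  have yi : ∀ p, p ∉ X2 → y⁻¹ p = p := fun p hp => by
    rw [Equiv.Perm.inv_eq_iff_eq, hy p hp]
  have xm : ∀ p ∈ X1, x p ∈ X1 := fun p hp => by
    by_contra h
    have h1 := hx _ h
    have h2 := x.injective h1
    rw [h2] at h
    exact h hp
  have ym : ∀ p ∈ X2, y p ∈ X2 := fun p hp => by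
    by_contra h
    have h1 := hy _ h
    have h2 := y.injective h1
    rw [h2] at h
    exact h hp
  have xim : ∀ p ∈ X1, x⁻¹ p ∈ X1 := fun p hp => by
    by_contra h
    have h1 := hx _ h
    rw [ai] at h1
    rw [← h1] at h
    exact h hp
  have yim : ∀ p ∈ X2, y⁻¹ p ∈ X2 := fun p hp => by
    by_contra h
    have h1 := hy _ h
    rw [ai] at h1
    rw [← h1] at h
    exact h hp
  have xiA : ∀ p ∈ A, x⁻¹ p ∉ A := fun p hp h => hxA _ h (by simpa using hp)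
  have yiA : ∀ p ∈ A, y⁻¹ p ∉ A := fun p hp h => hyA _ h (by simpa using hp)
  constructor
  · intro p hp
    have h1 : y⁻¹ p ∉ X1 := fun h => yiA p hp (h12 _ h (yim p (hA2 hp)))
    simp only [Equiv.Perm.mul_apply]
    rw [xi _ h1, ai]
  · intro p hp
    have h1 : x p ∉ X2 := fun h => hxA p hp (h12 _ (xm p (hA1 hp)) h)
    have h2 : y p ∉ X1 := fun h => hyA p hp (h12 _ h (ym p (hA2 hp)))
    simp only [Equiv.Perm.mul_apply]
    rw [yi _ h1, ia, hx _ h2]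
  · intro p hp
    have h1 : x⁻¹ p ∉ X2 := fun h => xiA p hp (h12 _ (xim p (hA1 hp)) h)
    simp only [Equiv.Perm.mul_apply]
    rw [ia, hy _ h1, ai]
  · intro p hp h2 h3
    simp only [Equiv.Perm.mul_apply]
    have h2' : x⁻¹ p ∉ A := fun h => h2 _ h (by simp)
    have h3' : y⁻¹ p ∉ A := fun h => h3 _ h (by simp)
    by_cases hp1 : p ∈ X1
    · have hp2 : p ∉ X2 := fun h => hp (h12 _ hp1 h)
      have h4 : x⁻¹ p ∉ X2 := fun h => h2' (h12 _ (xim _ hp1) h)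
      rw [yi _ hp2, hy _ h4, ai]
    · by_cases hp2 : p ∈ X2
      · have h4 : y⁻¹ p ∉ X1 := fun h => h3' (h12 _ h (yim _ hp2))
        rw [xi _ h4, ai, hx _ hp1]
      · rw [yi _ hp2, xi _ hp1, hy _ hp2, hx _ hp1]

/-- a three-cycle from an element which fixes `E` pointwise -/
lemma comm3' {g h : Equiv.Perm X} {A E : Set X} (hgE : ∀ p ∈ E, g p = p)
    (hgA : ∀ p ∈ A, g p ∉ A) (hAE : ∀ p ∈ A, p ∉ E) (hgAE : ∀ p ∈ A, g p ∉ E)
    (hh : ∀ p, p ∉ A → p ∉ E → h p = p) (hhA : ∀ p ∈ A, h p ∈ E) :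
    Is3 (g * h * g⁻¹ * h⁻¹) A g h := by
  have giE : ∀ p ∈ E, g⁻¹ p = p := fun p hp => by
    rw [Equiv.Perm.inv_eq_iff_eq, hgE p hp]
  have gie : ∀ p, p ∉ E → g⁻¹ p ∉ E := fun p hp h => by
    have := hgE _ h
    rw [ai] at this
    rw [← this] at h
    exact hp h
  have hi : ∀ p, p ∉ A → p ∉ E → h⁻¹ p = p := fun p h1 h2 => by
    rw [Equiv.Perm.inv_eq_iff_eq, hh p h1 h2]
  have hm : ∀ p, (p ∈ A ∨ p ∈ E) → (h⁻¹ p ∈ A ∨ h⁻¹ p ∈ E) := by
    intro p hp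
    by_contra hcon
    push Not at hcon
    have h1 := hh _ hcon.1 hcon.2
    rw [ai] at h1
    rw [← h1] at hcon
    tauto
  have hiA : ∀ p ∈ A, h⁻¹ p ∈ E := by
    intro p hp
    rcases hm p (Or.inl hp) with h1 | h1
    · exfalso
      have h2 := hhA _ h1
      rw [ai] at h2
      exact hAE p hp h2
    · exact h1
  have giA : ∀ p ∈ A, g⁻¹ p ∉ A := fun p hp h => hgA _ h (by simpa using hp)
  constructor
  · intro p hp
    simp only [Equiv.Perm.mul_apply]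
    rw [giE _ (hiA p hp), ai]
  · intro p hp
    simp only [Equiv.Perm.mul_apply]
    rw [hi _ (hgA p hp) (hgAE p hp), ia, hgE _ (hhA p hp)]
  · intro p hp
    simp only [Equiv.Perm.mul_apply]
    rw [ia, hh _ (giA p hp) (gie _ (hAE p hp)), ai]
  · intro p hp h2 h3
    simp only [Equiv.Perm.mul_apply]
    by_cases hpE : p ∈ E
    · have h4 : h⁻¹ p ∈ E := by
        rcases hm p (Or.inr hpE) with h5 | h5
        · exfalso; exact h3 _ h5 (by simp)
        · exact h5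
      rw [giE _ h4, ai, hgE _ hpE]
    · have h4 : g⁻¹ p ∉ A := fun h => h2 _ h (by simp)
      rw [hi _ hp hpE, hh _ h4 (gie _ hpE), ai]

end Is3

end Pool.Agent.N59.VG
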