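import Mathlib
import Pool.Agent.N59.VG.Top

set_option autoImplicit false
set_option linter.unusedSectionVars false

/-!
# Permutations of finite sets: groups generated by three-cycles
-/

namespace Pool.Agent.N59.VG

open Set

variable {I : Type*} [DecidableEq I]

/-- the cycle `a → b → c → a` -/
def cyc (a b c : I) : Equiv.Perm I := Equiv.swap a b * Equiv.swap b c

lemma cyc_1 {a b c : I} (hab : a ≠ b) (hac : a ≠ c) : cyc a b c a = b := by
  simp only [cyc, Equiv.Perm.mul_apply, Equiv.swap_apply_def]; grind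

lemma cyc_2 {a b c : I} (hac : a ≠ c) (hbc : b ≠ c) : cyc a b c b = c := by
  simp only [cyc, Equiv.Perm.mul_apply, Equiv.swap_apply_def]; grind

lemma cyc_3 (a b c : I) : cyc a b c c = a := by
  simp only [cyc, Equiv.Perm.mul_apply, Equiv.swap_apply_def]; grind

lemma cyc_4 {a b c x : I} (ha : x ≠ a) (hb : x ≠ b) (hc : x ≠ c) : cyc a b c x = x := by
  simp only [cyc, Equiv.Perm.mul_apply, Equiv.swap_apply_def]; grind

lemma cyc_conj (g : Equiv.Perm I) (a b c : I) : g * cyc a b c * g⁻¹ = cyc (g a) (g b) (g c) := by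
  unfold cyc
  rw [Equiv.swap_apply_apply, Equiv.swap_apply_apply]
  group

lemma cyc_inv {a b c : I} (hab : a ≠ b) (hac : a ≠ c) (hbc : b ≠ c) :
    (cyc a b c)⁻¹ = cyc b a c := by
  rw [inv_eq_iff_mul_eq_one]
  ext x
  simp only [cyc, Equiv.Perm.mul_apply, Equiv.swap_apply_def, Equiv.Perm.one_apply]
  grind

lemma cyc_rot {a b c : I} (hab : a ≠ b) (hac : a ≠ c) (hbc : b ≠ c) :
    cyc a b c = cyc b c a := by
  ext x
  simp only [cyc, Equiv.Perm.mul_apply, Equiv.swap_apply_def]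
  grind

/-- related by a three-cycle -/
def Rl (G : Subgroup (Equiv.Perm I)) (a b : I) : Prop :=
  a = b ∨ ∃ d, a ≠ b ∧ a ≠ d ∧ b ≠ d ∧ cyc a b d ∈ G

variable {G : Subgroup (Equiv.Perm I)}

lemma Rl.refl (a : I) : Rl G a a := Or.inl rfl

lemma Rl.mk {a b d : I} (h1 : a ≠ b) (h2 : a ≠ d) (h3 : b ≠ d) (h : cyc a b d ∈ G) : Rl G a b :=
  Or.inr ⟨d, h1, h2, h3, h⟩

lemma Rl.symm {a b : I} (h : Rl G a b) : Rl G b a := by
  rcases h with rfl | ⟨d, h1, h2, h3, h⟩
  · exact Rl.refl _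
  · refine Rl.mk h1.symm h3 h2 ?_
    rw [← cyc_inv h1 h2 h3]; exact G.inv_mem h

lemma Rl.conj {a b : I} (h : Rl G a b) {g : Equiv.Perm I} (hg : g ∈ G) : Rl G (g a) (g b) := by
  rcases h with rfl | ⟨d, h1, h2, h3, h⟩
  · exact Rl.refl _
  · refine Rl.mk (d := g d) (fun h4 => h1 (g.injective h4)) (fun h4 => h2 (g.injective h4))
      (fun h4 => h3 (g.injective h4)) ?_
    rw [← cyc_conj]; exact G.mul_mem (G.mul_mem hg h) (G.inv_mem hg)

lemma Rl.trans {a b c : I} (h : Rl G a b) (h' : Rl G b c) : Rl G a c := by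
  rcases h with rfl | ⟨d, h1, h2, h3, h⟩
  · exact h'
  rcases h' with rfl | ⟨e, g1, g2, g3, g⟩
  · exact Or.inr ⟨d, h1, h2, h3, h⟩
  by_cases hac : a = c
  · exact Or.inl hac
  by_cases hea : e = a
  · subst hea
    refine Rl.mk (d := b) hac h1 g1.symm ?_
    have h5 : cyc b c e ∈ G := g
    rw [cyc_rot g1 h1.symm (Ne.symm hac)] at h5
    have h6 := G.inv_mem h5
    rwa [cyc_inv (Ne.symm hac) g1.symm h1] at h6
  · have h5 : Rl G (cyc b c e a) (cyc b c e b) := Rl.conj (Or.inr ⟨d, h1, h2, h3, h⟩) g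
    rw [cyc_4 h1 hac (Ne.symm hea), cyc_1 g1 g2] at h5
    exact h5

lemma Rl.all {a b c : I} (hab : a ≠ b) (hac : a ≠ c) (hbc : b ≠ c) (h1 : Rl G a b)
    (h2 : Rl G b c) : cyc a b c ∈ G := by
  rcases h1 with h | ⟨d, d1, d2, d3, hd⟩
  · exact absurd h hab
  by_cases hdc : d = c
  · rw [← hdc]; exact hd
  have hda : Rl G b d := by
    refine Rl.mk (d := a) d3 d1.symm d2.symm ?_
    rw [← cyc_rot d1 d2 d3]; exact hd
  have hdc' : Rl G d c := hda.symm.trans h2
  rcases hdc' with h | ⟨e, e1, e2, e3, he⟩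
  · exact absurd h hdc
  by_cases hea : e = a
  · subst hea
    have h5 := G.mul_mem (G.mul_mem (G.inv_mem he) hd) (G.inv_mem (G.inv_mem he))
    rw [cyc_conj, cyc_inv e1 e2 e3] at h5
    rw [cyc_3 c d e, cyc_4 hbc d3 d1.symm, cyc_2 e3 e2] at h5
    have h6 := G.inv_mem h5
    rw [cyc_inv hbc.symm hac.symm hab.symm] at h6
    rw [cyc_rot hab hac hbc]; exact h6
  by_cases heb : e = b
  · subst heb
    have h5 := G.mul_mem (G.mul_mem (G.inv_mem he) hd) (G.inv_mem (G.inv_mem he))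
    rw [cyc_conj, cyc_inv e1 e2 e3] at h5
    rw [cyc_3 c d e, cyc_4 hac d2 hab, cyc_2 e3 e2] at h5
    have h6 := G.inv_mem h5
    rw [cyc_inv hac hab hbc.symm] at h6
    rw [cyc_rot hab hac hbc, cyc_rot hbc hab.symm hac.symm]
    exact h6
  · have h5 := G.mul_mem (G.mul_mem he hd) (G.inv_mem he)
    rw [cyc_conj, cyc_4 d2 hac (Ne.symm hea), cyc_4 d3 hbc (Ne.symm heb), cyc_1 e1 e2] at h5
    exact h5

theorem alt_le [Fintype I] (h : ∀ a b, Rl G a b) : alternatingGroup I ≤ G := by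
  rw [← Equiv.Perm.closure_three_cycles_eq_alternating, Subgroup.closure_le]
  intro g hg
  have hg3 : g.IsThreeCycle := hg
  obtain ⟨a, ha⟩ : g.support.Nonempty := by
    rw [← Finset.card_pos, hg3.card_support]; norm_num
  have h1 := hg3.eq_swap_mul_swap_iff_mem_support.2 ha
  have h2 := hg3.nodup_iff_mem_support.2 ha
  simp only [List.nodup_cons, List.mem_cons, not_or, List.not_mem_nil, List.nodup_nil] at h2
  rw [h1]
  exact Rl.all h2.1.1 h2.1.2.1 h2.2.1.1 (h _ _) (h _ _)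

lemma cyc_mem_alt [Fintype I] {a b c : I} (hab : a ≠ b) (hac : a ≠ c) (hbc : b ≠ c) :
    cyc a b c ∈ alternatingGroup I := by
  have h1 : (cyc a b c).IsThreeCycle := by
    have := Equiv.Perm.isThreeCycle_swap_mul_swap_same hab.symm hbc hac
    rwa [Equiv.swap_comm b a] at this
  exact h1.mem_alternatingGroup

/-- every partial injection which misses two points extends to an even permutation -/
theorem exists_even [Fintype I] {S : Set I} {f : I → I} (hf : InjOn f S) {a b : I} (ha : a ∉ S)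
    (hb : b ∉ S) (hab : a ≠ b) : ∃ τ ∈ alternatingGroup I, ∀ s ∈ S, τ s = f s := by
  classical
  obtain ⟨τ, hτ⟩ := Equiv.Perm.exists_extending_pair (fun s : S => (s : I)) (fun s : S => f s)
    Subtype.val_injective (fun x y hxy => Subtype.ext (hf x.2 y.2 hxy))
  rcases Int.units_eq_one_or (Equiv.Perm.sign τ) with h1 | h1
  · exact ⟨τ, Equiv.Perm.mem_alternatingGroup.2 h1, fun s hs => hτ ⟨s, hs⟩⟩
  · refine ⟨τ * Equiv.swap a b, Equiv.Perm.mem_alternatingGroup.2 ?_, fun s hs => ?_⟩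
    · rw [Equiv.Perm.sign_mul, h1, Equiv.Perm.sign_swap hab]; norm_num
    · rw [Equiv.Perm.mul_apply, Equiv.swap_apply_of_ne_of_ne]
      · exact hτ ⟨s, hs⟩
      · rintro rfl; exact ha hs
      · rintro rfl; exact hb hs

end Pool.Agent.N59.VG
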