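import Mathlib
import Pool.Agent.N59.VG.Cyc

set_option autoImplicit false
set_option linter.unusedSectionVars false

/-!
# The combinatorial core
-/

namespace Pool.Agent.N59.VG

open Set

section basic
variable {I X Y : Type*}

/-- permutations of the index set acting on the pieces -/
def rho : Equiv.Perm I →* Equiv.Perm ((I × X) ⊕ Y) where
  toFun τ := Equiv.sumCongr (Equiv.prodCongr τ (Equiv.refl X)) (Equiv.refl Y)
  map_one' := by ext q; rcases q with ⟨m, x⟩ | y <;> rfl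
  map_mul' a b := by ext q; rcases q with ⟨m, x⟩ | y <;> rfl

@[simp] lemma rho_inl (τ : Equiv.Perm I) (m : I) (x : X) :
    (rho τ : Equiv.Perm ((I × X) ⊕ Y)) (Sum.inl (m, x)) = Sum.inl (τ m, x) := rfl

@[simp] lemma rho_inr (τ : Equiv.Perm I) (y : Y) :
    (rho τ : Equiv.Perm ((I × X) ⊕ Y)) (Sum.inr y) = Sum.inr y := rfl

/-- elements acting on each piece -/
def gam (z : I → Equiv.Perm X) : Equiv.Perm ((I × X) ⊕ Y) :=
  Equiv.sumCongr (Equiv.prodCongrRight z) (Equiv.refl Y)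

@[simp] lemma gam_inl (z : I → Equiv.Perm X) (m : I) (x : X) :
    (gam z : Equiv.Perm ((I × X) ⊕ Y)) (Sum.inl (m, x)) = Sum.inl (m, z m x) := rfl

@[simp] lemma gam_inr (z : I → Equiv.Perm X) (y : Y) :
    (gam z : Equiv.Perm ((I × X) ⊕ Y)) (Sum.inr y) = Sum.inr y := rfl

lemma gam_mul (z z' : I → Equiv.Perm X) :
    (gam z * gam z' : Equiv.Perm ((I × X) ⊕ Y)) = gam (fun m => z m * z' m) := by
  ext q; rcases q with ⟨m, x⟩ | y <;> rfl

lemma gam_one : (gam (fun _ => 1) : Equiv.Perm ((I × X) ⊕ Y)) = 1 := by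
  ext q; rcases q with ⟨m, x⟩ | y <;> rfl

lemma gam_inv (z : I → Equiv.Perm X) :
    (gam z : Equiv.Perm ((I × X) ⊕ Y))⁻¹ = gam (fun m => (z m)⁻¹) := by
  rw [inv_eq_iff_mul_eq_one, gam_mul]
  simp [gam_one]

lemma rho_gam (τ : Equiv.Perm I) (z : I → Equiv.Perm X) :
    (rho τ * gam z * (rho τ)⁻¹ : Equiv.Perm ((I × X) ⊕ Y)) = gam (fun m => z (τ⁻¹ m)) := by
  rw [← map_inv]
  ext q; rcases q with ⟨m, x⟩ | y
  · show (rho τ) (gam z (rho τ⁻¹ (Sum.inl (m, x)))) = _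
    rw [rho_inl, gam_inl, rho_inl, ai, gam_inl]
  · rfl

/-- the piece with index `m` -/
def piece (m : I) : Set ((I × X) ⊕ Y) := {q | ∃ x, q = Sum.inl (m, x)}

lemma rho_is3 [DecidableEq I] {a b c : I} (hab : a ≠ b) (hac : a ≠ c) (hbc : b ≠ c)
    {u v : (I × X) ⊕ Y → (I × X) ⊕ Y} (hu : ∀ x, u (Sum.inl (a, x)) = Sum.inl (b, x))
    (hv : ∀ x, v (Sum.inl (a, x)) = Sum.inl (c, x)) :
    Is3 (rho (cyc a b c) : Equiv.Perm ((I × X) ⊕ Y)) (piece a) u v where
  p1 := by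
    rintro _ ⟨x, rfl⟩
    rw [rho_inl, cyc_1 hab hac, hu]
  p2 := by
    rintro _ ⟨x, rfl⟩
    rw [hu, rho_inl, cyc_2 hac hbc, hv]
  p3 := by
    rintro _ ⟨x, rfl⟩
    rw [hv, rho_inl, cyc_3]
  p4 := by
    intro q h1 h2 h3
    rcases q with ⟨m, x⟩ | y
    · rw [rho_inl, cyc_4]
      · rintro rfl; exact h1 ⟨x, rfl⟩
      · rintro rfl; exact h2 _ ⟨x, rfl⟩ (hu x).symm
      · rintro rfl; exact h3 _ ⟨x, rfl⟩ (hv x).symm
    · rfl

variable {H : Subgroup (Equiv.Perm ((I × X) ⊕ Y))}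

/-- conjugating three-cycles of pieces by `α` -/
lemma cyc_pull [DecidableEq I] [Nonempty X] {α : Equiv.Perm ((I × X) ⊕ Y)} (hα : α ∈ H)
    {a1 a2 a3 b1 b2 b3 : I} (h1 : ∀ x, α (Sum.inl (a1, x)) = Sum.inl (b1, x))
    (h2 : ∀ x, α (Sum.inl (a2, x)) = Sum.inl (b2, x))
    (h3 : ∀ x, α (Sum.inl (a3, x)) = Sum.inl (b3, x)) (d12 : b1 ≠ b2) (d13 : b1 ≠ b3)
    (d23 : b2 ≠ b3) (hb : rho (cyc b1 b2 b3) ∈ H) : rho (cyc a1 a2 a3) ∈ H := by
  obtain ⟨x0⟩ := ‹Nonempty X›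
  have e12 : a1 ≠ a2 := by
    rintro rfl
    have := (h1 x0).symm.trans (h2 x0)
    simp only [Sum.inl.injEq, Prod.mk.injEq, and_true] at this
    exact d12 this
  have e13 : a1 ≠ a3 := by
    rintro rfl
    have := (h1 x0).symm.trans (h3 x0)
    simp only [Sum.inl.injEq, Prod.mk.injEq, and_true] at this
    exact d13 this
  have e23 : a2 ≠ a3 := by
    rintro rfl
    have := (h2 x0).symm.trans (h3 x0)
    simp only [Sum.inl.injEq, Prod.mk.injEq, and_true] at this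
    exact d23 this
  have i1 : ∀ x, α⁻¹ (Sum.inl (b1, x)) = Sum.inl (a1, x) := fun x => by rw [← h1, ia]
  have i2 : ∀ x, α⁻¹ (Sum.inl (b2, x)) = Sum.inl (a2, x) := fun x => by rw [← h2, ia]
  have i3 : ∀ x, α⁻¹ (Sum.inl (b3, x)) = Sum.inl (a3, x) := fun x => by rw [← h3, ia]
  have h4 : Is3 (α⁻¹ * rho (cyc b1 b2 b3) * α : Equiv.Perm ((I × X) ⊕ Y)) (piece a1)
      (fun q => Sum.elim (fun r => Sum.inl (a2, r.2)) Sum.inr q)
      (fun q => Sum.elim (fun r => Sum.inl (a3, r.2)) Sum.inr q) := by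
    refine ⟨?_, ?_, ?_, ?_⟩
    · rintro _ ⟨x, rfl⟩
      simp only [Equiv.Perm.mul_apply, Sum.elim_inl]
      rw [h1, rho_inl, cyc_1 d12 d13, i2]
    · rintro _ ⟨x, rfl⟩
      simp only [Equiv.Perm.mul_apply, Sum.elim_inl]
      rw [h2, rho_inl, cyc_2 d13 d23, i3]
    · rintro _ ⟨x, rfl⟩
      simp only [Equiv.Perm.mul_apply, Sum.elim_inl]
      rw [h3, rho_inl, cyc_3, i1]
    · intro q q1 q2 q3
      simp only [Equiv.Perm.mul_apply]
      have h5 : rho (cyc b1 b2 b3) (α q) = α q := by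
        rcases hq : α q with ⟨m, x⟩ | y
        · rw [rho_inl, cyc_4]
          · rintro rfl
            have : q = Sum.inl (a1, x) := by rw [← i1, ← hq, ia]
            exact q1 ⟨x, this⟩
          · rintro rfl
            have : q = Sum.inl (a2, x) := by rw [← i2, ← hq, ia]
            exact q2 (Sum.inl (a1, x)) ⟨x, rfl⟩ this
          · rintro rfl
            have : q = Sum.inl (a3, x) := by rw [← i3, ← hq, ia]
            exact q3 (Sum.inl (a1, x)) ⟨x, rfl⟩ this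
        · rfl
      rw [h5, ia]
  have h5 : Is3 (rho (cyc a1 a2 a3) : Equiv.Perm ((I × X) ⊕ Y)) (piece a1)
      (fun q => Sum.elim (fun r => Sum.inl (a2, r.2)) Sum.inr q)
      (fun q => Sum.elim (fun r => Sum.inl (a3, r.2)) Sum.inr q) :=
    rho_is3 e12 e13 e23 (fun _ => rfl) (fun _ => rfl)
  rw [h5.unique h4]
  exact H.mul_mem (H.mul_mem (H.inv_mem hα) hb) hα

/-- `g` acting on the piece `m` -/
def del [DecidableEq I] (m : I) (g : Equiv.Perm X) : Equiv.Perm ((I × X) ⊕ Y) :=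
  gam (fun m' => if m' = m then g else 1)

lemma del_rho [DecidableEq I] (τ : Equiv.Perm I) (m : I) (g : Equiv.Perm X) :
    (rho τ * del m g * (rho τ)⁻¹ : Equiv.Perm ((I × X) ⊕ Y)) = del (τ m) g := by
  unfold del
  rw [rho_gam]
  congr 1
  ext m' : 1
  have : (τ⁻¹ m' = m) ↔ (m' = τ m) := by
    rw [Equiv.Perm.inv_eq_iff_eq]
  simp only [this]

end basic

section core
variable {C : Type*} [Fintype C] [DecidableEq C] {n : Option C → ℕ}

/-- index set -/
abbrev Idx (n : Option C → ℕ) := Σ c : Option C, ZMod (n c)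

/-- simultaneous rotation -/
def rotv (b : ∀ c, ZMod (n c)) : Equiv.Perm (Idx n) :=
  Equiv.sigmaCongrRight fun c => Equiv.addRight (b c)

@[simp] lemma rotv_mk (b : ∀ c, ZMod (n c)) (c : Option C) (i : ZMod (n c)) :
    rotv b ⟨c, i⟩ = ⟨c, i + b c⟩ := rfl

variable {X R : Type*} {p : ℕ}

/-- rotation of the remaining pieces -/
def rotinf {J : Type*} (w : ZMod p) : Equiv.Perm (J ⊕ (ZMod p × R)) :=
  Equiv.sumCongr (Equiv.refl J) (Equiv.prodCongr (Equiv.addRight w) (Equiv.refl R))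

@[simp] lemma rotinf_inl {J : Type*} (w : ZMod p) (q : J) :
    (rotinf w : Equiv.Perm (J ⊕ (ZMod p × R))) (Sum.inl q) = Sum.inl q := rfl

@[simp] lemma rotinf_inr {J : Type*} (w a : ZMod p) (r : R) :
    (rotinf w : Equiv.Perm (J ⊕ (ZMod p × R))) (Sum.inr (a, r)) = Sum.inr (a + w, r) := rfl

/-- the properties of `α` used in the generation argument -/
structure Good (n : Option C → ℕ) (p : ℕ) (α : Equiv.Perm ((Idx n × X) ⊕ (ZMod p × R)))
    (A B : C) (u : ZMod (n (some A))) (v : ZMod (n (some B))) (t : ∀ c : C, ZMod (n (some c)))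
    (ε : C → ZMod (n none)) (t' c0 c1 : ZMod (n none)) (w : ZMod p) (e0 e1 : X → X) (e2 : R → X) :
    Prop where
  aU : ∀ x, α (Sum.inl (⟨some A, u⟩, x)) = Sum.inl (⟨some B, v⟩, x)
  aT : ∀ c x, α (Sum.inl (⟨some c, t c⟩, x)) = Sum.inl (⟨none, ε c⟩, x)
  hε : Function.Injective ε
  a0 : ∀ x, α (Sum.inl (⟨none, t'⟩, e0 x)) = Sum.inl (⟨none, c0⟩, x)
  a1 : ∀ x, α (Sum.inl (⟨none, t'⟩, e1 x)) = Sum.inl (⟨none, c1⟩, x)
  a2 : ∀ r, α (Sum.inl (⟨none, t'⟩, e2 r)) = Sum.inr (w, r)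
  hc : c0 ≠ c1
  disj : ∀ i x j y, α (Sum.inl (⟨some A, i⟩, x)) = Sum.inl (⟨some B, j⟩, y) → i = u

variable {H : Subgroup (Equiv.Perm ((Idx n × X) ⊕ (ZMod p × R)))}
variable {α : Equiv.Perm ((Idx n × X) ⊕ (ZMod p × R))}
    {A B : C} {u : ZMod (n (some A))} {v : ZMod (n (some B))} {t : ∀ c : C, ZMod (n (some c))}
    {ε : C → ZMod (n none)} {t' c0 c1 : ZMod (n none)} {w : ZMod p} {e0 e1 : X → X} {e2 : R → X}

/-- step one: all even permutations of the pieces -/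
theorem core_alt [Nonempty X] [∀ c, NeZero (n c)] (hg : Good n p α A B u v t ε t' c0 c1 w e0 e1 e2)
    (hα : α ∈ H) (hrot : ∀ b : (∀ c, ZMod (n c)), rho (rotv b) ∈ H)
    (h1 : (1 : ZMod (n (some B))) ≠ 0) (h3 : ∀ c : C, ∃ c', c' ≠ c ∧ c' ≠ B) :
    ∀ τ ∈ alternatingGroup (Idx n), (rho τ : Equiv.Perm ((Idx n × X) ⊕ (ZMod p × R))) ∈ H := by
  let G : Subgroup (Equiv.Perm (Idx n)) := H.comap rho
  have hG : ∀ τ, τ ∈ G ↔ (rho τ : Equiv.Perm ((Idx n × X) ⊕ (ZMod p × R))) ∈ H := fun τ => Iff.rfl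
  have hrotG : ∀ b : (∀ c, ZMod (n c)), rotv b ∈ G := hrot
  -- the first three-cycle
  have key : cyc (⟨some B, v⟩ : Idx n) ⟨none, ε A⟩ ⟨some B, v + 1⟩ ∈ G := by
    let x : Equiv.Perm ((Idx n × X) ⊕ (ZMod p × R)) :=
      α * rho (rotv (Pi.single (some A) (t A - u))) * α⁻¹
    let y : Equiv.Perm ((Idx n × X) ⊕ (ZMod p × R)) := rho (rotv (Pi.single (some B) 1))
    have hx : x ∈ H := H.mul_mem (H.mul_mem hα (hrot _)) (H.inv_mem hα)
    have hy : y ∈ H := hrot _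
    have hv1 : v + 1 ≠ v := fun h => h1 (by simpa using h)
    have hxv : ∀ z, x (Sum.inl (⟨some B, v⟩, z)) = Sum.inl (⟨none, ε A⟩, z) := by
      intro z
      show α (rho (rotv (Pi.single (some A) (t A - u))) (α⁻¹ (Sum.inl (⟨some B, v⟩, z)))) = _
      rw [← hg.aU, ia, rho_inl, rotv_mk, Pi.single_eq_same, add_sub_cancel, hg.aT]
    have hyv : ∀ z, y (Sum.inl (⟨some B, v⟩, z)) = Sum.inl (⟨some B, v + 1⟩, z) := by
      intro z
      show rho (rotv (Pi.single (some B) 1)) (Sum.inl (⟨some B, v⟩, z)) = _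
      rw [rho_inl, rotv_mk, Pi.single_eq_same]
    have h4 : Is3 (x * y * x⁻¹ * y⁻¹) (piece ⟨some B, v⟩) x y := by
      refine comm3 (X1 := {q | ∃ i z, q = α (Sum.inl (⟨some A, i⟩, z))})
        (X2 := {q | ∃ i z, q = Sum.inl (⟨some B, i⟩, z)}) ?_ ?_ ?_ ?_ ?_ ?_ ?_
      · intro q hq
        show α (rho (rotv (Pi.single (some A) (t A - u))) (α⁻¹ q)) = q
        have h5 : (rho (rotv (Pi.single (some A) (t A - u))) :
            Equiv.Perm ((Idx n × X) ⊕ (ZMod p × R))) (α⁻¹ q) = α⁻¹ q := by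
          rcases hq' : α⁻¹ q with ⟨⟨c, i⟩, z⟩ | r
          · rw [rho_inl, rotv_mk, Pi.single_eq_of_ne, add_zero]
            rintro rfl
            apply hq
            exact ⟨i, z, by rw [← hq', ai]⟩
          · rfl
        rw [h5, ai]
      · rintro (⟨⟨c, i⟩, z⟩ | r) hq
        · show rho (rotv (Pi.single (some B) 1)) (Sum.inl (⟨c, i⟩, z)) = _
          rw [rho_inl, rotv_mk, Pi.single_eq_of_ne, add_zero]
          rintro rfl
          exact hq ⟨i, z, rfl⟩
        · rfl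
      · rintro _ ⟨i, z, rfl⟩ ⟨j, z', hq⟩
        have h6 := hg.disj i z j z' hq
        subst h6
        exact ⟨z, hg.aU z⟩
      · rintro _ ⟨z, rfl⟩
        exact ⟨u, z, (hg.aU z).symm⟩
      · rintro _ ⟨z, rfl⟩
        exact ⟨v, z, rfl⟩
      · rintro _ ⟨z, rfl⟩ ⟨z', hz'⟩
        rw [hxv] at hz'
        simp at hz'
      · rintro _ ⟨z, rfl⟩ ⟨z', hz'⟩
        rw [hyv] at hz'
        simp only [Sum.inl.injEq, Prod.mk.injEq, Sigma.mk.injEq, heq_eq_eq, true_and] at hz'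
        exact hv1 hz'.1
    have h5 : Is3 (rho (cyc (⟨some B, v⟩ : Idx n) ⟨none, ε A⟩ ⟨some B, v + 1⟩) :
        Equiv.Perm ((Idx n × X) ⊕ (ZMod p × R))) (piece ⟨some B, v⟩) x y := by
      refine rho_is3 (by simp) ?_ (by simp) hxv hyv
      intro h6
      simp only [Sigma.mk.injEq, heq_eq_eq, true_and] at h6
      exact hv1 h6.symm
    rw [hG, h5.unique h4]
    exact H.mul_mem (H.mul_mem (H.mul_mem hx hy) (H.inv_mem hx)) (H.inv_mem hy)
  have hv1' : (⟨some B, v⟩ : Idx n) ≠ ⟨some B, v + 1⟩ := by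
    intro h6
    simp only [Sigma.mk.injEq, heq_eq_eq, true_and] at h6
    exact h1 (by simpa using h6)
  have r1 : Rl G (⟨some B, v⟩ : Idx n) ⟨none, ε A⟩ := Rl.mk (by simp) hv1' (by simp) key
  -- fiber `B` and the fiber `none`
  have r2 : ∀ (i : ZMod (n (some B))) (j : ZMod (n none)),
      Rl G (⟨some B, i⟩ : Idx n) ⟨none, j⟩ := by
    intro i j
    let b : ∀ c, ZMod (n c) := fun c => Option.recOn (motive := fun c => ZMod (n c)) c (j - ε A)
      (fun c => if h : c = B then h ▸ (i - v) else 0)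
    have hb1 : b (some B) = i - v := by simp [b]
    have hb2 : b none = j - ε A := rfl
    have h4 := r1.conj (hrotG b)
    rw [rotv_mk, rotv_mk, hb1, hb2, add_sub_cancel, add_sub_cancel] at h4
    exact h4
  have r3 : ∀ i j : ZMod (n none), Rl G (⟨none, i⟩ : Idx n) ⟨none, j⟩ := fun i j =>
    (r2 v i).symm.trans (r2 v j)
  -- the other fibers
  have r4 : ∀ (c : C), c ≠ B → Rl G (⟨some B, t B⟩ : Idx n) ⟨some c, t c⟩ := by
    intro c hc
    obtain ⟨c', hc'c, hc'B⟩ := h3 c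
    have d1 : (⟨none, ε B⟩ : Idx n) ≠ ⟨none, ε c⟩ := by
      intro h; simp only [Sigma.mk.injEq, heq_eq_eq, true_and] at h; exact hc (hg.hε h).symm
    have d2 : (⟨none, ε B⟩ : Idx n) ≠ ⟨none, ε c'⟩ := by
      intro h; simp only [Sigma.mk.injEq, heq_eq_eq, true_and] at h; exact hc'B (hg.hε h).symm
    have d3 : (⟨none, ε c⟩ : Idx n) ≠ ⟨none, ε c'⟩ := by
      intro h; simp only [Sigma.mk.injEq, heq_eq_eq, true_and] at h; exact hc'c (hg.hε h).symm
    have h4 : cyc (⟨none, ε B⟩ : Idx n) ⟨none, ε c⟩ ⟨none, ε c'⟩ ∈ G :=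
      Rl.all d1 d2 d3 (r3 _ _) (r3 _ _)
    have h5 : cyc (⟨some B, t B⟩ : Idx n) ⟨some c, t c⟩ ⟨some c', t c'⟩ ∈ G :=
      cyc_pull hα (hg.aT B) (hg.aT c) (hg.aT c') d1 d2 d3 h4
    refine Rl.mk ?_ ?_ ?_ h5
    · simp only [ne_eq, Sigma.mk.injEq, Option.some.injEq, not_and]
      exact fun h => absurd h.symm hc
    · simp only [ne_eq, Sigma.mk.injEq, Option.some.injEq, not_and]
      exact fun h => absurd h.symm hc'B
    · simp only [ne_eq, Sigma.mk.injEq, Option.some.injEq, not_and]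
      exact fun h => absurd h.symm hc'c
  have r5 : ∀ m : Idx n, Rl G (⟨some B, t B⟩ : Idx n) m := by
    rintro ⟨c, i⟩
    rcases c with _ | c
    · exact r2 _ _
    · by_cases hc : c = B
      · subst hc
        exact (r2 (t c) 0).trans (r2 i 0).symm
      · let b : ∀ c', ZMod (n c') := Pi.single (some c) (i - t c)
        have h4 := (r4 c hc).conj (hrotG b)
        have hb1 : b (some c) = i - t c := by simp [b]
        have hb2 : b (some B) = 0 := by
          simp only [b]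
          rw [Pi.single_eq_of_ne]
          simpa using (Ne.symm hc)
        rw [rotv_mk, rotv_mk, hb1, hb2, add_sub_cancel, add_zero] at h4
        exact h4
  exact alt_le fun a b => (r5 a).symm.trans (r5 b)

/-- step two: commutators at a single piece -/
theorem core_comm [∀ c, NeZero (n c)] {z : Option C → Equiv.Perm X} (hz : z none = 1)
    (hγ : (gam (fun m : Idx n => z m.1) : Equiv.Perm ((Idx n × X) ⊕ (ZMod p × R))) ∈ H)
    (halt : ∀ τ ∈ alternatingGroup (Idx n),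
      (rho τ : Equiv.Perm ((Idx n × X) ⊕ (ZMod p × R))) ∈ H)
    {ι : Idx n → ZMod (n none)} (hι : ∀ m m' : Idx n, m.1 ≠ none → m'.1 ≠ none → ι m = ι m' → m = m')
    {a b : ZMod (n none)} (hab : a ≠ b) (m0 : Idx n) (c c' : C) :
    (del m0 (z (some c) * z (some c') * (z (some c))⁻¹ * (z (some c'))⁻¹) :
      Equiv.Perm ((Idx n × X) ⊕ (ZMod p × R))) ∈ H := by
  classical
  by_cases hcc : c = c'
  · subst hcc
    have h1 : (z (some c) * z (some c) * (z (some c))⁻¹ * (z (some c))⁻¹) = 1 := by group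
    rw [h1]
    have h2 : (del m0 1 : Equiv.Perm ((Idx n × X) ⊕ (ZMod p × R))) = 1 := by
      unfold del
      rw [← gam_one]
      congr 1
      ext m : 1
      split_ifs <;> rfl
    rw [h2]; exact H.one_mem
  let m1 : Idx n := ⟨some c, 0⟩
  let m' : Idx n := ⟨some c', 0⟩
  let S : Set (Idx n) := {m | m.1 ≠ none}
  let f : Idx n → Idx n := fun m => if m = m' then m1 else ⟨none, ι m⟩
  have hf : InjOn f S := by
    intro x hx y hy hxy
    simp only [f] at hxy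
    split_ifs at hxy with h1 h2 h2
    · rw [h1, h2]
    · simp [m1] at hxy
    · simp [m1] at hxy
    · simp only [Sigma.mk.injEq, heq_eq_eq, true_and] at hxy
      exact hι x y hx hy hxy
  obtain ⟨τ, hτ, hτf⟩ := exists_even hf (a := (⟨none, a⟩ : Idx n)) (b := ⟨none, b⟩)
    (fun h => h rfl) (fun h => h rfl) (by
      intro h; simp only [Sigma.mk.injEq, heq_eq_eq, true_and] at h; exact hab h)
  have hm1 : τ m' = m1 := by
    rw [hτf m' (by simp [S, m'])]; simp [f]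
  have hm2 : ∀ m : Idx n, m.1 ≠ none → m ≠ m1 → (τ⁻¹ m).1 = none := by
    intro m h1 h2
    by_contra h3
    have h4 : τ (τ⁻¹ m) = f (τ⁻¹ m) := hτf _ h3
    rw [ai] at h4
    simp only [f] at h4
    split_ifs at h4 with h5
    · exact h2 h4
    · rw [h4] at h1; exact h1 rfl
  have hρ := halt τ hτ
  have h1 : (del m1 (z (some c) * z (some c') * (z (some c))⁻¹ * (z (some c'))⁻¹) :
      Equiv.Perm ((Idx n × X) ⊕ (ZMod p × R))) =
      gam (fun m : Idx n => z m.1) * (rho τ * gam (fun m : Idx n => z m.1) * (rho τ)⁻¹) *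
        (gam (fun m : Idx n => z m.1))⁻¹ * (rho τ * gam (fun m : Idx n => z m.1) * (rho τ)⁻¹)⁻¹ := by
    rw [rho_gam, gam_inv, gam_inv, gam_mul, gam_mul, gam_mul]
    unfold del
    congr 1
    ext m : 1
    by_cases hm : m = m1
    · subst hm
      have h4 : τ⁻¹ m1 = m' := by rw [Equiv.Perm.inv_eq_iff_eq, hm1]
      rw [if_pos rfl, h4]
    · rw [if_neg hm]
      by_cases hm' : m.1 = none
      · rw [hm', hz]; simp
      · rw [hm2 m hm' hm, hz]; simp
  have h2 : (del m1 (z (some c) * z (some c') * (z (some c))⁻¹ * (z (some c'))⁻¹) :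
      Equiv.Perm ((Idx n × X) ⊕ (ZMod p × R))) ∈ H := by
    rw [h1]
    have h5 := H.mul_mem (H.mul_mem hρ hγ) (H.inv_mem hρ)
    exact H.mul_mem (H.mul_mem (H.mul_mem hγ h5) (H.inv_mem hγ)) (H.inv_mem h5)
  -- transport to `m0`
  by_cases hm0 : m0 = m1
  · rw [hm0]; exact h2
  obtain ⟨σ, hσ, hσf⟩ := exists_even (S := {m1}) (f := fun _ => m0) (by simp)
    (a := (⟨none, a⟩ : Idx n)) (b := ⟨none, b⟩) (by simp [m1]) (by simp [m1]) (by
      intro h; simp only [Sigma.mk.injEq, heq_eq_eq, true_and] at h; exact hab h)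
  have h6 := halt σ hσ
  have h7 := H.mul_mem (H.mul_mem h6 h2) (H.inv_mem h6)
  rw [del_rho, hσf m1 rfl] at h7
  exact h7

/-- step three: finite sets can be moved into a single piece -/
theorem core_move [∀ c, NeZero (n c)] (hg : Good n p α A B u v t ε t' c0 c1 w e0 e1 e2)
    (hα : α ∈ H) (hinf : ∀ w : ZMod p, (rotinf w : Equiv.Perm ((Idx n × X) ⊕ (ZMod p × R))) ∈ H)
    (halt : ∀ τ ∈ alternatingGroup (Idx n),
      (rho τ : Equiv.Perm ((Idx n × X) ⊕ (ZMod p × R))) ∈ H)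
    (hn : 4 ≤ n none) (m0 : Idx n)
    (S : Finset ((Idx n × X) ⊕ (ZMod p × R))) : ∃ h ∈ H, ∀ s ∈ S, h s ∈ piece m0 := by
  classical
  -- even permutations with two prescribed values
  have hev : ∀ x y x' y' : Idx n, x ≠ y → x' ≠ y' → ∃ τ ∈ alternatingGroup (Idx n),
      τ x = x' ∧ τ y = y' := by
    intro x y x' y' hxy hxy'
    have hS : ∃ a b : Idx n, a ∉ ({x, y} : Set (Idx n)) ∧ b ∉ ({x, y} : Set (Idx n)) ∧ a ≠ b := by
      have h1 : 4 ≤ Fintype.card (Idx n) := by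
        calc 4 ≤ n none := hn
          _ = Fintype.card (ZMod (n none)) := (ZMod.card _).symm
          _ ≤ Fintype.card (Idx n) := Fintype.card_le_of_injective
            (fun i : ZMod (n none) => (⟨none, i⟩ : Idx n)) (fun i j h => by simpa using h)
      have h2 : 2 ≤ (Finset.univ \ {x, y} : Finset (Idx n)).card := by
        have h3 := Finset.le_card_sdiff ({x, y} : Finset (Idx n)) Finset.univ
        have h4 : ({x, y} : Finset (Idx n)).card ≤ 2 := Finset.card_le_two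
        rw [Finset.card_univ] at h3
        omega
      obtain ⟨a, ha, b, hb', hab⟩ := Finset.one_lt_card.1 h2
      simp only [Finset.mem_sdiff, Finset.mem_univ, true_and, Finset.mem_insert,
        Finset.mem_singleton] at ha hb'
      exact ⟨a, b, by simpa using ha, by simpa using hb', hab⟩
    obtain ⟨a, b, ha, hb', hab⟩ := hS
    obtain ⟨τ, hτ, hτf⟩ := exists_even (S := {x, y}) (f := fun m => if m = x then x' else y') (by
      intro s hs s' hs' hss
      simp only [mem_insert_iff, mem_singleton_iff] at hs hs'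
      rcases hs with rfl | rfl <;> rcases hs' with rfl | rfl
      · rfl
      · simp [hxy.symm, hxy'] at hss
      · simp [hxy.symm, hxy'.symm] at hss
      · rfl) ha hb' hab
    refine ⟨τ, hτ, ?_, ?_⟩
    · rw [hτf x (by simp)]; simp
    · rw [hτf y (by simp)]; simp [hxy.symm]
  have hcc : (⟨none, c0⟩ : Idx n) ≠ ⟨none, c1⟩ := by
    intro h; simp only [Sigma.mk.injEq, heq_eq_eq, true_and] at h; exact hg.hc h
  have i0 : ∀ x, α⁻¹ (Sum.inl (⟨none, c0⟩, x)) = Sum.inl (⟨none, t'⟩, e0 x) := fun x => by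
    rw [← hg.a0, ia]
  have i1 : ∀ x, α⁻¹ (Sum.inl (⟨none, c1⟩, x)) = Sum.inl (⟨none, t'⟩, e1 x) := fun x => by
    rw [← hg.a1, ia]
  have i2 : ∀ r, α⁻¹ (Sum.inr (w, r)) = Sum.inl (⟨none, t'⟩, e2 r) := fun x => by
    rw [← hg.a2, ia]
  have hαi := H.inv_mem hα
  obtain ⟨m00, hm00⟩ : ∃ m : Idx n, m ≠ ⟨none, t'⟩ := by
    by_cases h : c0 = t'
    · exact ⟨⟨none, c1⟩, fun h2 => hcc (by rw [h2, h])⟩
    · exact ⟨⟨none, c0⟩, fun h2 => h (by simpa using h2)⟩
  obtain ⟨m01, hm01⟩ : ∃ m : Idx n, m ≠ m0 := by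
    by_cases h : (⟨none, c0⟩ : Idx n) = m0
    · exact ⟨⟨none, c1⟩, fun h2 => hcc (by rw [h2, h])⟩
    · exact ⟨⟨none, c0⟩, fun h2 => h (by simpa using h2)⟩
  obtain ⟨τ', hτ', hτ'1, -⟩ := hev ⟨none, t'⟩ m00 m0 m01 hm00.symm hm01.symm
  induction S using Finset.induction_on with
  | empty => exact ⟨1, H.one_mem, by simp⟩
  | insert a S haS ih =>
    obtain ⟨h, hh, hS⟩ := ih
    rcases hha : h a with ⟨m, x⟩ | ⟨w', r⟩
    · by_cases hm : m = m0
      · refine ⟨h, hh, fun s hs => ?_⟩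
        rcases Finset.mem_insert.1 hs with rfl | hs
        · exact ⟨x, by rw [hha, hm]⟩
        · exact hS s hs
      · obtain ⟨τ, hτ, h1, h2⟩ := hev m0 m ⟨none, c0⟩ ⟨none, c1⟩ (Ne.symm hm) hcc
        refine ⟨rho τ' * α⁻¹ * rho τ * h, H.mul_mem (H.mul_mem (H.mul_mem (halt _ hτ') hαi)
          (halt _ hτ)) hh, fun s hs => ?_⟩
        simp only [Equiv.Perm.mul_apply]
        rcases Finset.mem_insert.1 hs with rfl | hs
        · refine ⟨e1 x, ?_⟩
          rw [hha, rho_inl, h2, i1, rho_inl, hτ'1]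
        · obtain ⟨y, hy⟩ := hS s hs
          refine ⟨e0 y, ?_⟩
          rw [hy, rho_inl, h1, i0, rho_inl, hτ'1]
    · obtain ⟨τ, hτ, h1, -⟩ := hev m0 m01 ⟨none, c0⟩ ⟨none, c1⟩ (Ne.symm hm01) hcc
      refine ⟨rho τ' * α⁻¹ * rho τ * rotinf (w - w') * h, H.mul_mem (H.mul_mem (H.mul_mem
        (H.mul_mem (halt _ hτ') hαi) (halt _ hτ)) (hinf _)) hh, fun s hs => ?_⟩
      simp only [Equiv.Perm.mul_apply]
      rcases Finset.mem_insert.1 hs with rfl | hs
      · refine ⟨e2 r, ?_⟩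
        rw [hha, rotinf_inr, add_sub_cancel, rho_inr, i2, rho_inl, hτ'1]
      · obtain ⟨y, hy⟩ := hS s hs
        refine ⟨e0 y, ?_⟩
        rw [hy, rotinf_inl, rho_inl, h1, i0, rho_inl, hτ'1]

end core

end Pool.Agent.N59.VG
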