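import Mathlib
import Pool.Agent.N59.VG.Core

set_option autoImplicit false
set_option linter.unusedSectionVars false

/-!
# The combinatorial core for a tower of pieces
-/

namespace Pool.Agent.N59.VG

open Set

variable {X Y : Type*}

lemma cyc_tr {I : Type*} [DecidableEq I] [Nonempty X] {f : Equiv.Perm ((I × X) ⊕ Y)}
    {a1 a2 a3 b1 b2 b3 : I} (h1 : ∀ x, f (Sum.inl (a1, x)) = Sum.inl (b1, x))
    (h2 : ∀ x, f (Sum.inl (a2, x)) = Sum.inl (b2, x))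
    (h3 : ∀ x, f (Sum.inl (a3, x)) = Sum.inl (b3, x)) (d12 : b1 ≠ b2) (d13 : b1 ≠ b3)
    (d23 : b2 ≠ b3) : f * rho (cyc a1 a2 a3) * f⁻¹ = rho (cyc b1 b2 b3) := by
  let H : Subgroup (Equiv.Perm ((I × X) ⊕ Y)) :=
    { carrier := {g | True}
      mul_mem' := fun _ _ => trivial
      one_mem' := trivial
      inv_mem' := fun _ => trivial }
  obtain ⟨x0⟩ := ‹Nonempty X›
  have e12 : a1 ≠ a2 := by
    rintro rfl
    have := (h1 x0).symm.trans (h2 x0)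
    simp only [Sum.inl.injEq, Prod.mk.injEq, and_true] at this
    exact d12 this
  have e13 : a1 ≠ a3 := by
    rintro rfl
    have := (h1 x0).symm.trans (h3 x0)
    simp only [Sum.inl.injEq, Prod.mk.injEq, and_true] at this
    exact d13 this
  have e23 : a2 ≠ a3 := by
    rintro rfl
    have := (h2 x0).symm.trans (h3 x0)
    simp only [Sum.inl.injEq, Prod.mk.injEq, and_true] at this
    exact d23 this
  have k1 : Is3 (rho (cyc a1 a2 a3) : Equiv.Perm ((I × X) ⊕ Y)) (piece a1)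
      (fun q => Sum.elim (fun r => Sum.inl (a2, r.2)) Sum.inr q)
      (fun q => Sum.elim (fun r => Sum.inl (a3, r.2)) Sum.inr q) :=
    rho_is3 e12 e13 e23 (fun _ => rfl) (fun _ => rfl)
  have k2 := k1.conj f
  have k3 : f '' (piece a1) = piece b1 := by
    ext q
    constructor
    · rintro ⟨_, ⟨x, rfl⟩, rfl⟩
      exact ⟨x, h1 x⟩
    · rintro ⟨x, rfl⟩
      exact ⟨_, ⟨x, rfl⟩, h1 x⟩
  rw [k3] at k2
  have i1 : ∀ x, f⁻¹ (Sum.inl (b1, x)) = Sum.inl (a1, x) := fun x => by rw [← h1, ia]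
  refine k2.unique (rho_is3 d12 d13 d23 (fun x => ?_) (fun x => ?_))
  · rw [i1, Sum.elim_inl, h2]
  · rw [i1, Sum.elim_inl, h3]

section
variable {L : ℕ} {H : Subgroup (Equiv.Perm ((Fin L × X) ⊕ Y))} {α β : Equiv.Perm ((Fin L × X) ⊕ Y)}

theorem core2_alt [Nonempty X] (hβ : β ∈ H)
    (hb : ∀ (a : ℕ) (h1 : a + 1 < L) (x : X), β (Sum.inl (⟨a, by omega⟩, x)) =
      Sum.inl (⟨a + 1, h1⟩, x)) {a : ℕ} (ha : a + 2 < L)
    (hk : rho (cyc (⟨a, by omega⟩ : Fin L) ⟨a + 1, by omega⟩ ⟨a + 2, ha⟩) ∈ H) :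
    ∀ τ ∈ alternatingGroup (Fin L), (rho τ : Equiv.Perm ((Fin L × X) ⊕ Y)) ∈ H := by
  let G : Subgroup (Equiv.Perm (Fin L)) := H.comap rho
  have hbi : ∀ (a : ℕ) (h1 : a + 1 < L) (x : X), β⁻¹ (Sum.inl (⟨a + 1, h1⟩, x)) =
      Sum.inl (⟨a, by omega⟩, x) := fun a h1 x => by rw [← hb a h1, ia]
  have up : ∀ b (hb3 : b + 3 < L), rho (cyc (⟨b, by omega⟩ : Fin L) ⟨b + 1, by omega⟩
      ⟨b + 2, by omega⟩) ∈ H →
      rho (cyc (⟨b + 1, by omega⟩ : Fin L) ⟨b + 2, by omega⟩ ⟨b + 3, hb3⟩) ∈ H := by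
    intro b hb3 h1
    exact cyc_pull (H.inv_mem hβ) (hbi b (by omega)) (hbi (b + 1) (by omega)) (hbi (b + 2) hb3)
      (by simp) (by simp) (by simp) h1
  have down : ∀ b (hb3 : b + 3 < L), rho (cyc (⟨b + 1, by omega⟩ : Fin L) ⟨b + 2, by omega⟩
      ⟨b + 3, hb3⟩) ∈ H →
      rho (cyc (⟨b, by omega⟩ : Fin L) ⟨b + 1, by omega⟩ ⟨b + 2, by omega⟩) ∈ H := by
    intro b hb3 h1
    exact cyc_pull hβ (hb b (by omega)) (hb (b + 1) (by omega)) (hb (b + 2) hb3)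
      (by simp) (by simp) (by simp) h1
  have all0' : ∀ (a : ℕ) (ha : a + 2 < L), rho (cyc (⟨a, by omega⟩ : Fin L) ⟨a + 1, by omega⟩
      ⟨a + 2, ha⟩) ∈ H → rho (cyc (⟨0, by omega⟩ : Fin L) ⟨1, by omega⟩ ⟨2, by omega⟩) ∈ H := by
    intro a
    induction a with
    | zero => exact fun _ h => h
    | succ a ih => exact fun ha h => ih (by omega) (down a (by omega) h)
  have all0 := all0' a ha hk
  have all : ∀ b (hb2 : b + 2 < L), rho (cyc (⟨b, by omega⟩ : Fin L) ⟨b + 1, by omega⟩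
      ⟨b + 2, hb2⟩) ∈ H := by
    intro b
    induction b with
    | zero => exact fun _ => all0
    | succ b ih => exact fun hb2 => up b (by omega) (ih (by omega))
  have r1 : ∀ b (h1 : b + 1 < L), Rl G (⟨b, by omega⟩ : Fin L) ⟨b + 1, h1⟩ := by
    intro b h1
    by_cases h2 : b + 2 < L
    · exact Rl.mk (d := ⟨b + 2, h2⟩) (by simp) (by simp) (by simp) (all b h2)
    · obtain ⟨b', rfl⟩ : ∃ b', b = b' + 1 := ⟨b - 1, by omega⟩
      have h3 : cyc (⟨b', by omega⟩ : Fin L) ⟨b' + 1, by omega⟩ ⟨b' + 2, by omega⟩ ∈ G :=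
        all b' (by omega)
      rw [cyc_rot (by simp) (by simp) (by simp)] at h3
      exact Rl.mk (d := ⟨b', by omega⟩) (by simp) (by simp) (by simp; omega) h3
  have r2 : ∀ b (h1 : b < L), Rl G (⟨0, by omega⟩ : Fin L) ⟨b, h1⟩ := by
    intro b
    induction b with
    | zero => exact fun _ => Rl.refl _
    | succ b ih => exact fun h1 => (ih (by omega)).trans (r1 b h1)
  have r3 : ∀ a b : Fin L, Rl G a b := fun a b => (r2 a.1 a.2).symm.trans (r2 b.1 b.2)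
  exact alt_le r3

lemma even_two (hL : 4 ≤ L) {x y x' y' : Fin L} (hxy : x ≠ y) (hxy' : x' ≠ y') :
    ∃ τ ∈ alternatingGroup (Fin L), τ x = x' ∧ τ y = y' := by
  obtain ⟨a, b, ha, hb', hab⟩ : ∃ a b : Fin L, a ∉ ({x, y} : Set (Fin L)) ∧
      b ∉ ({x, y} : Set (Fin L)) ∧ a ≠ b := by
    have h2 : 2 ≤ (Finset.univ \ {x, y} : Finset (Fin L)).card := by
      have h3 := Finset.le_card_sdiff ({x, y} : Finset (Fin L)) Finset.univ
      have h4 : ({x, y} : Finset (Fin L)).card ≤ 2 := Finset.card_le_two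
      rw [Finset.card_univ, Fintype.card_fin] at h3
      omega
    obtain ⟨a, ha, b, hb', hab⟩ := Finset.one_lt_card.1 h2
    simp only [Finset.mem_sdiff, Finset.mem_univ, true_and, Finset.mem_insert,
      Finset.mem_singleton] at ha hb'
    exact ⟨a, b, by simpa using ha, by simpa using hb', hab⟩
  obtain ⟨τ, hτ, hτf⟩ := exists_even (S := {x, y}) (f := fun m => if m = x then x' else y') (by
    intro s hs s' hs' hss
    simp only [mem_insert_iff, mem_singleton_iff] at hs hs'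
    rcases hs with rfl | rfl <;> rcases hs' with rfl | rfl
    · rfl
    · simp [hxy.symm, hxy'] at hss
    · simp [hxy.symm, hxy'.symm] at hss
    · rfl) ha hb' hab
  refine ⟨τ, hτ, ?_, ?_⟩
  · rw [hτf x (by simp)]; simp
  · rw [hτf y (by simp)]; simp [hxy.symm]

/-- from labels to commutators at a single piece -/
theorem core2_label [Nonempty X] (hL : 4 ≤ L) (hα : α ∈ H)
    (halt : ∀ τ ∈ alternatingGroup (Fin L), (rho τ : Equiv.Perm ((Fin L × X) ⊕ Y)) ∈ H)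
    {z : Equiv.Perm X} {p q h1 h1' h2 h2' : Fin L} (dp1 : p ≠ h1) (dp2 : p ≠ h2) (d12 : h1 ≠ h2)
    (dq1 : q ≠ h1') (dq2 : q ≠ h2') (d12' : h1' ≠ h2')
    (hp : ∀ x, α (Sum.inl (p, x)) = Sum.inl (q, z x))
    (hh1 : ∀ x, α (Sum.inl (h1, x)) = Sum.inl (h1', x))
    (hh2 : ∀ x, α (Sum.inl (h2, x)) = Sum.inl (h2', x)) {m0 m1 : Fin L} (hm : m0 ≠ m1) :
    (del m0 z * del m1 z⁻¹ : Equiv.Perm ((Fin L × X) ⊕ Y)) ∈ H := by
  have hdi : ∀ (m : Fin L) (g : Equiv.Perm X), (del m g : Equiv.Perm ((Fin L × X) ⊕ Y))⁻¹ =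
      del m g⁻¹ := by
    intro m g
    unfold del
    rw [gam_inv]
    congr 1
    ext m' : 1
    split_ifs <;> simp
  have hdel : ∀ (m m' : Fin L) (g : Equiv.Perm X) (x : X), m' ≠ m →
      (del m g : Equiv.Perm ((Fin L × X) ⊕ Y)) (Sum.inl (m', x)) = Sum.inl (m', x) := by
    intro m m' g x hmm
    unfold del
    rw [gam_inl, if_neg hmm]; rfl
  have hdel' : ∀ (m : Fin L) (g : Equiv.Perm X) (x : X),
      (del m g : Equiv.Perm ((Fin L × X) ⊕ Y)) (Sum.inl (m, x)) = Sum.inl (m, g x) := by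
    intro m g x
    unfold del
    rw [gam_inl, if_pos rfl]
  let γ : Equiv.Perm ((Fin L × X) ⊕ Y) := del q z
  have k1 : (γ⁻¹ * α) * rho (cyc p h1 h2) * (γ⁻¹ * α)⁻¹ = rho (cyc q h1' h2') := by
    apply cyc_tr _ _ _ dq1 dq2 d12'
    · intro x
      show (del q z : Equiv.Perm ((Fin L × X) ⊕ Y))⁻¹ (α (Sum.inl (p, x))) = _
      rw [hdi, hp, hdel', ia]
    · intro x
      show (del q z : Equiv.Perm ((Fin L × X) ⊕ Y))⁻¹ (α (Sum.inl (h1, x))) = _
      rw [hdi, hh1, hdel _ _ _ _ dq1.symm]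
    · intro x
      show (del q z : Equiv.Perm ((Fin L × X) ⊕ Y))⁻¹ (α (Sum.inl (h2, x))) = _
      rw [hdi, hh2, hdel _ _ _ _ dq2.symm]
  have k2 : (del q z * del h1' z⁻¹ : Equiv.Perm ((Fin L × X) ⊕ Y)) ∈ H := by
    have k3 := del_rho (Y := Y) (cyc q h1' h2') q z⁻¹
    rw [cyc_1 dq1 dq2] at k3
    have k4 : (del q z * del h1' z⁻¹ : Equiv.Perm ((Fin L × X) ⊕ Y)) =
        (α * rho (cyc p h1 h2) * α⁻¹) * (rho (cyc q h1' h2'))⁻¹ := by
      rw [← k3, ← hdi]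
      have k5 : α * rho (cyc p h1 h2) * α⁻¹ = γ * rho (cyc q h1' h2') * γ⁻¹ := by
        rw [← k1]; group
      rw [k5]
      show γ * (rho (cyc q h1' h2') * γ⁻¹ * (rho (cyc q h1' h2'))⁻¹) = _
      group
    rw [k4]
    exact H.mul_mem (H.mul_mem (H.mul_mem hα (halt _ (cyc_mem_alt dp1 dp2 d12))) (H.inv_mem hα))
      (H.inv_mem (halt _ (cyc_mem_alt dq1 dq2 d12')))
  obtain ⟨τ, hτ, hτ1, hτ2⟩ := even_two hL dq1 hm
  have k3 := H.mul_mem (H.mul_mem (halt τ hτ) k2) (H.inv_mem (halt τ hτ))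
  have k4 : rho τ * (del q z * del h1' z⁻¹) * (rho τ)⁻¹ =
      (rho τ * del q z * (rho τ)⁻¹) * (rho τ * del h1' z⁻¹ * (rho τ)⁻¹ :
        Equiv.Perm ((Fin L × X) ⊕ Y)) := by group
  rw [k4, del_rho, del_rho, hτ1, hτ2] at k3
  exact k3

theorem core2_comm {z z' : Equiv.Perm X} {m0 m1 m2 : Fin L} (h01 : m0 ≠ m1) (h02 : m0 ≠ m2)
    (h12 : m1 ≠ m2) (h1 : (del m0 z * del m1 z⁻¹ : Equiv.Perm ((Fin L × X) ⊕ Y)) ∈ H)
    (h2 : (del m0 z' * del m2 z'⁻¹ : Equiv.Perm ((Fin L × X) ⊕ Y)) ∈ H) :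
    (del m0 (z * z' * z⁻¹ * z'⁻¹) : Equiv.Perm ((Fin L × X) ⊕ Y)) ∈ H := by
  have h3 : (del m0 (z * z' * z⁻¹ * z'⁻¹) : Equiv.Perm ((Fin L × X) ⊕ Y)) =
      (del m0 z * del m1 z⁻¹) * (del m0 z' * del m2 z'⁻¹) * (del m0 z * del m1 z⁻¹)⁻¹ *
        (del m0 z' * del m2 z'⁻¹)⁻¹ := by
    unfold del
    rw [gam_mul, gam_mul, gam_mul, gam_inv, gam_inv, gam_mul, gam_mul]
    congr 1
    ext m : 1
    by_cases e0 : m = m0
    · subst e0
      simp [h01, h02]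
    · by_cases e1 : m = m1
      · subst e1
        simp [h01.symm, h12]
      · by_cases e2 : m = m2
        · subst e2
          simp [h02.symm, h12.symm]
        · simp [e0, e1, e2]
  rw [h3]
  exact H.mul_mem (H.mul_mem (H.mul_mem h1 h2) (H.inv_mem h1)) (H.inv_mem h2)

/-- moving finite sets into a single piece -/
theorem core2_move (hL : 4 ≤ L) (hα : α ∈ H) (hβ : β ∈ H)
    (halt : ∀ τ ∈ alternatingGroup (Fin L), (rho τ : Equiv.Perm ((Fin L × X) ⊕ Y)) ∈ H)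
    (hb : ∀ (a : ℕ) (h1 : a + 1 < L) (x : X), β (Sum.inl (⟨a, by omega⟩, x)) =
      Sum.inl (⟨a + 1, h1⟩, x)) {T C0 C1 : Fin L} (hC : C0 ≠ C1) {e0 e1 : X → X}
    (a0 : ∀ x, α (Sum.inl (T, e0 x)) = Sum.inl (C0, x))
    (a1 : ∀ x, α (Sum.inl (T, e1 x)) = Sum.inl (C1, x))
    (hsec : ∀ q, ∃ (n : ℤ) (x : X), (β ^ n) q = α (Sum.inl (T, x))) (m0 : Fin L)
    (S : Finset ((Fin L × X) ⊕ Y)) : ∃ t ∈ H, ∀ s ∈ S, t s ∈ piece m0 := by
  classical
  have i0 : ∀ x, α⁻¹ (Sum.inl (C0, x)) = Sum.inl (T, e0 x) := fun x => by rw [← a0, ia]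
  have i1 : ∀ x, α⁻¹ (Sum.inl (C1, x)) = Sum.inl (T, e1 x) := fun x => by rw [← a1, ia]
  have hαi := H.inv_mem hα
  have hmv : ∀ m m' : Fin L, ∃ τ ∈ alternatingGroup (Fin L), τ m = m' := by
    intro m m'
    obtain ⟨y, hy⟩ : ∃ y : Fin L, y ≠ m := by
      by_cases h : C0 = m
      · exact ⟨C1, fun h2 => hC (by rw [h, h2])⟩
      · exact ⟨C0, h⟩
    obtain ⟨y', hy'⟩ : ∃ y : Fin L, y ≠ m' := by
      by_cases h : C0 = m'
      · exact ⟨C1, fun h2 => hC (by rw [h, h2])⟩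
      · exact ⟨C0, h⟩
    obtain ⟨τ, hτ, h1, -⟩ := even_two hL hy.symm hy'.symm
    exact ⟨τ, hτ, h1⟩
  -- merging two pieces
  have merge : ∀ m m' : Fin L, m ≠ m' → ∃ t ∈ H, (∀ x, t (Sum.inl (m, x)) = Sum.inl (m0, e0 x)) ∧
      ∀ x, t (Sum.inl (m', x)) = Sum.inl (m0, e1 x) := by
    intro m m' hmm
    obtain ⟨τ, hτ, h1, h2⟩ := even_two hL hmm hC
    obtain ⟨τ', hτ', h3⟩ := hmv T m0
    refine ⟨rho τ' * α⁻¹ * rho τ, H.mul_mem (H.mul_mem (halt _ hτ') hαi) (halt _ hτ),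
      fun x => ?_, fun x => ?_⟩
    · simp only [Equiv.Perm.mul_apply]
      rw [rho_inl, h1, i0, rho_inl, h3]
    · simp only [Equiv.Perm.mul_apply]
      rw [rho_inl, h2, i1, rho_inl, h3]
  let Rq : (Fin L × X) ⊕ Y → Prop := fun q => ∀ m : Fin L, ∃ t ∈ H,
    (∃ (m' : Fin L) (φ : X → X), ∀ x, t (Sum.inl (m, x)) = Sum.inl (m', φ x)) ∧
      ∃ (m'' : Fin L) (x'' : X), t q = Sum.inl (m'', x'')
  have hinl : ∀ m x, Rq (Sum.inl (m, x)) := fun m x m1 =>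
    ⟨1, H.one_mem, ⟨m1, _root_.id, fun _ => rfl⟩, m, x, rfl⟩
  have key : ∀ (n : ℤ) (q : (Fin L × X) ⊕ Y), (∃ x, (β ^ n) q = α (Sum.inl (T, x))) → Rq q := by
    intro n
    induction n using Int.induction_on with
    | zero =>
      rintro q ⟨x, hx⟩ m
      rcases q with ⟨m', y⟩ | y
      · exact hinl m' y m
      · obtain ⟨τ, hτ, h1⟩ := hmv m C0
        refine ⟨α⁻¹ * rho τ, H.mul_mem hαi (halt _ hτ), ⟨T, e0, fun x => ?_⟩, T, x, ?_⟩
        · rw [Equiv.Perm.mul_apply, rho_inl, h1, i0]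
        · rw [zpow_zero, Equiv.Perm.one_apply] at hx
          rw [Equiv.Perm.mul_apply, rho_inr, hx, ia]
    | succ n ih =>
      rintro q ⟨x, hx⟩ m
      rcases q with ⟨m', y⟩ | y
      · exact hinl m' y m
      · have h1 : Rq (β (Sum.inr y)) := by
          apply ih
          refine ⟨x, ?_⟩
          rw [← hx, zpow_add_one]; rfl
        obtain ⟨τ, hτ, h2⟩ := hmv m ⟨0, by omega⟩
        obtain ⟨t, ht, ⟨m', φ, hφ⟩, m'', x'', h3⟩ := h1 ⟨1, by omega⟩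
        refine ⟨t * β * rho τ, H.mul_mem (H.mul_mem ht hβ) (halt _ hτ), ⟨m', φ, fun x => ?_⟩,
          m'', x'', ?_⟩
        · simp only [Equiv.Perm.mul_apply]
          rw [rho_inl, h2, hb 0 (by omega)]
          exact hφ x
        · simp only [Equiv.Perm.mul_apply]
          rw [rho_inr, h3]
    | pred n ih =>
      rintro q ⟨x, hx⟩ m
      rcases q with ⟨m', y⟩ | y
      · exact hinl m' y m
      · have h1 : Rq (β⁻¹ (Sum.inr y)) := by
          apply ih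
          refine ⟨x, ?_⟩
          rw [← hx, zpow_sub_one]; rfl
        obtain ⟨τ, hτ, h2⟩ := hmv m ⟨1, by omega⟩
        obtain ⟨t, ht, ⟨m', φ, hφ⟩, m'', x'', h3⟩ := h1 ⟨0, by omega⟩
        refine ⟨t * β⁻¹ * rho τ, H.mul_mem (H.mul_mem ht (H.inv_mem hβ)) (halt _ hτ),
          ⟨m', φ, fun x => ?_⟩, m'', x'', ?_⟩
        · simp only [Equiv.Perm.mul_apply]
          rw [rho_inl, h2]
          have h4 : β⁻¹ (Sum.inl (⟨1, by omega⟩, x)) = Sum.inl ((⟨0, by omega⟩ : Fin L), x) := by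
            rw [← hb 0 (by omega), ia]
          rw [h4]
          exact hφ x
        · simp only [Equiv.Perm.mul_apply]
          rw [rho_inr, h3]
  have hR : ∀ q, Rq q := fun q => by
    obtain ⟨n, x, hx⟩ := hsec q
    exact key n q ⟨x, hx⟩
  induction S using Finset.induction_on with
  | empty => exact ⟨1, H.one_mem, by simp⟩
  | insert a S haS ih =>
    obtain ⟨h, hh, hS⟩ := ih
    obtain ⟨t, ht, ⟨m', φ, hφ⟩, m'', x'', h3⟩ := hR (h a) m0
    by_cases hmm : m' = m''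
    · subst hmm
      obtain ⟨τ, hτ, h2⟩ := hmv m' m0
      refine ⟨rho τ * t * h, H.mul_mem (H.mul_mem (halt _ hτ) ht) hh, fun s hs => ?_⟩
      simp only [Equiv.Perm.mul_apply]
      rcases Finset.mem_insert.1 hs with rfl | hs
      · exact ⟨x'', by rw [h3, rho_inl, h2]⟩
      · obtain ⟨y, hy⟩ := hS s hs
        exact ⟨φ y, by rw [hy, hφ, rho_inl, h2]⟩
    · obtain ⟨f, hf, hf1, hf2⟩ := merge m' m'' hmm
      refine ⟨f * t * h, H.mul_mem (H.mul_mem hf ht) hh, fun s hs => ?_⟩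
      simp only [Equiv.Perm.mul_apply]
      rcases Finset.mem_insert.1 hs with rfl | hs
      · exact ⟨e1 x'', by rw [h3, hf2]⟩
      · obtain ⟨y, hy⟩ := hS s hs
        exact ⟨e0 (φ y), by rw [hy, hφ, hf1]⟩

end

end Pool.Agent.N59.VG
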