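import Mathlib
import Pool.Agent.N59.VG.Top

set_option autoImplicit false
set_option linter.unusedSectionVars false

/-!
# Simple vigorous groups: realization of germs, three-cycles, gluing
-/

namespace Pool.Agent.N59.VG

open Set Topology

variable {X : Type*} [TopologicalSpace X] [CompactSpace X] [T2Space X] [TotallyDisconnectedSpace X]
variable {Γ : Subgroup (Equiv.Perm X)}

/-- germs of `g` are realized by elements which fix `F` -/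
def PR (Γ : Subgroup (Equiv.Perm X)) (g : Equiv.Perm X) : Prop :=
  ∀ F : Set X, IsClopen F → ∀ e, e ∉ F → g e ∉ F →
    ∃ x ∈ Γ, (∀ y ∈ F, x y = y) ∧ ∀ᶠ y in 𝓝 e, x y = g y

lemma PR.one : PR Γ 1 := fun _ _ _ _ _ => ⟨1, Γ.one_mem, fun _ _ => rfl, .of_forall fun _ => rfl⟩

lemma PR.inv (h : SV Γ) {g : Equiv.Perm X} (hg : g ∈ Γ) (hP : PR Γ g) : PR Γ g⁻¹ := by
  intro F hF e he hge
  obtain ⟨x, hx, h1, h2⟩ := hP F hF (g⁻¹ e) hge (by simpa using he)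
  refine ⟨x⁻¹, Γ.inv_mem hx, fun y hy => ?_, ?_⟩
  · rw [Equiv.Perm.inv_eq_iff_eq, h1 y hy]
  · have h3 := (h.cont _ (Γ.inv_mem hg)).continuousAt.eventually h2
    filter_upwards [h3] with y hy
    rw [Equiv.Perm.inv_eq_iff_eq, hy, ai]

lemma PR.conj (h : SV Γ) {g t : Equiv.Perm X} (ht : t ∈ Γ) (hP : PR Γ g) :
    PR Γ (t * g * t⁻¹) := by
  intro F hF e he hge
  obtain ⟨x, hx, h1, h2⟩ := hP (t ⁻¹' F) (hF.preimage (h.cont t ht)) (t⁻¹ e)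
    (by simpa using he) (by simpa using hge)
  refine ⟨t * x * t⁻¹, Γ.mul_mem (Γ.mul_mem ht hx) (Γ.inv_mem ht), fun y hy => ?_, ?_⟩
  · have h3 := h1 (t⁻¹ y) (by simpa using hy)
    show t (x (t⁻¹ y)) = y
    rw [h3, ai]
  · have h3 := (h.cont _ (Γ.inv_mem ht)).continuousAt.eventually h2
    filter_upwards [h3] with y hy
    show t (x (t⁻¹ y)) = t (g (t⁻¹ y))
    rw [hy]

lemma PR.mul (h : SV Γ) {g1 g2 : Equiv.Perm X} (hg1 : g1 ∈ Γ) (hg2 : g2 ∈ Γ) (hP1 : PR Γ g1)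
    (hP2 : PR Γ g2) : PR Γ (g2 * g1) := by
  intro F hF e he hge
  rw [Equiv.Perm.mul_apply] at hge
  by_cases h1 : g1 e ∈ F
  · -- the bad case
    have hq : ((Fᶜ : Set X) \ {e, g2 (g1 e)}).Nonempty :=
      ((h.perf _ hF.compl.isOpen ⟨e, he⟩).sdiff (by simp)).nonempty
    obtain ⟨q, hqF, hq2⟩ := hq
    have hqe : q ≠ e := fun h => hq2 (by simp [h])
    have hqe2 : q ≠ g2 (g1 e) := fun h => hq2 (by simp [h])
    have hee1 : g1 e ≠ e := fun h2 => he (h2 ▸ h1)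
    have hee2 : g1 e ≠ g2 (g1 e) := fun h2 => hge (h2 ▸ h1)
    have hqe1 : q ≠ g1 e := fun h2 => hqF (h2 ▸ h1)
    obtain ⟨V1, hV1, heV1, -, hV1'⟩ := exists_clopen_avoid isOpen_univ (mem_univ e)
      (s := {g1 e, q}) (by simp) (by simp [hee1.symm, hqe.symm])
    obtain ⟨V2, hV2, heV2, -, hV2'⟩ := exists_clopen_avoid isOpen_univ (mem_univ (g2 (g1 e)))
      (s := {g1 e, q}) (by simp) (by simp [hee2.symm, hqe2.symm])
    have hD : IsClopen (V1 ∪ V2) := hV1.union hV2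
    have e1A : g1 e ∈ (V1 ∪ V2)ᶜ := by
      rintro (h2 | h2)
      · exact hV1' _ (by simp) h2
      · exact hV2' _ (by simp) h2
    have qA : q ∈ (V1 ∪ V2)ᶜ := by
      rintro (h2 | h2)
      · exact hV1' _ (by simp) h2
      · exact hV2' _ (by simp) h2
    obtain ⟨B, hB, heB, hBA, hB'⟩ := exists_clopen_avoid hD.compl.isOpen e1A
      (s := {q}) (by simp) (by simp [hqe1.symm])
    obtain ⟨C, hC, hqC, hCA, hC'⟩ := exists_clopen_avoid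
      (hD.compl.isOpen.inter hF.compl.isOpen) ⟨qA, hqF⟩ (s := {g1 e}) (by simp) (by simp [hqe1])
    obtain ⟨t, ht, ht1, ht2⟩ := h.vig _ B C hD.compl hB hC hBA (fun x hx => (hCA hx).1)
      ⟨_, heB⟩ ⟨_, hqC⟩ (by rintro rfl; exact hB' q (by simp) qA)
      (by rintro h2; rw [← h2] at e1A; exact hC' _ (by simp) e1A)
    have ht3 : ∀ x ∈ V1 ∪ V2, t x = x := fun x hx => ht2 x (fun h2 => h2 hx)
    have ht3' : ∀ x ∈ V1 ∪ V2, t⁻¹ x = x := fun x hx => by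
      rw [Equiv.Perm.inv_eq_iff_eq, ht3 x hx]
    have hte1 : t (g1 e) ∉ F := (hCA (ht1 _ heB)).2
    obtain ⟨x1, hx1, h3, h4⟩ := (hP1.conj h ht) F hF e he (by
      show t (g1 (t⁻¹ e)) ∉ F
      rw [ht3' e (Or.inl heV1)]; exact hte1)
    obtain ⟨x2, hx2, h5, h6⟩ := (hP2.conj h ht) F hF (t (g1 e)) hte1 (by
      show t (g2 (t⁻¹ (t (g1 e)))) ∉ F
      rw [ia, ht3 _ (Or.inr heV2)]; exact hge)
    refine ⟨x2 * x1, Γ.mul_mem hx2 hx1, fun y hy => ?_, ?_⟩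
    · rw [Equiv.Perm.mul_apply, h3 y hy, h5 y hy]
    · have h7 : x1 e = t (g1 e) := by
        rw [h4.self_of_nhds]
        show t (g1 (t⁻¹ e)) = _
        rw [ht3' e (Or.inl heV1)]
      have h8 := (h.cont _ hx1).continuousAt.eventually (h7 ▸ h6)
      have h9 : ∀ᶠ y in 𝓝 e, y ∈ V1 := hV1.isOpen.mem_nhds heV1
      have h10 : ∀ᶠ y in 𝓝 e, (g2 * g1) y ∈ V2 :=
        (h.cont _ (Γ.mul_mem hg2 hg1)).continuousAt.eventually (hV2.isOpen.mem_nhds heV2)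
      filter_upwards [h4, h8, h9, h10] with y h11 h12 h13 h14
      rw [Equiv.Perm.mul_apply, h12, h11]
      show t (g2 (t⁻¹ (t (g1 (t⁻¹ y))))) = _
      rw [ia, ht3' y (Or.inl h13)]
      exact ht3 _ (Or.inr h14)
  · obtain ⟨x1, hx1, h3, h4⟩ := hP1 F hF e he h1
    obtain ⟨x2, hx2, h5, h6⟩ := hP2 F hF (g1 e) h1 hge
    refine ⟨x2 * x1, Γ.mul_mem hx2 hx1, fun y hy => ?_, ?_⟩
    · rw [Equiv.Perm.mul_apply, h3 y hy, h5 y hy]
    · have h7 : x1 e = g1 e := h4.self_of_nhds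
      have h8 := (h.cont _ hx1).continuousAt.eventually (h7 ▸ h6)
      filter_upwards [h4, h8] with y h11 h12
      rw [Equiv.Perm.mul_apply, h12, h11]; rfl

lemma loc (h : SV Γ) {c : Equiv.Perm X} (hc : c ∈ Γ) {R : Set X} (hR : IsClopen R)
    (hRn : R.Nonempty) (hcR : ∀ p ∈ R, c p = p) {F : Set X} (hF : IsClopen F) {e : X} (he : e ∉ F)
    (hce : c e ∉ F) (hne : c e ≠ e) :
    ∃ x ∈ Γ, (∀ y ∈ F, x y = y) ∧ ∀ᶠ y in 𝓝 e, x y = c y := by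
  have hq : ((Fᶜ : Set X) \ {e, c e}).Nonempty :=
    ((h.perf _ hF.compl.isOpen ⟨e, he⟩).sdiff (by simp)).nonempty
  obtain ⟨q, hqF, hq2⟩ := hq
  have hqe : q ≠ e := fun h => hq2 (by simp [h])
  have hqe2 : q ≠ c e := fun h => hq2 (by simp [h])
  obtain ⟨f, hf1, hf2, hf3, -, l, hl1, hl2⟩ := exists_split h.perf hR.isOpen hRn (Fin 1)
  set R' := f 0 with hR'
  obtain ⟨r, hr⟩ := hf2 0
  have heR : e ∉ R := fun h2 => hne (hcR _ h2)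
  have hceR : c e ∉ R := fun h2 => hne (c.injective (hcR _ h2))
  obtain ⟨V1, hV1, heV1, -, hV1'⟩ := exists_clopen_avoid isOpen_univ (mem_univ e)
      (s := {c e, q}) (by simp) (by simp [hne.symm, hqe.symm])
  obtain ⟨V2, hV2, heV2, hV2s, hV2'⟩ := exists_clopen_avoid hV1.compl.isOpen
      (x := c e) (fun h2 => hV1' _ (by simp) h2) (s := {q}) (by simp) (by simp [hqe2.symm])
  have hcc := h.cont c hc
  obtain ⟨A', hA', heA', hA's⟩ := exists_clopen_nhds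
    (U := Rᶜ ∩ Fᶜ ∩ (c ⁻¹' (Fᶜ ∩ V2)) ∩ V1)
    (((hR.compl.isOpen.inter hF.compl.isOpen).inter
      ((hF.compl.isOpen.inter hV2.isOpen).preimage hcc)).inter hV1.isOpen)
    ⟨⟨⟨heR, he⟩, ⟨hce, heV2⟩⟩, heV1⟩
  have a1 : ∀ x ∈ A', x ∉ R := fun x hx => (hA's hx).1.1.1
  have a2 : ∀ x ∈ A', x ∉ F := fun x hx => (hA's hx).1.1.2
  have a3 : ∀ x ∈ A', c x ∉ F := fun x hx => (hA's hx).1.2.1
  have a4 : ∀ x ∈ A', c x ∈ V2 := fun x hx => (hA's hx).1.2.2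
  have a5 : ∀ x ∈ A', x ∈ V1 := fun x hx => (hA's hx).2
  have a6 : ∀ x ∈ A', c x ∉ A' := fun x hx h2 => hV2s (a4 x hx) (a5 _ h2)
  have a7 : ∀ x ∈ A', c x ∉ R := fun x hx h2 => by
    have h3 := c.injective (hcR _ h2)
    exact a1 x hx (by rw [← h3]; exact h2)
  have hR'R : R' ⊆ R := hf3 0
  -- the element h
  obtain ⟨k, hk, hk1, hk2⟩ := h.vig (A' ∪ R') A' R' (hA'.union (hf1 0)) hA' (hf1 0)
    subset_union_left subset_union_right ⟨e, heA'⟩ ⟨r, hr⟩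
    (ne_of_mem_not_mem (Or.inr hr) (fun h2 => a1 _ h2 (hR'R hr)))
    (ne_of_mem_not_mem (Or.inl heA') (fun h2 => heR (hR'R h2)))
  have h3 : Is3 (c * k * c⁻¹ * k⁻¹) A' c k :=
    comm3' (E := R') (fun p hp => hcR p (hR'R hp)) a6 (fun p hp h2 => a1 p hp (hR'R h2))
      (fun p hp h2 => a7 p hp (hR'R h2)) (fun p h1 h2 => hk2 p (by rintro (h4 | h4); exacts [h1 h4, h2 h4]))
      hk1
  set d0 := c * k * c⁻¹ * k⁻¹ with hd0
  have hd0Γ : d0 ∈ Γ := Γ.mul_mem (Γ.mul_mem (Γ.mul_mem hc hk) (Γ.inv_mem hc)) (Γ.inv_mem hk)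
  -- the element t
  have hcA' : IsClopen (c '' A') := h.img hc hA'
  have hD : IsClopen (A' ∪ c '' A') := hA'.union hcA'
  have qD : q ∈ (A' ∪ c '' A')ᶜ := by
    rintro (h2 | ⟨x, hx, h2⟩)
    · exact hV1' q (by simp) (a5 _ h2)
    · exact hV2' q (by simp) (h2 ▸ a4 x hx)
  have rD : ∀ x ∈ R, x ∈ (A' ∪ c '' A')ᶜ := by
    rintro x hx (h2 | ⟨y, hy, h2⟩)
    · exact a1 _ h2 hx
    · exact a7 y hy (h2 ▸ hx)
  obtain ⟨s, hsR, hsq⟩ : ∃ s ∈ R, s ≠ q := by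
    by_cases h2 : l = q
    · refine ⟨r, hR'R hr, fun h4 => hl2 0 ?_⟩
      rw [h2, ← h4]; exact hr
    · exact ⟨l, hl1, h2⟩
  obtain ⟨C, hC, hqC, hCA, hC'⟩ := exists_clopen_avoid
      (hD.compl.isOpen.inter hF.compl.isOpen) ⟨qD, hqF⟩ (s := {s}) (by simp) (by simp [hsq.symm])
  obtain ⟨t, ht, ht1, ht2⟩ := h.vig _ R' C hD.compl (hf1 0) hC (fun x hx => rD x (hR'R hx))
    (fun x hx => (hCA hx).1) ⟨r, hr⟩ ⟨q, hqC⟩
    (ne_of_mem_not_mem (rD l hl1) (hl2 0)) (ne_of_mem_not_mem (rD s hsR) (hC' s (by simp)))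
  have ht3 : ∀ x ∈ A' ∪ c '' A', t x = x := fun x hx => ht2 x (fun h2 => h2 hx)
  have ht3' : ∀ x ∈ A' ∪ c '' A', t⁻¹ x = x := fun x hx => by
    rw [Equiv.Perm.inv_eq_iff_eq, ht3 x hx]
  refine ⟨t * d0 * t⁻¹, Γ.mul_mem (Γ.mul_mem ht hd0Γ) (Γ.inv_mem ht), fun y hy => ?_, ?_⟩
  · show t (d0 (t⁻¹ y)) = y
    rw [h3.p4 (t⁻¹ y), ai]
    · intro h2
      have h4 := ht3 _ (Or.inl h2)
      rw [ai] at h4
      rw [← h4] at h2
      exact a2 _ h2 hy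
    · intro x hx h2
      have h4 := ht3 (c x) (Or.inr ⟨x, hx, rfl⟩)
      rw [← h2, ai] at h4
      rw [h2] at h4
      exact a3 x hx (h4 ▸ hy)
    · intro x hx h2
      have h4 := ht1 _ (hk1 x hx)
      rw [← h2, ai] at h4
      exact (hCA h4).2 hy
  · filter_upwards [hA'.isOpen.mem_nhds heA'] with y hy
    show t (d0 (t⁻¹ y)) = _
    rw [ht3' y (Or.inl hy), h3.p1 y hy, ht3 _ (Or.inr ⟨y, hy, rfl⟩)]

lemma exists_c (h : SV Γ) : ∃ c ∈ Γ, c ≠ 1 ∧ PR Γ c := by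
  have := h.ne
  obtain ⟨f, hf1, hf2, -, hf4, l, -, hl2⟩ := exists_split h.perf isOpen_univ univ_nonempty (Fin 3)
  have d01 := Set.disjoint_left.1 (hf4 0 1 (by decide))
  have d02 := Set.disjoint_left.1 (hf4 0 2 (by decide))
  have d12 := Set.disjoint_left.1 (hf4 1 2 (by decide))
  obtain ⟨a0, ha0⟩ := hf2 0
  obtain ⟨a1, ha1⟩ := hf2 1
  obtain ⟨a2, ha2⟩ := hf2 2
  obtain ⟨x, hx, hx1, hx2⟩ := h.vig (f 0 ∪ f 1) (f 0) (f 1) ((hf1 0).union (hf1 1)) (hf1 0) (hf1 1)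
    subset_union_left subset_union_right ⟨_, ha0⟩ ⟨_, ha1⟩
    (ne_of_mem_not_mem (Or.inr ha1) (fun h2 => d01 h2 ha1))
    (ne_of_mem_not_mem (Or.inl ha0) (d01 ha0))
  obtain ⟨y, hy, hy1, hy2⟩ := h.vig (f 0 ∪ f 2) (f 0) (f 2) ((hf1 0).union (hf1 2)) (hf1 0) (hf1 2)
    subset_union_left subset_union_right ⟨_, ha0⟩ ⟨_, ha2⟩
    (ne_of_mem_not_mem (Or.inr ha2) (fun h2 => d02 h2 ha2))
    (ne_of_mem_not_mem (Or.inl ha0) (d02 ha0))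
  have h3 : Is3 (x * y * x⁻¹ * y⁻¹) (f 0) x y := by
    refine comm3 hx2 hy2 ?_ subset_union_left subset_union_left
      (fun p hp h2 => d01 h2 (hx1 p hp)) (fun p hp h2 => d02 h2 (hy1 p hp))
    rintro p (h4 | h4) (h5 | h5)
    · exact h4
    · exact h4
    · exact h5
    · exact absurd h5 (d12 h4)
  set c := x * y * x⁻¹ * y⁻¹ with hcdef
  have hc : c ∈ Γ := Γ.mul_mem (Γ.mul_mem (Γ.mul_mem hx hy) (Γ.inv_mem hx)) (Γ.inv_mem hy)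
  have cl0 := hf1 0
  have cl1 := h.img hx (hf1 0)
  have cl2 := h.img hy (hf1 0)
  have hfix : ∀ p ∈ (f 0 ∪ x '' f 0 ∪ y '' f 0)ᶜ, c p = p := by
    intro p hp
    apply h3.p4
    · intro h2; exact hp (Or.inl (Or.inl h2))
    · intro z hz h2; exact hp (Or.inl (Or.inr ⟨z, hz, h2.symm⟩))
    · intro z hz h2; exact hp (Or.inr ⟨z, hz, h2.symm⟩)
  refine ⟨c, hc, ?_, ?_⟩
  · intro h2
    have h4 := h3.p1 a0 ha0
    rw [h2] at h4
    exact d01 ha0 (by rw [show a0 = x a0 from h4]; exact hx1 _ ha0)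
  · intro F hF e he hce
    by_cases hm : e ∈ (f 0 ∪ x '' f 0 ∪ y '' f 0)ᶜ
    · refine ⟨1, Γ.one_mem, fun _ _ => rfl, ?_⟩
      have hop : IsOpen (f 0 ∪ x '' f 0 ∪ y '' f 0)ᶜ := ((cl0.union cl1).union cl2).compl.isOpen
      filter_upwards [hop.mem_nhds hm] with p hp
      rw [hfix p hp]; rfl
    · have hne : c e ≠ e := by
        rw [Set.mem_compl_iff, not_not] at hm
        rcases hm with (h4 | ⟨z, hz, rfl⟩) | ⟨z, hz, rfl⟩
        · rw [h3.p1 e h4]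
          intro h5
          exact d01 h4 (h5 ▸ hx1 e h4)
        · rw [h3.p2 z hz]
          intro h5
          exact d12 (hx1 z hz) (h5 ▸ hy1 z hz)
        · rw [h3.p3 z hz]
          intro h5
          exact d02 hz (by rw [h5]; exact hy1 z hz)
      refine loc h hc ((cl0.union cl1).union cl2).compl ⟨l, ?_⟩ hfix hF he hce hne
      rintro ((h4 | ⟨z, hz, rfl⟩) | ⟨z, hz, rfl⟩)
      · exact hl2 0 h4
      · exact hl2 1 (hx1 z hz)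
      · exact hl2 2 (hy1 z hz)

/-- germs can be realized by elements with restricted support -/
theorem realize (h : SV Γ) {g : Equiv.Perm X} (hg : g ∈ Γ) : PR Γ g := by
  let N : Subgroup (Equiv.Perm X) :=
    { carrier := {g | g ∈ Γ ∧ PR Γ g}
      one_mem' := ⟨Γ.one_mem, PR.one⟩
      mul_mem' := fun {a b} ha hb => ⟨Γ.mul_mem ha.1 hb.1, PR.mul h hb.1 ha.1 hb.2 ha.2⟩
      inv_mem' := fun {a} ha => ⟨Γ.inv_mem ha.1, PR.inv h ha.1 ha.2⟩ }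
  have h1 := h.simp N (fun x hx => hx.1) (fun n hn g hg =>
    ⟨Γ.mul_mem (Γ.mul_mem hg hn.1) (Γ.inv_mem hg), PR.conj h hg hn.2⟩) (by
      obtain ⟨c, hc, hc1, hc2⟩ := exists_c h
      exact ⟨c, ⟨hc, hc2⟩, hc1⟩)
  exact (h1 hg).2

/-- three-cycles starting with `g` -/
theorem exists_is3 (h : SV Γ) {g : Equiv.Perm X} (hg : g ∈ Γ) {A E0 : Set X} (hA : IsClopen A)
    (hgA : ∀ x ∈ A, g x ∉ A) (hE : IsOpen E0) (hEn : E0.Nonempty) (hAE : ∀ x ∈ A, x ∉ E0)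
    (hgE : ∀ x ∈ A, g x ∉ E0) :
    ∃ k ∈ Γ, ∃ c ∈ Γ, (∀ x ∈ A, k x ∈ E0) ∧ Is3 c A g k := by
  rcases A.eq_empty_or_nonempty with rfl | ⟨a, ha⟩
  · exact ⟨1, Γ.one_mem, 1, Γ.one_mem, by simp, ⟨by simp, by simp, by simp, by simp⟩⟩
  obtain ⟨e0, he0⟩ := hEn
  obtain ⟨k, hk, hk1, hk2⟩ := realize h (Γ.inv_mem hg) (g '' A) (h.img hg hA) (g e0)
    (by rintro ⟨x, hx, h1⟩; exact hAE x hx (g.injective h1 ▸ he0))
    (by rintro ⟨x, hx, h1⟩; rw [ia] at h1; exact hgE x hx (h1 ▸ he0))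
  have h1 := (h.cont _ hg).continuousAt.eventually hk2
  have h1' : {y | k (g y) = g⁻¹ (g y)} ∈ 𝓝 e0 := h1
  obtain ⟨W, hW1, hW2, hW3⟩ := mem_nhds_iff.1 h1'
  obtain ⟨E, hE1, heE, hEs⟩ := exists_clopen_nhds (hE.inter hW2) ⟨he0, hW3⟩
  have hfix : ∀ p ∈ E, (k * g) p = p := fun p hp => by
    have := hW1 (hEs hp).2
    simpa using this
  have hkg : ∀ p ∈ A, (k * g) p = g p := fun p hp => hk1 _ ⟨p, hp, rfl⟩
  obtain ⟨t, ht, ht1, ht2⟩ := h.vig (A ∪ E) A E (hA.union hE1) hA hE1 subset_union_left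
    subset_union_right ⟨a, ha⟩ ⟨e0, heE⟩
    (ne_of_mem_not_mem (Or.inr heE) (fun h2 => hAE _ h2 he0))
    (ne_of_mem_not_mem (Or.inl ha) (fun h2 => hAE _ ha (hEs h2).1))
  have h3 : Is3 ((k * g) * t * (k * g)⁻¹ * t⁻¹) A (k * g : Equiv.Perm X) t :=
    comm3' (E := E) hfix (fun p hp => by rw [hkg p hp]; exact hgA p hp)
      (fun p hp h2 => hAE p hp (hEs h2).1) (fun p hp => by
        rw [hkg p hp]; exact fun h2 => hgE p hp (hEs h2).1)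
      (fun p h1 h2 => ht2 p (by rintro (h4 | h4); exacts [h1 h4, h2 h4])) ht1
  have hkgΓ := Γ.mul_mem hk hg
  refine ⟨t, ht, _, Γ.mul_mem (Γ.mul_mem (Γ.mul_mem hkgΓ ht) (Γ.inv_mem hkgΓ)) (Γ.inv_mem ht),
    fun x hx => (hEs (ht1 x hx)).1, h3.congr hkg (fun _ _ => rfl)⟩

/-- every three-cycle built from elements of `Γ`, with some room, is in `Γ` -/
theorem exists_is3' (h : SV Γ) {g1 g2 : Equiv.Perm X} (hg1 : g1 ∈ Γ) (hg2 : g2 ∈ Γ) {A : Set X}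
    (hA : IsClopen A) (hD : D3 A g1 g2)
    (hroom : ∃ p, p ∉ A ∧ (∀ x ∈ A, p ≠ g1 x) ∧ ∀ x ∈ A, p ≠ g2 x) :
    ∃ c ∈ Γ, Is3 c A g1 g2 ∧ ∃ c1 ∈ Γ, ∃ c2 ∈ Γ, c1 ^ 3 = 1 ∧ c2 ^ 3 = 1 ∧
      c = c1 * c2 * c1⁻¹ * c2⁻¹ := by
  obtain ⟨p, hp1, hp2, hp3⟩ := hroom
  have cl1 := h.img hg1 hA
  have cl2 := h.img hg2 hA
  obtain ⟨f, hf1, hf2, hf3, hf4, -⟩ := exists_split h.perf
    ((hA.union cl1).union cl2).compl.isOpen ⟨p, by
      rintro ((h4 | ⟨z, hz, rfl⟩) | ⟨z, hz, rfl⟩)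
      · exact hp1 h4
      · exact hp2 z hz rfl
      · exact hp3 z hz rfl⟩ (Fin 2)
  have d01 := Set.disjoint_left.1 (hf4 0 1 (by decide))
  have r0 : ∀ i, ∀ x ∈ A, x ∉ f i := fun i x hx h2 => hf3 i h2 (Or.inl (Or.inl hx))
  have r1 : ∀ i, ∀ x ∈ A, g1 x ∉ f i := fun i x hx h2 => hf3 i h2 (Or.inl (Or.inr ⟨x, hx, rfl⟩))
  have r2 : ∀ i, ∀ x ∈ A, g2 x ∉ f i := fun i x hx h2 => hf3 i h2 (Or.inr ⟨x, hx, rfl⟩)
  obtain ⟨k1, hk1, c1, hc1, hkf1, h31⟩ := exists_is3 h hg1 hA hD.d1 (hf1 0).isOpen (hf2 0)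
    (r0 0) (r1 0)
  obtain ⟨k2, hk2, c2, hc2, hkf2, h32⟩ := exists_is3 h hg2 hA hD.d2 (hf1 1).isOpen (hf2 1)
    (r0 1) (r2 1)
  have h3 : Is3 (c1 * c2 * c1⁻¹ * c2⁻¹) A c1 c2 := by
    refine comm3 (X1 := A ∪ g1 '' A ∪ k1 '' A) (X2 := A ∪ g2 '' A ∪ k2 '' A) ?_ ?_ ?_ ?_ ?_ ?_ ?_
    · intro y hy
      apply h31.p4
      · intro h2; exact hy (Or.inl (Or.inl h2))
      · intro z hz h2; exact hy (Or.inl (Or.inr ⟨z, hz, h2.symm⟩))
      · intro z hz h2; exact hy (Or.inr ⟨z, hz, h2.symm⟩)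
    · intro y hy
      apply h32.p4
      · intro h2; exact hy (Or.inl (Or.inl h2))
      · intro z hz h2; exact hy (Or.inl (Or.inr ⟨z, hz, h2.symm⟩))
      · intro z hz h2; exact hy (Or.inr ⟨z, hz, h2.symm⟩)
    · rintro y ((h4 | ⟨z, hz, rfl⟩) | ⟨z, hz, rfl⟩) ((h5 | ⟨w, hw, h5⟩) | ⟨w, hw, h5⟩)
      · exact h4
      · exact h4
      · exact h4
      · exact h5
      · exact absurd h5.symm (hD.d3 z hz w hw)
      · exact absurd (hkf2 w hw) (by rw [h5]; exact r1 1 z hz)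
      · exact h5
      · exact absurd (hkf1 z hz) (by rw [← h5]; exact r2 0 w hw)
      · exact absurd (hkf2 w hw) (by rw [h5]; exact d01 (hkf1 z hz))
    · exact fun x hx => Or.inl (Or.inl hx)
    · exact fun x hx => Or.inl (Or.inl hx)
    · intro x hx; rw [h31.p1 x hx]; exact hD.d1 x hx
    · intro x hx; rw [h32.p1 x hx]; exact hD.d2 x hx
  exact ⟨_, Γ.mul_mem (Γ.mul_mem (Γ.mul_mem hc1 hc2) (Γ.inv_mem hc1)) (Γ.inv_mem hc2),
    h3.congr h31.p1 h32.p1, c1, hc1, c2, hc2, h31.pow3, h32.pow3, rfl⟩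

/-- gluing of `g` on `A` with the identity on `F` -/
theorem glue2 (h : SV Γ) {g : Equiv.Perm X} (hg : g ∈ Γ) {A F : Set X} (hA : IsClopen A)
    (hF : IsClopen F) (h1 : ∀ x ∈ A, x ∉ F) (h2 : ∀ x ∈ A, g x ∉ F) (h3 : ∃ p, p ∉ F ∧ p ∉ A)
    (h4 : ∃ p, p ∉ F ∧ ∀ x ∈ A, p ≠ g x) :
    ∃ x ∈ Γ, (∀ y ∈ F, x y = y) ∧ ∀ y ∈ A, x y = g y := by
  rcases A.eq_empty_or_nonempty with rfl | ⟨a, ha⟩
  · exact ⟨1, Γ.one_mem, fun _ _ => rfl, by simp⟩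
  obtain ⟨p, hpF, hpA⟩ := h3
  obtain ⟨q, hqF, hqA⟩ := h4
  obtain ⟨f, hf1, hf2, hf3, hf4, -⟩ := exists_split h.perf hF.compl.isOpen ⟨p, hpF⟩ (Fin 3)
  have d01 := Set.disjoint_left.1 (hf4 0 1 (by decide))
  have d02 := Set.disjoint_left.1 (hf4 0 2 (by decide))
  have d12 := Set.disjoint_left.1 (hf4 1 2 (by decide))
  obtain ⟨u, hu, hu1, hu2⟩ := h.vig Fᶜ A (f 0) hF.compl hA (hf1 0) h1 (hf3 0) ⟨a, ha⟩ (hf2 0)
    (ne_of_mem_not_mem hpF hpA) (by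
      obtain ⟨b, hb⟩ := hf2 1
      exact ne_of_mem_not_mem (hf3 1 hb) (fun h => d01 h hb))
  obtain ⟨w, hw, hw1, hw2⟩ := h.vig Fᶜ (g '' A) (f 1) hF.compl (h.img hg hA) (hf1 1)
    (by rintro _ ⟨x, hx, rfl⟩; exact h2 x hx) (hf3 1) ⟨g a, a, ha, rfl⟩ (hf2 1)
    (ne_of_mem_not_mem hqF (by rintro ⟨x, hx, h5⟩; exact hqA x hx h5.symm)) (by
      obtain ⟨b, hb⟩ := hf2 0
      exact ne_of_mem_not_mem (hf3 0 hb) (d01 hb))
  have hq : w * g * u⁻¹ ∈ Γ := Γ.mul_mem (Γ.mul_mem hw hg) (Γ.inv_mem hu)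
  have hqa : ∀ x ∈ u '' A, (w * g * u⁻¹) x ∈ f 1 := by
    rintro _ ⟨x, hx, rfl⟩
    show w (g (u⁻¹ (u x))) ∈ f 1
    rw [ia]
    exact hw1 _ ⟨x, hx, rfl⟩
  have hua : ∀ x ∈ u '' A, x ∈ f 0 := by
    rintro _ ⟨x, hx, rfl⟩
    exact hu1 x hx
  obtain ⟨k, hk, c, hc, hkc, h3c⟩ := exists_is3 h hq (h.img hu hA)
    (fun x hx h5 => d01 (hua _ h5) (hqa x hx)) (hf1 2).isOpen (hf2 2)
    (fun x hx h5 => d02 (hua x hx) h5) (fun x hx h5 => d12 (hqa x hx) h5)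
  refine ⟨w⁻¹ * c * u, Γ.mul_mem (Γ.mul_mem (Γ.inv_mem hw) hc) hu, fun y hy => ?_, fun y hy => ?_⟩
  · show w⁻¹ (c (u y)) = y
    rw [hu2 y (fun h5 => h5 hy), h3c.p4 y, Equiv.Perm.inv_eq_iff_eq, hw2 y (fun h5 => h5 hy)]
    · exact fun h5 => hf3 0 (hua _ h5) hy
    · exact fun x hx h5 => hf3 1 (hqa x hx) (h5 ▸ hy)
    · exact fun x hx h5 => hf3 2 (hkc x hx) (h5 ▸ hy)
  · show w⁻¹ (c (u y)) = g y
    rw [h3c.p1 _ ⟨y, hy, rfl⟩, Equiv.Perm.inv_eq_iff_eq]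
    show w (g (u⁻¹ (u y))) = _
    rw [ia]

/-- `f` is locally in `Γ` on `A` -/
def LG (Γ : Subgroup (Equiv.Perm X)) (A : Set X) (f : X → X) : Prop :=
  ∀ x ∈ A, ∃ g ∈ Γ, ∀ᶠ y in 𝓝 x, f y = g y

/-- extension of locally `Γ` injections -/
theorem ext (h : SV Γ) {A : Set X} (hA : IsClopen A) {f : X → X} (hf : LG Γ A f)
    (hinj : Set.InjOn f A) (h1 : ∃ p, p ∉ A) (h2 : ∃ p, ∀ x ∈ A, p ≠ f x) :
    ∃ g ∈ Γ, ∀ x ∈ A, g x = f x := by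
  let P : Set X → Prop := fun S => ∃ A', IsClopen A' ∧ A' ⊆ A ∧ S ⊆ A' ∧ ∃ g ∈ Γ, ∀ x ∈ A', g x = f x
  have h3 : P A := by
    apply IsCompact.induction_on (p := P) hA.isClosed.isCompact
    · exact ⟨∅, isClopen_empty, empty_subset _, Subset.rfl, 1, Γ.one_mem, by simp⟩
    · rintro s t hst ⟨A', a1, a2, a3, a4⟩
      exact ⟨A', a1, a2, hst.trans a3, a4⟩
    · rintro s t ⟨A', a1, a2, a3, g, hg, a4⟩ ⟨B', b1, b2, b3, k, hk, b4⟩
      obtain ⟨p, hp⟩ := h1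
      obtain ⟨q, hq⟩ := h2
      obtain ⟨x, hx, hx1, hx2⟩ := glue2 h (Γ.mul_mem (Γ.inv_mem hg) hk) (A := B' \ A') (F := A')
        (b1.diff a1) a1 (fun x hx => hx.2) (by
          intro x hx h5
          have h6 : g ((g⁻¹ * k) x) = k x := by
            show g (g⁻¹ (k x)) = k x
            rw [ai]
          rw [a4 _ h5, b4 x hx.1] at h6
          have h7 := hinj (a2 h5) (b2 hx.1) h6
          rw [h7] at h5
          exact hx.2 h5) ⟨p, fun h5 => hp (a2 h5), fun h5 => hp (b2 h5.1)⟩ (by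
          refine ⟨g⁻¹ q, fun h5 => ?_, fun x hx h5 => ?_⟩
          · have h6 := a4 _ h5
            rw [ai] at h6
            exact hq _ (a2 h5) h6
          · have h6 : q = k x := by
              have := congrArg g h5
              rw [ai] at this
              rw [this]
              show g (g⁻¹ (k x)) = k x
              rw [ai]
            rw [b4 x hx.1] at h6
            exact hq _ (b2 hx.1) h6)
      refine ⟨A' ∪ B', a1.union b1, union_subset a2 b2, union_subset_union a3 b3, g * x,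
        Γ.mul_mem hg hx, fun y hy => ?_⟩
      by_cases hyA : y ∈ A'
      · rw [Equiv.Perm.mul_apply, hx1 y hyA, a4 y hyA]
      · have hyB : y ∈ B' := hy.resolve_left hyA
        rw [Equiv.Perm.mul_apply, hx2 y ⟨hyB, hyA⟩]
        show g (g⁻¹ (k y)) = _
        rw [ai, b4 y hyB]
    · intro x hx
      obtain ⟨g, hg, hgx⟩ := hf x hx
      obtain ⟨W, hW1, hW2, hW3⟩ := mem_nhds_iff.1 hgx
      obtain ⟨V, hV, hxV, hVs⟩ := exists_clopen_nhds (hA.isOpen.inter hW2) ⟨hx, hW3⟩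
      exact ⟨V, mem_nhdsWithin_of_mem_nhds (hV.isOpen.mem_nhds hxV), V, hV,
        fun y hy => (hVs hy).1, Subset.rfl, g, hg, fun y hy => (hW1 (hVs hy).2).symm⟩
  obtain ⟨A', -, a2, a3, g, hg, a4⟩ := h3
  exact ⟨g, hg, fun x hx => a4 x (a3 hx)⟩

end Pool.Agent.N59.VG
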