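import Mathlib
import Pool.Agent.N59.VG.Glue

set_option autoImplicit false
set_option linter.unusedSectionVars false

/-!
# Simple vigorous groups: local maps, embeddings, generation by three-cycles
-/

namespace Pool.Agent.N59.VG

open Set Topology

variable {X : Type*} [TopologicalSpace X] [CompactSpace X] [T2Space X] [TotallyDisconnectedSpace X]
variable {Γ : Subgroup (Equiv.Perm X)}

lemma LG.mono {A B : Set X} {f : X → X} (h : LG Γ A f) (hB : B ⊆ A) : LG Γ B f :=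
  fun x hx => h x (hB hx)

lemma LG.of_mem {g : Equiv.Perm X} (hg : g ∈ Γ) (A : Set X) : LG Γ A g :=
  fun _ _ => ⟨g, hg, .of_forall fun _ => rfl⟩

lemma LG.congr {A : Set X} (hA : IsOpen A) {f f' : X → X} (h : LG Γ A f)
    (hff : ∀ x ∈ A, f x = f' x) : LG Γ A f' := by
  intro x hx
  obtain ⟨g, hg, hgx⟩ := h x hx
  refine ⟨g, hg, ?_⟩
  filter_upwards [hgx, hA.mem_nhds hx] with y hy hyA
  rw [← hff y hyA, hy]

lemma LG.contAt (h : SV Γ) {A : Set X} {f : X → X} (hf : LG Γ A f) {x : X} (hx : x ∈ A) :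
    ContinuousAt f x := by
  obtain ⟨g, hg, hgx⟩ := hf x hx
  exact (h.cont g hg).continuousAt.congr (hgx.mono fun y hy => hy.symm)

lemma LG.comp (h : SV Γ) {A B : Set X} {f f' : X → X} (hf : LG Γ A f) (hf' : LG Γ B f')
    (hAB : ∀ x ∈ A, f x ∈ B) : LG Γ A (fun x => f' (f x)) := by
  intro x hx
  obtain ⟨g, hg, hgx⟩ := hf x hx
  obtain ⟨k, hk, hkx⟩ := hf' (f x) (hAB x hx)
  refine ⟨k * g, Γ.mul_mem hk hg, ?_⟩
  have h1 := (hf.contAt h hx).eventually hkx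
  filter_upwards [h1, hgx] with y hy1 hy2
  rw [hy1, hy2]; rfl

lemma LG.trans (h : SV Γ) {D P f : X → X} {A : Set X} (hA : IsOpen A) (hD : LG Γ A D)
    (hP : LG Γ A P) (hf : ∀ x ∈ A, f (D x) = P x) : LG Γ (D '' A) f := by
  rintro _ ⟨x, hx, rfl⟩
  obtain ⟨d, hd, hdx⟩ := hD x hx
  obtain ⟨g, hg, hgx⟩ := hP x hx
  refine ⟨g * d⁻¹, Γ.mul_mem hg (Γ.inv_mem hd), ?_⟩
  have h1 : ∀ᶠ y in 𝓝 x, f (d y) = g y := by
    filter_upwards [hdx, hgx, hA.mem_nhds hx] with y h1 h2 h3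
    rw [← h1, ← h2, hf y h3]
  have h2 : D x = d x := hdx.self_of_nhds
  have h3 : Filter.Tendsto (d⁻¹ : Equiv.Perm X) (𝓝 (D x)) (𝓝 x) := by
    have := (h.cont _ (Γ.inv_mem hd)).tendsto (D x)
    rwa [h2, ia, ← h2] at this
  filter_upwards [h3.eventually h1] with y hy
  rw [ai] at hy
  exact hy

lemma LG.img_open (h : SV Γ) {A U : Set X} {f : X → X} (hf : LG Γ A f) (hU : IsOpen U)
    (hUA : U ⊆ A) : IsOpen (f '' U) := by
  rw [isOpen_iff_mem_nhds]
  rintro _ ⟨x, hx, rfl⟩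
  obtain ⟨g, hg, hgx⟩ := hf x (hUA hx)
  obtain ⟨W, hW1, hW2, hW3⟩ := mem_nhds_iff.1 hgx
  have h1 : IsOpen (g '' (U ∩ W)) := h.imgo hg (hU.inter hW2)
  have h2 : g '' (U ∩ W) ⊆ f '' U := by
    rintro _ ⟨y, hy, rfl⟩
    exact ⟨y, hy.1, hW1 hy.2⟩
  refine Filter.mem_of_superset (h1.mem_nhds ?_) h2
  exact ⟨x, ⟨hx, hW3⟩, (hW1 hW3).symm⟩

lemma LG.img_clopen (h : SV Γ) {A U : Set X} {f : X → X} (hf : LG Γ A f) (hU : IsClopen U)
    (hUA : U ⊆ A) : IsClopen (f '' U) := by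
  refine ⟨?_, hf.img_open h hU.isOpen hUA⟩
  have h1 : ContinuousOn f U := fun x hx => (hf.contAt h (hUA hx)).continuousWithinAt
  exact (hU.isClosed.isCompact.image_of_continuousOn h1).isClosed

/-- injective locally `Γ` self-maps -/
structure Emb (Γ : Subgroup (Equiv.Perm X)) (e : X → X) : Prop where
  lg : LG Γ univ e
  inj : Function.Injective e

lemma Emb.of_mem {g : Equiv.Perm X} (hg : g ∈ Γ) : Emb Γ g := ⟨LG.of_mem hg _, g.injective⟩

lemma Emb.id : Emb Γ (fun x => x) := ⟨LG.of_mem Γ.one_mem _, fun _ _ h => h⟩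

lemma Emb.comp (h : SV Γ) {e f : X → X} (he : Emb Γ e) (hf : Emb Γ f) :
    Emb Γ (fun x => f (e x)) :=
  ⟨he.lg.comp h hf.lg (fun _ _ => mem_univ _), hf.inj.comp he.inj⟩

lemma Emb.cont (h : SV Γ) {e : X → X} (he : Emb Γ e) : Continuous e :=
  continuous_iff_continuousAt.2 fun _ => he.lg.contAt h (mem_univ _)

lemma Emb.img (h : SV Γ) {e : X → X} (he : Emb Γ e) {A : Set X} (hA : IsClopen A) :
    IsClopen (e '' A) := he.lg.img_clopen h hA (subset_univ _)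

lemma Emb.range (h : SV Γ) {e : X → X} (he : Emb Γ e) : IsClopen (Set.range e) := by
  rw [← image_univ]; exact he.img h isClopen_univ

/-- the inverse of an embedding is locally in `Γ` -/
lemma Emb.inv (h : SV Γ) {e f : X → X} (he : Emb Γ e) (hf : ∀ x, f (e x) = x) :
    LG Γ (Set.range e) f := by
  rw [← image_univ]
  exact LG.trans h isOpen_univ he.lg Emb.id.lg (fun x _ => hf x)

lemma exists_emb (h : SV Γ) {O : Set X} (hO : IsOpen O) (hn : O.Nonempty) :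
    ∃ e, Emb Γ e ∧ ∀ x, e x ∈ O := by
  obtain ⟨f, hf1, hf2, hf3, hf4, l, hl1, hl2⟩ := exists_split h.perf hO hn (Fin 2)
  have d01 := Set.disjoint_left.1 (hf4 0 1 (by decide))
  obtain ⟨a0, ha0⟩ := hf2 0
  obtain ⟨a1, ha1⟩ := hf2 1
  obtain ⟨g0, hg0, hg01, -⟩ := h.vig univ (f 0) (f 0) isClopen_univ (hf1 0) (hf1 0)
    (subset_univ _) (subset_univ _) ⟨_, ha0⟩ ⟨_, ha0⟩ (ne_of_mem_not_mem (mem_univ l) (hl2 0))
    (ne_of_mem_not_mem (mem_univ l) (hl2 0))
  obtain ⟨g1, hg1, hg11, -⟩ := h.vig univ (f 0)ᶜ (f 1) isClopen_univ (hf1 0).compl (hf1 1)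
    (subset_univ _) (subset_univ _) ⟨_, hl2 0⟩ ⟨_, ha1⟩
    (ne_of_mem_not_mem (mem_univ a0) (fun h2 => h2 ha0))
    (ne_of_mem_not_mem (mem_univ l) (hl2 1))
  classical
  refine ⟨fun x => if x ∈ f 0 then g0 x else g1 x, ⟨?_, ?_⟩, ?_⟩
  · intro x _
    by_cases hx : x ∈ f 0
    · refine ⟨g0, hg0, ?_⟩
      filter_upwards [(hf1 0).isOpen.mem_nhds hx] with y hy
      simp [hy]
    · refine ⟨g1, hg1, ?_⟩
      filter_upwards [(hf1 0).compl.isOpen.mem_nhds hx] with y hy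
      have : y ∉ f 0 := hy
      simp [this]
  · intro x y hxy
    by_cases hx : x ∈ f 0 <;> by_cases hy : y ∈ f 0
    · simp only [hx, hy, if_true] at hxy
      exact g0.injective hxy
    · simp only [hx, hy, if_true, if_false] at hxy
      exact absurd (hg11 y hy) (d01 (hxy ▸ hg01 x hx))
    · simp only [hx, hy, if_true, if_false] at hxy
      exact absurd (hg11 x hx) (d01 (hxy ▸ hg01 y hy))
    · simp only [hx, hy, if_false] at hxy
      exact g1.injective hxy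
  · intro x
    by_cases hx : x ∈ f 0
    · simp only [hx, if_true]
      exact hf3 0 (hg01 x hx)
    · simp only [hx, if_false]
      exact hf3 1 (hg11 x hx)

lemma exists_embs (h : SV Γ) {O : Set X} (hO : IsOpen O) (hn : O.Nonempty) (ι : Type*) [Finite ι] :
    ∃ e : ι → X → X, (∀ i, Emb Γ (e i)) ∧ (∀ i x, e i x ∈ O) ∧
      (∀ i j x y, e i x = e j y → i = j) ∧ ∃ x ∈ O, ∀ i y, e i y ≠ x := by
  obtain ⟨f, hf1, hf2, hf3, hf4, l, hl1, hl2⟩ := exists_split h.perf hO hn ι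
  choose e he1 he2 using fun i => exists_emb h (hf1 i).isOpen (hf2 i)
  refine ⟨e, he1, fun i x => hf3 i (he2 i x), fun i j x y hxy => ?_, l, hl1, fun i y hy => ?_⟩
  · by_contra hij
    exact Set.disjoint_left.1 (hf4 i j hij) (he2 i x) (hxy ▸ he2 j y)
  · exact hl2 i (hy ▸ he2 i y)

/-- three-cycles between locally `Γ` maps, with room -/
theorem is3_mem (h : SV Γ) {A : Set X} (hA : IsClopen A) {u v : X → X} (hu : LG Γ A u)
    (hv : LG Γ A v) (hui : InjOn u A) (hvi : InjOn v A) (hD : D3 A u v)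
    (hroom : ∃ p, p ∉ A ∧ (∀ x ∈ A, p ≠ u x) ∧ ∀ x ∈ A, p ≠ v x) :
    ∃ c ∈ Γ, Is3 c A u v := by
  obtain ⟨p, hp1, hp2, hp3⟩ := hroom
  obtain ⟨g1, hg1, hgu⟩ := ext h hA hu hui ⟨p, hp1⟩ ⟨p, hp2⟩
  obtain ⟨g2, hg2, hgv⟩ := ext h hA hv hvi ⟨p, hp1⟩ ⟨p, hp3⟩
  obtain ⟨c, hc, hc3, -⟩ := exists_is3' h hg1 hg2 hA
    ⟨fun x hx => by rw [hgu x hx]; exact hD.d1 x hx, fun x hx => by rw [hgv x hx]; exact hD.d2 x hx,
      fun x hx y hy => by rw [hgu x hx, hgv y hy]; exact hD.d3 x hx y hy⟩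
    ⟨p, hp1, fun x hx => by rw [hgu x hx]; exact hp2 x hx,
      fun x hx => by rw [hgv x hx]; exact hp3 x hx⟩
  exact ⟨c, hc, hc3.congr hgu hgv⟩

/-- the set of three-cycles with room -/
def C3 (Γ : Subgroup (Equiv.Perm X)) : Set (Equiv.Perm X) :=
  {c | ∃ A : Set X, ∃ g1 ∈ Γ, ∃ g2 ∈ Γ, IsClopen A ∧ D3 A g1 g2 ∧
    (∃ p, p ∉ A ∧ (∀ x ∈ A, p ≠ g1 x) ∧ ∀ x ∈ A, p ≠ g2 x) ∧ Is3 c A g1 g2}

lemma C3.mem (h : SV Γ) {c : Equiv.Perm X} (hc : c ∈ C3 Γ) : c ∈ Γ := by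
  obtain ⟨A, g1, hg1, g2, hg2, hA, hD, hr, h3⟩ := hc
  obtain ⟨c', hc', h3', -⟩ := exists_is3' h hg1 hg2 hA hD hr
  rwa [h3.unique h3']

lemma C3.conj (h : SV Γ) {c t : Equiv.Perm X} (hc : c ∈ C3 Γ) (ht : t ∈ Γ) :
    t * c * t⁻¹ ∈ C3 Γ := by
  obtain ⟨A, g1, hg1, g2, hg2, hA, hD, ⟨p, hp1, hp2, hp3⟩, h3⟩ := hc
  refine ⟨t '' A, t * g1 * t⁻¹, Γ.mul_mem (Γ.mul_mem ht hg1) (Γ.inv_mem ht), t * g2 * t⁻¹,
    Γ.mul_mem (Γ.mul_mem ht hg2) (Γ.inv_mem ht), h.img ht hA, ⟨?_, ?_, ?_⟩, ⟨t p, ?_, ?_, ?_⟩,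
    h3.conj t⟩
  · rintro _ ⟨x, hx, rfl⟩ ⟨y, hy, hxy⟩
    apply hD.d1 x hx
    have h4 : t y = t (g1 (t⁻¹ (t x))) := hxy
    rw [ia] at h4
    rw [← t.injective h4]; exact hy
  · rintro _ ⟨x, hx, rfl⟩ ⟨y, hy, hxy⟩
    apply hD.d2 x hx
    have h4 : t y = t (g2 (t⁻¹ (t x))) := hxy
    rw [ia] at h4
    rw [← t.injective h4]; exact hy
  · rintro _ ⟨x, hx, rfl⟩ _ ⟨y, hy, rfl⟩ hxy
    have h4 : t (g1 (t⁻¹ (t x))) = t (g2 (t⁻¹ (t y))) := hxy
    rw [ia, ia] at h4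
    exact hD.d3 x hx y hy (t.injective h4)
  · rintro ⟨y, hy, hxy⟩
    rw [t.injective hxy] at hy
    exact hp1 hy
  · rintro _ ⟨y, hy, rfl⟩ hxy
    have h4 : t p = t (g1 (t⁻¹ (t y))) := hxy
    rw [ia] at h4
    exact hp2 y hy (t.injective h4)
  · rintro _ ⟨y, hy, rfl⟩ hxy
    have h4 : t p = t (g2 (t⁻¹ (t y))) := hxy
    rw [ia] at h4
    exact hp3 y hy (t.injective h4)

/-- `Γ` is generated by three-cycles -/
theorem gen3 (h : SV Γ) : Γ ≤ Subgroup.closure (C3 Γ) := by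
  have := h.ne
  apply h.simp
  · rw [Subgroup.closure_le]
    exact fun c hc => C3.mem h hc
  · intro n hn g hg
    induction hn using Subgroup.closure_induction with
    | mem x hx => exact Subgroup.subset_closure (C3.conj h hx hg)
    | one => simp
    | mul x y _ _ hx hy =>
      have : g * (x * y) * g⁻¹ = (g * x * g⁻¹) * (g * y * g⁻¹) := by group
      rw [this]; exact Subgroup.mul_mem _ hx hy
    | inv x _ hx =>
      have : g * x⁻¹ * g⁻¹ = (g * x * g⁻¹)⁻¹ := by group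
      rw [this]; exact Subgroup.inv_mem _ hx
  · obtain ⟨e, he1, -, he2, x, -, he3⟩ := exists_embs h isOpen_univ univ_nonempty (Fin 2)
    obtain ⟨f, hf1, hf2, hf3, hf4, l, -, hl2⟩ := exists_split h.perf isOpen_univ univ_nonempty
      (Fin 3)
    obtain ⟨a0, ha0⟩ := hf2 0
    obtain ⟨a1, ha1⟩ := hf2 1
    obtain ⟨a2, ha2⟩ := hf2 2
    have hne : ∀ i, f i ≠ univ := fun i => ne_of_mem_not_mem (mem_univ l) (hl2 i)
    have hne' : ∀ i, (f i)ᶜ ≠ univ := fun i => by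
      obtain ⟨a, ha⟩ := hf2 i
      exact ne_of_mem_not_mem (mem_univ a) (fun h2 => h2 ha)
    have d01 := Set.disjoint_left.1 (hf4 0 1 (by decide))
    have d02 := Set.disjoint_left.1 (hf4 0 2 (by decide))
    have d12 := Set.disjoint_left.1 (hf4 1 2 (by decide))
    obtain ⟨g1, hg1, hg11, -⟩ := h.vig univ (f 0) (f 1) isClopen_univ (hf1 0) (hf1 1)
      (subset_univ _) (subset_univ _) ⟨_, ha0⟩ ⟨_, ha1⟩ (hne _) (hne _)
    obtain ⟨g2, hg2, hg21, -⟩ := h.vig univ (f 0) (f 2) isClopen_univ (hf1 0) (hf1 2)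
      (subset_univ _) (subset_univ _) ⟨_, ha0⟩ ⟨_, ha2⟩ (hne _) (hne _)
    have hD : D3 (f 0) g1 g2 := ⟨fun x hx h2 => d01 h2 (hg11 x hx),
      fun x hx h2 => d02 h2 (hg21 x hx), fun x hx y hy h2 => d12 (hg11 x hx) (h2 ▸ hg21 y hy)⟩
    have hroom : ∃ p, p ∉ f 0 ∧ (∀ x ∈ f 0, p ≠ g1 x) ∧ ∀ x ∈ f 0, p ≠ g2 x :=
      ⟨l, hl2 0, fun x hx h2 => hl2 1 (h2 ▸ hg11 x hx), fun x hx h2 => hl2 2 (h2 ▸ hg21 x hx)⟩
    obtain ⟨c, hc, h3, -⟩ := exists_is3' h hg1 hg2 (hf1 0) hD hroom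
    refine ⟨c, Subgroup.subset_closure ⟨f 0, g1, hg1, g2, hg2, hf1 0, hD, hroom, h3⟩, fun h1 => ?_⟩
    have h4 := h3.p1 a0 ha0
    rw [h1] at h4
    exact d01 ha0 (by rw [show a0 = g1 a0 from h4]; exact hg11 _ ha0)

lemma exists_finite_closure {G : Type*} [Group G] {S : Set G} {x : G}
    (hx : x ∈ Subgroup.closure S) : ∃ F : Set G, F.Finite ∧ F ⊆ S ∧ x ∈ Subgroup.closure F := by
  induction hx using Subgroup.closure_induction with
  | mem x hx => exact ⟨{x}, finite_singleton _, by simpa using hx, Subgroup.subset_closure rfl⟩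
  | one => exact ⟨∅, finite_empty, empty_subset _, Subgroup.one_mem _⟩
  | mul x y _ _ hx hy =>
    obtain ⟨F1, a1, a2, a3⟩ := hx
    obtain ⟨F2, b1, b2, b3⟩ := hy
    exact ⟨F1 ∪ F2, a1.union b1, union_subset a2 b2, Subgroup.mul_mem _
      (Subgroup.closure_mono subset_union_left a3) (Subgroup.closure_mono subset_union_right b3)⟩
  | inv x _ hx =>
    obtain ⟨F1, a1, a2, a3⟩ := hx
    exact ⟨F1, a1, a2, Subgroup.inv_mem _ a3⟩

/-- `Γ` is generated by commutators of finitely many elements of order three -/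
theorem fingen (h : SV Γ) (hfg : Γ.FG) :
    ∃ (J : ℕ) (z : Fin J → Equiv.Perm X), (∀ j, z j ∈ Γ ∧ z j ^ 3 = 1) ∧
      ∀ H : Subgroup (Equiv.Perm X), (∀ j j', z j * z j' * (z j)⁻¹ * (z j')⁻¹ ∈ H) → Γ ≤ H := by
  obtain ⟨T, hT⟩ := hfg
  have h1 : ∀ t : T, ∃ F : Set (Equiv.Perm X), F.Finite ∧ F ⊆ C3 Γ ∧ t.1 ∈ Subgroup.closure F := by
    intro t
    apply exists_finite_closure
    apply gen3 h
    rw [← hT]
    exact Subgroup.subset_closure t.2
  choose F hF1 hF2 hF3 using h1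
  have hFin : (⋃ t, F t).Finite := finite_iUnion hF1
  have h2 : ∀ c : (⋃ t, F t : Set (Equiv.Perm X)), ∃ c1 ∈ Γ, ∃ c2 ∈ Γ, c1 ^ 3 = 1 ∧ c2 ^ 3 = 1 ∧
      c.1 = c1 * c2 * c1⁻¹ * c2⁻¹ := by
    rintro ⟨c, hc⟩
    obtain ⟨t, ht⟩ := mem_iUnion.1 hc
    obtain ⟨A, g1, hg1, g2, hg2, hA, hD, hr, h3⟩ := hF2 t ht
    obtain ⟨c', hc', h3', h4⟩ := exists_is3' h hg1 hg2 hA hD hr
    have h5 : c = c' := h3.unique h3'
    subst h5
    exact h4
  choose c1 hc1 c2 hc2 hc13 hc23 hcc using h2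
  have : Finite (⋃ t, F t : Set (Equiv.Perm X)) := hFin.to_subtype
  let U := (⋃ t, F t : Set (Equiv.Perm X))
  obtain ⟨J, ⟨e⟩⟩ := Finite.exists_equiv_fin (U ⊕ U)
  refine ⟨J, fun j => Sum.elim c1 c2 (e.symm j), fun j => ?_, fun H hH => ?_⟩
  · show Sum.elim c1 c2 (e.symm j) ∈ Γ ∧ Sum.elim c1 c2 (e.symm j) ^ 3 = 1
    rcases e.symm j with u | u
    · exact ⟨hc1 u, hc13 u⟩
    · exact ⟨hc2 u, hc23 u⟩
  · rw [← hT, Subgroup.closure_le]
    intro t ht
    have h5 : Subgroup.closure (F ⟨t, ht⟩) ≤ H := by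
      rw [Subgroup.closure_le]
      intro c hc
      have h6 := hH (e (Sum.inl ⟨c, mem_iUnion.2 ⟨_, hc⟩⟩)) (e (Sum.inr ⟨c, mem_iUnion.2 ⟨_, hc⟩⟩))
      simp only [Equiv.symm_apply_apply, Sum.elim_inl, Sum.elim_inr] at h6
      rw [← hcc] at h6
      exact h6
    exact h5 (hF3 ⟨t, ht⟩)

/-! ### transport along embeddings -/

section Via
variable {α β : Type*}

lemma Is3.via {c : Equiv.Perm α} {A : Set α} {u v : α → α} (h : Is3 c A u v) (ι : α ↪ β)
    {u' v' : β → β} (hu : ∀ x ∈ A, u' (ι x) = ι (u x)) (hv : ∀ x ∈ A, v' (ι x) = ι (v x)) :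
    Is3 (c.viaEmbedding ι) (ι '' A) u' v' where
  p1 := by
    rintro _ ⟨x, hx, rfl⟩
    rw [Equiv.Perm.viaEmbedding_apply, hu x hx, h.p1 x hx]
  p2 := by
    rintro _ ⟨x, hx, rfl⟩
    rw [hu x hx, Equiv.Perm.viaEmbedding_apply, hv x hx, h.p2 x hx]
  p3 := by
    rintro _ ⟨x, hx, rfl⟩
    rw [hv x hx, Equiv.Perm.viaEmbedding_apply, h.p3 x hx]
  p4 := by
    intro y h1 h2 h3
    by_cases hy : y ∈ Set.range ι
    · obtain ⟨z, rfl⟩ := hy
      rw [Equiv.Perm.viaEmbedding_apply]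
      congr 1
      apply h.p4
      · exact fun h4 => h1 ⟨z, h4, rfl⟩
      · intro x hx h4
        exact h2 _ ⟨x, hx, rfl⟩ (by rw [hu x hx, h4])
      · intro x hx h4
        exact h3 _ ⟨x, hx, rfl⟩ (by rw [hv x hx, h4])
    · exact Equiv.Perm.viaEmbedding_apply_of_notMem _ _ _ hy

lemma Is3.union {c1 c2 : Equiv.Perm α} {A1 A2 : Set α} {u v : α → α} (h1 : Is3 c1 A1 u v)
    (h2 : Is3 c2 A2 u v) (hD : D3 (A1 ∪ A2) u v) (hu : InjOn u (A1 ∪ A2))
    (hv : InjOn v (A1 ∪ A2)) (hd : ∀ x ∈ A1, x ∉ A2) : Is3 (c1 * c2) (A1 ∪ A2) u v where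
  p1 := by
    rintro x (hx | hx)
    · rw [Equiv.Perm.mul_apply, h2.p4 x (hd x hx), h1.p1 x hx]
      · exact fun y hy h3 => hD.d1 y (Or.inr hy) (h3 ▸ Or.inl hx)
      · exact fun y hy h3 => hD.d2 y (Or.inr hy) (h3 ▸ Or.inl hx)
    · rw [Equiv.Perm.mul_apply, h2.p1 x hx, h1.p4]
      · exact fun h3 => hD.d1 x (Or.inr hx) (Or.inl h3)
      · exact fun y hy h3 => hd y hy (hu (Or.inr hx) (Or.inl hy) h3 ▸ hx)
      · exact fun y hy h3 => hD.d3 x (Or.inr hx) y (Or.inl hy) h3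
  p2 := by
    rintro x (hx | hx)
    · rw [Equiv.Perm.mul_apply, h2.p4 (u x), h1.p2 x hx]
      · exact fun h3 => hD.d1 x (Or.inl hx) (Or.inr h3)
      · exact fun y hy h3 => hd x hx (hu (Or.inl hx) (Or.inr hy) h3 ▸ hy)
      · exact fun y hy h3 => hD.d3 x (Or.inl hx) y (Or.inr hy) h3
    · rw [Equiv.Perm.mul_apply, h2.p2 x hx, h1.p4]
      · exact fun h3 => hD.d2 x (Or.inr hx) (Or.inl h3)
      · exact fun y hy h3 => hD.d3 y (Or.inl hy) x (Or.inr hx) h3.symm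
      · exact fun y hy h3 => hd y hy (hv (Or.inr hx) (Or.inl hy) h3 ▸ hx)
  p3 := by
    rintro x (hx | hx)
    · rw [Equiv.Perm.mul_apply, h2.p4 (v x), h1.p3 x hx]
      · exact fun h3 => hD.d2 x (Or.inl hx) (Or.inr h3)
      · exact fun y hy h3 => hD.d3 y (Or.inr hy) x (Or.inl hx) h3.symm
      · exact fun y hy h3 => hd x hx (hv (Or.inl hx) (Or.inr hy) h3 ▸ hy)
    · rw [Equiv.Perm.mul_apply, h2.p3 x hx, h1.p4]
      · exact fun h3 => hd x h3 hx
      · exact fun y hy h3 => hD.d1 y (Or.inl hy) (h3 ▸ Or.inr hx)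
      · exact fun y hy h3 => hD.d2 y (Or.inl hy) (h3 ▸ Or.inr hx)
  p4 := by
    intro y h3 h4 h5
    rw [Equiv.Perm.mul_apply, h2.p4 y (fun h => h3 (Or.inr h)) (fun x hx => h4 x (Or.inr hx))
      (fun x hx => h5 x (Or.inr hx)), h1.p4 y (fun h => h3 (Or.inl h))
      (fun x hx => h4 x (Or.inl hx)) (fun x hx => h5 x (Or.inl hx))]

end Via

/-- transport of `Γ` along an embedding which is not surjective -/
theorem via_mem (h : SV Γ) {e : X ↪ X} (he : Emb Γ e) (hr : ∃ p, ∀ x, p ≠ e x)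
    {g : Equiv.Perm X} (hg : g ∈ Γ) : g.viaEmbedding e ∈ Γ := by
  have := h.ne
  obtain ⟨p, hp⟩ := hr
  have key : ∀ c ∈ C3 Γ, c.viaEmbedding e ∈ Γ := by
    rintro c ⟨A, g1, hg1, g2, hg2, hA, hD, hroom, h3⟩
    have hinv : ∀ x, Function.invFun e (e x) = x := Function.leftInverse_invFun e.injective
    have hlg : LG Γ (Set.range e) (Function.invFun e) := he.inv h hinv
    have hk : ∀ k ∈ Γ, LG Γ (e '' A) (fun x => e (k (Function.invFun e x))) := by
      intro k hk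
      have h4 : LG Γ (e '' A) (fun x => k (Function.invFun e x)) :=
        (hlg.mono (image_subset_range _ _)).comp h (LG.of_mem hk univ) (fun _ _ => mem_univ _)
      exact h4.comp h he.lg (fun _ _ => mem_univ _)
    have hki : ∀ k : Equiv.Perm X, InjOn (fun x => e (k (Function.invFun e x))) (e '' A) := by
      rintro k _ ⟨x, hx, rfl⟩ _ ⟨y, hy, rfl⟩ hxy
      simp only [hinv] at hxy
      rw [k.injective (e.injective hxy)]
    obtain ⟨c', hc', h3'⟩ := is3_mem h (he.img h hA) (hk g1 hg1) (hk g2 hg2) (hki g1) (hki g2)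
      (by
        refine ⟨?_, ?_, ?_⟩
        · rintro _ ⟨x, hx, rfl⟩ ⟨y, hy, hxy⟩
          simp only [hinv] at hxy
          exact hD.d1 x hx (e.injective hxy ▸ hy)
        · rintro _ ⟨x, hx, rfl⟩ ⟨y, hy, hxy⟩
          simp only [hinv] at hxy
          exact hD.d2 x hx (e.injective hxy ▸ hy)
        · rintro _ ⟨x, hx, rfl⟩ _ ⟨y, hy, rfl⟩ hxy
          simp only [hinv] at hxy
          exact hD.d3 x hx y hy (e.injective hxy))
      ⟨p, by rintro ⟨x, -, h4⟩; exact hp x h4.symm, fun x _ => hp _, fun x _ => hp _⟩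
    have h5 := h3.via e (u' := fun x => e (g1 (Function.invFun e x)))
      (v' := fun x => e (g2 (Function.invFun e x))) (fun x _ => by simp only [hinv])
      (fun x _ => by simp only [hinv])
    rwa [h5.unique h3']
  have h6 : Γ ≤ Γ.comap (Equiv.Perm.viaEmbeddingHom e) := by
    refine (gen3 h).trans ?_
    rw [Subgroup.closure_le]
    intro c hc
    exact key c hc
  exact h6 hg

/-- the criterion: a subgroup which contains a transported copy of `Γ` and can move points into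
the range of the embedding is everything -/
theorem criterion (h : SV Γ) {e : X ↪ X} (he : Emb Γ e) {H : Subgroup (Equiv.Perm X)} (hH : H ≤ Γ)
    (h1 : ∀ g ∈ Γ, g.viaEmbedding e ∈ H)
    (h2 : ∀ S : Finset X, ∃ t ∈ H, ∀ s ∈ S, t s ∈ Set.range e) : Γ ≤ H := by
  have := h.ne
  classical
  refine (gen3 h).trans ?_
  rw [Subgroup.closure_le]
  rintro c ⟨A, u, hu, v, hv, hA, hD, ⟨p, hp1, hp2, hp3⟩, h3⟩
  have hYr : IsClopen (Set.range e) := he.range h
  have hinv : ∀ x, Function.invFun e (e x) = x := Function.leftInverse_invFun e.injective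
  have hlg : LG Γ (Set.range e) (Function.invFun e) := he.inv h hinv
  let P : Set X → Prop := fun S => ∃ A', IsClopen A' ∧ A' ⊆ A ∧ S ⊆ A' ∧
    ∀ A'', IsClopen A'' → A'' ⊆ A' → ∀ c'', Is3 c'' A'' u v → c'' ∈ H
  have hP : P A := by
    apply IsCompact.induction_on (p := P) hA.isClosed.isCompact
    · refine ⟨∅, isClopen_empty, empty_subset _, Subset.rfl, fun A'' _ hA'' c'' hc'' => ?_⟩
      obtain rfl : A'' = ∅ := subset_empty_iff.1 hA''
      have : c'' = 1 := hc''.unique ⟨by simp, by simp, by simp, by simp⟩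
      rw [this]; exact H.one_mem
    · rintro s t hst ⟨A', a1, a2, a3, a4⟩
      exact ⟨A', a1, a2, hst.trans a3, a4⟩
    · rintro s t ⟨A', a1, a2, a3, a4⟩ ⟨B', b1, b2, b3, b4⟩
      refine ⟨A' ∪ B', a1.union b1, union_subset a2 b2, union_subset_union a3 b3,
        fun A'' hA'' hA''s c'' hc'' => ?_⟩
      have hsub : A'' ⊆ A := hA''s.trans (union_subset a2 b2)
      have hex : ∀ C, IsClopen C → C ⊆ A → ∃ c, Is3 c C u v := by
        intro C hC hCA
        obtain ⟨c', hc', h3', -⟩ := exists_is3' h hu hv hC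
          ⟨fun x hx h4 => hD.d1 x (hCA hx) (hCA h4), fun x hx h4 => hD.d2 x (hCA hx) (hCA h4),
            fun x hx y hy => hD.d3 x (hCA hx) y (hCA hy)⟩
          ⟨p, fun h4 => hp1 (hCA h4), fun x hx => hp2 x (hCA hx), fun x hx => hp3 x (hCA hx)⟩
        exact ⟨c', h3'⟩
      obtain ⟨c1, hc1⟩ := hex (A'' ∩ A') (hA''.inter a1) (inter_subset_left.trans hsub)
      obtain ⟨c2, hc2⟩ := hex (A'' \ A') (hA''.diff a1) (sdiff_subset.trans hsub)
      have hun : A'' ∩ A' ∪ A'' \ A' = A'' := inter_union_sdiff _ _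
      have h4 : Is3 (c1 * c2) A'' u v := by
        have := hc1.union hc2 (by
          rw [hun]
          exact ⟨fun x hx h4 => hD.d1 x (hsub hx) (hsub h4),
            fun x hx h4 => hD.d2 x (hsub hx) (hsub h4),
            fun x hx y hy => hD.d3 x (hsub hx) y (hsub hy)⟩) (u.injective.injOn)
            (v.injective.injOn) (fun x hx hx2 => hx2.2 hx.2)
        rwa [hun] at this
      rw [hc''.unique h4]
      refine H.mul_mem (a4 _ (hA''.inter a1) inter_subset_right _ hc1)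
        (b4 _ (hA''.diff a1) ?_ _ hc2)
      rintro x ⟨hx1, hx2⟩
      exact (hA''s hx1).resolve_left hx2
    · intro x hx
      obtain ⟨t, ht, htS⟩ := h2 {x, u x, v x}
      have hx1 : t x ∈ Set.range e := htS x (by simp)
      have hx2 : t (u x) ∈ Set.range e := htS (u x) (by simp)
      have hx3 : t (v x) ∈ Set.range e := htS (v x) (by simp)
      obtain ⟨q, hqY, hq⟩ : ((Set.range e) \ {t x, t (u x), t (v x)}).Nonempty :=
        ((h.perf _ hYr.isOpen ⟨_, hx1⟩).sdiff (by simp)).nonempty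
      simp only [mem_insert_iff, mem_singleton_iff, not_or] at hq
      have ct := h.cont t (hH ht)
      have cu := h.cont u hu
      have cv := h.cont v hv
      obtain ⟨A', hA', hxA', hA's, hA'a⟩ := exists_clopen_avoid
        (U := A ∩ (t ⁻¹' (Set.range e) ∩ ((fun y => t (u y)) ⁻¹' (Set.range e) ∩
          (fun y => t (v y)) ⁻¹' (Set.range e))))
        (hA.isOpen.inter ((hYr.isOpen.preimage ct).inter ((hYr.isOpen.preimage (ct.comp cu)).inter
          (hYr.isOpen.preimage (ct.comp cv))))) ⟨hx, hx1, hx2, hx3⟩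
        (s := {t⁻¹ q, u⁻¹ (t⁻¹ q), v⁻¹ (t⁻¹ q)}) (by simp) (by
          simp only [mem_insert_iff, mem_singleton_iff, not_or]
          refine ⟨fun h4 => hq.1 ?_, fun h4 => hq.2.1 ?_, fun h4 => hq.2.2 ?_⟩
          · rw [h4, ai]
          · rw [h4, ai, ai]
          · rw [h4, ai, ai])
      refine ⟨A', mem_nhdsWithin_of_mem_nhds (hA'.isOpen.mem_nhds hxA'), A', hA',
        fun y hy => (hA's hy).1, Subset.rfl, fun A'' hA'' hA''s c'' hc'' => ?_⟩
      have a1 : ∀ y ∈ A'', y ∈ A := fun y hy => (hA's (hA''s hy)).1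
      have a2 : ∀ y ∈ A'', t y ∈ Set.range e := fun y hy => (hA's (hA''s hy)).2.1
      have a3 : ∀ y ∈ A'', t (u y) ∈ Set.range e := fun y hy => (hA's (hA''s hy)).2.2.1
      have a4 : ∀ y ∈ A'', t (v y) ∈ Set.range e := fun y hy => (hA's (hA''s hy)).2.2.2
      have htΓ := hH ht
      -- the pulled back three-cycle
      let A0 : Set X := e ⁻¹' (t '' A'')
      have hA0 : IsClopen A0 := (h.img htΓ hA'').preimage (he.cont h)
      have hA0' : e '' A0 = t '' A'' := by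
        rw [image_preimage_eq_inter_range]
        apply inter_eq_left.2
        rintro _ ⟨y, hy, rfl⟩
        exact a2 y hy
      have hm : ∀ y ∈ A0, t⁻¹ (e y) ∈ A'' := by
        rintro y ⟨w, hw, hwy⟩
        rw [← hwy, ia]; exact hw
      have hgen : ∀ k ∈ Γ, (∀ y ∈ A'', t (k y) ∈ Set.range e) →
          LG Γ A0 (fun y => Function.invFun e (t (k (t⁻¹ (e y))))) ∧
          InjOn (fun y => Function.invFun e (t (k (t⁻¹ (e y))))) A0 ∧
          ∀ y ∈ A0, e (Function.invFun e (t (k (t⁻¹ (e y))))) = t (k (t⁻¹ (e y))) := by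
        intro k hk hk2
        have h5 : ∀ y ∈ A0, e (Function.invFun e (t (k (t⁻¹ (e y))))) = t (k (t⁻¹ (e y))) := by
          intro y hy
          exact Function.invFun_eq (hk2 _ (hm y hy))
        refine ⟨?_, ?_, h5⟩
        · have h6 : LG Γ A0 (fun y => (t * k * t⁻¹) (e y)) :=
            (he.lg.mono (subset_univ _)).comp h (LG.of_mem
              (Γ.mul_mem (Γ.mul_mem htΓ hk) (Γ.inv_mem htΓ)) univ) (fun _ _ => mem_univ _)
          exact h6.comp h hlg (fun y hy => hk2 _ (hm y hy))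
        · intro y hy w hw hyw
          have h7 : t (k (t⁻¹ (e y))) = t (k (t⁻¹ (e w))) := by
            rw [← h5 y hy, ← h5 w hw]
            exact congrArg e hyw
          exact e.injective (t⁻¹.injective (k.injective (t.injective h7)))
      obtain ⟨u1, u2, u3⟩ := hgen u hu a3
      obtain ⟨v1, v2, v3⟩ := hgen v hv a4
      have hqt : ∀ y ∈ A'', t y ≠ q := fun y hy h5 => hA'a (t⁻¹ q) (by simp)
        (by rw [← h5, ia]; exact hA''s hy)
      have hqu : ∀ y ∈ A'', t (u y) ≠ q := fun y hy h5 => hA'a (u⁻¹ (t⁻¹ q)) (by simp)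
        (by rw [← h5, ia, ia]; exact hA''s hy)
      have hqv : ∀ y ∈ A'', t (v y) ≠ q := fun y hy h5 => hA'a (v⁻¹ (t⁻¹ q)) (by simp)
        (by rw [← h5, ia, ia]; exact hA''s hy)
      obtain ⟨q0, hq0⟩ := hqY
      have hm' : ∀ y ∈ A0, e y = t (t⁻¹ (e y)) := fun y _ => by rw [ai]
      obtain ⟨c0, hc0, h30⟩ := is3_mem h hA0 u1 v1 u2 v2 (by
        refine ⟨fun y hy h5 => ?_, fun y hy h5 => ?_, fun y hy w hw h5 => ?_⟩
        · have h6 := hm _ h5
          rw [u3 y hy, ia] at h6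
          exact hD.d1 _ (a1 _ (hm y hy)) (a1 _ h6)
        · have h6 := hm _ h5
          rw [v3 y hy, ia] at h6
          exact hD.d2 _ (a1 _ (hm y hy)) (a1 _ h6)
        · have h6 := congrArg e h5
          rw [u3 y hy, v3 w hw] at h6
          exact hD.d3 _ (a1 _ (hm y hy)) _ (a1 _ (hm w hw)) (t.injective h6))
        ⟨q0, fun h5 => hqt _ (hm _ h5) (by rw [ai, hq0]), fun y hy h5 => hqu _ (hm y hy) (by
          rw [← u3 y hy, ← h5, hq0]), fun y hy h5 => hqv _ (hm y hy) (by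
          rw [← v3 y hy, ← h5, hq0])⟩
      have h5 := h30.via e (u' := fun y => t (u (t⁻¹ y))) (v' := fun y => t (v (t⁻¹ y)))
        (fun y hy => (u3 y hy).symm) (fun y hy => (v3 y hy).symm)
      rw [hA0'] at h5
      have h6 := (hc''.conj t).unique h5
      have h7 := h1 c0 hc0
      rw [← h6] at h7
      have h8 := H.mul_mem (H.mul_mem (H.inv_mem ht) h7) ht
      have h9 : t⁻¹ * (t * c'' * t⁻¹) * t = c'' := by group
      rwa [h9] at h8
  obtain ⟨A', -, a2, a3, a4⟩ := hP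
  exact a4 A hA a3 c h3

end Pool.Agent.N59.VG
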