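import Mathlib
import Pool.Agent.N59.VG.Core

set_option autoImplicit false
set_option linter.unusedSectionVars false

/-!
# The element `σ`
-/

namespace Pool.Agent.N59.VG

open Set

section
variable {C : Type*} [Fintype C] [DecidableEq C] {n : Option C → ℕ} {X R : Type*} {p : ℕ}

/-- the product of the rotations and the elements `z` -/
def sig (n : Option C → ℕ) (p : ℕ) (R : Type*) (z : Option C → Equiv.Perm X) :
    Equiv.Perm ((Idx n × X) ⊕ (ZMod p × R)) :=
  rho (rotv fun _ => 1) * gam (fun m => z m.1) * rotinf 1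

lemma sig_pow_inl (z : Option C → Equiv.Perm X) (k : ℕ) (c : Option C) (i : ZMod (n c)) (x : X) :
    (sig n p R z ^ k) (Sum.inl (⟨c, i⟩, x)) = Sum.inl (⟨c, i + k⟩, (z c ^ k) x) := by
  induction k with
  | zero => simp
  | succ k ih =>
    rw [pow_succ', Equiv.Perm.mul_apply, ih]
    simp only [sig, Equiv.Perm.mul_apply, rotinf_inl, gam_inl, rho_inl, rotv_mk, pow_succ']
    push_cast
    rw [add_assoc]

lemma sig_pow_inr (z : Option C → Equiv.Perm X) (k : ℕ) (w : ZMod p) (r : R) :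
    (sig n p R z ^ k) (Sum.inr (w, r)) = Sum.inr (w + k, r) := by
  induction k with
  | zero => simp
  | succ k ih =>
    rw [pow_succ', Equiv.Perm.mul_apply, ih]
    simp only [sig, Equiv.Perm.mul_apply, rotinf_inr, gam_inr, rho_inr]
    push_cast
    rw [add_assoc]

/-- the coprimality conditions -/
structure Cop (n : Option C → ℕ) (p : ℕ) : Prop where
  h0 : ∀ c, n c ≠ 0
  hp0 : p ≠ 0
  h1 : ∀ c c', c ≠ c' → Nat.Coprime (n c) (n c')
  h2 : ∀ c, Nat.Coprime (n c) 3
  h3 : ∀ c, Nat.Coprime (n c) p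
  h4 : Nat.Coprime 3 p

lemma Cop.crt (h : Cop n p) (b : Option C → ℕ) (x y : ℕ) :
    ∃ k : ℕ, (∀ c, k ≡ b c [MOD n c]) ∧ k ≡ x [MOD 3] ∧ k ≡ y [MOD p] := by
  let s : Option C ⊕ Bool → ℕ := Sum.elim n (fun i => if i then p else 3)
  let a : Option C ⊕ Bool → ℕ := Sum.elim b (fun i => if i then y else x)
  have hs : ∀ i ∈ (Finset.univ : Finset (Option C ⊕ Bool)), s i ≠ 0 := by
    rintro (c | i) -
    · exact h.h0 c
    · cases i
      · simp [s]
      · simpa [s] using h.hp0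
  have hpp : Set.Pairwise (↑(Finset.univ : Finset (Option C ⊕ Bool)))
      (Function.onFun Nat.Coprime s) := by
    rintro (c | i) - (c' | j) - hij
    · exact h.h1 c c' (fun h2 => hij (by rw [h2]))
    · cases j
      · simpa [s, Function.onFun] using h.h2 c
      · simpa [s, Function.onFun] using h.h3 c
    · cases i
      · simpa [s, Function.onFun] using (h.h2 c').symm
      · simpa [s, Function.onFun] using (h.h3 c').symm
    · cases i <;> cases j
      · exact absurd rfl hij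
      · simpa [s, Function.onFun] using h.h4
      · simpa [s, Function.onFun] using h.h4.symm
      · exact absurd rfl hij
  obtain ⟨k, hk⟩ := Nat.chineseRemainderOfFinset a s Finset.univ hs hpp
  refine ⟨k, fun c => ?_, ?_, ?_⟩
  · exact hk (Sum.inl c) (Finset.mem_univ _)
  · have := hk (Sum.inr false) (Finset.mem_univ _)
    simpa [s, a] using this
  · have := hk (Sum.inr true) (Finset.mem_univ _)
    simpa [s, a] using this

variable {H : Subgroup (Equiv.Perm ((Idx n × X) ⊕ (ZMod p × R)))}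

lemma pow_mod3 {g : Equiv.Perm X} (hg : g ^ 3 = 1) {k x : ℕ} (h : k ≡ x [MOD 3]) :
    g ^ k = g ^ x := by
  rw [← Nat.div_add_mod k 3, ← Nat.div_add_mod x 3, pow_add, pow_add, pow_mul, pow_mul, hg,
    one_pow, one_pow, h]

lemma Cop.rot (h : Cop n p) {z : Option C → Equiv.Perm X} (hz : ∀ c, z c ^ 3 = 1)
    (hs : sig n p R z ∈ H) (b : ∀ c, ZMod (n c)) : rho (rotv b) ∈ H := by
  have : ∀ c, NeZero (n c) := fun c => ⟨h.h0 c⟩
  obtain ⟨k, h1, h2, h3⟩ := h.crt (fun c => (b c).val) 0 0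
  have h4 : (sig n p R z) ^ k = rho (rotv b) := by
    ext q
    rcases q with ⟨⟨c, i⟩, x⟩ | ⟨w, r⟩
    · rw [sig_pow_inl, rho_inl, rotv_mk, pow_mod3 (hz c) h2]
      have h5 : ((k : ℕ) : ZMod (n c)) = b c := by
        rw [(ZMod.natCast_eq_natCast_iff _ _ _).2 (h1 c), ZMod.natCast_zmod_val]
      rw [h5]; rfl
    · rw [sig_pow_inr, rho_inr, (ZMod.natCast_eq_natCast_iff _ _ _).2 h3]
      simp
  rw [← h4]; exact H.pow_mem hs k

lemma Cop.rinf (h : Cop n p) {z : Option C → Equiv.Perm X} (hz : ∀ c, z c ^ 3 = 1)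
    (hs : sig n p R z ∈ H) (w : ZMod p) : rotinf w ∈ H := by
  have : NeZero p := ⟨h.hp0⟩
  obtain ⟨k, h1, h2, h3⟩ := h.crt (fun c => 0) 0 w.val
  have h4 : (sig n p R z) ^ k = rotinf w := by
    ext q
    rcases q with ⟨⟨c, i⟩, x⟩ | ⟨w', r⟩
    · rw [sig_pow_inl, rotinf_inl, pow_mod3 (hz c) h2, (ZMod.natCast_eq_natCast_iff _ _ _).2 (h1 c)]
      simp
    · rw [sig_pow_inr, rotinf_inr, (ZMod.natCast_eq_natCast_iff _ _ _).2 h3,
        ZMod.natCast_zmod_val]
  rw [← h4]; exact H.pow_mem hs k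

lemma Cop.gam (h : Cop n p) {z : Option C → Equiv.Perm X} (hz : ∀ c, z c ^ 3 = 1)
    (hs : sig n p R z ∈ H) : gam (fun m => z m.1) ∈ H := by
  obtain ⟨k, h1, h2, h3⟩ := h.crt (fun c => 0) 1 0
  have h4 : (sig n p R z) ^ k = VG.gam (fun m => z m.1) := by
    ext q
    rcases q with ⟨⟨c, i⟩, x⟩ | ⟨w', r⟩
    · rw [sig_pow_inl, gam_inl, pow_mod3 (hz c) h2, (ZMod.natCast_eq_natCast_iff _ _ _).2 (h1 c)]
      simp
    · rw [sig_pow_inr, gam_inr, (ZMod.natCast_eq_natCast_iff _ _ _).2 h3]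
      simp
  rw [← h4]; exact H.pow_mem hs k

end

/-! ### existence of the lengths -/

lemma coprime_aux {L i j : ℕ} (hij : i < j) (hL : ∀ d, 0 < d → d ≤ j → d ∣ L) :
    Nat.Coprime (1 + (i + 1) * L) (1 + (j + 1) * L) := by
  rw [Nat.coprime_iff_gcd_eq_one]
  by_contra hne
  obtain ⟨q, hq, hqd⟩ := Nat.exists_prime_and_dvd hne
  have h1 : q ∣ 1 + (i + 1) * L := hqd.trans (Nat.gcd_dvd_left _ _)
  have h2 : q ∣ 1 + (j + 1) * L := hqd.trans (Nat.gcd_dvd_right _ _)
  have h3 : q ∣ (j - i) * L := by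
    have h4 := (Nat.dvd_sub h2 h1)
    have h5 : 1 + (j + 1) * L - (1 + (i + 1) * L) = (j - i) * L := by
      rw [Nat.add_sub_add_left, ← Nat.sub_mul]
      congr 1
      omega
    rwa [h5] at h4
  have h6 : ¬ q ∣ L := by
    intro h7
    have h8 := (Nat.dvd_add_right (h7.mul_left (i + 1))).1 (by rwa [add_comm] at h1)
    exact hq.one_lt.ne' (Nat.dvd_one.1 h8)
  rcases (Nat.Prime.dvd_mul hq).1 h3 with h7 | h7
  · exact h6 ((h7.trans (hL (j - i) (by omega) (by omega))))
  · exact h6 h7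

/-- existence of the lengths -/
lemma exists_len (c q b : ℕ) (hq : 0 < q) (hb : 0 < b) : ∃ n : Option (Fin c) → ℕ,
    (∀ i, n i ≡ 1 [MOD q]) ∧ (∀ i, b < n i) ∧ (∀ i j, i ≠ j → Nat.Coprime (n i) (n j)) ∧
    (∑ i, n (some i)) + b < n none := by
  let L : ℕ := (c + 1).factorial * q * b
  have hL0 : 0 < L := by positivity
  let m : Fin c → ℕ := fun i => 1 + (i + 1) * L
  have hm1 : ∀ i, m i ≡ 1 [MOD q] := by
    intro i
    have : q ∣ (i + 1) * L := Dvd.dvd.mul_left ((dvd_mul_left q _).mul_right b) _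
    exact (Nat.modEq_iff_dvd' (by simp [m])).2 (by simpa [m] using this) |>.symm
  have hmb : ∀ i, b < m i := by
    intro i
    have : b ≤ L := Nat.le_mul_of_pos_left b (by positivity)
    have h2 : L ≤ (i + 1) * L := Nat.le_mul_of_pos_left L (by positivity)
    simp only [m]; omega
  have hLd : ∀ d, 0 < d → d ≤ c → d ∣ L := by
    intro d h1 h2
    have : d ∣ (c + 1).factorial := Nat.dvd_factorial h1 (by omega)
    exact (this.mul_right q).mul_right b
  let N : ℕ := 1 + (∏ i, m i) * (q * (b + ∑ i, m i))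
  have hprod : 0 < ∏ i, m i := Finset.prod_pos fun i _ => by simp only [m]; positivity
  have hN : (∑ i, m i) + b < N := by
    have h1 : b + ∑ i, m i ≤ q * (b + ∑ i, m i) := Nat.le_mul_of_pos_left _ hq
    have h2 : q * (b + ∑ i, m i) ≤ (∏ i, m i) * (q * (b + ∑ i, m i)) :=
      Nat.le_mul_of_pos_left _ hprod
    simp only [N]; omega
  have hNm : ∀ i, Nat.Coprime N (m i) := by
    intro i
    have h1 : m i ∣ (∏ i, m i) * (q * (b + ∑ i, m i)) :=
      (Finset.dvd_prod_of_mem m (Finset.mem_univ i)).mul_right _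
    obtain ⟨d, hd⟩ := h1
    simp only [N]
    rw [hd, Nat.coprime_add_mul_left_left]
    exact Nat.coprime_one_left _
  refine ⟨fun o => Option.elim o N m, ?_, ?_, ?_, ?_⟩
  · rintro (_ | i)
    · have : q ∣ (∏ i, m i) * (q * (b + ∑ i, m i)) := Dvd.dvd.mul_left (dvd_mul_right _ _) _
      exact (Nat.modEq_iff_dvd' (by simp [N])).2 (by simpa [N] using this) |>.symm
    · exact hm1 i
  · rintro (_ | i)
    · show b < N
      omega
    · exact hmb i
  · rintro (_ | i) (_ | j) hij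
    · exact absurd rfl hij
    · exact hNm j
    · exact (hNm i).symm
    · have hne : i ≠ j := fun h => hij (by rw [h])
      rcases lt_or_gt_of_ne hne with h | h
      · exact coprime_aux h (fun d h1 h2 => hLd d h1 (h2.trans j.2.le))
      · exact (coprime_aux h (fun d h1 h2 => hLd d h1 (h2.trans i.2.le))).symm
  · exact hN

end Pool.Agent.N59.VG
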