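import Mathlib
import Pool.Agent.N59.VG.Emb
import Pool.Agent.N59.VG.Sig

set_option autoImplicit false
set_option linter.unusedSectionVars false

/-!
# Decomposition of the space and the element `σ`
-/

namespace Pool.Agent.N59.VG

open Set Topology

lemma Is3.pc {α β : Type*} {c : Equiv.Perm α} {A : Set α} {u v : α → α} (h : Is3 c A u v)
    (F : α ≃ β) {u' v' : β → β} (hu : ∀ x ∈ A, u' (F x) = F (u x))
    (hv : ∀ x ∈ A, v' (F x) = F (v x)) : Is3 (F.permCongr c) (F '' A) u' v' where
  p1 := by
    rintro _ ⟨x, hx, rfl⟩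
    rw [Equiv.permCongr_apply, Equiv.symm_apply_apply, hu x hx, h.p1 x hx]
  p2 := by
    rintro _ ⟨x, hx, rfl⟩
    rw [hu x hx, Equiv.permCongr_apply, Equiv.symm_apply_apply, hv x hx, h.p2 x hx]
  p3 := by
    rintro _ ⟨x, hx, rfl⟩
    rw [hv x hx, Equiv.permCongr_apply, Equiv.symm_apply_apply, h.p3 x hx]
  p4 := by
    intro y h1 h2 h3
    obtain ⟨z, rfl⟩ := F.surjective y
    rw [Equiv.permCongr_apply, Equiv.symm_apply_apply]
    congr 1
    apply h.p4
    · exact fun h4 => h1 ⟨z, h4, rfl⟩
    · intro x hx h4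
      exact h2 _ ⟨x, hx, rfl⟩ (by rw [hu x hx, h4])
    · intro x hx h4
      exact h3 _ ⟨x, hx, rfl⟩ (by rw [hv x hx, h4])

variable {X : Type*} [TopologicalSpace X] [CompactSpace X] [T2Space X] [TotallyDisconnectedSpace X]
variable {Γ : Subgroup (Equiv.Perm X)}

/-- even permutations of pieces are in `Γ` -/
theorem rho_mem (h : SV Γ) {I Z Y : Type*} [Fintype I] [DecidableEq I] [Nonempty Y]
    (F : (I × Z) ⊕ Y ≃ X) {Z0 : Set X} (hZ0 : IsClopen Z0) {ζ : Z → X} (hζ : Set.range ζ = Z0)
    {D : I → X → X} (hD : ∀ i, Emb Γ (D i)) (hF : ∀ i z, F (Sum.inl (i, z)) = D i (ζ z))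
    {τ : Equiv.Perm I} (hτ : τ ∈ alternatingGroup I) : F.permCongr (rho τ) ∈ Γ := by
  have := h.ne
  have key : ∀ a b c : I, a ≠ b → a ≠ c → b ≠ c → F.permCongr (rho (cyc a b c)) ∈ Γ := by
    intro a b c hab hac hbc
    have hinv : ∀ x, Function.invFun (D a) (D a x) = x := Function.leftInverse_invFun (hD a).inj
    have hlg : LG Γ (Set.range (D a)) (Function.invFun (D a)) := (hD a).inv h hinv
    have hA : F '' (piece a) = D a '' Z0 := by
      ext y
      constructor
      · rintro ⟨_, ⟨z, rfl⟩, rfl⟩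
        exact ⟨ζ z, hζ ▸ ⟨z, rfl⟩, (hF a z).symm⟩
      · rintro ⟨x, hx, rfl⟩
        rw [← hζ] at hx
        obtain ⟨z, rfl⟩ := hx
        exact ⟨_, ⟨z, rfl⟩, hF a z⟩
    have hk : ∀ b, LG Γ (D a '' Z0) (fun x => D b (Function.invFun (D a) x)) := fun b =>
      (hlg.mono (image_subset_range _ _)).comp h (hD b).lg (fun _ _ => mem_univ _)
    have hki : ∀ b, InjOn (fun x => D b (Function.invFun (D a) x)) (D a '' Z0) := by
      rintro b _ ⟨x, hx, rfl⟩ _ ⟨y, hy, rfl⟩ hxy
      simp only [hinv] at hxy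
      rw [(hD b).inj hxy]
    have hdis : ∀ i j, i ≠ j → ∀ x ∈ Z0, ∀ y ∈ Z0, D i x ≠ D j y := by
      intro i j hij x hx y hy hxy
      rw [← hζ] at hx hy
      obtain ⟨z, rfl⟩ := hx
      obtain ⟨z', rfl⟩ := hy
      rw [← hF, ← hF] at hxy
      have := F.injective hxy
      simp only [Sum.inl.injEq, Prod.mk.injEq] at this
      exact hij this.1
    have hY : ∀ i, ∀ x ∈ Z0, F (Sum.inr (Classical.arbitrary Y)) ≠ D i x := by
      intro i x hx hxy
      rw [← hζ] at hx
      obtain ⟨z, rfl⟩ := hx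
      rw [← hF] at hxy
      have := F.injective hxy
      simp at this
    obtain ⟨g, hg, h3⟩ := is3_mem h ((hD a).img h hZ0) (hk b) (hk c) (hki b) (hki c) (by
        refine ⟨?_, ?_, ?_⟩
        · rintro _ ⟨x, hx, rfl⟩ ⟨y, hy, hxy⟩
          simp only [hinv] at hxy
          exact hdis a b hab y hy x hx hxy
        · rintro _ ⟨x, hx, rfl⟩ ⟨y, hy, hxy⟩
          simp only [hinv] at hxy
          exact hdis a c hac y hy x hx hxy
        · rintro _ ⟨x, hx, rfl⟩ _ ⟨y, hy, rfl⟩ hxy
          simp only [hinv] at hxy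
          exact hdis b c hbc x hx y hy hxy)
      ⟨F (Sum.inr (Classical.arbitrary Y)), by
        rintro ⟨x, hx, h4⟩; exact hY a x hx h4.symm, by
        rintro _ ⟨x, hx, rfl⟩
        simp only [hinv]
        exact hY b x hx, by
        rintro _ ⟨x, hx, rfl⟩
        simp only [hinv]
        exact hY c x hx⟩
    have h4 : Is3 (rho (cyc a b c) : Equiv.Perm ((I × Z) ⊕ Y)) (piece a)
      (fun q => Sum.elim (fun r => Sum.inl (b, r.2)) Sum.inr q)
      (fun q => Sum.elim (fun r => Sum.inl (c, r.2)) Sum.inr q) :=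
      rho_is3 hab hac hbc (fun _ => rfl) (fun _ => rfl)
    have h5 := h4.pc F (u' := fun x => D b (Function.invFun (D a) x))
      (v' := fun x => D c (Function.invFun (D a) x))
      (by rintro _ ⟨z, rfl⟩; simp only [Sum.elim_inl, hF, hinv])
      (by rintro _ ⟨z, rfl⟩; simp only [Sum.elim_inl, hF, hinv])
    rw [hA] at h5
    rw [h5.unique h3]
    exact hg
  let G : Subgroup (Equiv.Perm I) := (Γ.comap F.permCongrHom.toMonoidHom).comap rho
  have h1 : alternatingGroup I ≤ G := by
    rw [← Equiv.Perm.closure_three_cycles_eq_alternating, Subgroup.closure_le]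
    intro g hg
    have hg3 : g.IsThreeCycle := hg
    obtain ⟨a, ha⟩ : g.support.Nonempty := by
      rw [← Finset.card_pos, hg3.card_support]; norm_num
    have h1 := hg3.eq_swap_mul_swap_iff_mem_support.2 ha
    have h2 := hg3.nodup_iff_mem_support.2 ha
    simp only [List.nodup_cons, List.mem_cons, not_or, List.not_mem_nil, List.nodup_nil] at h2
    rw [h1]
    exact key _ _ _ h2.1.1 h2.1.2.1 h2.2.1.1
  exact h1 hτ


lemma Emb.iter (h : SV Γ) {e : X → X} (he : Emb Γ e) (k : ℕ) : Emb Γ (e^[k]) := by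
  induction k with
  | zero => exact Emb.id
  | succ k ih => exact he.comp h ih

section dec
variable {C : Type*} [Fintype C] [DecidableEq C] {n : Option C → ℕ} {p : ℕ}

/-- a decomposition of the space into pieces -/
structure Dec (Γ : Subgroup (Equiv.Perm X)) (n : Option C → ℕ) (p : ℕ) (R : Set X)
    (F : (Idx n × X) ⊕ (ZMod p × R) ≃ X) (D : Idx n → X → X) (D' : ZMod p → X → X) : Prop where
  cl : IsClopen R
  ne : R.Nonempty
  hD : ∀ m, Emb Γ (D m)
  hD' : ∀ w, Emb Γ (D' w)
  hF : ∀ m x, F (Sum.inl (m, x)) = D m x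
  hF' : ∀ w (r : R), F (Sum.inr (w, r)) = D' w r

theorem exists_dec (h : SV Γ) [∀ c, NeZero (n c)] [NeZero p]
    (hcard : ∃ t, Fintype.card (Idx n) = p * t + 1) :
    ∃ (R : Set X) (F : (Idx n × X) ⊕ (ZMod p × R) ≃ X) (D : Idx n → X → X) (D' : ZMod p → X → X),
      Dec Γ n p R F D D' := by
  classical
  have := h.ne
  obtain ⟨t, ht⟩ := hcard
  obtain ⟨e, he1, -, he3, l, -, hl⟩ := exists_embs h isOpen_univ univ_nonempty (Fin (t + 1))
  let R : Set X := ⋂ i, (Set.range (e i))ᶜ
  have hRcl : IsClopen R := isClopen_iInter_of_finite fun i => ((he1 i).range h).compl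
  have hRne : R.Nonempty := ⟨l, mem_iInter.2 fun i => fun ⟨y, hy⟩ => hl i y hy⟩
  have hR : ∀ r ∈ R, ∀ i y, e i y ≠ r := fun r hr i y hy => mem_iInter.1 hr i ⟨y, hy⟩
  obtain ⟨κ⟩ : Nonempty (Idx n ≃ Option (Fin p × Fin t)) := by
    rw [← Fintype.card_eq, ht]; simp
  let d := e 0
  have hd : Function.Injective d := (he1 0).inj
  let Dk : Option (Fin p × Fin t) → X → X := fun o =>
    Option.elim o (d^[p]) (fun q => fun x => d^[q.1.val] (e q.2.succ x))
  have hDk : ∀ o, Emb Γ (Dk o) := by
    rintro (_ | q)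
    · exact (he1 0).iter h p
    · exact (he1 q.2.succ).comp h ((he1 0).iter h _)
  let D' : ZMod p → X → X := fun w => d^[w.val]
  let f : (Option (Fin p × Fin t) × X) ⊕ (ZMod p × R) → X :=
    Sum.elim (fun q => Dk q.1 q.2) (fun q => D' q.1 q.2)
  -- level and core
  let lev : (Option (Fin p × Fin t) × X) ⊕ (ZMod p × R) → ℕ :=
    Sum.elim (fun q => Option.elim q.1 p (fun q => q.1.val)) (fun q => q.1.val)
  let co : (Option (Fin p × Fin t) × X) ⊕ (ZMod p × R) → X :=
    Sum.elim (fun q => Option.elim q.1 q.2 (fun r => e r.2.succ q.2)) (fun q => q.2)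
  have hlc : ∀ q, f q = d^[lev q] (co q) := by
    rintro (⟨_ | r, x⟩ | ⟨w, r⟩) <;> rfl
  have hlp : ∀ q, lev q ≤ p := by
    rintro (⟨_ | r, x⟩ | ⟨w, r⟩)
    · exact le_rfl
    · exact r.1.2.le
    · exact (ZMod.val_lt w).le
  have hcd : ∀ q, lev q < p → ∀ y, d y ≠ co q := by
    rintro (⟨_ | r, x⟩ | ⟨w, r⟩) hq y hy
    · exact lt_irrefl _ hq
    · exact absurd (he3 _ _ _ _ hy) (Fin.succ_ne_zero r.2).symm
    · exact hR r r.2 0 y hy
  have hlt : ∀ q q', f q = f q' → ¬ lev q < lev q' := by
    intro q q' hqq hlt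
    rw [hlc, hlc] at hqq
    obtain ⟨k, hk⟩ := Nat.exists_eq_add_of_lt hlt
    rw [hk, add_assoc, Function.iterate_add_apply] at hqq
    have h1 := hd.iterate _ hqq
    rw [Function.iterate_succ_apply'] at h1
    exact hcd q (hlt.trans_le (hlp q')) _ h1.symm
  have hinj : Function.Injective f := by
    intro q q' hqq
    have h1 : lev q = lev q' :=
      le_antisymm (not_lt.1 (hlt q' q hqq.symm)) (not_lt.1 (hlt q q' hqq))
    have h2 : co q = co q' := by
      rw [hlc, hlc, h1] at hqq
      exact hd.iterate _ hqq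
    rcases q with ⟨_ | r, x⟩ | ⟨w, r⟩ <;> rcases q' with ⟨_ | r', x'⟩ | ⟨w', r'⟩
    · have h3 : x = x' := h2
      rw [h3]
    · have h3 : p = r'.1.val := h1
      exact absurd h3 r'.1.2.ne'
    · have h3 : p = w'.val := h1
      exact absurd h3 (ZMod.val_lt w').ne'
    · have h3 : r.1.val = p := h1
      exact absurd h3 r.1.2.ne
    · have h3 : r.1.val = r'.1.val := h1
      have h4 : e r.2.succ x = e r'.2.succ x' := h2
      have h5 := he3 _ _ _ _ h4
      rw [h5] at h4
      have h6 := (he1 _).inj h4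
      rw [h6, Prod.ext (Fin.ext h3) (Fin.succ_injective _ h5)]
    · have h4 : e r.2.succ x = r' := h2
      exact absurd h4 (hR _ r'.2 _ _)
    · have h3 : w.val = p := h1
      exact absurd h3 (ZMod.val_lt w).ne
    · have h4 : (r : X) = e r'.2.succ x' := h2
      exact absurd h4.symm (hR _ r.2 _ _)
    · have h3 : w.val = w'.val := h1
      have h4 : (r : X) = r' := h2
      rw [Subtype.ext h4, ZMod.val_injective p h3]
  have hsurj : Function.Surjective f := by
    intro x
    have h1 : ∀ a ≤ p, (∃ y, x = d^[a] y) ∨ ∃ b < a, ∃ y, (∀ z, d z ≠ y) ∧ x = d^[b] y := by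
      intro a
      induction a with
      | zero => exact fun _ => Or.inl ⟨x, rfl⟩
      | succ a ih =>
        intro ha
        rcases ih (by omega) with ⟨y, hy⟩ | ⟨b, hb, y, hy1, hy2⟩
        · by_cases h2 : ∃ z, d z = y
          · obtain ⟨z, hz⟩ := h2
            left
            refine ⟨z, ?_⟩
            rw [Function.iterate_succ_apply, hz]; exact hy
          · push Not at h2
            exact Or.inr ⟨a, by omega, y, h2, hy⟩
        · exact Or.inr ⟨b, by omega, y, hy1, hy2⟩
    rcases h1 p le_rfl with ⟨y, hy⟩ | ⟨b, hb, y, hy1, hy2⟩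
    · exact ⟨Sum.inl (none, y), hy.symm⟩
    · by_cases hyR : y ∈ R
      · refine ⟨Sum.inr ((b : ZMod p), ⟨y, hyR⟩), ?_⟩
        show d^[(b : ZMod p).val] y = x
        rw [ZMod.val_natCast, Nat.mod_eq_of_lt hb, hy2]
      · have h2 : ∃ i z, e i z = y := by
          by_contra hcon
          push Not at hcon
          apply hyR
          rw [mem_iInter]
          rintro i ⟨z, hz⟩
          exact hcon i z hz
        obtain ⟨i, z, hz⟩ := h2
        have hi : i ≠ 0 := by
          rintro rfl
          exact hy1 z hz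
        obtain ⟨j, rfl⟩ := Fin.exists_succ_eq.2 hi
        refine ⟨Sum.inl (some (⟨b, hb⟩, j), z), ?_⟩
        show d^[b] (e j.succ z) = x
        rw [hz, hy2]
  let F0 : (Option (Fin p × Fin t) × X) ⊕ (ZMod p × R) ≃ X := Equiv.ofBijective f ⟨hinj, hsurj⟩
  refine ⟨R, (Equiv.sumCongr (Equiv.prodCongr κ (Equiv.refl X)) (Equiv.refl _)).trans F0,
    fun m => Dk (κ m), D', hRcl, hRne, fun m => hDk _, fun w => (he1 0).iter h _, fun m x => rfl,
    fun w r => rfl⟩

lemma hodd1 {J : Type*} [Fintype J] [DecidableEq J] (τ : Equiv.Perm J) (N : ℕ) (hN : Odd N)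
    (hτ : τ ^ N = 1) : τ ∈ alternatingGroup J := by
  rw [Equiv.Perm.mem_alternatingGroup]
  rcases Int.units_eq_one_or (Equiv.Perm.sign τ) with h1 | h1
  · exact h1
  · exfalso
    have h2 := congrArg Equiv.Perm.sign hτ
    rw [map_pow, h1, map_one, hN.neg_one_pow] at h2
    exact absurd h2 (by decide)

/-- the element `σ` is in `Γ` -/
theorem sig_mem (h : SV Γ) (hc : Cop n p) (hodd : ∀ c, Odd (n c)) (hoddp : Odd p) {R : Set X}
    {F : (Idx n × X) ⊕ (ZMod p × R) ≃ X} {D : Idx n → X → X} {D' : ZMod p → X → X}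
    (hdec : Dec Γ n p R F D D') {z : Option C → Equiv.Perm X} (hz : ∀ c, z c ∈ Γ) :
    F.permCongr (sig n p R z) ∈ Γ := by
  classical
  have := h.ne
  have : ∀ c, NeZero (n c) := fun c => ⟨hc.h0 c⟩
  have : NeZero p := ⟨hc.hp0⟩
  have hRn : Nonempty R := hdec.ne.to_subtype
  let G : Subgroup (Equiv.Perm ((Idx n × X) ⊕ (ZMod p × R))) := Γ.comap F.permCongrHom.toMonoidHom
  have hG : ∀ τ, τ ∈ G ↔ F.permCongr τ ∈ Γ := fun τ => Iff.rfl
  rw [← hG]
  unfold sig
  refine G.mul_mem (G.mul_mem ?_ ?_) ?_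
  · rw [hG]
    refine rho_mem h F isClopen_univ (ζ := fun x => x) (by simp) hdec.hD hdec.hF ?_
    refine hodd1 _ (∏ c, n c) (Finset.prod_induction n Odd (fun _ _ => Odd.mul) odd_one (fun c _ => hodd c)) ?_
    have h1 : ∀ (k : ℕ) (c : Option C) (i : ZMod (n c)),
        ((rotv fun _ => 1 : Equiv.Perm (Idx n)) ^ k) ⟨c, i⟩ = ⟨c, i + k⟩ := by
      intro k c i
      induction k with
      | zero => simp
      | succ k ih =>
        rw [pow_succ', Equiv.Perm.mul_apply, ih, rotv_mk]
        push_cast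
        rw [add_assoc]
    ext ⟨c, i⟩ : 1
    rw [h1, (ZMod.natCast_eq_zero_iff _ _).2 (Finset.dvd_prod_of_mem n (Finset.mem_univ c))]
    simp
  · have h1 : ∀ S : Finset (Idx n), gam (fun m : Idx n => if m ∈ S then z m.1 else 1) ∈ G := by
      intro S
      induction S using Finset.induction_on with
      | empty => simp [gam_one, G.one_mem]
      | insert a S ha ih =>
        have h2 : (del a (z a.1) : Equiv.Perm ((Idx n × X) ⊕ (ZMod p × R))) ∈ G := by
          rw [hG]
          let e : X ↪ X := ⟨D a, (hdec.hD a).inj⟩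
          have h3 := via_mem h (e := e) (hdec.hD a) ⟨F (Sum.inr (0, Classical.arbitrary R)), by
            intro x hx
            have h4 : F (Sum.inr (0, Classical.arbitrary R)) = D a x := hx
            rw [← hdec.hF] at h4
            have := F.injective h4
            simp at this⟩ (hz a.1)
          have h5 : F.permCongr (del a (z a.1)) = (z a.1).viaEmbedding e := by
            ext y
            obtain ⟨q, rfl⟩ := F.surjective y
            rw [Equiv.permCongr_apply, Equiv.symm_apply_apply]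
            rcases q with ⟨m, x⟩ | ⟨w, r⟩
            · unfold del
              rw [gam_inl]
              by_cases hm : m = a
              · subst hm
                rw [if_pos rfl, hdec.hF, hdec.hF]
                exact ((z m.1).viaEmbedding_apply e x).symm
              · rw [if_neg hm, Equiv.Perm.one_apply, Equiv.Perm.viaEmbedding_apply_of_notMem]
                rintro ⟨y, hy⟩
                have h4 : D a y = F (Sum.inl (m, x)) := hy
                rw [← hdec.hF] at h4
                have := F.injective h4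
                simp only [Sum.inl.injEq, Prod.mk.injEq] at this
                exact hm this.1.symm
            · unfold del
              rw [gam_inr, Equiv.Perm.viaEmbedding_apply_of_notMem]
              rintro ⟨y, hy⟩
              have h4 : D a y = F (Sum.inr (w, r)) := hy
              rw [← hdec.hF] at h4
              have := F.injective h4
              simp at this
          rw [h5]; exact h3
        have h3 := G.mul_mem h2 ih
        unfold del at h3
        rw [gam_mul] at h3
        convert h3 using 3 with m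
        by_cases hm : m = a
        · subst hm; simp [ha]
        · simp [hm]
    have h2 := h1 Finset.univ
    simpa using h2
  · rw [hG]
    let F' : (ZMod p × R) ⊕ (Idx n × X) ≃ X := (Equiv.sumComm _ _).trans F
    have : Nonempty (Idx n × X) := ⟨(⟨none, 0⟩, Classical.arbitrary X)⟩
    have h1 := rho_mem h F' hdec.cl (ζ := Subtype.val) (by simp) hdec.hD' (fun w r => hdec.hF' w r)
      (τ := Equiv.addRight 1) (by
        refine hodd1 _ p hoddp ?_
        have h1 : ∀ (k : ℕ) (i : ZMod p), ((Equiv.addRight 1 : Equiv.Perm (ZMod p)) ^ k) i = i + k := by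
          intro k i
          induction k with
          | zero => simp
          | succ k ih =>
            rw [pow_succ', Equiv.Perm.mul_apply, ih, Equiv.coe_addRight]
            push_cast
            rw [add_assoc]
        ext i : 1
        rw [h1]; simp)
    have h2 : F.permCongr (rotinf 1) = F'.permCongr (rho (Equiv.addRight 1)) := by
      ext y
      obtain ⟨q, rfl⟩ := F'.surjective y
      rw [Equiv.permCongr_apply, Equiv.permCongr_apply, Equiv.symm_apply_apply]
      rcases q with ⟨w, r⟩ | ⟨m, x⟩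
      · show F (rotinf 1 (F.symm (F (Sum.inr (w, r))))) = F (Sum.inr (w + 1, r))
        rw [Equiv.symm_apply_apply]; rfl
      · show F (rotinf 1 (F.symm (F (Sum.inl (m, x))))) = F (Sum.inl (m, x))
        rw [Equiv.symm_apply_apply]; rfl
    rw [h2]; exact h1

end dec

end Pool.Agent.N59.VG
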