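import Mathlib
import Pool.Agent.N59.VG.Top

set_option autoImplicit false
set_option linter.unusedSectionVars false

/-!
# The first three-cycle
-/

namespace Pool.Agent.N59.VG

open Set

variable {X : Type*}

/-- levels and pieces -/
structure Lvl (L : ℕ) (β : Equiv.Perm X) (Lv : ℕ → Set X) (P : ℕ → X → X) : Prop where
  dis : ∀ a b, a < L → b < L → ∀ p, p ∈ Lv a → p ∈ Lv b → a = b
  up : ∀ a p, β p ∈ Lv (a + 1) ↔ p ∈ Lv a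
  mem : ∀ a x, P a x ∈ Lv a
  bP : ∀ a x, β (P a x) = P (a + 1) x

variable {L : ℕ} {β : Equiv.Perm X} {Lv : ℕ → Set X} {P : ℕ → X → X}

lemma Lvl.up_pow (h : Lvl L β Lv P) (t a : ℕ) (p : X) : (β ^ t) p ∈ Lv (a + t) ↔ p ∈ Lv a := by
  induction t with
  | zero => simp
  | succ t ih =>
    rw [pow_succ', Equiv.Perm.mul_apply, ← add_assoc, h.up, ih]

lemma Lvl.bP_pow (h : Lvl L β Lv P) (t a : ℕ) (x : X) : (β ^ t) (P a x) = P (a + t) x := by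
  induction t with
  | zero => simp
  | succ t ih =>
    rw [pow_succ', Equiv.Perm.mul_apply, ih, h.bP]; rfl

lemma Lvl.bPi (h : Lvl L β Lv P) (a : ℕ) (x : X) : β⁻¹ (P (a + 1) x) = P a x := by
  rw [← h.bP, ia]

lemma Lvl.bPi_pow (h : Lvl L β Lv P) (t a : ℕ) (x : X) : (β ^ t)⁻¹ (P (a + t) x) = P a x := by
  rw [← h.bP_pow, ia]

lemma Lvl.ne (h : Lvl L β Lv P) {a b : ℕ} (ha : a < L) (hb : b < L) (hab : a ≠ b) (x y : X) :
    P a x ≠ P b y := fun h2 => hab (h.dis a b ha hb _ (h.mem a x) (h2 ▸ h.mem b y))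

/-- an adjacent three-cycle of pieces -/
def Adj (H : Subgroup (Equiv.Perm X)) (P : ℕ → X → X) (a : ℕ) : Prop :=
  ∃ k ∈ H, (∀ x, k (P a x) = P (a + 1) x) ∧ (∀ x, k (P (a + 1) x) = P (a + 2) x) ∧
    (∀ x, k (P (a + 2) x) = P a x) ∧
    ∀ y, (∀ x, y ≠ P a x) → (∀ x, y ≠ P (a + 1) x) → (∀ x, y ≠ P (a + 2) x) → k y = y

lemma Is3.adj {H : Subgroup (Equiv.Perm X)} {k : Equiv.Perm X} (hk : k ∈ H) {a : ℕ} {u v : X → X}
    (h3 : Is3 k (Set.range (P (a + 1))) u v) (hu : ∀ x, u (P (a + 1) x) = P (a + 2) x)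
    (hv : ∀ x, v (P (a + 1) x) = P a x) : Adj H P a := by
  refine ⟨k, hk, fun x => ?_, fun x => ?_, fun x => ?_, fun y h0 h1 h2 => ?_⟩
  · rw [← hv, h3.p3 _ ⟨x, rfl⟩]
  · rw [h3.p1 _ ⟨x, rfl⟩, hu]
  · rw [← hu, h3.p2 _ ⟨x, rfl⟩, hv]
  · apply h3.p4
    · rintro ⟨x, rfl⟩; exact h1 x rfl
    · rintro _ ⟨x, rfl⟩; rw [hu]; exact h2 x
    · rintro _ ⟨x, rfl⟩; rw [hv]; exact h0 x

/-- cutting down an element to a single piece -/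
lemma Lvl.cut (h : Lvl L β Lv P) {c : Equiv.Perm X} {Hs : Set ℕ} {m r t : ℕ}
    (hHs : ∀ a ∈ Hs, a + t < L) (hsupp : ∀ p, c p ≠ p → ∃ a ∈ Hs, p ∈ Lv a) (hm : m = r + t)
    (huniq : ∀ a ∈ Hs, ∀ b ∈ Hs, a = b + t → a = m)
    (hcm : ∀ p ∈ Lv m, c p ≠ p → ∃ x, p = P m x)
    (h1 : ∀ x y, c (P m x) ≠ P m y) (h2 : ∀ x y, (β ^ t) (c (P r x)) ≠ P m y) :
    Is3 (c * (β ^ t * c * (β ^ t)⁻¹) * c⁻¹ * (β ^ t * c * (β ^ t)⁻¹)⁻¹) (Set.range (P m)) c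
      (β ^ t * c * (β ^ t)⁻¹ : Equiv.Perm X) := by
  have hct : ∀ x, (β ^ t * c * (β ^ t)⁻¹) (P m x) = (β ^ t) (c (P r x)) := by
    intro x
    simp only [Equiv.Perm.mul_apply]
    rw [hm, h.bPi_pow]
  refine comm3 (X1 := {p | c p ≠ p}) (X2 := {p | (β ^ t * c * (β ^ t)⁻¹ : Equiv.Perm X) p ≠ p})
    (fun p hp => not_not.1 hp) (fun p hp => not_not.1 hp) ?_ ?_ ?_ ?_ ?_
  · intro p hp1 hp2
    obtain ⟨a, ha, hpa⟩ := hsupp p hp1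
    have h3 : c ((β ^ t)⁻¹ p) ≠ (β ^ t)⁻¹ p := by
      intro h4
      apply hp2
      simp only [Equiv.Perm.mul_apply]
      rw [h4, ai]
    obtain ⟨b, hb, hpb⟩ := hsupp _ h3
    rw [← h.up_pow t, ai] at hpb
    have h4 := h.dis a (b + t) (by have := hHs a ha; omega) (hHs b hb) p hpa hpb
    have h5 := huniq a ha b hb h4
    rw [h5] at hpa
    obtain ⟨x, hx⟩ := hcm p hpa hp1
    exact ⟨x, hx.symm⟩
  · rintro _ ⟨x, rfl⟩
    exact h1 x x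
  · rintro _ ⟨x, rfl⟩
    show (β ^ t * c * (β ^ t)⁻¹ : Equiv.Perm X) (P m x) ≠ P m x
    rw [hct]
    exact h2 x x
  · rintro _ ⟨x, rfl⟩ ⟨y, hy⟩
    exact h1 x y hy.symm
  · rintro _ ⟨x, rfl⟩ ⟨y, hy⟩
    rw [hct] at hy
    exact h2 x y hy.symm

/-- first case: `α` has small support -/
theorem Lvl.caseF (h : Lvl L β Lv P) {H : Subgroup (Equiv.Perm X)} {α : Equiv.Perm X} (hα : α ∈ H)
    (hβ : β ∈ H) {Hs : Set ℕ} {r t : ℕ} (hHs : ∀ a ∈ Hs, a + t < L)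
    (hsupp : ∀ p, α p ≠ p → ∃ a ∈ Hs, p ∈ Lv a)
    (huniq : ∀ a ∈ Hs, ∀ b ∈ Hs, a = b + t → a = r + 1 + t) (hL : r + t + 2 < L)
    (hcm : ∀ p ∈ Lv (r + 1 + t), α p ≠ p → ∃ x, p = P (r + 1 + t) x)
    (h1 : ∀ x, α (P (r + t + 1) x) = P (r + t + 2) x) (h2 : ∀ x, α (P (r + 1) x) = P r x) :
    Adj H P (r + t) := by
  have e1 : r + 1 + t = r + t + 1 := by omega
  have h3 := h.cut (r := r + 1) hHs hsupp rfl huniq hcm (fun x y => by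
    rw [e1, h1]; exact h.ne (by omega) (by omega) (by omega) _ _) (fun x y => by
    rw [h2, h.bP_pow, e1]; exact h.ne (by omega) (by omega) (by omega) _ _)
  have hct : β ^ t * α * (β ^ t)⁻¹ ∈ H :=
    H.mul_mem (H.mul_mem (H.pow_mem hβ t) hα) (H.inv_mem (H.pow_mem hβ t))
  rw [e1] at h3
  refine Is3.adj (H.mul_mem (H.mul_mem (H.mul_mem hα hct) (H.inv_mem hα)) (H.inv_mem hct)) h3
    h1 (fun x => ?_)
  simp only [Equiv.Perm.mul_apply]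
  rw [← e1, h.bPi_pow, h2, h.bP_pow]

/-- second case: general data -/
theorem Lvl.caseU2 (h : Lvl L β Lv P) {H : Subgroup (Equiv.Perm X)} {α u : Equiv.Perm X}
    (hα : α ∈ H) (hβ : β ∈ H) (hu : u ∈ H) {Hs Ms : Set ℕ} {NN : Set X} {e r t : ℕ}
    (huE : ∀ x, u (P (e + 2) x) = P (e + 2) x)
    (hN : ∀ y, (∀ x, y ≠ P (e + 2) x) → y ∉ NN →
      (∃ x, α y = P (e + 2) x) ∧ ∃ x, α⁻¹ y = P (e + 2) x)
    (hNN : ∀ y ∈ NN, ∃ a ∈ Hs, y ∈ Lv a) (heHs : e + 2 ∉ Hs)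
    (hgen : ∀ y ∈ NN, (∃ x, u y = P (e + 1) x) ∨ ∃ l ∈ Ms, ∃ x, y = P l x ∧ u y = P (l + 1) x)
    (hn1 : ∀ x, P (e + 1) x ∉ NN) (hn2 : ∀ l ∈ Ms, ∀ x, P (l + 1) x ∉ NN)
    (hMe : ∀ l ∈ Ms, l ≠ e + 1)
    (hb : ∀ a, (a ∈ Hs ∨ a = e + 1 ∨ a = e + 2 ∨ ∃ l ∈ Ms, a = l + 1) → a + t < L)
    (huniq : ∀ a b, (a ∈ Hs ∨ a = e + 1 ∨ a = e + 2 ∨ ∃ l ∈ Ms, a = l + 1) →
      (b ∈ Hs ∨ b = e + 1 ∨ b = e + 2 ∨ ∃ l ∈ Ms, b = l + 1) → a = b + t → a = r + t)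
    (hr1 : r ≠ e + 1) (hme1 : e + 1 ≠ r + t) (hme2 : e + 2 ≠ r + t)
    (hml : ∀ l ∈ Ms, l + 1 ≠ r + t) (hre : e ≠ r + 1) (hre2 : e + 2 ≠ r) (hrt : 1 ≤ r + t)
    (hL : r + t + 1 < L) (hL2 : e + 2 + t < L)
    (hmNN : ∀ p ∈ NN, p ∈ Lv (r + t) → ∃ x, p = P (r + t) x)
    (hum : ∀ x, u (P (r + t) x) = P (r + t + 1) x)
    (hαs : ∀ x, ∃ y, y ∈ NN ∧ α y = P (r + t) x ∧ ∃ x', u y = P (e + 1) x')
    (hαr : ∀ x, ∃ y, y ∈ NN ∧ α y = P r x ∧ ∃ x', u y = P (e + 1) x')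
    (hur : ∀ x, ∃ x', u (P r x) = P (e + 1) x') : Adj H P (r + t - 1) := by
  have heL : e + 2 < L := by have := hb (e + 2) (by simp); omega
  have hHsL : ∀ a ∈ Hs, a < L := fun a ha => by have := hb a (Or.inl ha); omega
  -- points of `NN` are not in the big piece
  have hNE : ∀ y ∈ NN, ∀ x, y ≠ P (e + 2) x := by
    intro y hy x hyx
    obtain ⟨a, ha, hya⟩ := hNN y hy
    have h1 := h.dis a (e + 2) (hHsL a ha) heL y hya (hyx ▸ h.mem _ _)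
    exact heHs (h1 ▸ ha)
  -- the images under `u` are neutral
  have hneu : ∀ y ∈ NN, (∀ x, u y ≠ P (e + 2) x) ∧ u y ∉ NN := by
    intro y hy
    rcases hgen y hy with ⟨x, hx⟩ | ⟨l, hl, x, -, hx⟩
    · rw [hx]
      exact ⟨fun x' => h.ne (by omega) heL (by omega) _ _, hn1 x⟩
    · rw [hx]
      refine ⟨fun x' => h.ne ?_ heL ?_ _ _, hn2 l hl x⟩
      · have := hb (l + 1) (Or.inr (Or.inr (Or.inr ⟨l, hl, rfl⟩))); omega
      · have := hMe l hl; omega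
  -- points with two special images
  have hZ1 : ∀ y, (∀ x, y ≠ P (e + 2) x) → (∀ x, α⁻¹ y ≠ P (e + 2) x) → y ∈ NN := by
    intro y h1 h2
    by_contra h3
    obtain ⟨-, x, hx⟩ := hN y h1 h3
    exact h2 x hx
  have hZ2 : ∀ y, (∀ x, y ≠ P (e + 2) x) → (∀ x, α y ≠ P (e + 2) x) → y ∈ NN := by
    intro y h1 h2
    by_contra h3
    obtain ⟨⟨x, hx⟩, -⟩ := hN y h1 h3
    exact h2 x hx
  let v : Equiv.Perm X := α * u * α⁻¹
  have hv : v ∈ H := H.mul_mem (H.mul_mem hα hu) (H.inv_mem hα)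
  have hvdef : ∀ p, v p = α (u (α⁻¹ p)) := fun p => rfl
  have hvE : ∀ p, (∃ x, α⁻¹ p = P (e + 2) x) → v p = p := by
    rintro p ⟨x, hx⟩
    rw [hvdef, hx, huE, ← hx, ai]
  have huE' : ∀ p, (∃ x, p = P (e + 2) x) → u p = p := by
    rintro p ⟨x, rfl⟩
    exact huE x
  let A : Set X := {p | u p ≠ p ∧ v p ≠ p}
  have hA1 : ∀ p ∈ A, p ∈ NN := by
    rintro p ⟨hp1, hp2⟩
    refine hZ1 p (fun x hx => hp1 (huE' p ⟨x, hx⟩)) (fun x hx => hp2 (hvE p ⟨x, hx⟩))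
  have hA2 : ∀ p ∈ A, α⁻¹ p ∈ NN := by
    rintro p ⟨hp1, hp2⟩
    refine hZ2 _ (fun x hx => hp2 (hvE p ⟨x, hx⟩)) (fun x hx => hp1 (huE' p ⟨x, ?_⟩))
    rw [ai] at hx; exact hx
  have hA3 : ∀ p ∈ A, ∃ x, v p = P (e + 2) x := by
    intro p hp
    obtain ⟨h1, h2⟩ := hneu _ (hA2 p hp)
    exact (hN _ h1 h2).1
  have hc3 : Is3 (u * v * u⁻¹ * v⁻¹) A u v := by
    refine comm3 (X1 := {p | u p ≠ p}) (X2 := {p | v p ≠ p}) (fun p hp => not_not.1 hp)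
      (fun p hp => not_not.1 hp) (fun p h1 h2 => ⟨h1, h2⟩) (fun p hp => hp.1) (fun p hp => hp.2)
      ?_ ?_
    · intro p hp hup
      obtain ⟨h1, h2⟩ := hneu p (hA1 p hp)
      exact hup.2 (hvE _ (hN _ h1 h2).2)
    · intro p hp hvp
      exact hvp.1 (huE' _ (hA3 p hp))
  set c := u * v * u⁻¹ * v⁻¹ with hcdef
  have hc : c ∈ H := H.mul_mem (H.mul_mem (H.mul_mem hu hv) (H.inv_mem hu)) (H.inv_mem hv)
  -- the support of `c`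
  have hcsupp : ∀ p, c p ≠ p → p ∈ A ∨ (∃ a ∈ A, p = u a) ∨ ∃ a ∈ A, p = v a := by
    intro p hp
    by_contra hcon
    push Not at hcon
    exact hp (hc3.p4 p hcon.1 (fun a ha => hcon.2.1 a ha) (fun a ha => hcon.2.2 a ha))
  let Hs' : Set ℕ := {a | a ∈ Hs ∨ a = e + 1 ∨ a = e + 2 ∨ ∃ l ∈ Ms, a = l + 1}
  have hcl : ∀ p, c p ≠ p → ∃ a ∈ Hs', p ∈ Lv a := by
    intro p hp
    rcases hcsupp p hp with h1 | ⟨a, ha, rfl⟩ | ⟨a, ha, rfl⟩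
    · obtain ⟨a, ha, hpa⟩ := hNN p (hA1 p h1)
      exact ⟨a, Or.inl ha, hpa⟩
    · rcases hgen a (hA1 a ha) with ⟨x, hx⟩ | ⟨l, hl, x, -, hx⟩
      · exact ⟨e + 1, by simp [Hs'], hx ▸ h.mem _ _⟩
      · exact ⟨l + 1, Or.inr (Or.inr (Or.inr ⟨l, hl, rfl⟩)), hx ▸ h.mem _ _⟩
    · obtain ⟨x, hx⟩ := hA3 a ha
      exact ⟨e + 2, by simp [Hs'], hx ▸ h.mem _ _⟩
  have hcm : ∀ p ∈ Lv (r + t), c p ≠ p → ∃ x, p = P (r + t) x := by
    intro p hpm hp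
    rcases hcsupp p hp with h1 | ⟨a, ha, rfl⟩ | ⟨a, ha, rfl⟩
    · exact hmNN p (hA1 p h1) hpm
    · exfalso
      rcases hgen a (hA1 a ha) with ⟨x, hx⟩ | ⟨l, hl, x, -, hx⟩
      · exact hme1 (h.dis _ _ (by omega) (by omega) _ (hx ▸ h.mem _ _) hpm)
      · refine hml l hl (h.dis _ _ ?_ (by omega) _ (hx ▸ h.mem _ _) hpm)
        have := hb (l + 1) (Or.inr (Or.inr (Or.inr ⟨l, hl, rfl⟩))); omega
    · exfalso
      obtain ⟨x, hx⟩ := hA3 a ha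
      exact hme2 (h.dis _ _ heL (by omega) _ (hx ▸ h.mem _ _) hpm)
  -- values of `c`
  have hmA : ∀ x, P (r + t) x ∈ A := by
    intro x
    obtain ⟨y, hy, hyα, x', hx'⟩ := hαs x
    refine ⟨?_, ?_⟩
    · rw [hum]; exact h.ne (by omega) (by omega) (by omega) _ _
    · have h1 : α⁻¹ (P (r + t) x) = y := by rw [← hyα, ia]
      rw [hvdef, h1]
      obtain ⟨x2, hx2⟩ := (hN _ (hneu y hy).1 (hneu y hy).2).1
      rw [hx2]
      exact h.ne heL (by omega) (by omega) _ _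
  have hrA : ∀ x, P r x ∈ A := by
    intro x
    obtain ⟨y, hy, hyα, x', hx'⟩ := hαr x
    refine ⟨?_, ?_⟩
    · obtain ⟨x2, hx2⟩ := hur x
      rw [hx2]; exact h.ne (by omega) (by omega) (Ne.symm hr1) _ _
    · have h1 : α⁻¹ (P r x) = y := by rw [← hyα, ia]
      rw [hvdef, h1]
      obtain ⟨x2, hx2⟩ := (hN _ (hneu y hy).1 (hneu y hy).2).1
      rw [hx2]
      exact h.ne heL (by omega) hre2 _ _
  have hcm1 : ∀ x, c (P (r + t) x) = P (r + t + 1) x := fun x => by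
    rw [hc3.p1 _ (hmA x), hum]
  have hcr : ∀ x, ∃ x', c (P r x) = P (e + 1) x' := fun x => by
    rw [hc3.p1 _ (hrA x)]; exact hur x
  -- cutting
  have h3 := h.cut (Hs := Hs') (r := r) (t := t) (fun a ha => hb a ha) hcl rfl
    (fun a ha b hb' hab => huniq a b ha hb' hab) hcm (fun x y => by
      rw [hcm1]; exact h.ne (by omega) (by omega) (by omega) _ _) (fun x y => by
      obtain ⟨x', hx'⟩ := hcr x
      rw [hx', h.bP_pow]; exact h.ne (by omega) (by omega) (by omega) _ _)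
  have hct : β ^ t * c * (β ^ t)⁻¹ ∈ H :=
    H.mul_mem (H.mul_mem (H.pow_mem hβ t) hc) (H.inv_mem (H.pow_mem hβ t))
  set ct := β ^ t * c * (β ^ t)⁻¹ with hctdef
  set d := c * ct * c⁻¹ * ct⁻¹ with hddef
  have hd : d ∈ H := H.mul_mem (H.mul_mem (H.mul_mem hc hct) (H.inv_mem hc)) (H.inv_mem hct)
  have hctm : ∀ x, ∃ x', ct (P (r + t) x) = P (e + 1 + t) x' := by
    intro x
    obtain ⟨x', hx'⟩ := hcr x
    refine ⟨x', ?_⟩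
    rw [hctdef]
    simp only [Equiv.Perm.mul_apply]
    rw [h.bPi_pow, hx', h.bP_pow]
  have hdsupp : ∀ p, d p ≠ p → (∃ x, p = P (r + t) x) ∨ (∃ x, p = P (r + t + 1) x) ∨
      p ∈ Lv (e + 1 + t) := by
    intro p hp
    by_contra hcon
    push Not at hcon
    apply hp
    apply h3.p4
    · rintro ⟨x, rfl⟩; exact hcon.1 x rfl
    · rintro _ ⟨x, rfl⟩; rw [hcm1]; exact hcon.2.1 x
    · rintro _ ⟨x, rfl⟩ h4
      obtain ⟨x', hx'⟩ := hctm x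
      rw [hx'] at h4
      exact hcon.2.2 (h4 ▸ h.mem _ _)
  have hdm : ∀ x, d (P (r + t) x) = P (r + t + 1) x := fun x => by
    rw [h3.p1 _ ⟨x, rfl⟩, hcm1]
  -- the final commutator
  obtain ⟨m, hm⟩ : ∃ m, r + t = m + 1 := ⟨r + t - 1, by omega⟩
  rw [hm] at hdm hdsupp hL
  have hm' : r + t - 1 = m := by omega
  rw [hm']
  let f : Equiv.Perm X := (β⁻¹ * d * β)⁻¹
  have hf : f ∈ H := H.inv_mem (H.mul_mem (H.mul_mem (H.inv_mem hβ) hd) hβ)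
  have hfm : ∀ x, f (P (m + 1) x) = P m x := by
    intro x
    show (β⁻¹ * d * β)⁻¹ (P (m + 1) x) = P m x
    rw [Equiv.Perm.inv_eq_iff_eq]
    simp only [Equiv.Perm.mul_apply]
    rw [h.bP, hdm, h.bPi]
  have hfsupp : ∀ p, f p ≠ p → (∃ x, p = P m x) ∨ (∃ x, p = P (m + 1) x) ∨ p ∈ Lv (e + t) := by
    intro p hp
    have h4 : d (β p) ≠ β p := by
      intro h5
      apply hp
      show (β⁻¹ * d * β)⁻¹ p = p
      rw [Equiv.Perm.inv_eq_iff_eq]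
      simp only [Equiv.Perm.mul_apply]
      rw [h5, ia]
    rcases hdsupp _ h4 with ⟨x, hx⟩ | ⟨x, hx⟩ | hx
    · left
      exact ⟨x, by rw [← h.bPi, ← hx, ia]⟩
    · right; left
      exact ⟨x, by rw [← h.bPi, ← hx, ia]⟩
    · right; right
      rw [show e + 1 + t = e + t + 1 by omega, h.up] at hx
      exact hx
  have h4 : Is3 (d * f * d⁻¹ * f⁻¹) (Set.range (P (m + 1))) d f := by
    refine comm3 (X1 := {p | d p ≠ p}) (X2 := {p | f p ≠ p}) (fun p hp => not_not.1 hp)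
      (fun p hp => not_not.1 hp) ?_ ?_ ?_ ?_ ?_
    · intro p hp1 hp2
      rcases hdsupp p hp1 with ⟨x, hx⟩ | ⟨x, hx⟩ | hx
      · exact ⟨x, hx.symm⟩
      · exfalso
        rcases hfsupp p hp2 with ⟨y, hy⟩ | ⟨y, hy⟩ | hy
        · rw [hx] at hy
          exact h.ne (by omega) (by omega) (by omega) _ _ hy
        · rw [hx] at hy
          exact h.ne (by omega) (by omega) (by omega) _ _ hy
        · have := h.dis _ _ (by omega) (by omega) p (hx ▸ h.mem _ _) hy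
          omega
      · rcases hfsupp p hp2 with ⟨y, hy⟩ | ⟨y, hy⟩ | hy
        · exfalso
          have := h.dis _ _ (by omega) (by omega) p hx (hy ▸ h.mem _ _)
          omega
        · exact ⟨y, hy.symm⟩
        · exfalso
          have := h.dis _ _ (by omega) (by omega) p hx hy
          omega
    · rintro _ ⟨x, rfl⟩
      show d (P (m + 1) x) ≠ P (m + 1) x
      rw [hdm]; exact h.ne (by omega) (by omega) (by omega) _ _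
    · rintro _ ⟨x, rfl⟩
      show f (P (m + 1) x) ≠ P (m + 1) x
      rw [hfm]; exact h.ne (by omega) (by omega) (by omega) _ _
    · rintro _ ⟨x, rfl⟩ ⟨y, hy⟩
      rw [hdm] at hy
      exact h.ne (by omega) (by omega) (by omega) _ _ hy
    · rintro _ ⟨x, rfl⟩ ⟨y, hy⟩
      rw [hfm] at hy
      exact h.ne (by omega) (by omega) (by omega) _ _ hy
  exact Is3.adj (H.mul_mem (H.mul_mem (H.mul_mem hd hf) (H.inv_mem hd)) (H.inv_mem hf)) h4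
    hdm hfm

/-- second case: computation of the commutator `u` -/
theorem Lvl.caseU1 (h : Lvl L β Lv P) {α : Equiv.Perm X}
    {Hs Ms : Set ℕ} {NN : Set X} {e b : ℕ}
    (hN : ∀ y, (∀ x, y ≠ P (e + 2) x) → y ∉ NN →
      (∃ x, α y = P (e + 2) x) ∧ ∃ x, α⁻¹ y = P (e + 2) x)
    (hNN : ∀ y ∈ NN, ∃ a ∈ Hs, y ∈ Lv a) (heL : e + 5 < L) (hMsL : ∀ l ∈ Ms, l + 3 < L)
    (hn0 : ∀ x, P e x ∉ NN) (hn2 : ∀ l ∈ Ms, ∀ x, P (l + 1) x ∉ NN) (hMe : ∀ l ∈ Ms, l ≠ e + 1)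
    (hc1 : ∀ x, α (P (e + 3) x) = P b x) (hc2 : ∀ x, α (P (e + 5) x) = P (b + 2) x)
    (hg : ∀ a ∈ Hs, a ∉ Ms → ∀ p ∈ Lv (a + 3), p ∉ NN ∧ ∀ x, p ≠ P (e + 2) x)
    (hM : ∀ l ∈ Ms, ∀ y ∈ NN, y ∈ Lv l → ∃ x, y = P l x ∧
      ((∃ x', α (P (l + 3) x) = P (e + 2) x') ∨ (α (P (l + 3) x) = P (l + 3) x) ∨
        ∃ r, α (P (l + 3) x) = P (r + 2) x ∧ α (P (l + 2) x) = P r x)) :
    (∀ x, (β⁻¹ * α⁻¹ * (β ^ 2)⁻¹ * α * β ^ 3) (P (e + 2) x) = P (e + 2) x) ∧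
    ∀ y ∈ NN, (∃ x, (β⁻¹ * α⁻¹ * (β ^ 2)⁻¹ * α * β ^ 3) y = P (e + 1) x) ∨
      ∃ l ∈ Ms, ∃ x, y = P l x ∧ (β⁻¹ * α⁻¹ * (β ^ 2)⁻¹ * α * β ^ 3) y = P (l + 1) x := by
  have hu : ∀ y, (β⁻¹ * α⁻¹ * (β ^ 2)⁻¹ * α * β ^ 3) y =
    β⁻¹ (α⁻¹ ((β ^ 2)⁻¹ (α ((β ^ 3) y)))) := fun y => rfl
  have hbig : ∀ y, (∃ x', α ((β ^ 3) y) = P (e + 2) x') →
      ∃ x, (β⁻¹ * α⁻¹ * (β ^ 2)⁻¹ * α * β ^ 3) y = P (e + 1) x := by
    rintro y ⟨x', hx'⟩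
    rw [hu, hx', h.bPi_pow 2 e]
    obtain ⟨x2, hx2⟩ := (hN (P e x') (fun x => h.ne (by omega) (by omega) (by omega) _ _)
      (hn0 x')).2
    exact ⟨x2, by rw [hx2, h.bPi]⟩
  refine ⟨fun x => ?_, fun y hy => ?_⟩
  · rw [hu, h.bP_pow, show e + 2 + 3 = e + 5 by omega, hc2, h.bPi_pow 2 b, ← hc1, ia,
      show e + 3 = e + 2 + 1 by omega, h.bPi]
  · obtain ⟨a, ha, hya⟩ := hNN y hy
    by_cases haM : a ∈ Ms
    · obtain ⟨x, hx, h1⟩ := hM a haM y hy hya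
      have h3 : (β ^ 3) y = P (a + 3) x := by rw [hx, h.bP_pow]
      rcases h1 with ⟨x', hx'⟩ | h1 | ⟨r, hr1, hr2⟩
      · left
        exact hbig y ⟨x', by rw [h3, hx']⟩
      · left
        rw [hu, h3, h1, show a + 3 = a + 1 + 2 by omega, h.bPi_pow 2 (a + 1)]
        obtain ⟨x2, hx2⟩ := (hN (P (a + 1) x) (fun x => h.ne (by have := hMsL a haM; omega)
          (by omega) (by have := hMe a haM; omega) _ _) (hn2 a haM x)).2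
        exact ⟨x2, by rw [hx2, h.bPi]⟩
      · right
        refine ⟨a, haM, x, hx, ?_⟩
        rw [hu, h3, hr1, h.bPi_pow 2 r, ← hr2, ia, show a + 2 = a + 1 + 1 by omega, h.bPi]
    · left
      obtain ⟨h1, h2⟩ := hg a ha haM ((β ^ 3) y) ((h.up_pow 3 a y).2 hya)
      exact hbig y (hN _ h2 h1).1

end Pool.Agent.N59.VG
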