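import Mathlib

set_option autoImplicit false
set_option linter.unusedSectionVars false

/-!
# Heights: bookkeeping
-/

namespace Pool.Agent.N59.VG

/-- height of a code -/
def Hgt (q : ℕ × ℕ) : ℕ := 16 * 3 ^ q.1 + q.2

lemma pow3_aux {a r b m : ℕ} (har : a ≤ r) (hbm : b ≤ m) (h : 3 ^ a + 3 ^ r = 3 ^ b + 3 ^ m) :
    a = b ∧ r = m := by
  have h1 : 3 ^ a ≤ 3 ^ r := Nat.pow_le_pow_right (by norm_num) har
  have h2 : 3 ^ b ≤ 3 ^ m := Nat.pow_le_pow_right (by norm_num) hbm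
  have h3 : 0 < 3 ^ a := by positivity
  have h4 : 0 < 3 ^ b := by positivity
  have h5 : 3 ^ r < 3 ^ (m + 1) := by rw [pow_succ]; omega
  have h6 : 3 ^ m < 3 ^ (r + 1) := by rw [pow_succ]; omega
  have h7 := (Nat.pow_lt_pow_iff_right (by norm_num : 1 < 3)).1 h5
  have h8 := (Nat.pow_lt_pow_iff_right (by norm_num : 1 < 3)).1 h6
  have h9 : r = m := by omega
  subst h9
  exact ⟨Nat.pow_right_injective (by norm_num : 2 ≤ 3) (show 3 ^ a = 3 ^ b by omega), rfl⟩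

lemma pow3_sum {a r b m : ℕ} (h : 3 ^ a + 3 ^ r = 3 ^ b + 3 ^ m) :
    (a = b ∧ r = m) ∨ (a = m ∧ r = b) := by
  rcases le_total a r with h1 | h1 <;> rcases le_total b m with h2 | h2
  · exact Or.inl (pow3_aux h1 h2 h)
  · exact Or.inr (pow3_aux h1 h2 (by rw [h, add_comm]))
  · obtain ⟨h3, h4⟩ := pow3_aux h1 h2 (by rw [add_comm, h])
    exact Or.inr ⟨h4, h3⟩
  · obtain ⟨h3, h4⟩ := pow3_aux h1 h2 (by rw [add_comm, h, add_comm])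
    exact Or.inl ⟨h4, h3⟩

lemma Hgt_inj {q q' : ℕ × ℕ} (h : Hgt q = Hgt q') (ho : q.2 < 16) (ho' : q'.2 < 16) : q = q' := by
  unfold Hgt at h
  have h1 : 3 ^ q.1 = 3 ^ q'.1 := by omega
  have h2 : q.1 = q'.1 := Nat.pow_right_injective (by norm_num : 2 ≤ 3) h1
  exact Prod.ext h2 (by rw [h2] at h; omega)

lemma Hgt_diff {a b m r : ℕ × ℕ} (h : Hgt a + Hgt r = Hgt b + Hgt m) (ha : a.2 < 8) (hb : b.2 < 8)
    (hm : m.2 < 8) (hr : r.2 < 8) (hmr : r.1 ≠ m.1) :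
    a.1 = m.1 ∧ b.1 = r.1 ∧ a.2 + r.2 = b.2 + m.2 := by
  unfold Hgt at h
  have h1 : 3 ^ a.1 + 3 ^ r.1 = 3 ^ b.1 + 3 ^ m.1 := by omega
  rcases pow3_sum h1 with ⟨h2, h3⟩ | ⟨h2, h3⟩
  · exact absurd h3 hmr
  · exact ⟨h2, h3.symm, by omega⟩

/-- admissible codes -/
def Ok (q : ℕ × ℕ) : Prop :=
  (q.1 % 12 = 0 ∧ (q.2 = 3 ∨ q.2 = 5)) ∨ (q.1 % 12 = 1 ∧ (q.2 = 0 ∨ q.2 = 2)) ∨
  (q.1 % 12 = 2 ∧ q.2 = 0) ∨ (q.1 % 12 = 3 ∧ (q.2 = 0 ∨ q.2 = 2)) ∨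
  (q.1 % 12 = 4 ∧ (q.2 = 0 ∨ q.2 = 2 ∨ q.2 = 3)) ∨ (q.1 % 12 = 5 ∧ (q.2 = 0 ∨ q.2 = 1)) ∨
  (q.1 % 12 = 6 ∧ (q.2 = 0 ∨ q.2 = 1)) ∨ (6 < q.1 % 12 ∧ q.2 = 0)

/-- admissible codes, and the codes of the big piece and of some neutral pieces -/
def Ok' (q : ℕ × ℕ) : Prop :=
  Ok q ∨ (q.1 % 12 = 0 ∧ (q.2 = 1 ∨ q.2 = 2)) ∨ (q.1 % 12 = 4 ∧ q.2 = 1)

lemma Ok.lt {q : ℕ × ℕ} (h : Ok q) : q.2 < 6 := by unfold Ok at h; omega

lemma Ok'.lt {q : ℕ × ℕ} (h : Ok' q) : q.2 < 6 := by unfold Ok' Ok at h; omega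

lemma Hgt_lt {q : ℕ × ℕ} {N : ℕ} (hq : q.1 < N) (h : q.2 < 10) : Hgt q < 16 * 3 ^ N := by
  unfold Hgt
  have h1 : 3 ^ (q.1 + 1) ≤ 3 ^ N := Nat.pow_le_pow_right (by norm_num) hq
  have h2 : 0 < 3 ^ q.1 := by positivity
  rw [pow_succ] at h1
  omega

/-- sources -/
inductive SI (J : ℕ) : Type
  | s : SI J
  | m2 : SI J
  | m3 : SI J
  | h : SI J
  | n1 : SI J
  | t : SI J
  | p : Fin J → SI J

/-- targets -/
inductive TI (J : ℕ) : Type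
  | m : TI J
  | r : TI J
  | r2 : TI J
  | h1 : TI J
  | n : TI J
  | c0 : TI J
  | c1 : TI J
  | q : Fin J → TI J

instance (J : ℕ) : Finite (SI J) := by
  let f : Fin 6 ⊕ Fin J → SI J := Sum.elim ![SI.s, SI.m2, SI.m3, SI.h, SI.n1, SI.t] SI.p
  refine Finite.of_surjective f ?_
  rintro (_ | _ | _ | _ | _ | _ | j)
  · exact ⟨Sum.inl 0, rfl⟩
  · exact ⟨Sum.inl 1, rfl⟩
  · exact ⟨Sum.inl 2, rfl⟩
  · exact ⟨Sum.inl 3, rfl⟩
  · exact ⟨Sum.inl 4, rfl⟩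
  · exact ⟨Sum.inl 5, rfl⟩
  · exact ⟨Sum.inr j, rfl⟩

instance (J : ℕ) : Finite (TI J) := by
  let f : Fin 7 ⊕ Fin J → TI J := Sum.elim ![TI.m, TI.r, TI.r2, TI.h1, TI.n, TI.c0, TI.c1] TI.q
  refine Finite.of_surjective f ?_
  rintro (_ | _ | _ | _ | _ | _ | _ | j)
  · exact ⟨Sum.inl 0, rfl⟩
  · exact ⟨Sum.inl 1, rfl⟩
  · exact ⟨Sum.inl 2, rfl⟩
  · exact ⟨Sum.inl 3, rfl⟩
  · exact ⟨Sum.inl 4, rfl⟩
  · exact ⟨Sum.inl 5, rfl⟩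
  · exact ⟨Sum.inl 6, rfl⟩
  · exact ⟨Sum.inr j, rfl⟩

/-- codes of the sources -/
def cS {J : ℕ} (i : ℕ) : SI J → ℕ × ℕ
  | .s => (12 * i + 2, 0)
  | .m2 => (12 * i + 4, 2)
  | .m3 => (12 * i + 4, 3)
  | .h => (12 * i + 6, 0)
  | .n1 => (12 * i + 5, 1)
  | .t => (12 * i + 7, 0)
  | .p j => (12 * (Nat.pair i j) + 10, 0)

/-- codes of the targets -/
def cT {J : ℕ} (i : ℕ) : TI J → ℕ × ℕ
  | .m => (12 * i + 4, 0)
  | .r => (12 * i + 3, 0)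
  | .r2 => (12 * i + 3, 2)
  | .h1 => (12 * i + 6, 1)
  | .n => (12 * i + 5, 0)
  | .c0 => (12 * (2 * i) + 8, 0)
  | .c1 => (12 * (2 * i + 1) + 8, 0)
  | .q j => (12 * (Nat.pair i j) + 11, 0)

/-- the source of a target -/
def ts {J : ℕ} : TI J → SI J
  | .m => .s
  | .r => .m2
  | .r2 => .m3
  | .h1 => .h
  | .n => .n1
  | .c0 => .t
  | .c1 => .t
  | .q j => .p j

/-- the label of a target -/
def tl {X : Type*} {J : ℕ} (z : Fin J → Equiv.Perm X) (e0 e1 : X → X) : TI J → X → X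
  | .c0 => e0
  | .c1 => e1
  | .q j => fun x => (z j)⁻¹ x
  | _ => fun x => x

lemma okS {J : ℕ} (i : ℕ) (a : SI J) : Ok (cS i a) := by
  cases a <;> simp [Ok, cS, Nat.mul_add_mod]

lemma okT {J : ℕ} (i : ℕ) (a : TI J) : Ok (cT i a) := by
  cases a <;> simp [Ok, cT, Nat.mul_add_mod]

lemma cS_inj {J : ℕ} {i i' : ℕ} {a a' : SI J} (h : cS i a = cS i' a') : i = i' ∧ a = a' := by
  cases a <;> cases a' <;> simp only [cS, Prod.mk.injEq] at h <;>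
    first
    | (exfalso; omega)
    | (refine ⟨by omega, rfl⟩)
    | skip
  rename_i j j'
  have h1 : Nat.pair i j = Nat.pair i' j' := by omega
  obtain ⟨h2, h3⟩ := Nat.pair_eq_pair.1 h1
  exact ⟨h2, by rw [Fin.ext h3]⟩

lemma cT_inj {J : ℕ} {i i' : ℕ} {a a' : TI J} (h : cT i a = cT i' a') : i = i' ∧ a = a' := by
  cases a <;> cases a' <;> simp only [cT, Prod.mk.injEq] at h <;>
    first
    | (exfalso; omega)
    | (refine ⟨by omega, rfl⟩)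
    | skip
  rename_i j j'
  have h1 : Nat.pair i j = Nat.pair i' j' := by omega
  obtain ⟨h2, h3⟩ := Nat.pair_eq_pair.1 h1
  exact ⟨h2, by rw [Fin.ext h3]⟩

lemma cS_cT {J : ℕ} {i i' : ℕ} {a : SI J} {a' : TI J} : cS i a ≠ cT i' a' := by
  intro h
  cases a <;> cases a' <;> simp only [cS, cT, Prod.mk.injEq] at h <;> omega

/-- bound for the codes -/
def NN (k J : ℕ) : ℕ := 12 * ((k + J + 1) ^ 2 + 2 * k + 2) + 12

lemma pair_bd {k J i j : ℕ} (hi : i < k) (hj : j < J) : Nat.pair i j < (k + J + 1) ^ 2 := by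
  refine (Nat.pair_lt_max_add_one_sq i j).trans_le (Nat.pow_le_pow_left ?_ 2)
  omega

lemma cS_lt {k J i : ℕ} (hi : i < k) (a : SI J) : (cS i a).1 < NN k J := by
  cases a
  case p j =>
    have := pair_bd hi j.2
    simp only [cS, NN]; omega
  all_goals
    simp only [cS, NN]
    have : 0 ≤ (k + J + 1) ^ 2 := Nat.zero_le _
    omega

lemma cT_lt {k J i : ℕ} (hi : i < k) (a : TI J) : (cT i a).1 < NN k J := by
  cases a
  case q j =>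
    have := pair_bd hi j.2
    simp only [cT, NN]; omega
  all_goals
    simp only [cT, NN]
    have : 0 ≤ (k + J + 1) ^ 2 := Nat.zero_le _
    omega

end Pool.Agent.N59.VG
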