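import Mathlib
import Pool.Agent.N59.VG.Emb

set_option autoImplicit false
set_option linter.unusedSectionVars false

/-!
# Choice of regions; placement of pieces
-/

namespace Pool.Agent.N59.VG

open Set Topology

variable {X : Type*} [TopologicalSpace X] [CompactSpace X] [T2Space X] [TotallyDisconnectedSpace X]
variable {Γ : Subgroup (Equiv.Perm X)}

/-- `α` extended by the identity at `none` -/
def alo {k : ℕ} (α : Fin k → Equiv.Perm X) (i : Option (Fin k)) : Equiv.Perm X := i.elim 1 α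

lemma alo_mem {k : ℕ} {α : Fin k → Equiv.Perm X} (hα : ∀ i, α i ∈ Γ) (i : Option (Fin k)) :
    alo α i ∈ Γ := by
  cases i
  · exact Γ.one_mem
  · exact hα _

lemma region1 (h : SV Γ) {k : ℕ} {α : Fin k → Equiv.Perm X} (hα : ∀ i, α i ∈ Γ)
    {g : Equiv.Perm X} (hg : g ∈ Γ) (hg1 : g ≠ 1) (S : Finset (Fin k)) :
    ∃ W : Set X, IsOpen W ∧ W.Nonempty ∧ (∀ x ∈ W, g x ≠ x) ∧
      ∀ i ∈ S, (∀ x ∈ W, α i x = x) ∨ ∀ x ∈ W, α i x ≠ x := by
  classical
  induction S using Finset.induction_on with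
  | empty =>
    refine ⟨{x | g x ≠ x}, isOpen_ne_fun (h.cont g hg) continuous_id, ?_, fun x hx => hx, by simp⟩
    by_contra hcon
    rw [not_nonempty_iff_eq_empty] at hcon
    apply hg1
    ext x
    by_contra h2
    have : x ∈ {x | g x ≠ x} := h2
    rw [hcon] at this
    exact this
  | insert i S hi ih =>
    obtain ⟨W, h1, h2, h3, h4⟩ := ih
    by_cases hne : (W ∩ {x | α i x ≠ x}).Nonempty
    · refine ⟨W ∩ {x | α i x ≠ x}, h1.inter (isOpen_ne_fun (h.cont _ (hα i)) continuous_id), hne,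
        fun x hx => h3 x hx.1, fun j hj => ?_⟩
      rcases Finset.mem_insert.1 hj with rfl | hj
      · exact Or.inr fun x hx => hx.2
      · rcases h4 j hj with h5 | h5
        · exact Or.inl fun x hx => h5 x hx.1
        · exact Or.inr fun x hx => h5 x hx.1
    · refine ⟨W, h1, h2, h3, fun j hj => ?_⟩
      rcases Finset.mem_insert.1 hj with rfl | hj
      · refine Or.inl fun x hx => ?_
        by_contra h5
        exact hne ⟨x, hx, h5⟩
      · exact h4 j hj

lemma region2 (h : SV Γ) {k : ℕ} {α : Fin k → Equiv.Perm X}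
    {W : Fin k → Set X} (hW : ∀ j, IsOpen (W j)) (hWn : ∀ j, (W j).Nonempty) (T : Finset (Fin k)) :
    ∃ x : Fin k → X, ∀ j ∈ T, x j ∈ W j ∧ ∀ j' ∈ T, j ≠ j' → ∀ i i' : Option (Fin k),
      alo α i (x j) ≠ alo α i' (x j') := by
  classical
  induction T using Finset.induction_on with
  | empty =>
    have := h.ne
    exact ⟨fun _ => Classical.arbitrary X, by simp⟩
  | insert a T ha ih =>
    obtain ⟨x, hx⟩ := ih
    let bad : Set X := Set.range (fun q : (Option (Fin k) × Option (Fin k)) × Fin k =>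
      (alo α q.1.1)⁻¹ (alo α q.1.2 (x q.2)))
    have hbad : bad.Finite := Set.finite_range _
    obtain ⟨y, hyW, hyb⟩ := ((h.perf _ (hW a) (hWn a)).sdiff hbad).nonempty
    have hy : ∀ j', ∀ i i' : Option (Fin k), alo α i y ≠ alo α i' (x j') := by
      intro j' i i' h2
      apply hyb
      refine ⟨((i, i'), j'), ?_⟩
      show (alo α i)⁻¹ (alo α i' (x j')) = y
      rw [← h2, ia]
    refine ⟨Function.update x a y, fun j hj => ?_⟩
    have hupd : ∀ l ∈ T, Function.update x a y l = x l := fun l hl => by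
      rw [Function.update_of_ne]; intro hla; rw [hla] at hl; exact ha hl
    rcases Finset.mem_insert.1 hj with rfl | hj
    · rw [Function.update_self]
      refine ⟨hyW, fun j' hj' hne i i' => ?_⟩
      rcases Finset.mem_insert.1 hj' with rfl | hj'
      · exact absurd rfl hne
      · rw [hupd j' hj']; exact hy j' i i'
    · rw [hupd j hj]
      refine ⟨(hx j hj).1, fun j' hj' hne i i' => ?_⟩
      rcases Finset.mem_insert.1 hj' with rfl | hj'
      · rw [Function.update_self]; exact (hy j i' i).symm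
      · rw [hupd j' hj']; exact (hx j hj).2 j' hj' hne i i'

/-- the regions -/
theorem regions (h : SV Γ) {k : ℕ} {α : Fin k → Equiv.Perm X} (hα : ∀ i, α i ∈ Γ)
    (hα1 : ∀ i, α i ≠ 1) : ∃ O : Fin k → Set X, (∀ j, IsClopen (O j)) ∧ (∀ j, (O j).Nonempty) ∧
    (∀ j j', j ≠ j' → ∀ i i' : Option (Fin k), ∀ x ∈ O j, ∀ y ∈ O j', alo α i x ≠ alo α i' y) ∧
    (∀ i j, (∀ x ∈ O j, α i x = x) ∨ ∀ x ∈ O j, ∀ y ∈ O j, α i x ≠ y) ∧
    ∀ j, ∀ x ∈ O j, ∀ y ∈ O j, α j x ≠ y := by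
  choose W hW1 hW2 hW3 hW4 using fun j => region1 h hα (hα j) (hα1 j) Finset.univ
  obtain ⟨x, hx⟩ := region2 h (α := α) hW1 hW2 Finset.univ
  let P : Set X := Set.range (fun q : Option (Fin k) × Fin k => alo α q.1 (x q.2))
  have hP : P.Finite := Set.finite_range _
  obtain ⟨U, hU, hUd⟩ := hP.t2_separation
  have hc : ∀ i : Option (Fin k), Continuous (alo α i) := fun i => h.cont _ (alo_mem hα i)
  have h1 : ∀ j, ∃ V, IsClopen V ∧ x j ∈ V ∧
      V ⊆ W j ∩ ⋂ i : Option (Fin k), (alo α i) ⁻¹' (U (alo α i (x j))) := by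
    intro j
    apply exists_clopen_nhds
    · exact (hW1 j).inter (isOpen_iInter_of_finite fun i => (hU _).2.preimage (hc i))
    · exact ⟨(hx j (Finset.mem_univ _)).1, mem_iInter.2 fun i => (hU _).1⟩
  choose O hO1 hO2 hO3 using h1
  have hO4 : ∀ j, ∀ y ∈ O j, ∀ i, alo α i y ∈ U (alo α i (x j)) := fun j y hy i =>
    mem_iInter.1 (hO3 j hy).2 i
  have hsep : ∀ j j' i i', alo α i (x j) ≠ alo α i' (x j') → ∀ y ∈ O j, ∀ y' ∈ O j',
      alo α i y ≠ alo α i' y' := by
    intro j j' i i' hne y hy y' hy' heq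
    have h2 := hUd ⟨(i, j), rfl⟩ ⟨(i', j'), rfl⟩ hne
    exact Set.disjoint_left.1 h2 (hO4 j y hy i) (heq ▸ hO4 j' y' hy' i')
  refine ⟨O, hO1, fun j => ⟨_, hO2 j⟩, fun j j' hne i i' => hsep j j' i i'
    ((hx j (Finset.mem_univ _)).2 j' (Finset.mem_univ _) hne i i'), fun i j => ?_, fun j => ?_⟩
  · rcases hW4 j i (Finset.mem_univ _) with h2 | h2
    · exact Or.inl fun y hy => h2 y (hO3 j hy).1
    · exact Or.inr (hsep j j (some i) none (h2 _ (hO3 j (hO2 j)).1))
  · exact hsep j j (some j) none (hW3 j _ (hO3 j (hO2 j)).1)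

/-- placement of finitely many pieces by an element of `Γ` -/
theorem place (h : SV Γ) {Q : Type*} [Finite Q] {S : Q → Set X} (hS : ∀ q, IsClopen (S q))
    {D P : Q → X → X} (hD : ∀ q, Emb Γ (D q)) (hP : ∀ q, Emb Γ (P q))
    (hDd : ∀ q q' x x', x ∈ S q → x' ∈ S q' → D q x = D q' x' → q = q')
    (hPd : ∀ q q' x x', x ∈ S q → x' ∈ S q' → P q x = P q' x' → q = q')
    (hDn : ∃ y, ∀ q, ∀ x ∈ S q, D q x ≠ y) (hPn : ∃ y, ∀ q, ∀ x ∈ S q, P q x ≠ y) :
    ∃ g ∈ Γ, ∀ q, ∀ x ∈ S q, g (D q x) = P q x := by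
  classical
  let A : Set X := ⋃ q, D q '' S q
  have hA : IsClopen A := isClopen_iUnion_of_finite fun q => (hD q).img h (hS q)
  let f : X → X := fun y => if hy : ∃ q x, x ∈ S q ∧ D q x = y then
    P hy.choose hy.choose_spec.choose else y
  have hf : ∀ q, ∀ x ∈ S q, f (D q x) = P q x := by
    intro q x hx
    have hy : ∃ q' x', x' ∈ S q' ∧ D q' x' = D q x := ⟨q, x, hx, rfl⟩
    have h1 : f (D q x) = P hy.choose hy.choose_spec.choose := dif_pos hy
    obtain ⟨h2, h2'⟩ := hy.choose_spec.choose_spec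
    rw [h1]
    generalize hy.choose_spec.choose = x' at h2 h2'
    generalize hy.choose = q' at h2 h2'
    obtain rfl : q' = q := hDd _ _ _ _ h2 hx h2'
    rw [(hD _).inj h2']
  have hlg : LG Γ A f := by
    intro y hy
    obtain ⟨q, hq⟩ := mem_iUnion.1 hy
    exact LG.trans h (hS q).isOpen ((hD q).lg.mono (subset_univ _)) ((hP q).lg.mono (subset_univ _))
      (hf q) y hq
  have hinj : InjOn f A := by
    intro y hy y' hy' hyy
    obtain ⟨q, x, hx, rfl⟩ := mem_iUnion.1 hy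
    obtain ⟨q', x', hx', rfl⟩ := mem_iUnion.1 hy'
    rw [hf q x hx, hf q' x' hx'] at hyy
    obtain rfl := hPd _ _ _ _ hx hx' hyy
    rw [(hP q).inj hyy]
  obtain ⟨y, hy⟩ := hDn
  obtain ⟨y', hy'⟩ := hPn
  obtain ⟨g, hg, hgf⟩ := ext h hA hlg hinj ⟨y, by
    intro h1
    obtain ⟨q, x, hx, h2⟩ := mem_iUnion.1 h1
    exact hy q x hx h2⟩ ⟨y', by
    intro x hx h2
    obtain ⟨q, z, hz, rfl⟩ := mem_iUnion.1 hx
    rw [hf q z hz] at h2
    exact hy' q z hz h2.symm⟩
  exact ⟨g, hg, fun q x hx => by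
    rw [hgf _ (mem_iUnion.2 ⟨q, x, hx, rfl⟩), hf q x hx]⟩

end Pool.Agent.N59.VG
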