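import Mathlib
import Pool.Agent.N59.VG.Decomp
import Pool.Agent.N59.VG.Region

set_option autoImplicit false
set_option linter.unusedSectionVars false

/-!
# The generation theorem
-/

namespace Pool.Agent.N59.VG

open Set Topology

variable {X : Type*} [TopologicalSpace X] [CompactSpace X] [T2Space X] [TotallyDisconnectedSpace X]
variable {Γ : Subgroup (Equiv.Perm X)}

/-- the parameters of the construction -/
structure Par (Γ : Subgroup (Equiv.Perm X)) (k c : ℕ) (n : Option (Fin c) → ℕ) (p : ℕ)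
    (z : Option (Fin c) → Equiv.Perm X) : Prop where
  k0 : 0 < k
  cop : Cop n p
  odd : ∀ i, Odd (n i)
  oddp : Odd p
  kp : k < p
  big : ∀ i, 3 * k < n i
  bigN : k + (k * c + k * 2) ≤ n none
  card : ∃ t, ∑ i, n i = p * t + 1
  lab : (∑ i, n (some i)) ≤ n none
  c3 : 3 ≤ c
  ck : k + 1 ≤ c
  n4 : 4 ≤ n none
  zmem : ∀ i, z i ∈ Γ
  z3 : ∀ i, z i ^ 3 = 1
  z0 : z none = 1
  gen : ∀ H : Subgroup (Equiv.Perm X), (∀ i j : Fin c,
    z (some i) * z (some j) * (z (some i))⁻¹ * (z (some j))⁻¹ ∈ H) → Γ ≤ H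

lemma exists_par (h : SV Γ) (hfg : Γ.FG) {k : ℕ} (hk : 0 < k) :
    ∃ (c : ℕ) (n : Option (Fin c) → ℕ) (p : ℕ) (z : Option (Fin c) → Equiv.Perm X),
      Par Γ k c n p z := by
  obtain ⟨J, z, hz, hgen⟩ := fingen h hfg
  let p := 6 * k + 5
  let c := p * (k + J + 1)
  obtain ⟨n, n1, n2, n3, n4⟩ := exists_len c (6 * p) (k * c + 3 * k + 5) (by positivity)
    (by positivity)
  have hcJ : k + J + 1 ≤ c := Nat.le_mul_of_pos_left _ (by positivity)
  have hc3 : 5 ≤ c := by
    have : p * 1 ≤ c := Nat.mul_le_mul_left _ (by omega)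
    omega
  have hn2 : ∀ i, n i ≡ 1 [MOD 2] := fun i =>
    (n1 i).of_dvd (Dvd.dvd.mul_right (by norm_num) p)
  have hn3 : ∀ i, n i ≡ 1 [MOD 3] := fun i =>
    (n1 i).of_dvd (Dvd.dvd.mul_right (by norm_num) p)
  have hnp : ∀ i, n i ≡ 1 [MOD p] := fun i => (n1 i).of_dvd (Dvd.intro_left _ rfl)
  have hsum : (∑ i, n (some i)) + (k * c + 3 * k + 5) < n none := n4
  refine ⟨c, n, p, fun o => Option.elim o 1 (fun i => if hi : i.val < J then z ⟨i.val, hi⟩ else 1),
    ⟨hk, ⟨fun i => ?_, by omega, n3, fun i => ?_, fun i => ?_, ?_⟩, fun i => ?_, ?_, by omega,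
      fun i => ?_, ?_, ?_, ?_, by omega, by omega, ?_, ?_, ?_, rfl, ?_⟩⟩
  · have := n2 i; omega
  · have := (hn3 i).gcd_eq
    rw [Nat.coprime_iff_gcd_eq_one, this]; norm_num
  · have := (hnp i).gcd_eq
    rw [Nat.coprime_iff_gcd_eq_one, this]; simp
  · show Nat.Coprime 3 (6 * k + 5)
    rw [show 6 * k + 5 = 3 * (2 * k + 1) + 2 by ring, Nat.coprime_mul_left_add_right]
    norm_num
  · have := hn2 i
    rw [Nat.odd_iff]; exact this
  · show Odd (6 * k + 5)
    exact ⟨3 * k + 2, by ring⟩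
  · have := n2 i
    have h2 : 0 ≤ k * c := Nat.zero_le _
    omega
  · have := n2 none
    have h2 : k + (k * c + k * 2) = k * c + 3 * k := by ring
    omega
  · have h2 : ∑ i, n i ≡ 1 [MOD p] := by
      rw [Fintype.sum_option]
      have h3 : ∑ i : Fin c, n (some i) ≡ c [MOD p] := by
        have h4 : ∑ i : Fin c, n (some i) ≡ ∑ i : Fin c, 1 [MOD p] := by
          apply Nat.ModEq.sum
          intro i _
          exact hnp _
        simpa using h4
      have h5 : c ≡ 0 [MOD p] := (Nat.modEq_zero_iff_dvd).2 (Dvd.intro _ rfl)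
      exact (hnp none).add (h3.trans h5)
    have h6 : 1 ≤ ∑ i, n i := by
      rw [Fintype.sum_option]
      have := n2 none
      omega
    obtain ⟨t, ht⟩ := (Nat.modEq_iff_dvd' h6).1 h2.symm
    exact ⟨t, by omega⟩
  · have h2 : 0 ≤ k * c := Nat.zero_le _
    omega
  · have := n2 none
    omega
  · rintro (_ | i)
    · exact Γ.one_mem
    · show (if hi : i.val < J then z ⟨i.val, hi⟩ else 1) ∈ Γ
      split_ifs with hi
      · exact (hz _).1
      · exact Γ.one_mem
  · rintro (_ | i)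
    · exact one_pow _
    · show (if hi : i.val < J then z ⟨i.val, hi⟩ else 1) ^ 3 = 1
      split_ifs with hi
      · exact (hz _).2
      · exact one_pow _
  · intro H hH
    apply hgen H
    intro j j'
    have h1 := hH ⟨j.val, by omega⟩ ⟨j'.val, by omega⟩
    simpa using h1

lemma pc_del {I Z Y W : Type*} [DecidableEq I] (F : (I × Z) ⊕ Y ≃ W) (m : I) (e : Z ↪ W)
    (he : ∀ x, e x = F (Sum.inl (m, x))) (g : Equiv.Perm Z) :
    F.permCongr (del m g) = g.viaEmbedding e := by
  ext y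
  obtain ⟨q, rfl⟩ := F.surjective y
  rw [Equiv.permCongr_apply, Equiv.symm_apply_apply]
  rcases q with ⟨m', x⟩ | r
  · unfold del
    rw [gam_inl]
    by_cases hm : m' = m
    · subst hm
      rw [if_pos rfl, ← he, ← he, Equiv.Perm.viaEmbedding_apply]
    · rw [if_neg hm, Equiv.Perm.one_apply, Equiv.Perm.viaEmbedding_apply_of_notMem]
      rintro ⟨y, hy⟩
      rw [he] at hy
      have := F.injective hy
      simp only [Sum.inl.injEq, Prod.mk.injEq] at this
      exact hm this.1.symm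
  · unfold del
    rw [gam_inr, Equiv.Perm.viaEmbedding_apply_of_notMem]
    rintro ⟨y, hy⟩
    rw [he] at hy
    have := F.injective hy
    simp at this

/-- a position in the space -/
structure Loc (k c : ℕ) (n : Option (Fin c) → ℕ) (X : Type*) where
  b : Bool
  j : Fin k
  m : Idx n
  y : X

set_option maxHeartbeats 1000000 in
theorem main_step (h : SV Γ) {k c : ℕ} {n : Option (Fin c) → ℕ} {p : ℕ}
    {z : Option (Fin c) → Equiv.Perm X} (par : Par Γ k c n p z) {R : Set X}
    {F : (Idx n × X) ⊕ (ZMod p × R) ≃ X} {D : Idx n → X → X} {D' : ZMod p → X → X}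
    (dec : Dec Γ n p R F D D') {α : Fin k → Equiv.Perm X} (hα : ∀ i, α i ∈ Γ)
    (hα1 : ∀ i, α i ≠ 1) :
    ∃ g ∈ Γ, ∀ i, Γ ≤ Subgroup.closure {α i, g * F.permCongr (sig n p R z) * g⁻¹} := by
  classical
  have := h.ne
  have hn0 : ∀ i, NeZero (n i) := fun i => ⟨par.cop.h0 i⟩
  have hp0 : NeZero p := ⟨par.cop.hp0⟩
  have hk0 := par.k0
  obtain ⟨O, hO1, hO2, hOA, hOB, hOC⟩ := regions h hα hα1
  choose pe hpe1 hpe2 hpe3 l hl1 hl2 using fun j =>
    exists_embs h (hO1 j).isOpen (hO2 j) (Idx n)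
  obtain ⟨e, he1, -, he3, -⟩ := exists_embs h isOpen_univ univ_nonempty (Fin 3)
  -- the location map
  let alb : Bool → Fin k → Option (Fin k) := fun b j => if b then some j else none
  let loc : Loc k c n X → X := fun q => alo α (alb q.b q.j) (pe q.j q.m q.y)
  have hloc : Function.Injective loc := by
    rintro ⟨b, j, m, y⟩ ⟨b', j', m', y'⟩ hq
    have hq' : alo α (alb b j) (pe j m y) = alo α (alb b' j') (pe j' m' y') := hq
    by_cases hj : j = j'
    · subst hj
      have hb : b = b' := by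
        cases b <;> cases b'
        · rfl
        · exact absurd hq'.symm (hOC j _ (hpe2 j m' y') _ (hpe2 j m y))
        · exact absurd hq' (hOC j _ (hpe2 j m y) _ (hpe2 j m' y'))
        · rfl
      subst hb
      have h1 := (alo α (alb b j)).injective hq'
      have h2 := hpe3 j _ _ _ _ h1
      subst h2
      have h3 := (hpe1 j m).inj h1
      subst h3
      rfl
    · exact absurd hq' (hOA j j' hj _ _ _ (hpe2 j m y) _ (hpe2 j' m' y'))
  have hlocE : ∀ b j m, Emb Γ (fun y => loc ⟨b, j, m, y⟩) := fun b j m =>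
    (hpe1 j m).comp h (Emb.of_mem (alo_mem hα (alb b j)))
  have hloca : ∀ i m y, α i (loc ⟨false, i, m, y⟩) = loc ⟨true, i, m, y⟩ := fun i m y => rfl
  -- indices
  have hck := par.ck
  let A : Fin c := ⟨0, by omega⟩
  let B : Fin k → Fin c := fun i => ⟨i.val + 1, by omega⟩
  have hAB : ∀ i, A ≠ B i := fun i hi => by simp [A, B] at hi
  have hBB : ∀ i j, B i = B j → i = j := fun i j hi => by
    simp only [B, Fin.mk.injEq] at hi
    exact Fin.ext (by omega)
  let u : Fin k → ZMod (n (some A)) := fun i => ((k + i.val : ℕ) : ZMod (n (some A)))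
  let v : ∀ i : Fin k, ZMod (n (some (B i))) := fun i =>
    ((2 * k + i.val : ℕ) : ZMod (n (some (B i))))
  let t : ∀ (i : Fin k) (d : Fin c), ZMod (n (some d)) := fun i d => ((i.val : ℕ) : ZMod (n (some d)))
  let U : Fin k → Idx n := fun i => ⟨some A, u i⟩
  let V : Fin k → Idx n := fun i => ⟨some (B i), v i⟩
  let T : Fin k → Fin c → Idx n := fun i d => ⟨some d, t i d⟩
  have hval : ∀ (o : Option (Fin c)) (a : ℕ), a < 3 * k → ((a : ℕ) : ZMod (n o)).val = a := by
    intro o a ha
    rw [ZMod.val_natCast, Nat.mod_eq_of_lt]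
    have := par.big o; omega
  let r : Idx n → Fin k := fun m => ⟨m.2.val % k, Nat.mod_lt _ par.k0⟩
  have hrU : ∀ i, r (U i) = i := by
    intro i
    apply Fin.ext
    show ((k + i.val : ℕ) : ZMod (n (some A))).val % k = i.val
    rw [hval _ _ (by omega), Nat.add_mod_left, Nat.mod_eq_of_lt i.2]
  have hrT : ∀ i d, r (T i d) = i := by
    intro i d
    apply Fin.ext
    show ((i.val : ℕ) : ZMod (n (some d))).val % k = i.val
    rw [hval _ _ (by omega), Nat.mod_eq_of_lt i.2]
  have hUV : ∀ i j, U i ≠ V j := by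
    intro i j hij
    have : (some A : Option (Fin c)) = some (B j) := congrArg Sigma.fst hij
    exact hAB j (Option.some.inj this)
  have hVV : ∀ i j, V i = V j → i = j := by
    intro i j hij
    have : (some (B i) : Option (Fin c)) = some (B j) := congrArg Sigma.fst hij
    exact hBB _ _ (Option.some.inj this)
  have hTV : ∀ i d j, T i d ≠ V j := by
    intro i d j hij
    have h1 : (T i d).2.val = (V j).2.val := by rw [hij]
    have h2 : (T i d).2.val = i.val := hval _ _ (by omega)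
    have h3 : (V j).2.val = 2 * k + j.val := hval _ _ (by omega)
    omega
  have hUT : ∀ i i' d, U i ≠ T i' d := by
    intro i i' d hij
    have h1 : (U i).2.val = (T i' d).2.val := by rw [hij]
    have h2 : (T i' d).2.val = i'.val := hval _ _ (by omega)
    have h3 : (U i).2.val = k + i.val := hval _ _ (by omega)
    omega
  have hTT : ∀ i d d', T i d = T i d' → d = d' := by
    intro i d d' hd
    have : (some d : Option (Fin c)) = some d' := congrArg Sigma.fst hd
    exact Option.some.inj this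
  obtain ⟨ν⟩ : Nonempty ((Fin k ⊕ (Fin k × Fin c) ⊕ (Fin k × Fin 2)) ↪ ZMod (n none)) := by
    apply Function.Embedding.nonempty_of_card_le
    rw [ZMod.card]
    simpa using par.bigN
  let w : Fin k → ZMod p := fun i => ((i.val : ℕ) : ZMod p)
  have hvalp : ∀ a : ℕ, a ≤ k → ((a : ℕ) : ZMod p).val = a := by
    intro a ha
    rw [ZMod.val_natCast, Nat.mod_eq_of_lt]
    have := par.kp; omega
  have hww : ∀ i j, w i = w j → i = j := by
    intro i j hij
    have h1 : (w i).val = (w j).val := by rw [hij]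
    rw [hvalp _ (by omega), hvalp _ (by omega)] at h1
    exact Fin.ext h1
  have hwk : ∀ i, w i ≠ ((k : ℕ) : ZMod p) := by
    intro i hi
    have h1 : (w i).val = ((k : ℕ) : ZMod p).val := by rw [hi]
    rw [hvalp _ (by omega), hvalp _ le_rfl] at h1
    omega
  -- the controlled pieces
  let D1 := {m : Idx n // m.1 ≠ none ∧ ∀ i, m ≠ V i}
  let Q := D1 ⊕ Fin k ⊕ (Fin k ⊕ (Fin k × Fin c) ⊕ (Fin k × Fin 2)) ⊕ Fin k
  let addr : Q → Idx n ⊕ ZMod p := Sum.elim (fun m => Sum.inl m.1) (Sum.elim (fun i => Sum.inl (V i))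
    (Sum.elim (fun s => Sum.inl ⟨none, ν s⟩) (fun i => Sum.inr (w i))))
  have haddr : Function.Injective addr := by
    rintro (m | i | s | i) (m' | i' | s' | i') hq <;>
      simp only [addr, Sum.elim_inl, Sum.elim_inr, Sum.inl.injEq, Sum.inr.injEq, reduceCtorEq] at hq
    · rw [Subtype.ext hq]
    · exact absurd hq (m.2.2 i')
    · exact absurd (congrArg Sigma.fst hq) m.2.1
    · exact absurd hq.symm (m'.2.2 i)
    · rw [hVV _ _ hq]
    · exact absurd (congrArg Sigma.fst hq) (by simp [V])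
    · exact absurd (congrArg Sigma.fst hq).symm m'.2.1
    · exact absurd (congrArg Sigma.fst hq).symm (by simp [V])
    · simp only [Sigma.mk.injEq, heq_eq_eq, true_and] at hq
      rw [ν.injective hq]
    · rw [hww _ _ hq]
  let SS : Idx n ⊕ ZMod p → Set X := Sum.elim (fun _ => univ) (fun _ => R)
  let DD : Idx n ⊕ ZMod p → X → X := Sum.elim D D'
  have hDD : ∀ a a' x x', x ∈ SS a → x' ∈ SS a' → DD a x = DD a' x' → a = a' := by
    rintro (m | i) (m' | i') x x' hx hx' hxx
    · have h1 : D m x = D m' x' := hxx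
      rw [← dec.hF, ← dec.hF] at h1
      have h2 := F.injective h1
      simp only [Sum.inl.injEq, Prod.mk.injEq] at h2
      rw [h2.1]
    · have h1 : D m x = D' i' (⟨x', hx'⟩ : R) := hxx
      rw [← dec.hF, ← dec.hF'] at h1
      have h2 := F.injective h1
      simp at h2
    · have h1 : D' i (⟨x, hx⟩ : R) = D m' x' := hxx
      rw [← dec.hF, ← dec.hF'] at h1
      have h2 := F.injective h1
      simp at h2
    · have h1 : D' i (⟨x, hx⟩ : R) = D' i' (⟨x', hx'⟩ : R) := hxx
      rw [← dec.hF', ← dec.hF'] at h1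
      have h2 := F.injective h1
      simp only [Sum.inr.injEq, Prod.mk.injEq] at h2
      rw [h2.1]
  let m' : Fin k → Idx n := fun i => ⟨none, ν (Sum.inl i)⟩
  let lc : Q → X → Loc k c n X := Sum.elim (fun m x => ⟨false, r m.1, m.1, x⟩)
    (Sum.elim (fun i x => ⟨true, i, U i, x⟩)
    (Sum.elim (Sum.elim (fun i x => ⟨false, i, m' i, x⟩)
      (Sum.elim (fun q x => ⟨true, q.1, T q.1 q.2, x⟩)
        (fun q x => ⟨true, q.1, m' q.1, e q.2.castSucc x⟩)))
    (fun i x => ⟨true, i, m' i, e 2 x⟩)))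
  have hlc : ∀ q q' x x', lc q x = lc q' x' → q = q' := by
    rintro (m | i | (i | ⟨i, d⟩ | ⟨i, b⟩) | i) (l | j | (j | ⟨j, d'⟩ | ⟨j, b'⟩) | j) x x' hq <;>
      simp only [lc, Sum.elim_inl, Sum.elim_inr, Loc.mk.injEq, reduceCtorEq, false_and,
        true_and] at hq
    · rw [Subtype.ext hq.2.1]
    · exact absurd (congrArg Sigma.fst hq.2.1) m.2.1
    · rw [hq.1]
    · obtain ⟨rfl, h1, -⟩ := hq; exact absurd h1 (hUT _ _ _)
    · exact absurd (congrArg Sigma.fst hq.2.1) (by simp [U, m'])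
    · exact absurd (congrArg Sigma.fst hq.2.1) (by simp [U, m'])
    · exact absurd (congrArg Sigma.fst hq.2.1).symm l.2.1
    · rw [hq.1]
    · obtain ⟨rfl, h1, -⟩ := hq; exact absurd h1.symm (hUT _ _ _)
    · obtain ⟨rfl, h1, -⟩ := hq; rw [hTT _ _ _ h1]
    · exact absurd (congrArg Sigma.fst hq.2.1) (by simp [T, m'])
    · exact absurd (congrArg Sigma.fst hq.2.1) (by simp [T, m'])
    · exact absurd (congrArg Sigma.fst hq.2.1).symm (by simp [U, m'])
    · exact absurd (congrArg Sigma.fst hq.2.1).symm (by simp [T, m'])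
    · obtain ⟨rfl, -, h1⟩ := hq
      have h2 := he3 _ _ _ _ h1
      rw [Fin.castSucc_injective _ h2]
    · obtain ⟨rfl, -, h1⟩ := hq
      have h2 := he3 _ _ _ _ h1
      exact absurd h2 (Fin.castSucc_lt_last b).ne
    · exact absurd (congrArg Sigma.fst hq.2.1).symm (by simp [U, m'])
    · exact absurd (congrArg Sigma.fst hq.2.1).symm (by simp [T, m'])
    · obtain ⟨rfl, -, h1⟩ := hq
      have h2 := he3 _ _ _ _ h1
      exact absurd h2.symm (Fin.castSucc_lt_last b').ne
    · rw [hq.1]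
  have hlcE : ∀ q, Emb Γ (fun x => loc (lc q x)) := by
    rintro (m | i | (i | ⟨i, d⟩ | ⟨i, b⟩) | i)
    · exact hlocE _ _ _
    · exact hlocE _ _ _
    · exact hlocE _ _ _
    · exact hlocE _ _ _
    · exact (he1 _).comp h (hlocE true i (m' i))
    · exact (he1 _).comp h (hlocE true i (m' i))
  obtain ⟨r0, hr0⟩ := dec.ne
  obtain ⟨g, hg, hgP⟩ := place h (Q := Q) (S := fun q => SS (addr q)) (D := fun q => DD (addr q))
    (P := fun q x => loc (lc q x)) (by
      intro q
      rcases addr q with m | i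
      · exact isClopen_univ
      · exact dec.cl) (by
      intro q
      rcases addr q with m | i
      · exact dec.hD m
      · exact dec.hD' i) hlcE
    (fun q q' x x' hx hx' hxx => haddr (hDD _ _ _ _ hx hx' hxx))
    (fun q q' x x' _ _ hxx => hlc _ _ _ _ (hloc hxx))
    ⟨D' ((k : ℕ) : ZMod p) r0, fun q x hx hxx => by
      have h1 := hDD (addr q) (Sum.inr ((k : ℕ) : ZMod p)) x r0 hx hr0 hxx
      rcases q with m | i | s | i
      · simp [addr] at h1
      · simp [addr] at h1
      · simp [addr] at h1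
      · simp only [addr, Sum.elim_inr, Sum.inr.injEq] at h1
        exact hwk i h1⟩
    ⟨l ⟨0, par.k0⟩, fun q x _ hxx => by
      have hgen : ∀ q : Loc k c n X, loc q ≠ l ⟨0, par.k0⟩ := by
        rintro ⟨b, j, m, y⟩ hq
        by_cases hj : j = ⟨0, par.k0⟩
        · subst hj
          cases b
          · exact hl2 _ _ _ hq
          · exact hOC _ _ (hpe2 _ m y) _ (hl1 _) hq
        · exact hOA j ⟨0, par.k0⟩ hj (alb b j) none _ (hpe2 j m y) _ (hl1 _) hq
      exact hgen _ hxx⟩
  let Φ : (Idx n × X) ⊕ (ZMod p × R) ≃ X := F.trans g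
  have hΦ : ∀ m x, Φ (Sum.inl (m, x)) = g (D m x) := fun m x => by
    show g (F _) = _
    rw [dec.hF]
  have hΦ' : ∀ w (r : R), Φ (Sum.inr (w, r)) = g (D' w r) := fun w r => by
    show g (F _) = _
    rw [dec.hF']
  have Φ1 : ∀ m : Idx n, m.1 ≠ none → (∀ i, m ≠ V i) → ∀ x,
      Φ (Sum.inl (m, x)) = loc ⟨false, r m, m, x⟩ := by
    intro m h1 h2 x
    rw [hΦ]
    exact hgP (Sum.inl ⟨m, h1, h2⟩) x (mem_univ _)
  have Φ2 : ∀ i x, Φ (Sum.inl (V i, x)) = loc ⟨true, i, U i, x⟩ := by
    intro i x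
    rw [hΦ]
    exact hgP (Sum.inr (Sum.inl i)) x (mem_univ _)
  have Φ3 : ∀ i x, Φ (Sum.inl (m' i, x)) = loc ⟨false, i, m' i, x⟩ := by
    intro i x
    rw [hΦ]
    exact hgP (Sum.inr (Sum.inr (Sum.inl (Sum.inl i)))) x (mem_univ _)
  have Φ4 : ∀ i d x, Φ (Sum.inl (⟨none, ν (Sum.inr (Sum.inl (i, d)))⟩, x)) =
      loc ⟨true, i, T i d, x⟩ := by
    intro i d x
    rw [hΦ]
    exact hgP (Sum.inr (Sum.inr (Sum.inl (Sum.inr (Sum.inl (i, d)))))) x (mem_univ _)
  have Φ5 : ∀ i (b : Fin 2) x, Φ (Sum.inl (⟨none, ν (Sum.inr (Sum.inr (i, b)))⟩, x)) =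
      loc ⟨true, i, m' i, e b.castSucc x⟩ := by
    intro i b x
    rw [hΦ]
    exact hgP (Sum.inr (Sum.inr (Sum.inl (Sum.inr (Sum.inr (i, b)))))) x (mem_univ _)
  have Φ6 : ∀ i (r : R), Φ (Sum.inr (w i, r)) = loc ⟨true, i, m' i, e 2 r⟩ := by
    intro i r
    rw [hΦ']
    exact hgP (Sum.inr (Sum.inr (Sum.inr i))) r r.2
  refine ⟨g, hg, fun i => ?_⟩
  -- the transported subgroup
  set H := Subgroup.closure {α i, g * F.permCongr (sig n p R z) * g⁻¹} with hH
  let H' : Subgroup (Equiv.Perm ((Idx n × X) ⊕ (ZMod p × R))) := H.comap Φ.permCongrHom.toMonoidHom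
  have hH' : ∀ τ, τ ∈ H' ↔ Φ.permCongr τ ∈ H := fun τ => Iff.rfl
  have hs : sig n p R z ∈ H' := by
    rw [hH']
    have h1 : Φ.permCongr (sig n p R z) = g * F.permCongr (sig n p R z) * g⁻¹ := by
      ext y; rfl
    rw [h1]
    exact Subgroup.subset_closure (by simp)
  let a' : Equiv.Perm ((Idx n × X) ⊕ (ZMod p × R)) := Φ.symm.permCongr (α i)
  have ha' : a' ∈ H' := by
    rw [hH']
    have h1 : Φ.permCongr a' = α i := by
      ext y
      simp [a', Equiv.permCongr_apply]
    rw [h1]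
    exact Subgroup.subset_closure (by simp)
  have haa : ∀ q q', α i (Φ q) = Φ q' → a' q = q' := by
    intro q q' hq
    show Φ.symm (α i (Φ.symm.symm q)) = q'
    rw [Equiv.symm_symm, hq, Equiv.symm_apply_apply]
  have hgood : Good n p a' A (B i) (u i) (v i) (t i) (fun d => ν (Sum.inr (Sum.inl (i, d))))
      (ν (Sum.inl i)) (ν (Sum.inr (Sum.inr (i, 0)))) (ν (Sum.inr (Sum.inr (i, 1)))) (w i)
      (e 0) (e 1) (fun r : R => e 2 r) := by
    refine ⟨fun x => ?_, fun d x => ?_, fun d d' hd => ?_, fun x => ?_, fun x => ?_, fun x => ?_,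
      fun hc => ?_, fun a x j y hxy => ?_⟩
    · apply haa
      have h1 := Φ1 (U i) (by simp [U]) (hUV i) x
      rw [hrU] at h1
      show α i (Φ (Sum.inl (U i, x))) = Φ (Sum.inl (V i, x))
      rw [h1, hloca, Φ2]
    · apply haa
      have h1 := Φ1 (T i d) (by simp [T]) (hTV i d) x
      rw [hrT] at h1
      show α i (Φ (Sum.inl (T i d, x))) = _
      rw [h1, hloca, Φ4]
    · have := ν.injective hd
      simpa using this
    · apply haa
      show α i (Φ (Sum.inl (m' i, e 0 x))) = _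
      rw [Φ3, hloca, Φ5]; rfl
    · apply haa
      show α i (Φ (Sum.inl (m' i, e 1 x))) = _
      rw [Φ3, hloca, Φ5]; rfl
    · apply haa
      show α i (Φ (Sum.inl (m' i, e 2 x))) = _
      rw [Φ3, hloca, Φ6]
    · have := ν.injective hc
      simp at this
    · -- disjointness
      by_contra hau
      have hxy' : α i (Φ (Sum.inl (⟨some A, a⟩, x))) = Φ (Sum.inl (⟨some (B i), j⟩, y)) := by
        have h1 : Φ.symm (α i (Φ (Sum.inl (⟨some A, a⟩, x)))) = Sum.inl (⟨some (B i), j⟩, y) := hxy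
        rw [← h1, Equiv.apply_symm_apply]
      have hm1 : ∀ l, (⟨some A, a⟩ : Idx n) ≠ V l := by
        intro l hl
        have : (some A : Option (Fin c)) = some (B l) := congrArg Sigma.fst hl
        exact hAB l (Option.some.inj this)
      rw [Φ1 _ (by simp) hm1] at hxy'
      by_cases hV : (⟨some (B i), j⟩ : Idx n) = V i
      · rw [hV, Φ2, ← hloca] at hxy'
        have h2 := hloc ((α i).injective hxy')
        simp only [Loc.mk.injEq, true_and] at h2
        have h3 : (⟨some A, a⟩ : Idx n) = ⟨some A, u i⟩ := h2.2.1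
        simp only [Sigma.mk.injEq, heq_eq_eq, true_and] at h3
        exact hau h3
      · have hm2 : ∀ l, (⟨some (B i), j⟩ : Idx n) ≠ V l := by
          intro l hl
          have h2 : (some (B i) : Option (Fin c)) = some (B l) := congrArg Sigma.fst hl
          obtain rfl := hBB _ _ (Option.some.inj h2)
          exact hV hl
        rw [Φ1 _ (by simp) hm2] at hxy'
        set q1 : Idx n := ⟨some A, a⟩ with hq1
        set q2 : Idx n := ⟨some (B i), j⟩ with hq2
        have h3 : α i (pe (r q1) q1 x) = pe (r q2) q2 y := hxy'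
        by_cases hr : r q1 = r q2
        · rw [← hr] at h3
          rcases hOB i (r q1) with h4 | h4
          · rw [h4 _ (hpe2 _ _ _)] at h3
            have h5 := hpe3 _ _ _ _ _ h3
            have : (some A : Option (Fin c)) = some (B i) := congrArg Sigma.fst h5
            exact hAB i (Option.some.inj this)
          · exact h4 _ (hpe2 _ _ _) _ (hpe2 _ _ _) h3
        · exact hOA _ _ hr (some i) none _ (hpe2 _ _ _) _ (hpe2 _ _ _) h3
  have hrot := fun b => Cop.rot (H := H') par.cop par.z3 hs b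
  have hinf := fun b => Cop.rinf (H := H') par.cop par.z3 hs b
  have hgam := Cop.gam (H := H') par.cop par.z3 hs
  have halt := core_alt hgood ha' hrot (by
    intro h1
    have h2 := par.big (some (B i))
    have h3 : (n (some (B i))) ∣ 1 := by
      rw [← ZMod.natCast_eq_zero_iff]; simpa using h1
    have := Nat.le_of_dvd one_pos h3
    omega) (by
    intro d
    have hc3 := par.c3
    obtain ⟨d', hd'⟩ : ∃ d' : Fin c, d' ∉ ({d, B i} : Finset (Fin c)) := by
      by_contra hcon
      push Not at hcon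
      have h2 : (Finset.univ : Finset (Fin c)) ⊆ {d, B i} := fun x _ => hcon x
      have h3 := Finset.card_le_card h2
      have h4 : ({d, B i} : Finset (Fin c)).card ≤ 2 := Finset.card_le_two
      rw [Finset.card_univ, Fintype.card_fin] at h3
      omega
    simp only [Finset.mem_insert, Finset.mem_singleton, not_or] at hd'
    exact ⟨d', hd'.1, hd'.2⟩)
  let m0 : Idx n := ⟨none, 0⟩
  obtain ⟨ι0⟩ : Nonempty ((Σ d : Fin c, ZMod (n (some d))) ↪ ZMod (n none)) := by
    apply Function.Embedding.nonempty_of_card_le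
    rw [ZMod.card, Fintype.card_sigma]
    simpa using par.lab
  let ι : Idx n → ZMod (n none) := fun m =>
    match m with
    | ⟨none, _⟩ => 0
    | ⟨some d, j⟩ => ι0 ⟨d, j⟩
  have hι : ∀ m m' : Idx n, m.1 ≠ none → m'.1 ≠ none → ι m = ι m' → m = m' := by
    rintro ⟨_ | d, j⟩ ⟨_ | d', j'⟩ h1 h2 h3
    · exact absurd rfl h1
    · exact absurd rfl h1
    · exact absurd rfl h2
    · have h4 : ι0 ⟨d, j⟩ = ι0 ⟨d', j'⟩ := h3
      have h5 := ι0.injective h4
      simp only [Sigma.mk.injEq] at h5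
      obtain ⟨rfl, h6⟩ := h5
      rw [eq_of_heq h6]
  have hn4 := par.n4
  have h01 : (0 : ZMod (n none)) ≠ 1 := by
    intro h1
    have h3 : (n none) ∣ 1 := by
      rw [← ZMod.natCast_eq_zero_iff]; simpa using h1.symm
    have := Nat.le_of_dvd one_pos h3
    omega
  have hcomm := fun d d' => core_comm (z := z) par.z0 hgam halt hι h01 m0 d d'
  have hmove := core_move hgood ha' hinf halt par.n4 m0
  let E : X ↪ X := ⟨fun x => Φ (Sum.inl (m0, x)), fun x y hxy => by
    have := Φ.injective hxy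
    simpa using this⟩
  have hE : Emb Γ E := by
    have h1 : (E : X → X) = fun x => g (D m0 x) := by
      ext x; exact hΦ m0 x
    rw [h1]
    exact (dec.hD m0).comp h (Emb.of_mem hg)
  have hHΓ : H ≤ Γ := by
    rw [hH, Subgroup.closure_le]
    rintro x (rfl | rfl)
    · exact hα i
    · exact Γ.mul_mem (Γ.mul_mem hg (sig_mem h par.cop par.odd par.oddp dec par.zmem))
        (Γ.inv_mem hg)
  refine criterion h (e := E) hE hHΓ ?_ ?_
  · have h1 : Γ ≤ H.comap (Equiv.Perm.viaEmbeddingHom E) := by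
      apply par.gen
      intro d d'
      have h2 := hcomm d d'
      rw [hH', pc_del Φ m0 E (fun x => rfl)] at h2
      exact h2
    intro g' hg'
    exact h1 hg'
  · intro S
    obtain ⟨τ, hτ, hτS⟩ := hmove (S.image Φ.symm)
    refine ⟨Φ.permCongr τ, hτ, fun s hs => ?_⟩
    obtain ⟨x, hx⟩ := hτS (Φ.symm s) (Finset.mem_image_of_mem _ hs)
    exact ⟨x, by
      show Φ (Sum.inl (m0, x)) = Φ (τ (Φ.symm s))
      rw [hx]⟩

/-- infinite uniform spread, in terms of permutation groups -/
theorem main (h : SV Γ) (hfg : Γ.FG) (k : ℕ) : ∃ s ∈ Γ, ∀ α : Fin k → Equiv.Perm X,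
    (∀ i, α i ∈ Γ) → (∀ i, α i ≠ 1) → ∃ g ∈ Γ, ∀ i, Γ ≤ Subgroup.closure {α i, g * s * g⁻¹} := by
  rcases Nat.eq_zero_or_pos k with rfl | hk
  · exact ⟨1, Γ.one_mem, fun α _ _ => ⟨1, Γ.one_mem, fun i => i.elim0⟩⟩
  obtain ⟨c, n, p, z, par⟩ := exists_par h hfg hk
  have hn0 : ∀ i, NeZero (n i) := fun i => ⟨par.cop.h0 i⟩
  have hp0 : NeZero p := ⟨par.cop.hp0⟩
  have hcard : ∃ t, Fintype.card (Idx n) = p * t + 1 := by
    obtain ⟨t, ht⟩ := par.card
    refine ⟨t, ?_⟩
    rw [Fintype.card_sigma, ← ht]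
    simp
  obtain ⟨R, F, D, D', dec⟩ := exists_dec h hcard
  refine ⟨F.permCongr (sig n p R z), sig_mem h par.cop par.odd par.oddp dec par.zmem,
    fun α hα hα1 => main_step h par dec hα hα1⟩

end Pool.Agent.N59.VG
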