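import Mathlib
import Pool.Agent.N59.VG.Main
import Pool.Agent.N59.VG.First
import Pool.Agent.N59.VG.Core2
import Pool.Agent.N59.VG.Height

set_option autoImplicit false
set_option linter.unusedSectionVars false

/-!
# The geometric data and the first three-cycle
-/

namespace Pool.Agent.N59.VG

open Set Topology

variable {X : Type*} [TopologicalSpace X] [CompactSpace X] [T2Space X] [TotallyDisconnectedSpace X]

/-- words of length two -/
def wd {k : ℕ} (α : Fin k → Equiv.Perm X) (a : Option (Fin k) × Option (Fin k)) : Equiv.Perm X :=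
  alo α a.1 * alo α a.2

lemma wd_nn {k : ℕ} (α : Fin k → Equiv.Perm X) (x : X) : wd α (none, none) x = x := by
  simp [wd, alo]

lemma wd_sn {k : ℕ} (α : Fin k → Equiv.Perm X) (i : Fin k) (x : X) :
    wd α (some i, none) x = α i x := by
  simp [wd, alo]

lemma wd_ss {k : ℕ} (α : Fin k → Equiv.Perm X) (i j : Fin k) (x : X) :
    wd α (some i, some j) x = α i (α j x) := by
  simp [wd, alo]

/-- the geometric data -/
structure Geo {k J : ℕ} (L : ℕ) (α : Fin k → Equiv.Perm X) (z : Fin J → Equiv.Perm X)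
    (β : Equiv.Perm X) (Lv : ℕ → Set X) (P : ℕ → X → X) (O : Option (Fin k) → Set X)
    (η : Fin k → SI J → X → X) (e0 e1 : X → X) (Act : Set (Fin k)) : Prop where
  lvl : Lvl L β Lv P
  hL : 2 * (16 * 3 ^ NN k J) + 20 ≤ L
  hη : ∀ i a x, η i a x ∈ O (some i)
  src : ∀ (i : Fin k) (a : SI J) x, P (Hgt (cS i a)) x = η i a x
  tgt : ∀ (i : Fin k) (a : TI J) x, P (Hgt (cT i a)) x = α i (η i (ts a) (tl z e0 e1 a x))
  act1 : ∀ j ∈ Act, ∀ x, P (Hgt (12 * (j : ℕ) + 1, 0)) x = α j (P 19 x)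
  act2 : ∀ j ∈ Act, ∀ x, P (Hgt (12 * (j : ℕ) + 1, 2)) x = α j (P 21 x)
  n3 : ∀ x, P 19 x ∈ O none
  n5 : ∀ x, P 21 x ∈ O none
  sec : ∀ i : Fin k, ∀ y ∈ Lv (Hgt (12 * (i : ℕ) + 9, 0)), ∃ x, y = α i (η i SI.t x)
  neu : ∀ y, (∀ x, y ≠ P 18 x) → (∀ j ∈ Act, ∀ x, y ≠ P (Hgt (12 * (j : ℕ) + 1, 0)) x) →
    (∀ j ∈ Act, ∀ x, y ≠ P (Hgt (12 * (j : ℕ) + 1, 2)) x) →
    (∀ (i : Fin k) (a : SI J) x, y ≠ P (Hgt (cS i a)) x) →
    (∀ (i : Fin k) (a : TI J) x, y ≠ P (Hgt (cT i a)) x) →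
    (∀ i : Fin k, y ∉ Lv (Hgt (12 * (i : ℕ) + 9, 0))) → y ∈ O none
  hA : ∀ j j', j ≠ j' → ∀ a b, ∀ x ∈ O j, ∀ y ∈ O j', wd α a x ≠ wd α b y
  hB : ∀ j a b, (∀ x ∈ O j, wd α a x = wd α b x) ∨ ∀ x ∈ O j, ∀ y ∈ O j, wd α a x ≠ wd α b y
  actid : ∀ i, (∀ x ∈ O none, α i x = x) ∨ ∃ j ∈ Act, ∀ x ∈ O none, α j x = α i x
  surj : ∀ (i : Fin k) (y : X), ∃ (n : ℤ) (x : X), (β ^ n) y = α i (η i SI.t x)

section
variable {k J L : ℕ} {α : Fin k → Equiv.Perm X} {z : Fin J → Equiv.Perm X}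
  {β : Equiv.Perm X} {Lv : ℕ → Set X} {P : ℕ → X → X} {O : Option (Fin k) → Set X}
  {η : Fin k → SI J → X → X} {e0 e1 : X → X} {Act : Set (Fin k)}

/-- the special points -/
def Spc (k J : ℕ) (Lv : ℕ → Set X) (P : ℕ → X → X) (Act : Set (Fin k)) : Set X :=
  {y | (∃ j ∈ Act, ∃ x, y = P (Hgt (12 * (j : ℕ) + 1, 0)) x) ∨
    (∃ j ∈ Act, ∃ x, y = P (Hgt (12 * (j : ℕ) + 1, 2)) x) ∨
    (∃ (i : Fin k) (a : SI J), ∃ x, y = P (Hgt (cS i a)) x) ∨
    (∃ (i : Fin k) (a : TI J), ∃ x, y = P (Hgt (cT i a)) x) ∨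
    (∃ i : Fin k, y ∈ Lv (Hgt (12 * (i : ℕ) + 9, 0))) ∨ (∃ x, y = P 19 x) ∨ ∃ x, y = P 21 x}

lemma lt_NN {i : ℕ} (hi : i < k) : 12 * i + 11 < NN k J := by
  unfold NN
  have : 0 ≤ (k + J + 1) ^ 2 := Nat.zero_le _
  omega

lemma Geo.hlt (G : Geo L α z β Lv P O η e0 e1 Act) {q : ℕ × ℕ} (h1 : q.1 < NN k J)
    (h2 : q.2 < 10) : Hgt q < L := by
  have := Hgt_lt h1 h2
  have := G.hL
  omega

lemma Geo.spc1 (G : Geo L α z β Lv P O η e0 e1 Act) {y : X} (hy : y ∈ Spc k J Lv P Act) :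
    ∃ q : ℕ × ℕ, Ok q ∧ q.1 < NN k J ∧ y ∈ Lv (Hgt q) ∧
      ((∃ x, y = P (Hgt q) x) ∨ ∃ i : Fin k, q = (12 * (i : ℕ) + 9, 0)) ∧
      (q.1 % 12 = 4 → ∃ l : Fin k, q.1 = 12 * (l : ℕ) + 4) := by
  have hm := G.lvl.mem
  rcases hy with ⟨j, -, x, hx⟩ | ⟨j, -, x, hx⟩ | ⟨i, a, x, hx⟩ | ⟨i, a, x, hx⟩ | ⟨i, hi⟩ |
    ⟨x, hx⟩ | ⟨x, hx⟩
  · refine ⟨(12 * (j : ℕ) + 1, 0), by simp [Ok], ?_, hx ▸ hm _ _, Or.inl ⟨x, hx⟩, ?_⟩
    · have := lt_NN (J := J) j.2; simp only; omega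
    · intro h; simp only at h; omega
  · refine ⟨(12 * (j : ℕ) + 1, 2), by simp [Ok], ?_, hx ▸ hm _ _, Or.inl ⟨x, hx⟩, ?_⟩
    · have := lt_NN (J := J) j.2; simp only; omega
    · intro h; simp only at h; omega
  · refine ⟨cS i a, okS _ _, cS_lt i.2 a, hx ▸ hm _ _, Or.inl ⟨x, hx⟩, fun h => ⟨i, ?_⟩⟩
    cases a <;> simp only [cS] at h ⊢ <;> omega
  · refine ⟨cT i a, okT _ _, cT_lt i.2 a, hx ▸ hm _ _, Or.inl ⟨x, hx⟩, fun h => ⟨i, ?_⟩⟩
    cases a <;> simp only [cT] at h ⊢ <;> omega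
  · refine ⟨(12 * (i : ℕ) + 9, 0), by simp [Ok], ?_, hi, Or.inr ⟨i, rfl⟩, ?_⟩
    · have := lt_NN (J := J) i.2; simp only; omega
    · intro h; simp only at h; omega
  · refine ⟨(0, 3), by simp [Ok], ?_, hx ▸ hm _ _, Or.inl ⟨x, hx⟩, ?_⟩
    · unfold NN; simp only; omega
    · intro h; simp at h
  · refine ⟨(0, 5), by simp [Ok], ?_, hx ▸ hm _ _, Or.inl ⟨x, hx⟩, ?_⟩
    · unfold NN; simp only; omega
    · intro h; simp at h

lemma Geo.spc2 (G : Geo L α z β Lv P O η e0 e1 Act) {y : X} (hy : y ∈ Spc k J Lv P Act)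
    {q : ℕ × ℕ} (hq : q.1 < NN k J) (hq2 : q.2 < 10) (hyq : y ∈ Lv (Hgt q)) :
    Ok q ∧ ((∃ x, y = P (Hgt q) x) ∨ ∃ i : Fin k, q = (12 * (i : ℕ) + 9, 0)) := by
  obtain ⟨q', h1, h2, h3, h4, -⟩ := G.spc1 hy
  have h5 := G.lvl.dis _ _ (G.hlt h2 (by have := h1.lt; omega)) (G.hlt hq hq2) y h3 hyq
  have h6 := Hgt_inj h5 (by have := h1.lt; omega) (by omega)
  rw [h6] at h1 h4
  exact ⟨h1, h4⟩

lemma Geo.neu' (G : Geo L α z β Lv P O η e0 e1 Act) {y : X} (hy : y ∉ Spc k J Lv P Act)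
    (h18 : ∀ x, y ≠ P 18 x) : y ∈ O none := by
  apply G.neu y h18
  · intro j hj x hx
    exact hy (Or.inl ⟨j, hj, x, hx⟩)
  · intro j hj x hx
    exact hy (Or.inr (Or.inl ⟨j, hj, x, hx⟩))
  · intro i a x hx
    exact hy (Or.inr (Or.inr (Or.inl ⟨i, a, x, hx⟩)))
  · intro i a x hx
    exact hy (Or.inr (Or.inr (Or.inr (Or.inl ⟨i, a, x, hx⟩))))
  · intro i hi
    exact hy (Or.inr (Or.inr (Or.inr (Or.inr (Or.inl ⟨i, hi⟩)))))

lemma Geo.spc3 (G : Geo L α z β Lv P O η e0 e1 Act) {q : ℕ × ℕ} (hq : q.1 < NN k J)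
    (hq2 : q.2 < 10) (hok : ¬ Ok q) (x : X) : P (Hgt q) x ∉ Spc k J Lv P Act := fun h =>
  hok (G.spc2 h hq hq2 (G.lvl.mem _ _)).1

/-- every point outside the big piece is in a region -/
lemma Geo.region (G : Geo L α z β Lv P O η e0 e1 Act) {y : X} (h18 : ∀ x, y ≠ P 18 x) :
    y ∈ O none ∨ (∃ j ∈ Act, ∃ w ∈ O none, y = α j w ∧ w ∈ Spc k J Lv P Act) ∨
      (∃ i, y ∈ O (some i)) ∨ ∃ i, ∃ w ∈ O (some i), y = α i w := by
  by_cases hy : y ∈ Spc k J Lv P Act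
  · rcases hy with ⟨j, hj, x, hx⟩ | ⟨j, hj, x, hx⟩ | ⟨i, a, x, hx⟩ | ⟨i, a, x, hx⟩ | ⟨i, hi⟩ |
      ⟨x, hx⟩ | ⟨x, hx⟩
    · exact Or.inr (Or.inl ⟨j, hj, P 19 x, G.n3 x, by rw [hx, G.act1 j hj],
        Or.inr (Or.inr (Or.inr (Or.inr (Or.inr (Or.inl ⟨x, rfl⟩)))))⟩)
    · exact Or.inr (Or.inl ⟨j, hj, P 21 x, G.n5 x, by rw [hx, G.act2 j hj],
        Or.inr (Or.inr (Or.inr (Or.inr (Or.inr (Or.inr ⟨x, rfl⟩)))))⟩)
    · exact Or.inr (Or.inr (Or.inl ⟨i, by rw [hx, G.src]; exact G.hη _ _ _⟩))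
    · exact Or.inr (Or.inr (Or.inr ⟨i, _, G.hη _ _ _, by rw [hx, G.tgt]⟩))
    · obtain ⟨x, hx⟩ := G.sec i y hi
      exact Or.inr (Or.inr (Or.inr ⟨i, _, G.hη _ _ _, hx⟩))
    · exact Or.inl (hx ▸ G.n3 x)
    · exact Or.inl (hx ▸ G.n5 x)
  · exact Or.inl (G.neu' hy h18)

lemma ok_uniq {a b m r : ℕ × ℕ} {t : ℕ} (hab : Hgt a = Hgt b + t) (hmr : Hgt m = Hgt r + t)
    (ha : Ok' a) (hb : Ok' b) (hm : Ok' m) (hr : Ok' r) (hne : r.1 ≠ m.1) :
    a.1 = m.1 ∧ b.1 = r.1 ∧ a.2 + r.2 = b.2 + m.2 :=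
  Hgt_diff (by omega) (by have := ha.lt; omega) (by have := hb.lt; omega)
    (by have := hm.lt; omega) (by have := hr.lt; omega) hne

lemma ok_ok3 {q : ℕ × ℕ} (h : Ok q) (h' : Ok (q.1, q.2 + 3)) : q.1 % 12 = 4 ∧ q.2 = 0 := by
  unfold Ok at h h'
  simp only at h'
  omega

lemma pow_lt_aux {a b : ℕ} (h : a < b) : 16 * 3 ^ a + 32 ≤ 16 * 3 ^ b := by
  have h1 : 3 ^ (a + 1) ≤ 3 ^ b := Nat.pow_le_pow_right (by norm_num) h
  have h2 : 0 < 3 ^ a := by positivity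
  rw [pow_succ] at h1
  omega

/-- first case -/
theorem Geo.caseF (G : Geo L α z β Lv P O η e0 e1 Act) {H : Subgroup (Equiv.Perm X)} {i : Fin k}
    (hα : α i ∈ H) (hβ : β ∈ H) (hid : ∀ x ∈ O none, α i x = x) :
    ∃ a, a + 2 < L ∧ Adj H P a := by
  have hi := lt_NN (J := J) i.2
  have hLL := G.hL
  -- heights
  set r := Hgt (12 * (i : ℕ) + 5, 0) with hr
  have hrt : r + 1 < Hgt (12 * (i : ℕ) + 6, 0) := by
    have := pow_lt_aux (show 12 * (i : ℕ) + 5 < 12 * (i : ℕ) + 6 by omega)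
    rw [hr]; simp only [Hgt]; omega
  obtain ⟨t, ht⟩ := Nat.exists_eq_add_of_lt hrt
  have ht' : Hgt (12 * (i : ℕ) + 6, 0) = r + 1 + (t + 1) := by omega
  have htL : t + 1 < 16 * 3 ^ NN k J := by
    have := Hgt_lt (q := (12 * (i : ℕ) + 6, 0)) (N := NN k J) (by simp only; omega) (by simp)
    omega
  have hmL := Hgt_lt (q := (12 * (i : ℕ) + 6, 0)) (N := NN k J) (by simp only; omega) (by simp)
  refine ⟨r + (t + 1), by omega, G.lvl.caseF (α := α i) hα hβ
    (Hs := {h | ∃ q : ℕ × ℕ, h = Hgt q ∧ Ok' q ∧ q.1 < NN k J}) ?_ ?_ ?_ ?_ ?_ ?_ ?_⟩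
  · rintro a ⟨q, rfl, h1, h2⟩
    have := Hgt_lt h2 (by have := h1.lt; omega)
    omega
  · intro p hp
    by_cases h18 : ∃ x, p = P 18 x
    · obtain ⟨x, hx⟩ := h18
      refine ⟨18, ⟨(0, 2), rfl, ?_, ?_⟩, hx ▸ G.lvl.mem _ _⟩
      · simp [Ok']
      · simp only; unfold NN; omega
    · push Not at h18
      by_cases hs : p ∈ Spc k J Lv P Act
      · obtain ⟨q, h1, h2, h3, -, -⟩ := G.spc1 hs
        exact ⟨_, ⟨q, rfl, Or.inl h1, h2⟩, h3⟩
      · exact absurd (hid p (G.neu' hs h18)) hp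
  · rintro a ⟨qa, ha, ha1, ha2⟩ b ⟨qb, hb, hb1, hb2⟩ hab
    have h1 := ok_uniq (a := qa) (b := qb) (m := (12 * (i : ℕ) + 6, 0))
      (r := (12 * (i : ℕ) + 5, 1)) (t := t + 1) (by omega) (by
        rw [ht', hr]; simp only [Hgt]) ha1 hb1 (by simp [Ok', Ok])
        (by simp [Ok', Ok]) (by simp only; omega)
    obtain ⟨h2, h3, h4⟩ := h1
    simp only at h2 h3 h4
    have h5 : qa = (12 * (i : ℕ) + 6, 0) := by
      apply Prod.ext h2
      unfold Ok' Ok at ha1 hb1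
      rw [h2] at ha1
      rw [h3] at hb1
      simp only
      omega
    rw [ha, h5, ht']
  · omega
  · intro p hp hpp
    rw [← ht'] at hp ⊢
    by_cases h18 : ∃ x, p = P 18 x
    · obtain ⟨x, hx⟩ := h18
      exfalso
      have h1 := G.lvl.dis _ _ (by omega) (by omega) p (hx ▸ G.lvl.mem 18 x) hp
      have h2 := Hgt_inj (q := (0, 2)) (q' := (12 * (i : ℕ) + 6, 0)) h1 (by simp) (by simp)
      simp at h2
    · push Not at h18
      by_cases hs : p ∈ Spc k J Lv P Act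
      · obtain ⟨-, h1 | ⟨i', h1⟩⟩ := G.spc2 hs (by simp only; omega) (by simp) hp
        · exact h1
        · exfalso
          simp only [Prod.mk.injEq] at h1
          omega
      · exact absurd (hid p (G.neu' hs h18)) hpp
  · intro x
    have h1 := G.src i SI.h x
    have h2 := G.tgt i TI.h1 x
    simp only [cS, cT, ts, tl] at h1 h2
    have e1' : r + (t + 1) + 1 = Hgt (12 * (i : ℕ) + 6, 0) := by omega
    have e2' : r + (t + 1) + 2 = Hgt (12 * (i : ℕ) + 6, 1) := by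
      rw [show Hgt (12 * (i : ℕ) + 6, 1) = Hgt (12 * (i : ℕ) + 6, 0) + 1 from rfl]; omega
    rw [e1', e2', h1, h2]
  · intro x
    have h1 := G.src i SI.n1 x
    have h2 := G.tgt i TI.n x
    simp only [cS, cT, ts, tl] at h1 h2
    rw [show r + 1 = Hgt (12 * (i : ℕ) + 5, 1) from rfl, h1, hr, h2]

/-- second case -/
theorem Geo.caseU (G : Geo L α z β Lv P O η e0 e1 Act) {H : Subgroup (Equiv.Perm X)} {i : Fin k}
    (hα : α i ∈ H) (hβ : β ∈ H) (hid : ¬ ∀ x ∈ O none, α i x = x) :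
    ∃ a, a + 2 < L ∧ Adj H P a := by
  have hi := lt_NN (J := J) i.2
  have hLL := G.hL
  have h0N : 0 < NN k J := by unfold NN; omega
  have hN16 : 48 ≤ 16 * 3 ^ NN k J := by
    have := pow_lt_aux h0N; omega
  have hdis0 : ∀ x ∈ O none, ∀ y ∈ O none, α i x ≠ y := by
    rcases G.hB none (some i, none) (none, none) with h1 | h1
    · exact absurd (fun x hx => by have := h1 x hx; rwa [wd_sn, wd_nn] at this) hid
    · intro x hx y hy
      have := h1 x hx y hy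
      rwa [wd_sn, wd_nn] at this
  -- neutral points are moved into the big piece
  have hN : ∀ y, (∀ x, y ≠ P 18 x) → y ∉ Spc k J Lv P Act →
      (∃ x, α i y = P 18 x) ∧ ∃ x, (α i)⁻¹ y = P 18 x := by
    intro y h18 hs
    have hy := G.neu' hs h18
    constructor
    · by_contra hcon
      push Not at hcon
      rcases G.region hcon with h1 | ⟨j, hj, w, hw, h1, hws⟩ | ⟨i', h1⟩ | ⟨i', w, hw, h1⟩
      · exact hdis0 y hy _ h1 rfl
      · rcases G.hB none (some i, none) (some j, none) with h2 | h2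
        · have h3 := h2 w hw
          rw [wd_sn, wd_sn, ← h1] at h3
          exact hs ((α i).injective h3 ▸ hws)
        · have := h2 y hy w hw
          rw [wd_sn, wd_sn] at this
          exact this h1
      · have := G.hA none (some i') (by simp) (some i, none) (none, none) y hy _ h1
        rw [wd_sn, wd_nn] at this
        exact this rfl
      · have := G.hA none (some i') (by simp) (some i, none) (some i', none) y hy _ hw
        rw [wd_sn, wd_sn] at this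
        exact this h1
    · by_contra hcon
      push Not at hcon
      rcases G.region hcon with h1 | ⟨j, hj, w, hw, h1, hws⟩ | ⟨i', h1⟩ | ⟨i', w, hw, h1⟩
      · exact hdis0 _ h1 y hy (ai _ _)
      · have h4 : y = α i (α j w) := by rw [← h1, ai]
        rcases G.hB none (some i, some j) (none, none) with h2 | h2
        · have h3 := h2 w hw
          rw [wd_ss, wd_nn, ← h4] at h3
          exact hs (h3 ▸ hws)
        · have := h2 w hw y hy
          rw [wd_ss, wd_nn] at this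
          exact this h4.symm
      · have := G.hA (some i') none (by simp) (some i, none) (none, none) _ h1 y hy
        rw [wd_sn, wd_nn] at this
        exact this (ai _ _)
      · have h4 : y = α i (α i' w) := by rw [← h1, ai]
        have := G.hA (some i') none (by simp) (some i, some i') (none, none) _ hw y hy
        rw [wd_ss, wd_nn] at this
        exact this h4.symm
  -- the commuting relation
  obtain ⟨j, hj, hji⟩ : ∃ j ∈ Act, ∀ x ∈ O none, α j x = α i x := by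
    rcases G.actid i with h1 | h1
    · exact absurd h1 hid
    · exact h1
  set b := Hgt (12 * (j : ℕ) + 1, 0) with hb
  have hc1 : ∀ x, α i (P (16 + 3) x) = P b x := fun x => by
    rw [G.act1 j hj x, hji _ (G.n3 x)]
  have hc2 : ∀ x, α i (P (16 + 5) x) = P (b + 2) x := fun x => by
    rw [show b + 2 = Hgt (12 * (j : ℕ) + 1, 2) from rfl, G.act2 j hj x, hji _ (G.n5 x)]
  let Hs : Set ℕ := {h | ∃ q : ℕ × ℕ, h = Hgt q ∧ Ok q ∧ q.1 < NN k J ∧
    (q.1 % 12 = 4 → ∃ l : Fin k, q.1 = 12 * (l : ℕ) + 4)}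
  let Ms : Set ℕ := {h | ∃ l : Fin k, h = Hgt (12 * (l : ℕ) + 4, 0)}
  have hNN : ∀ y ∈ Spc k J Lv P Act, ∃ a ∈ Hs, y ∈ Lv a := by
    intro y hy
    obtain ⟨q, h1, h2, h3, -, h4⟩ := G.spc1 hy
    exact ⟨_, ⟨q, rfl, h1, h2, h4⟩, h3⟩
  have hlN : ∀ l : Fin k, 12 * (l : ℕ) + 11 < NN k J := fun l => lt_NN l.2
  have hMb : ∀ l : Fin k, ∀ o, o < 10 → Hgt (12 * (l : ℕ) + 4, o) < 16 * 3 ^ NN k J := fun l o ho =>
    Hgt_lt (by have := hlN l; simp only; omega) ho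
  have hM3 : ∀ l : Fin k, ∀ o, Hgt (12 * (l : ℕ) + 4, 0) + o = Hgt (12 * (l : ℕ) + 4, o) :=
    fun l o => rfl
  have hn2 : ∀ l ∈ Ms, ∀ x, P (l + 1) x ∉ Spc k J Lv P Act := by
    rintro _ ⟨l, rfl⟩ x
    rw [hM3]
    exact G.spc3 (by have := hlN l; simp only; omega) (by simp) (by simp [Ok]) x
  have hMe : ∀ l ∈ Ms, l ≠ 16 + 1 := by
    rintro _ ⟨l, rfl⟩ h1
    have := Hgt_inj (q := (12 * (l : ℕ) + 4, 0)) (q' := (0, 1)) h1 (by simp) (by simp)
    simp at this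
  have hMlev : ∀ l : Fin k, ∀ y ∈ Spc k J Lv P Act, y ∈ Lv (Hgt (12 * (l : ℕ) + 4, 0)) →
      ∃ x, y = P (Hgt (12 * (l : ℕ) + 4, 0)) x := by
    intro l y hy hyl
    obtain ⟨-, h1 | ⟨i', h1⟩⟩ := G.spc2 hy (by have := hlN l; simp only; omega) (by simp) hyl
    · exact h1
    · exfalso
      simp only [Prod.mk.injEq] at h1
      omega
  obtain ⟨hu1, hu2⟩ := G.lvl.caseU1 (α := α i) (Hs := Hs) (Ms := Ms) (NN := Spc k J Lv P Act)
    (e := 16) (b := b) hN hNN (by omega) (by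
      rintro _ ⟨l, rfl⟩
      rw [hM3]
      have := hMb l 3 (by norm_num); omega) (fun x =>
      G.spc3 (q := (0, 0)) h0N (by simp) (by simp [Ok]) x) hn2 hMe hc1 hc2 (by
      rintro _ ⟨q, rfl, hq1, hq2, hq4⟩ haM p hp
      have hlt := hq1.lt
      have hp' : p ∈ Lv (Hgt (q.1, q.2 + 3)) := by
        have : Hgt (q.1, q.2 + 3) = Hgt q + 3 := by simp only [Hgt]; omega
        rw [this]; exact hp
      refine ⟨fun hs => ?_, fun x hx => ?_⟩
      · obtain ⟨h1, -⟩ := G.spc2 hs (q := (q.1, q.2 + 3)) hq2 (by simp only; omega) hp'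
        have hq3 : q.1 % 12 = 4 ∧ q.2 = 0 := ok_ok3 hq1 h1
        obtain ⟨l, hl⟩ := hq4 hq3.1
        exact haM ⟨l, by rw [show q = (12 * (l : ℕ) + 4, 0) from Prod.ext hl hq3.2]⟩
      · have h5 := G.lvl.dis _ _ (G.hlt (q := (q.1, q.2 + 3)) hq2 (by simp only; omega))
          (by omega : 18 < L) p hp' (hx ▸ G.lvl.mem 18 x)
        have h6 := Hgt_inj (q := (q.1, q.2 + 3)) (q' := (0, 2)) h5 (by simp only; omega) (by simp)
        simp only [Prod.mk.injEq] at h6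
        omega) (by
      rintro _ ⟨l, rfl⟩ y hy hyl
      obtain ⟨x, hx⟩ := hMlev l y hy hyl
      refine ⟨x, hx, ?_⟩
      have s3 := G.src l SI.m3 x
      have s2 := G.src l SI.m2 x
      have t3 := G.tgt l TI.r2 x
      have t2 := G.tgt l TI.r x
      simp only [cS, cT, ts, tl] at s3 s2 t3 t2
      rw [hM3, hM3, s3, s2]
      have hm3 := G.hη l SI.m3 x
      have hm2 := G.hη l SI.m2 x
      rcases G.hB (some l) (some i, none) (none, none) with h1 | h1
      · right; left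
        have := h1 _ hm3
        rwa [wd_sn, wd_nn] at this
      · rcases G.hB (some l) (some i, none) (some l, none) with h2 | h2
        · right; right
          refine ⟨Hgt (12 * (l : ℕ) + 3, 0), ?_, ?_⟩
          · have := h2 _ hm3
            rw [wd_sn, wd_sn] at this
            rw [this, ← t3]; rfl
          · have := h2 _ hm2
            rw [wd_sn, wd_sn] at this
            rw [this, ← t2]
        · left
          by_contra hcon
          push Not at hcon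
          rcases G.region hcon with h3 | ⟨j', hj', w, hw, h3, hws⟩ | ⟨i', h3⟩ | ⟨i', w, hw, h3⟩
          · have := G.hA (some l) none (by simp) (some i, none) (none, none) _ hm3 _ h3
            rw [wd_sn, wd_nn] at this
            exact this rfl
          · have := G.hA (some l) none (by simp) (some i, none) (some j', none) _ hm3 _ hw
            rw [wd_sn, wd_sn] at this
            exact this h3
          · by_cases hil : i' = l
            · subst hil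
              have := h1 _ hm3 _ h3
              rw [wd_sn, wd_nn] at this
              exact this rfl
            · have := G.hA (some l) (some i') (by simpa using Ne.symm hil) (some i, none)
                (none, none) _ hm3 _ h3
              rw [wd_sn, wd_nn] at this
              exact this rfl
          · by_cases hil : i' = l
            · subst hil
              have := h2 _ hm3 _ hw
              rw [wd_sn, wd_sn] at this
              exact this h3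
            · have := G.hA (some l) (some i') (by simpa using Ne.symm hil) (some i, none)
                (some i', none) _ hm3 _ hw
              rw [wd_sn, wd_sn] at this
              exact this h3)
  -- heights
  set r := Hgt (12 * (i : ℕ) + 3, 2) with hr
  have hrt : r < Hgt (12 * (i : ℕ) + 4, 0) := by
    have := pow_lt_aux (show 12 * (i : ℕ) + 3 < 12 * (i : ℕ) + 4 by omega)
    rw [hr]; simp only [Hgt]; omega
  obtain ⟨t, ht⟩ := Nat.exists_eq_add_of_lt hrt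
  have ht' : r + (t + 1) = Hgt (12 * (i : ℕ) + 4, 0) := by omega
  have hmL := hMb i 0 (by norm_num)
  have h3t := Nat.pow_pos (n := 12 * (i : ℕ) + 3) (by norm_num : 0 < 3)
  have hr16 : 16 * 3 + 2 ≤ r := by
    rw [hr]; simp only [Hgt]
    have : 3 ^ 1 ≤ 3 ^ (12 * (i : ℕ) + 3) := Nat.pow_le_pow_right (by norm_num) (by omega)
    omega
  -- values of `u`
  let u : Equiv.Perm X := β⁻¹ * (α i)⁻¹ * (β ^ 2)⁻¹ * α i * β ^ 3
  have hu : u ∈ H := H.mul_mem (H.mul_mem (H.mul_mem (H.mul_mem (H.inv_mem hβ) (H.inv_mem hα))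
    (H.inv_mem (H.pow_mem hβ 2))) hα) (H.pow_mem hβ 3)
  have hug : ∀ q : ℕ × ℕ, q.1 < NN k J → q.2 < 10 → q.1 % 12 ≠ 4 ∨ q.2 ≠ 0 → ∀ x,
      P (Hgt q) x ∈ Spc k J Lv P Act → ∃ x', u (P (Hgt q) x) = P (16 + 1) x' := by
    intro q hq hq2 hq3 x hx
    rcases hu2 _ hx with h1 | ⟨_, ⟨l, rfl⟩, x', h1, -⟩
    · exact h1
    · exfalso
      have h4 : Hgt (12 * (l : ℕ) + 4, 0) < L := by have := hMb l 0 (by norm_num); omega
      have h5 := G.lvl.dis _ _ (G.hlt hq hq2) h4 _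
        (G.lvl.mem (Hgt q) x) (h1 ▸ G.lvl.mem _ _)
      have h6 := Hgt_inj h5 (by omega) (by simp)
      rw [h6] at hq3
      simp only at hq3
      omega
  have hsrc : ∀ (a : SI J) x, P (Hgt (cS i a)) x ∈ Spc k J Lv P Act := fun a x =>
    Or.inr (Or.inr (Or.inl ⟨i, a, x, rfl⟩))
  have htgt : ∀ (a : TI J) x, P (Hgt (cT i a)) x ∈ Spc k J Lv P Act := fun a x =>
    Or.inr (Or.inr (Or.inr (Or.inl ⟨i, a, x, rfl⟩)))
  have hHs' : ∀ a, (a ∈ Hs ∨ a = 16 + 1 ∨ a = 16 + 2 ∨ ∃ l ∈ Ms, a = l + 1) →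
      ∃ q : ℕ × ℕ, a = Hgt q ∧ Ok' q ∧ q.1 < NN k J := by
    rintro a (⟨q, h1, h2, h3, -⟩ | rfl | rfl | ⟨_, ⟨l, rfl⟩, rfl⟩)
    · exact ⟨q, h1, Or.inl h2, h3⟩
    · exact ⟨(0, 1), rfl, by simp [Ok'], h0N⟩
    · exact ⟨(0, 2), rfl, by simp [Ok'], h0N⟩
    · exact ⟨(12 * (l : ℕ) + 4, 1), rfl, by simp [Ok'], by have := hlN l; simp only; omega⟩
  have hcu := G.lvl.caseU2 (α := α i) (u := u) hα hβ hu (Hs := Hs) (Ms := Ms)
    (NN := Spc k J Lv P Act) (e := 16) (r := r) (t := t + 1) hu1 hN hNN (by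
      rintro ⟨q, h1, h2, h3, -⟩
      have h6 := Hgt_inj (q := q) (q' := (0, 2)) h1.symm (by have := h2.lt; omega) (by simp)
      rw [h6] at h2
      simp [Ok] at h2) hu2 (fun x => G.spc3 (q := (0, 1)) h0N (by simp) (by simp [Ok]) x) hn2 hMe
    (by
      intro a ha
      obtain ⟨q, rfl, h1, h2⟩ := hHs' a ha
      have := Hgt_lt h2 (by have := h1.lt; omega)
      omega) (by
      intro a b' ha hb' hab
      obtain ⟨qa, rfl, ha1, ha2⟩ := hHs' a ha
      obtain ⟨qb, rfl, hb1, hb2⟩ := hHs' b' hb'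
      obtain ⟨h2, h3, h4⟩ := ok_uniq (a := qa) (b := qb) (m := (12 * (i : ℕ) + 4, 0))
        (r := (12 * (i : ℕ) + 3, 2)) (t := t + 1) hab (by rw [← hr]; omega) ha1 hb1
        (by simp [Ok', Ok]) (by simp [Ok', Ok]) (by simp only; omega)
      simp only at h2 h3 h4
      have h5 : qa = (12 * (i : ℕ) + 4, 0) := by
        apply Prod.ext h2
        unfold Ok' Ok at ha1 hb1
        rw [h2] at ha1
        rw [h3] at hb1
        simp only
        omega
      rw [h5, ht']) (by omega) (by omega) (by omega) (by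
      rintro _ ⟨l, rfl⟩ h1
      rw [ht', hM3] at h1
      have h6 := Hgt_inj h1 (by simp) (by simp)
      simp at h6) (by omega) (by omega) (by omega) (by omega) (by omega) (by
      intro p hp hpl
      rw [ht'] at hpl ⊢
      exact hMlev i p hp hpl) (by
      intro x
      show (β⁻¹ * (α i)⁻¹ * (β ^ 2)⁻¹ * α i * β ^ 3) (P (r + (t + 1)) x) = _
      simp only [Equiv.Perm.mul_apply]
      have s3 := G.src i SI.m3 x
      have s2 := G.src i SI.m2 x
      have t3 := G.tgt i TI.r2 x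
      have t2 := G.tgt i TI.r x
      simp only [cS, cT, ts, tl] at s3 s2 t3 t2
      rw [ht', G.lvl.bP_pow, hM3, s3, ← t3,
        show Hgt (12 * (i : ℕ) + 3, 2) = Hgt (12 * (i : ℕ) + 3, 0) + 2 from rfl,
        G.lvl.bPi_pow, t2, ia, ← s2,
        show Hgt (12 * (i : ℕ) + 4, 2) = Hgt (12 * (i : ℕ) + 4, 0) + 1 + 1 from rfl, G.lvl.bPi])
    (by
      intro x
      have s1 := G.src i SI.s x
      have t1 := G.tgt i TI.m x
      simp only [cS, cT, ts, tl] at s1 t1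
      refine ⟨P (Hgt (12 * (i : ℕ) + 2, 0)) x, hsrc SI.s x, by rw [ht', t1, s1], ?_⟩
      exact hug (12 * (i : ℕ) + 2, 0) (by simp only; omega) (by simp) (by simp only; omega) x
        (hsrc SI.s x))
    (by
      intro x
      have s1 := G.src i SI.m3 x
      have t1 := G.tgt i TI.r2 x
      simp only [cS, cT, ts, tl] at s1 t1
      refine ⟨P (Hgt (12 * (i : ℕ) + 4, 3)) x, hsrc SI.m3 x, by rw [hr, t1, s1], ?_⟩
      exact hug (12 * (i : ℕ) + 4, 3) (by simp only; omega) (by simp) (by simp only; omega) x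
        (hsrc SI.m3 x))
    (by
      intro x
      exact hug (12 * (i : ℕ) + 3, 2) (by simp only; omega) (by simp) (by simp only; omega) x
        (htgt TI.r2 x))
  exact ⟨r + (t + 1) - 1, by omega, hcu⟩

end

end Pool.Agent.N59.VG
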