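import Mathlib
import Pool.Agent.N59.VG.Emb

set_option autoImplicit false
set_option linter.unusedSectionVars false

/-!
# The marker lemma for homeomorphisms without finite orbits
-/

namespace Pool.Agent.N59.VG

open Set Topology

variable {X : Type*} [TopologicalSpace X] [CompactSpace X] [T2Space X] [TotallyDisconnectedSpace X]
variable {Γ : Subgroup (Equiv.Perm X)}

/-- no finite orbits -/
def Aper (s : Equiv.Perm X) : Prop := ∀ j : ℕ, 0 < j → ∀ x, (s ^ j) x ≠ x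

lemma marker_local (h : SV Γ) {s : Equiv.Perm X} (hs : s ∈ Γ) (ha : Aper s) (L : ℕ) (x : X) :
    ∃ U : Set X, IsClopen U ∧ x ∈ U ∧ ∀ j : ℕ, 0 < j → j < L → ∀ y ∈ U, (s ^ j) y ∉ U := by
  have hc : ∀ j : ℕ, Continuous (s ^ j : Equiv.Perm X) := fun j => h.cont _ (Γ.pow_mem hs j)
  have h1 : ∀ j : ℕ, ∃ U : Set X, IsClopen U ∧ x ∈ U ∧ (0 < j → ∀ y ∈ U, (s ^ j) y ∉ U) := by
    intro j
    by_cases hj : 0 < j
    · obtain ⟨U, V, hU, hV, hxU, hxV, hUV⟩ := t2_separation (ha j hj x).symm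
      obtain ⟨W, hW, hxW, hWs⟩ := exists_clopen_nhds (hU.inter (hV.preimage (hc j))) ⟨hxU, hxV⟩
      exact ⟨W, hW, hxW, fun _ y hy hy2 => Set.disjoint_left.1 hUV (hWs hy2).1 (hWs hy).2⟩
    · exact ⟨univ, isClopen_univ, mem_univ _, fun h2 => absurd h2 hj⟩
  choose U hU hxU hUj using h1
  refine ⟨⋂ j : Fin L, U j, isClopen_iInter_of_finite fun j => hU j, mem_iInter.2 fun j => hxU j,
    fun j hj hjL y hy hy2 => ?_⟩
  exact hUj j hj y (mem_iInter.1 hy ⟨j, hjL⟩) (mem_iInter.1 hy2 ⟨j, hjL⟩)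

/-- the marker lemma -/
theorem marker (h : SV Γ) {s : Equiv.Perm X} (hs : s ∈ Γ) (ha : Aper s) (L : ℕ) :
    ∃ S : Set X, IsClopen S ∧ (∀ j : ℕ, 0 < j → j < L → ∀ y ∈ S, (s ^ j) y ∉ S) ∧
      ∀ x, ∃ n : ℤ, (s ^ n) x ∈ S := by
  have hcz : ∀ j : ℤ, Continuous (s ^ j : Equiv.Perm X) := fun j => h.cont _ (Γ.zpow_mem hs j)
  let P : Set X → Prop := fun A => ∃ S : Set X, IsClopen S ∧
    (∀ j : ℕ, 0 < j → j < L → ∀ y ∈ S, (s ^ j) y ∉ S) ∧ ∀ x ∈ A, ∃ n : ℤ, (s ^ n) x ∈ S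
  -- adding one small clopen set
  have hstep : ∀ A U : Set X, P A → IsClopen U → (∀ j : ℕ, 0 < j → j < L → ∀ y ∈ U, (s ^ j) y ∉ U) →
      P (A ∪ U) := by
    rintro A U ⟨S, hS, hS1, hS2⟩ hU hU1
    let V : Set X := U \ ⋃ j : Fin L, ((s ^ (j : ℕ) : Equiv.Perm X) ⁻¹' S ∪
      (s ^ (-(j : ℕ) : ℤ) : Equiv.Perm X) ⁻¹' S)
    have hV : IsClopen V := by
      refine hU.diff (isClopen_iUnion_of_finite fun j => ?_)
      have h1 := hcz (j : ℕ)
      rw [zpow_natCast] at h1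
      exact (hS.preimage h1).union (hS.preimage (hcz _))
    have hVn : ∀ y ∈ V, ∀ j : ℕ, j < L → (s ^ j) y ∉ S := fun y hy j hj h2 =>
      hy.2 (mem_iUnion.2 ⟨⟨j, hj⟩, Or.inl h2⟩)
    have hVn' : ∀ y ∈ V, ∀ j : ℕ, j < L → (s ^ (-(j : ℕ) : ℤ)) y ∉ S := fun y hy j hj h2 =>
      hy.2 (mem_iUnion.2 ⟨⟨j, hj⟩, Or.inr h2⟩)
    refine ⟨S ∪ V, hS.union hV, ?_, ?_⟩
    · rintro j hj hjL y (hy | hy) (hy2 | hy2)
      · exact hS1 j hj hjL y hy hy2
      · apply hVn' _ hy2 j hjL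
        rw [zpow_neg, zpow_natCast, ia]
        exact hy
      · exact hVn y hy j hjL hy2
      · exact hU1 j hj hjL y hy.1 hy2.1
    · rintro x (hx | hx)
      · obtain ⟨n, hn⟩ := hS2 x hx
        exact ⟨n, Or.inl hn⟩
      · by_cases hxV : x ∈ V
        · exact ⟨0, Or.inr (by simpa using hxV)⟩
        · have h2 : x ∈ ⋃ j : Fin L, ((s ^ (j : ℕ) : Equiv.Perm X) ⁻¹' S ∪
              (s ^ (-(j : ℕ) : ℤ) : Equiv.Perm X) ⁻¹' S) := by
            by_contra h3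
            exact hxV ⟨hx, h3⟩
          obtain ⟨j, hj | hj⟩ := mem_iUnion.1 h2
          · exact ⟨(j : ℕ), Or.inl (by rw [zpow_natCast]; exact hj)⟩
          · exact ⟨_, Or.inl hj⟩
  have hfin : ∀ (ι : Type _) (t : Finset ι) (U : ι → Set X), (∀ i ∈ t, IsClopen (U i) ∧
      (∀ j : ℕ, 0 < j → j < L → ∀ y ∈ U i, (s ^ j) y ∉ U i)) → P (⋃ i ∈ t, U i) := by
    classical
    intro ι t U
    induction t using Finset.induction_on with
    | empty =>
      intro _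
      exact ⟨∅, isClopen_empty, by simp, by simp⟩
    | insert a t ha ih =>
      intro hU
      have h1 := hstep _ (U a) (ih fun i hi => hU i (Finset.mem_insert_of_mem hi))
        (hU a (Finset.mem_insert_self _ _)).1 (hU a (Finset.mem_insert_self _ _)).2
      obtain ⟨S, b1, b2, b3⟩ := h1
      refine ⟨S, b1, b2, fun x hx => b3 x ?_⟩
      simp only [Finset.mem_insert, iUnion_iUnion_eq_or_left] at hx
      exact hx.symm
  choose U hU hxU hUj using marker_local h hs ha L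
  obtain ⟨t, ht⟩ := isCompact_univ.elim_finite_subcover U (fun x => (hU x).isOpen)
    (fun x _ => mem_iUnion.2 ⟨x, hxU x⟩)
  obtain ⟨S, b1, b2, b3⟩ := hfin X t U (fun i _ => ⟨hU i, hUj i⟩)
  exact ⟨S, b1, b2, fun x => b3 x (ht (mem_univ x))⟩

end Pool.Agent.N59.VG
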