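import Mathlib
import Pool.Agent.N59.VG.Emb

set_option autoImplicit false
set_option linter.unusedSectionVars false

/-!
# Choice of regions for a finite family of group elements
-/

namespace Pool.Agent.N59.VG

open Set Topology

variable {X : Type*} [TopologicalSpace X] [CompactSpace X] [T2Space X] [TotallyDisconnectedSpace X]
variable {Γ : Subgroup (Equiv.Perm X)}

lemma reg_shrink (h : SV Γ) {Ω : Type*} {w : Ω → Equiv.Perm X} (hw : ∀ a, w a ∈ Γ)
    {W : Set X} (hW : IsOpen W) (hWn : W.Nonempty) (S : Finset (Ω × Ω)) :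
    ∃ W' : Set X, IsOpen W' ∧ W'.Nonempty ∧ W' ⊆ W ∧
      ∀ q ∈ S, (∀ x ∈ W', w q.1 x = w q.2 x) ∨ ∀ x ∈ W', w q.1 x ≠ w q.2 x := by
  classical
  induction S using Finset.induction_on with
  | empty => exact ⟨W, hW, hWn, Subset.rfl, by simp⟩
  | insert i S hi ih =>
    obtain ⟨W', h1, h2, h3, h4⟩ := ih
    by_cases hne : (W' ∩ {x | w i.1 x ≠ w i.2 x}).Nonempty
    · refine ⟨W' ∩ {x | w i.1 x ≠ w i.2 x}, h1.inter (isOpen_ne_fun (h.cont _ (hw _))
        (h.cont _ (hw _))), hne, fun x hx => h3 hx.1, fun j hj => ?_⟩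
      rcases Finset.mem_insert.1 hj with rfl | hj
      · exact Or.inr fun x hx => hx.2
      · rcases h4 j hj with h5 | h5
        · exact Or.inl fun x hx => h5 x hx.1
        · exact Or.inr fun x hx => h5 x hx.1
    · refine ⟨W', h1, h2, h3, fun j hj => ?_⟩
      rcases Finset.mem_insert.1 hj with rfl | hj
      · refine Or.inl fun x hx => ?_
        by_contra h5
        exact hne ⟨x, hx, h5⟩
      · exact h4 j hj

lemma reg_points (h : SV Γ) {Ω Λ : Type*} [Finite Ω] [Finite Λ] {w : Ω → Equiv.Perm X}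
    {W : Λ → Set X} (hW : ∀ j, IsOpen (W j)) (hWn : ∀ j, (W j).Nonempty) (T : Finset Λ) :
    ∃ x : Λ → X, ∀ j ∈ T, x j ∈ W j ∧ ∀ j' ∈ T, j ≠ j' → ∀ a b, w a (x j) ≠ w b (x j') := by
  classical
  induction T using Finset.induction_on with
  | empty =>
    have := h.ne
    exact ⟨fun _ => Classical.arbitrary X, by simp⟩
  | insert a T ha ih =>
    obtain ⟨x, hx⟩ := ih
    let bad : Set X := Set.range (fun q : (Ω × Ω) × Λ => (w q.1.1)⁻¹ (w q.1.2 (x q.2)))
    have hbad : bad.Finite := Set.finite_range _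
    obtain ⟨y, hyW, hyb⟩ := ((h.perf _ (hW a) (hWn a)).sdiff hbad).nonempty
    have hy : ∀ j', ∀ i i', w i y ≠ w i' (x j') := by
      intro j' i i' h2
      apply hyb
      refine ⟨((i, i'), j'), ?_⟩
      show (w i)⁻¹ (w i' (x j')) = y
      rw [← h2, ia]
    refine ⟨Function.update x a y, fun j hj => ?_⟩
    have hupd : ∀ l ∈ T, Function.update x a y l = x l := fun l hl => by
      rw [Function.update_of_ne]; intro hla; rw [hla] at hl; exact ha hl
    rcases Finset.mem_insert.1 hj with rfl | hj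
    · rw [Function.update_self]
      refine ⟨hyW, fun j' hj' hne i i' => ?_⟩
      rcases Finset.mem_insert.1 hj' with rfl | hj'
      · exact absurd rfl hne
      · rw [hupd j' hj']; exact hy j' i i'
    · rw [hupd j hj]
      refine ⟨(hx j hj).1, fun j' hj' hne i i' => ?_⟩
      rcases Finset.mem_insert.1 hj' with rfl | hj'
      · rw [Function.update_self]; exact (hy j i' i).symm
      · rw [hupd j' hj']; exact (hx j hj).2 j' hj' hne i i'

/-- the regions -/
theorem regions2 (h : SV Γ) {Ω Λ : Type*} [Finite Ω] [Finite Λ] {w : Ω → Equiv.Perm X}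
    (hw : ∀ a, w a ∈ Γ) {W : Λ → Set X} (hW : ∀ j, IsOpen (W j)) (hWn : ∀ j, (W j).Nonempty) :
    ∃ O : Λ → Set X, (∀ j, IsClopen (O j)) ∧ (∀ j, (O j).Nonempty) ∧ (∀ j, O j ⊆ W j) ∧
    (∀ j j', j ≠ j' → ∀ a b, ∀ x ∈ O j, ∀ y ∈ O j', w a x ≠ w b y) ∧
    ∀ j a b, (∀ x ∈ O j, w a x = w b x) ∨ ∀ x ∈ O j, ∀ y ∈ O j, w a x ≠ w b y := by
  classical
  have := Fintype.ofFinite Ω
  have := Fintype.ofFinite Λ
  choose W' hW1 hW2 hW3 hW4 using fun j => reg_shrink h hw (hW j) (hWn j) Finset.univ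
  obtain ⟨x, hx⟩ := reg_points h (w := w) hW1 hW2 Finset.univ
  let P : Set X := Set.range (fun q : Ω × Λ => w q.1 (x q.2))
  have hP : P.Finite := Set.finite_range _
  obtain ⟨U, hU, hUd⟩ := hP.t2_separation
  have hc : ∀ i, Continuous (w i) := fun i => h.cont _ (hw i)
  have h1 : ∀ j, ∃ V, IsClopen V ∧ x j ∈ V ∧ V ⊆ W' j ∩ ⋂ i, (w i) ⁻¹' (U (w i (x j))) := by
    intro j
    apply exists_clopen_nhds
    · exact (hW1 j).inter (isOpen_iInter_of_finite fun i => (hU _).2.preimage (hc i))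
    · exact ⟨(hx j (Finset.mem_univ _)).1, mem_iInter.2 fun i => (hU _).1⟩
  choose O hO1 hO2 hO3 using h1
  have hO4 : ∀ j, ∀ y ∈ O j, ∀ i, w i y ∈ U (w i (x j)) := fun j y hy i =>
    mem_iInter.1 (hO3 j hy).2 i
  have hsep : ∀ j j' i i', w i (x j) ≠ w i' (x j') → ∀ y ∈ O j, ∀ y' ∈ O j',
      w i y ≠ w i' y' := by
    intro j j' i i' hne y hy y' hy' heq
    have h2 := hUd ⟨(i, j), rfl⟩ ⟨(i', j'), rfl⟩ hne
    exact Set.disjoint_left.1 h2 (hO4 j y hy i) (heq ▸ hO4 j' y' hy' i')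
  refine ⟨O, hO1, fun j => ⟨_, hO2 j⟩, fun j y hy => hW3 j (hO3 j hy).1, fun j j' hne i i' =>
    hsep j j' i i' ((hx j (Finset.mem_univ _)).2 j' (Finset.mem_univ _) hne i i'), fun j a b => ?_⟩
  rcases hW4 j (a, b) (Finset.mem_univ _) with h2 | h2
  · exact Or.inl fun y hy => h2 y (hO3 j hy).1
  · exact Or.inr (hsep j j a b (h2 _ (hO3 j (hO2 j)).1))

end Pool.Agent.N59.VG
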