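import Mathlib
import Pool.Agent.N59.VG.Geo
import Pool.Agent.N59.VG.Marker
import Pool.Agent.N59.VG.Region2

set_option autoImplicit false
set_option linter.unusedSectionVars false

/-!
# Existence of the geometric data
-/

namespace Pool.Agent.N59.VG

open Set Topology

variable {X : Type*} [TopologicalSpace X] [CompactSpace X] [T2Space X] [TotallyDisconnectedSpace X]
variable {Γ : Subgroup (Equiv.Perm X)}

lemma cS_mod {J : ℕ} (i : ℕ) (a : SI J) : (cS i a).1 % 12 ≠ 0 ∧ (cS i a).1 % 12 ≠ 1 ∧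
    (cS i a).1 % 12 ≠ 9 := by
  cases a <;> simp only [cS] <;> omega

lemma cT_mod {J : ℕ} (i : ℕ) (a : TI J) : (cT i a).1 % 12 ≠ 0 ∧ (cT i a).1 % 12 ≠ 1 ∧
    (cT i a).1 % 12 ≠ 9 := by
  cases a <;> simp only [cT] <;> omega

/-- index set of the placed pieces -/
abbrev Q0 (k J : ℕ) (Act : Set (Fin k)) : Type :=
  (Act × Bool) ⊕ ((Fin k × SI J) ⊕ ((Fin k × TI J) ⊕ Fin k))

/-- codes -/
def code {k J : ℕ} {Act : Set (Fin k)} : Q0 k J Act → ℕ × ℕ :=
  Sum.elim (fun q => (12 * (q.1 : ℕ) + 1, if q.2 then 2 else 0))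
    (Sum.elim (fun q => cS q.1 q.2) (Sum.elim (fun q => cT q.1 q.2) (fun i => (12 * (i : ℕ) + 9, 0))))

lemma code_inj {k J : ℕ} {Act : Set (Fin k)} : Function.Injective (code (k := k) (J := J)
    (Act := Act)) := by
  rintro (⟨j, b⟩ | ⟨i, a⟩ | ⟨i, a⟩ | i) (⟨j', b'⟩ | ⟨i', a'⟩ | ⟨i', a'⟩ | i') h <;>
    simp only [code, Sum.elim_inl, Sum.elim_inr] at h
  · simp only [Prod.mk.injEq] at h
    obtain ⟨h1, h2⟩ := h
    have h3 : j = j' := Subtype.ext (Fin.ext (by omega))
    have h4 : b = b' := by cases b <;> cases b' <;> simp at h2 <;> rfl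
    rw [h3, h4]
  · have h1 := cS_mod i' a'; rw [← h] at h1; simp only at h1; omega
  · have h1 := cT_mod i' a'; rw [← h] at h1; simp only at h1; omega
  · simp only [Prod.mk.injEq] at h; omega
  · have h1 := cS_mod i a; rw [h] at h1; simp only at h1; omega
  · obtain ⟨h1, h2⟩ := cS_inj h
    rw [Fin.ext h1, h2]
  · exact absurd h cS_cT
  · have h1 := cS_mod i a; rw [h] at h1; simp only at h1; omega
  · have h1 := cT_mod i a; rw [h] at h1; simp only at h1; omega
  · exact absurd h.symm cS_cT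
  · obtain ⟨h1, h2⟩ := cT_inj h
    rw [Fin.ext h1, h2]
  · have h1 := cT_mod i a; rw [h] at h1; simp only at h1; omega
  · simp only [Prod.mk.injEq] at h; omega
  · have h1 := cS_mod i' a'; rw [← h] at h1; simp only at h1; omega
  · have h1 := cT_mod i' a'; rw [← h] at h1; simp only at h1; omega
  · simp only [Prod.mk.injEq] at h
    have h3 : i = i' := Fin.ext (by omega)
    rw [h3]

lemma code_mod {k J : ℕ} {Act : Set (Fin k)} (q : Q0 k J Act) : (code q).1 % 12 ≠ 0 := by
  rcases q with ⟨j, b⟩ | ⟨i, a⟩ | ⟨i, a⟩ | i <;> simp only [code, Sum.elim_inl, Sum.elim_inr]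
  · omega
  · exact (cS_mod _ _).1
  · exact (cT_mod _ _).1
  · omega

lemma code_lt {k J : ℕ} {Act : Set (Fin k)} (q : Q0 k J Act) :
    (code q).1 < NN k J ∧ (code q).2 < 10 := by
  rcases q with ⟨j, b⟩ | ⟨i, a⟩ | ⟨i, a⟩ | i <;> simp only [code, Sum.elim_inl, Sum.elim_inr]
  · have := lt_NN (J := J) (j : Fin k).2
    constructor
    · omega
    · cases b <;> simp
  · exact ⟨cS_lt i.2 a, by have := (okS i a).lt; omega⟩
  · exact ⟨cT_lt i.2 a, by have := (okT i a).lt; omega⟩
  · have := lt_NN (J := J) i.2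
    omega

/-- locations -/
inductive Lc (k J : ℕ) (Act : Set (Fin k)) (X : Type*) : Type _
  | n : X → Lc k J Act X
  | a : Act → X → Lc k J Act X
  | r : Bool → Fin k → SI J → X → Lc k J Act X

/-- the point at a location -/
def lcp {k J : ℕ} {Act : Set (Fin k)} (α : Fin k → Equiv.Perm X) (η0 : X → X)
    (η : Fin k → SI J → X → X) : Lc k J Act X → X
  | .n x => η0 x
  | .a j x => α j (η0 x)
  | .r false i a x => η i a x
  | .r true i a x => α i (η i a x)

lemma lcp_inj {k J : ℕ} {Act : Set (Fin k)} {α : Fin k → Equiv.Perm X} {η0 : X → X}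
    {η : Fin k → SI J → X → X} {O : Option (Fin k) → Set X}
    (hη0 : ∀ x, η0 x ∈ O none) (hη : ∀ i a x, η i a x ∈ O (some i))
    (i0 : Function.Injective η0) (i1 : ∀ i a, Function.Injective (η i a))
    (i2 : ∀ i a b x y, η i a x = η i b y → a = b)
    (hA : ∀ j j', j ≠ j' → ∀ a b, ∀ x ∈ O j, ∀ y ∈ O j', wd α a x ≠ wd α b y)
    (hB : ∀ j a b, (∀ x ∈ O j, wd α a x = wd α b x) ∨ ∀ x ∈ O j, ∀ y ∈ O j, wd α a x ≠ wd α b y)
    (hO : ∀ i, ∀ x ∈ O (some i), α i x ≠ x)
    (hAct : ∀ j ∈ Act, ¬ ∀ x ∈ O none, α j x = x)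
    (hAct2 : ∀ j ∈ Act, ∀ j' ∈ Act, (∀ x ∈ O none, α j x = α j' x) → j = j') :
    Function.Injective (lcp (Act := Act) α η0 η) := by
  have hC : ∀ j ∈ Act, ∀ x ∈ O none, ∀ y ∈ O none, α j x ≠ y := by
    intro j hj x hx y hy hxy
    rcases hB none (some j, none) (none, none) with h1 | h1
    · exact hAct j hj fun x hx => by have := h1 x hx; rwa [wd_sn, wd_nn] at this
    · have := h1 x hx y hy
      rw [wd_sn, wd_nn] at this
      exact this hxy
  have hD : ∀ i, ∀ x ∈ O (some i), ∀ y ∈ O (some i), α i x ≠ y := by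
    intro j x hx y hy hxy
    rcases hB (some j) (some j, none) (none, none) with h1 | h1
    · have := h1 x hx
      rw [wd_sn, wd_nn] at this
      exact hO j x hx this
    · have := h1 x hx y hy
      rw [wd_sn, wd_nn] at this
      exact this hxy
  have hA1 : ∀ j j', j ≠ j' → ∀ x ∈ O j, ∀ y ∈ O j', x ≠ y := by
    intro j j' hjj x hx y hy
    have := hA j j' hjj (none, none) (none, none) x hx y hy
    rwa [wd_nn, wd_nn] at this
  have hA2 : ∀ j j', j ≠ j' → ∀ i, ∀ x ∈ O j, ∀ y ∈ O j', α i x ≠ y := by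
    intro j j' hjj i x hx y hy
    have := hA j j' hjj (some i, none) (none, none) x hx y hy
    rwa [wd_sn, wd_nn] at this
  have hA3 : ∀ j j', j ≠ j' → ∀ i i', ∀ x ∈ O j, ∀ y ∈ O j', α i x ≠ α i' y := by
    intro j j' hjj i i' x hx y hy
    have := hA j j' hjj (some i, none) (some i', none) x hx y hy
    rwa [wd_sn, wd_sn] at this
  rintro (x | ⟨j, x⟩ | ⟨b, i, a, x⟩) (y | ⟨j', y⟩ | ⟨b', i', a', y⟩) hxy
  · rw [i0 (show η0 x = η0 y from hxy)]
  · exact absurd (show η0 x = α j' (η0 y) from hxy).symm (hC _ j'.2 _ (hη0 _) _ (hη0 _))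
  · cases b'
    · exact absurd (show η0 x = η i' a' y from hxy) (hA1 _ _ (by simp) _ (hη0 _) _ (hη _ _ _))
    · exact absurd (show η0 x = α i' (η i' a' y) from hxy).symm
        (hA2 _ _ (by simp) _ _ (hη _ _ _) _ (hη0 _))
  · exact absurd (show α j (η0 x) = η0 y from hxy) (hC _ j.2 _ (hη0 _) _ (hη0 _))
  · have h1 : α j (η0 x) = α j' (η0 y) := hxy
    have h2 : (j : Fin k) = j' := by
      rcases hB none (some j, none) (some j', none) with h3 | h3
      · exact hAct2 j j.2 j' j'.2 fun x hx => by have := h3 x hx; rwa [wd_sn, wd_sn] at this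
      · have := h3 _ (hη0 x) _ (hη0 y)
        rw [wd_sn, wd_sn] at this
        exact absurd h1 this
    have h3 : j = j' := Subtype.ext h2
    subst h3
    rw [i0 ((α j).injective h1)]
  · cases b'
    · exact absurd (show α j (η0 x) = η i' a' y from hxy)
        (hA2 _ _ (by simp) _ _ (hη0 _) _ (hη _ _ _))
    · exact absurd (show α j (η0 x) = α i' (η i' a' y) from hxy)
        (hA3 _ _ (by simp) _ _ _ (hη0 _) _ (hη _ _ _))
  · cases b
    · exact absurd (show η i a x = η0 y from hxy) (hA1 _ _ (by simp) _ (hη _ _ _) _ (hη0 _))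
    · exact absurd (show α i (η i a x) = η0 y from hxy)
        (hA2 _ _ (by simp) _ _ (hη _ _ _) _ (hη0 _))
  · cases b
    · exact absurd (show η i a x = α j' (η0 y) from hxy).symm
        (hA2 _ _ (by simp) _ _ (hη0 _) _ (hη _ _ _))
    · exact absurd (show α i (η i a x) = α j' (η0 y) from hxy)
        (hA3 _ _ (by simp) _ _ _ (hη _ _ _) _ (hη0 _))
  · by_cases hii : i = i'
    · subst hii
      cases b <;> cases b'
      · have h1 : η i a x = η i a' y := hxy
        obtain rfl := i2 _ _ _ _ _ h1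
        rw [i1 _ _ h1]
      · exact absurd (show η i a x = α i (η i a' y) from hxy).symm
          (hD _ _ (hη _ _ _) _ (hη _ _ _))
      · exact absurd (show α i (η i a x) = η i a' y from hxy) (hD _ _ (hη _ _ _) _ (hη _ _ _))
      · have h1 : η i a x = η i a' y := (α i).injective hxy
        obtain rfl := i2 _ _ _ _ _ h1
        rw [i1 _ _ h1]
    · have hne : (some i : Option (Fin k)) ≠ some i' := by simpa using hii
      exfalso
      cases b <;> cases b'
      · exact hA1 _ _ hne _ (hη i a x) _ (hη i' a' y) hxy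
      · exact hA2 _ _ hne.symm i' _ (hη i' a' y) _ (hη i a x) (Eq.symm hxy)
      · exact hA2 _ _ hne i _ (hη i a x) _ (hη i' a' y) hxy
      · exact hA3 _ _ hne i i' _ (hη i a x) _ (hη i' a' y) hxy

end Pool.Agent.N59.VG
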