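import Mathlib
import Pool.Agent.N59.VG.Place2

set_option autoImplicit false
set_option linter.unusedSectionVars false

/-!
# Existence of the geometric data: the main construction
-/

namespace Pool.Agent.N59.VG

open Set Topology

variable {X : Type*} [TopologicalSpace X] [CompactSpace X] [T2Space X] [TotallyDisconnectedSpace X]
variable {Γ : Subgroup (Equiv.Perm X)}

/-- the base points -/
def bse {k J : ℕ} {Act : Set (Fin k)} (d : X → X) : Q0 k J Act → X → X :=
  Sum.elim (fun _ => d) (Sum.elim (fun _ => d) (Sum.elim (fun _ => d) (fun _ x => x)))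

/-- the domains -/
def dm {k J : ℕ} {Act : Set (Fin k)} (S0 : Set X) : Q0 k J Act → Set X :=
  Sum.elim (fun _ => univ) (Sum.elim (fun _ => univ) (Sum.elim (fun _ => univ) (fun _ => S0)))

/-- the locations of the pieces -/
def lcq {k J : ℕ} {Act : Set (Fin k)} (s : Equiv.Perm X) (d : X → X)
    (z : Fin J → Equiv.Perm X) (e0 e1 e2 : X → X) : Q0 k J Act → X → Lc k J Act X :=
  Sum.elim (fun q x => .a q.1 ((s ^ (19 + if q.2 then 2 else 0)) (d x)))
    (Sum.elim (fun q x => .r false q.1 q.2 x)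
      (Sum.elim (fun q x => .r true q.1 (ts q.2) (tl z e0 e1 q.2 x))
        (fun i x => .r true i SI.t (e2 x))))

lemma mk_inj {s : Equiv.Perm X} {L : ℕ} {S0 : Set X}
    (hS1 : ∀ j : ℕ, 0 < j → j < L → ∀ y ∈ S0, (s ^ j) y ∉ S0) :
    ∀ a b : ℕ, a < L → b < L → ∀ x ∈ S0, ∀ y ∈ S0, (s ^ a) x = (s ^ b) y → a = b := by
  have aux : ∀ a b : ℕ, a < b → b < L → ∀ x ∈ S0, ∀ y ∈ S0, (s ^ a) x ≠ (s ^ b) y := by
    intro a b hab hb x hx y hy hxy
    have h1 : (s ^ (b - a)) y = x := by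
      apply (s ^ a).injective
      rw [hxy, ← Equiv.Perm.mul_apply, ← pow_add]
      congr 2; omega
    exact hS1 (b - a) (by omega) (by omega) y hy (h1 ▸ hx)
  intro a b ha' hb x hx y hy hxy
  rcases lt_trichotomy a b with h1 | h1 | h1
  · exact absurd hxy (aux a b h1 hb x hx y hy)
  · exact h1
  · exact absurd hxy.symm (aux b a h1 ha' y hy x hx)

theorem exists_geo (h : SV Γ) {k J : ℕ} {α : Fin k → Equiv.Perm X} (hα : ∀ i, α i ∈ Γ)
    (hα1 : ∀ i, α i ≠ 1) {z : Fin J → Equiv.Perm X} (hz : ∀ j, z j ∈ Γ) {s : Equiv.Perm X}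
    (hs : s ∈ Γ) (ha : Aper s) : ∃ (L : ℕ) (g : Equiv.Perm X) (Lv : ℕ → Set X) (P : ℕ → X → X)
      (O : Option (Fin k) → Set X) (η : Fin k → SI J → X → X) (e0 e1 : X → X)
      (Act : Set (Fin k)), g ∈ Γ ∧ (∀ a, Emb Γ (P a)) ∧
        Geo L α z (g * s * g⁻¹) Lv P O η e0 e1 Act := by
  classical
  have hne := h.ne
  obtain ⟨L, hL⟩ : ∃ L, L = 2 * (16 * 3 ^ NN k J) + 20 := ⟨_, rfl⟩
  obtain ⟨S0, hS0, hS1, hS2⟩ := marker h hs ha L
  have hS0n : S0.Nonempty := by
    obtain ⟨x⟩ := hne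
    obtain ⟨n, hn⟩ := hS2 x
    exact ⟨_, hn⟩
  obtain ⟨d, hd1, hd2⟩ := exists_emb h hS0.isOpen hS0n
  -- regions
  let W : Option (Fin k) → Set X := fun o => o.elim univ (fun i => {x | α i x ≠ x})
  have hW1 : ∀ j, IsOpen (W j) := by
    rintro (_ | i)
    · exact isOpen_univ
    · exact isOpen_ne_fun (h.cont _ (hα i)) continuous_id
  have hW2 : ∀ j, (W j).Nonempty := by
    rintro (_ | i)
    · exact univ_nonempty
    · by_contra hcon
      rw [not_nonempty_iff_eq_empty] at hcon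
      apply hα1 i
      ext x
      by_contra h2
      have h3 : x ∈ W (some i) := h2
      rw [hcon] at h3
      exact h3
  have hw : ∀ a, wd α a ∈ Γ := fun a => Γ.mul_mem (alo_mem hα _) (alo_mem hα _)
  obtain ⟨O, hO1, hO2, hO3, hA, hB⟩ := regions2 h (w := wd α) hw hW1 hW2
  obtain ⟨η0', hη01, hη02, -, y0, hy01, hy02⟩ := exists_embs h (hO1 none).isOpen (hO2 none) Unit
  let η0 : X → X := η0' ()
  choose η hη1 hη2 hη3 _ using fun i : Fin k =>
    exists_embs h (hO1 (some i)).isOpen (hO2 (some i)) (SI J)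
  obtain ⟨e, he1, -, he3, -⟩ := exists_embs h isOpen_univ univ_nonempty (Fin 3)
  let Act : Set (Fin k) := {j | ¬ (∀ x ∈ O none, α j x = x) ∧
    ∀ j', j' < j → ¬ ∀ x ∈ O none, α j' x = α j x}
  have hinj := lcp_inj (Act := Act) (O := O) (η0 := η0) (fun x => hη02 () x) hη2 (hη01 ()).inj
    (fun i a => (hη1 i a).inj) (fun i a b x y hxy => hη3 i a b x y hxy) hA hB
    (fun i x hx => hO3 (some i) hx) (fun j hj => hj.1) (fun j hj j' hj' hjj => by
      rcases lt_trichotomy j j' with h1 | h1 | h1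
      · exact absurd hjj (hj'.2 j h1)
      · exact h1
      · exact absurd (fun x hx => (hjj x hx).symm) (hj.2 j' h1))
  have hlcE : ∀ (w : Equiv.Perm X) (hw : w ∈ Γ) (f f' : X → X), Emb Γ f → Emb Γ f' →
      Emb Γ (fun x => w (f (f' x))) := fun w hw f f' hf hf' =>
    (hf'.comp h hf).comp h (Emb.of_mem hw)
  have hsn : ∀ n : ℕ, s ^ n ∈ Γ := fun n => Γ.pow_mem hs n
  -- the marker property
  have hmk := mk_inj hS1
  have hcL : ∀ q : ℕ × ℕ, q.1 < NN k J → q.2 < 10 → Hgt q < L := fun q h1 h2 => by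
    have := Hgt_lt h1 h2
    omega
  have h0N : 0 < NN k J := by unfold NN; omega
  have hN16 : 48 ≤ 16 * 3 ^ NN k J := by
    have := pow_lt_aux h0N; omega
  -- the pieces
  let D0 : Q0 k J Act → X → X := fun q x => (s ^ Hgt (code q)) (bse d q x)
  have hD0E : ∀ q, Emb Γ (D0 q) := by
    rintro (q | q | q | i)
    · exact hd1.comp h (Emb.of_mem (hsn _))
    · exact hd1.comp h (Emb.of_mem (hsn _))
    · exact hd1.comp h (Emb.of_mem (hsn _))
    · exact Emb.of_mem (hsn _)
  have hbS : ∀ q : Q0 k J Act, ∀ x ∈ dm S0 q, bse d q x ∈ S0 := by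
    rintro (q | q | q | i) x hx
    · exact hd2 x
    · exact hd2 x
    · exact hd2 x
    · exact hx
  have hdmC : ∀ q : Q0 k J Act, IsClopen (dm S0 q) := by
    rintro (q | q | q | i)
    · exact isClopen_univ
    · exact isClopen_univ
    · exact isClopen_univ
    · exact hS0
  have hE18 : Emb Γ (fun x => (s ^ 18) (d x)) := hd1.comp h (Emb.of_mem (hsn _))
  let Sn : Set X := ((⋃ q, D0 q '' dm S0 q) ∪ Set.range (fun x => (s ^ 18) (d x)))ᶜ
  have hSn : IsClopen Sn := by
    apply IsClopen.compl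
    exact (isClopen_iUnion_of_finite fun q => (hD0E q).img h (hdmC q)).union (hE18.range h)
  let S : Option (Q0 k J Act) → Set X := fun o => o.elim Sn (dm S0)
  let D : Option (Q0 k J Act) → X → X := fun o => o.elim (fun x => x) D0
  let lc : Option (Q0 k J Act) → X → Lc k J Act X := fun o =>
    o.elim (fun x => .n x) (lcq s d z (e 0) (e 1) (e 2))
  let PP : Option (Q0 k J Act) → X → X := fun o x => lcp α η0 η (lc o x)
  have htlE : ∀ a : TI J, Emb Γ (tl z (e 0) (e 1) a) := by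
    intro a
    cases a
    case c0 => exact he1 0
    case c1 => exact he1 1
    case q j => exact Emb.of_mem (Γ.inv_mem (hz j))
    all_goals exact Emb.id
  have hPPE : ∀ q, Emb Γ (PP q) := by
    rintro (_ | (q | q | q | i))
    · exact hη01 ()
    · exact hlcE _ (hα q.1) _ _ (hη01 ()) (hd1.comp h (Emb.of_mem (hsn _)))
    · exact hη1 _ _
    · exact hlcE _ (hα q.1) _ _ (hη1 _ _) (htlE _)
    · exact hlcE _ (hα i) _ _ (hη1 _ _) (he1 2)
  have hdist : ∀ q q' x x', x ∈ S q → x' ∈ S q' → lc q x = lc q' x' → q = q' := by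
    rintro (_ | (⟨j, b⟩ | ⟨i, a⟩ | ⟨i, a⟩ | i)) (_ | (⟨j', b'⟩ | ⟨i', a'⟩ | ⟨i', a'⟩ | i')) x x'
      hx hx' hq <;>
      simp only [lc, lcq, Option.elim_none, Option.elim_some, Sum.elim_inl, Sum.elim_inr,
        Lc.a.injEq, Lc.r.injEq, reduceCtorEq, false_and, true_and] at hq
    · rfl
    · obtain ⟨rfl, h1⟩ := hq
      have h2 := hmk _ _ (by split_ifs <;> omega) (by split_ifs <;> omega) _ (hd2 x) _ (hd2 x') h1
      have h3 : b = b' := by
        cases b <;> cases b' <;> simp at h2 <;> rfl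
      rw [h3]
    · obtain ⟨rfl, rfl, -⟩ := hq
      rfl
    · obtain ⟨rfl, h1, h2⟩ := hq
      have h3 : a = a' := by
        cases a <;> cases a' <;> simp only [ts, reduceCtorEq, SI.p.injEq] at h1 <;>
          first
          | rfl
          | (exfalso; simp only [tl] at h2; exact absurd (he3 _ _ _ _ h2) (by decide))
          | (rw [h1])
      rw [h3]
    · obtain ⟨rfl, h1, h2⟩ := hq
      exfalso
      cases a <;> simp only [ts, reduceCtorEq] at h1 <;> simp only [tl] at h2 <;>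
        exact absurd (he3 _ _ _ _ h2) (by decide)
    · obtain ⟨rfl, h1, h2⟩ := hq
      exfalso
      cases a' <;> simp only [ts, reduceCtorEq] at h1 <;> simp only [tl] at h2 <;>
        exact absurd (he3 _ _ _ _ h2) (by decide)
    · rw [hq.1]
  have hDd0 : ∀ q q' x x', x ∈ dm S0 q → x' ∈ dm S0 q' → D0 q x = D0 q' x' → q = q' := by
    intro q q' x x' hx hx' hxx
    have h1 := hmk _ _ (hcL _ (code_lt q).1 (code_lt q).2) (hcL _ (code_lt q').1 (code_lt q').2) _
      (hbS q x hx) _ (hbS q' x' hx') hxx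
    exact code_inj (Hgt_inj h1 (by have := code_lt q; omega) (by have := code_lt q'; omega))
  have hD18 : ∀ q x x', x ∈ dm S0 q → D0 q x ≠ (s ^ 18) (d x') := by
    intro q x x' hx hxx
    have h1 := hmk _ _ (hcL _ (code_lt q).1 (code_lt q).2) (by omega) _ (hbS q x hx) _ (hd2 x') hxx
    have h2 := Hgt_inj (q' := (0, 2)) h1 (by have := code_lt q; omega) (by simp)
    have h3 := code_mod q
    rw [h2] at h3
    simp at h3
  obtain ⟨g, hg, hgP⟩ := place h (Q := Option (Q0 k J Act)) (S := S) (D := D) (P := PP) (by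
      rintro (_ | q)
      · exact hSn
      · exact hdmC q) (by
      rintro (_ | q)
      · exact Emb.id
      · exact hD0E q) hPPE (by
      rintro (_ | q) (_ | q') x x' hx hx' hxx
      · rfl
      · exact (hx (Or.inl (mem_iUnion.2 ⟨q', x', hx', hxx.symm⟩))).elim
      · exact (hx' (Or.inl (mem_iUnion.2 ⟨q, x, hx, hxx⟩))).elim
      · rw [hDd0 q q' x x' hx hx' hxx])
    (fun q q' x x' hx hx' hxx => hdist q q' x x' hx hx' (hinj hxx)) (by
      obtain ⟨x0⟩ := hne
      refine ⟨(s ^ 18) (d x0), ?_⟩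
      rintro (_ | q) x hx hxx
      · exact hx (Or.inr ⟨x0, hxx.symm⟩)
      · exact hD18 q x x0 hx hxx) (by
      refine ⟨y0, ?_⟩
      intro q x hx hxx
      have hA1 : ∀ j j', j ≠ j' → ∀ x ∈ O j, ∀ y ∈ O j', x ≠ y := by
        intro j j' hjj x hx y hy
        have := hA j j' hjj (none, none) (none, none) x hx y hy
        rwa [wd_nn, wd_nn] at this
      have hA2 : ∀ j j', j ≠ j' → ∀ i, ∀ x ∈ O j, ∀ y ∈ O j', α i x ≠ y := by
        intro j j' hjj i x hx y hy
        have := hA j j' hjj (some i, none) (none, none) x hx y hy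
        rwa [wd_sn, wd_nn] at this
      rcases hq : lc q x with x' | ⟨j, x'⟩ | ⟨b, i, a, x'⟩
      · have h1 : PP q x = η0 x' := by show lcp α η0 η (lc q x) = _; rw [hq]; rfl
        exact hy02 () x' (h1.symm.trans hxx)
      · have h1 : PP q x = α j (η0 x') := by show lcp α η0 η (lc q x) = _; rw [hq]; rfl
        rw [h1] at hxx
        rcases hB none (some j, none) (none, none) with h2 | h2
        · exact j.2.1 fun x hx => by have := h2 x hx; rwa [wd_sn, wd_nn] at this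
        · have := h2 _ (hη02 () x') _ hy01
          rw [wd_sn, wd_nn] at this
          exact this hxx
      · cases b
        · have h1 : PP q x = η i a x' := by show lcp α η0 η (lc q x) = _; rw [hq]; rfl
          exact hA1 _ _ (by simp) _ (hη2 i a x') _ hy01 (h1 ▸ hxx)
        · have h1 : PP q x = α i (η i a x') := by show lcp α η0 η (lc q x) = _; rw [hq]; rfl
          exact hA2 _ _ (by simp) i _ (hη2 i a x') _ hy01 (h1 ▸ hxx))
  -- consequences
  have gP : ∀ q : Q0 k J Act, ∀ x ∈ dm S0 q, g ((s ^ Hgt (code q)) (bse d q x)) =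
      lcp α η0 η (lcq s d z (e 0) (e 1) (e 2) q x) := fun q x hx => hgP (some q) x hx
  have gN : ∀ x ∈ Sn, g x = η0 x := fun x hx => hgP none x hx
  have hn0 : ∀ o : ℕ, o < 6 → o ≠ 2 → ∀ x, (s ^ (16 + o)) (d x) ∈ Sn := by
    intro o ho ho2 x hx
    rcases hx with hx | ⟨x', hx'⟩
    · obtain ⟨q, x', hx', h1⟩ := mem_iUnion.1 hx
      have h2 := hmk _ _ (hcL _ (code_lt q).1 (code_lt q).2) (by omega) _ (hbS q x' hx') _
        (hd2 x) h1
      have h3 := Hgt_inj (q' := (0, o)) (by rw [h2]; rfl) (by have := code_lt q; omega)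
        (by simp only; omega)
      have h4 := code_mod q
      rw [h3] at h4
      simp at h4
    · have h1 := hmk _ _ (by omega) (by omega) _ (hd2 x') _ (hd2 x) hx'
      omega
  have h19 : ∀ x, g ((s ^ 19) (d x)) = η0 ((s ^ 19) (d x)) := fun x =>
    gN _ (hn0 3 (by norm_num) (by norm_num) x)
  have h21 : ∀ x, g ((s ^ 21) (d x)) = η0 ((s ^ 21) (d x)) := fun x =>
    gN _ (hn0 5 (by norm_num) (by norm_num) x)
  have hβn : ∀ (n : ℤ) (y : X), ((g * s * g⁻¹) ^ n) y = g ((s ^ n) (g⁻¹ y)) := by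
    intro n y
    rw [conj_zpow]; rfl
  refine ⟨L, g, fun a => {y | ∃ x ∈ S0, y = g ((s ^ a) x)}, fun a x => g ((s ^ a) (d x)), O, η,
    e 0, e 1, Act, hg, fun a => (hd1.comp h (Emb.of_mem (hsn a))).comp h (Emb.of_mem hg), ?_⟩
  refine ⟨⟨?_, ?_, ?_, ?_⟩, hL.symm.le, hη2, ?_, ?_, ?_, ?_, ?_, ?_, ?_, ?_, hA, hB, ?_, ?_⟩
  · rintro a b ha' hb p ⟨x, hx, rfl⟩ ⟨y, hy, hxy⟩
    exact hmk a b ha' hb x hx y hy (g.injective hxy)
  · intro a p
    constructor
    · rintro ⟨x, hx, h1⟩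
      refine ⟨x, hx, ?_⟩
      have h2 : g (s (g⁻¹ p)) = g ((s ^ (a + 1)) x) := h1
      rw [pow_succ', Equiv.Perm.mul_apply] at h2
      have h3 := s.injective (g.injective h2)
      rw [← h3, ai]
    · rintro ⟨x, hx, rfl⟩
      refine ⟨x, hx, ?_⟩
      show g (s (g⁻¹ (g ((s ^ a) x)))) = _
      rw [ia, pow_succ', Equiv.Perm.mul_apply]
  · exact fun a x => ⟨d x, hd2 x, rfl⟩
  · intro a x
    show g (s (g⁻¹ (g ((s ^ a) (d x))))) = _
    rw [ia, pow_succ', Equiv.Perm.mul_apply]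
  · exact fun i a x => gP (Sum.inr (Sum.inl (i, a))) x (mem_univ _)
  · exact fun i a x => gP (Sum.inr (Sum.inr (Sum.inl (i, a)))) x (mem_univ _)
  · intro j hj x
    show _ = α j (g ((s ^ 19) (d x)))
    rw [h19]
    exact gP (Sum.inl (⟨j, hj⟩, false)) x (mem_univ _)
  · intro j hj x
    show _ = α j (g ((s ^ 21) (d x)))
    rw [h21]
    exact gP (Sum.inl (⟨j, hj⟩, true)) x (mem_univ _)
  · intro x
    show g ((s ^ 19) (d x)) ∈ O none
    rw [h19]; exact hη02 () _
  · intro x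
    show g ((s ^ 21) (d x)) ∈ O none
    rw [h21]; exact hη02 () _
  · rintro i y ⟨x, hx, rfl⟩
    exact ⟨e 2 x, gP (Sum.inr (Sum.inr (Sum.inr i))) x hx⟩
  · intro y hy18 ha1 ha2 hsr htg hsec
    have h1 : g⁻¹ y ∈ Sn := by
      rintro (hx | ⟨x', hx'⟩)
      · obtain ⟨q, x', hx', h1⟩ := mem_iUnion.1 hx
        have h2 : y = g ((s ^ Hgt (code q)) (bse d q x')) := by
          have h3 : g⁻¹ y = (s ^ Hgt (code q)) (bse d q x') := h1.symm
          rw [← h3, ai]
        rcases q with ⟨⟨j, hj⟩, b⟩ | ⟨i, a⟩ | ⟨i, a⟩ | i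
        · cases b
          · exact ha1 j hj x' h2
          · exact ha2 j hj x' h2
        · exact hsr i a x' h2
        · exact htg i a x' h2
        · exact hsec i ⟨x', hx', h2⟩
      · apply hy18 x'
        have h3 : g⁻¹ y = (s ^ 18) (d x') := hx'.symm
        show y = g ((s ^ 18) (d x'))
        rw [← h3, ai]
    have h2 := gN _ h1
    rw [ai] at h2
    rw [h2]
    exact hη02 () _
  · intro i
    by_cases h1 : ∀ x ∈ O none, α i x = x
    · exact Or.inl h1
    · right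
      let T : Set (Fin k) := {j | ∀ x ∈ O none, α j x = α i x}
      have hT : T.Nonempty := ⟨i, fun x _ => rfl⟩
      obtain ⟨j, hj, hjm⟩ := WellFounded.has_min (wellFounded_lt : WellFounded
        ((· < ·) : Fin k → Fin k → Prop)) T hT
      refine ⟨j, ⟨fun h2 => h1 fun x hx => by rw [← hj x hx, h2 x hx], fun j' hj' h2 => ?_⟩, hj⟩
      exact hjm j' (fun x hx => by rw [h2 x hx, hj x hx]) hj'
  · intro i y
    obtain ⟨n0, hn0'⟩ := hS2 (g⁻¹ y)
    refine ⟨(Hgt (12 * (i : ℕ) + 9, 0) : ℤ) + n0, e 2 ((s ^ n0) (g⁻¹ y)), ?_⟩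
    rw [hβn, zpow_add, zpow_natCast, Equiv.Perm.mul_apply]
    exact gP (Sum.inr (Sum.inr (Sum.inr i))) _ hn0'

end Pool.Agent.N59.VG
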