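import Mathlib
import Pool.Agent.N59.VG.ExGeo

set_option autoImplicit false
set_option linter.unusedSectionVars false

/-!
# Generation from the geometric data; elements without finite orbits
-/

namespace Pool.Agent.N59.VG

open Set Topology

variable {X : Type*} [TopologicalSpace X] [CompactSpace X] [T2Space X] [TotallyDisconnectedSpace X]
variable {Γ : Subgroup (Equiv.Perm X)}

lemma permCongr_zpow {A B : Type*} (Φ : A ≃ B) (b : Equiv.Perm B) (n : ℤ) (q : A) :
    ((Φ.symm.permCongr b) ^ n) q = Φ.symm ((b ^ n) (Φ q)) := by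
  have h1 : (Φ.symm.permCongrHom.toMonoidHom b) ^ n = Φ.symm.permCongrHom.toMonoidHom (b ^ n) :=
    (map_zpow _ _ _).symm
  have h2 : (Φ.symm.permCongr b) ^ n = Φ.symm.permCongr (b ^ n) := h1
  rw [h2, Equiv.permCongr_apply, Equiv.symm_symm]

theorem Geo.gen (h : SV Γ) {k J L : ℕ} {α : Fin k → Equiv.Perm X} {z : Fin J → Equiv.Perm X}
    {β : Equiv.Perm X} {Lv : ℕ → Set X} {P : ℕ → X → X} {O : Option (Fin k) → Set X}
    {η : Fin k → SI J → X → X} {e0 e1 : X → X} {Act : Set (Fin k)}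
    (hgen : ∀ H : Subgroup (Equiv.Perm X),
      (∀ j j', z j * z j' * (z j)⁻¹ * (z j')⁻¹ ∈ H) → Γ ≤ H)
    (hαΓ : ∀ i, α i ∈ Γ) (hβΓ : β ∈ Γ) (hPE : ∀ a, Emb Γ (P a))
    (G : Geo L α z β Lv P O η e0 e1 Act) (i : Fin k) :
    Γ ≤ Subgroup.closure {α i, β} := by
  classical
  have hne := h.ne
  set H := Subgroup.closure {α i, β} with hH
  have hα : α i ∈ H := Subgroup.subset_closure (by simp)
  have hβ : β ∈ H := Subgroup.subset_closure (by simp)
  have hHΓ : H ≤ Γ := by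
    rw [hH, Subgroup.closure_le]
    rintro x (rfl | rfl)
    · exact hαΓ i
    · exact hβΓ
  have hLL := G.hL
  have hcL : ∀ q : ℕ × ℕ, q.1 < NN k J → q.2 < 10 → Hgt q < L := fun q h1 h2 => by
    have := Hgt_lt h1 h2
    omega
  have hSL : ∀ a : SI J, Hgt (cS i a) < L := fun a =>
    hcL _ (cS_lt i.2 a) (by have := (okS i a).lt; omega)
  have hTL : ∀ a : TI J, Hgt (cT i a) < L := fun a =>
    hcL _ (cT_lt i.2 a) (by have := (okT i a).lt; omega)
  have hSne : ∀ a b : SI J, a ≠ b → (⟨_, hSL a⟩ : Fin L) ≠ ⟨_, hSL b⟩ := by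
    intro a b hab h1
    simp only [Fin.mk.injEq] at h1
    have h2 := Hgt_inj h1 (by have := (okS i a).lt; omega) (by have := (okS i b).lt; omega)
    exact hab (cS_inj h2).2
  have hTne : ∀ a b : TI J, a ≠ b → (⟨_, hTL a⟩ : Fin L) ≠ ⟨_, hTL b⟩ := by
    intro a b hab h1
    simp only [Fin.mk.injEq] at h1
    have h2 := Hgt_inj h1 (by have := (okT i a).lt; omega) (by have := (okT i b).lt; omega)
    exact hab (cT_inj h2).2
  -- the decomposition
  let col : Fin L × X → X := fun q => P q.1 q.2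
  have hcol : Function.Injective col := by
    rintro ⟨a, x⟩ ⟨b, y⟩ hxy
    have h1 : P a x = P b y := hxy
    have h2 := G.lvl.dis a b a.2 b.2 _ (G.lvl.mem a x) (h1 ▸ G.lvl.mem b y)
    have h3 : a = b := Fin.ext h2
    subst h3
    rw [(hPE a).inj h1]
  let Φ : (Fin L × X) ⊕ ((Set.range col)ᶜ : Set X) ≃ X :=
    (Equiv.sumCongr (Equiv.ofInjective col hcol) (Equiv.refl _)).trans
      (Equiv.Set.sumCompl (Set.range col))
  have hΦ : ∀ m x, Φ (Sum.inl (m, x)) = P m x := fun m x => rfl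
  have hΦr : ∀ y : ((Set.range col)ᶜ : Set X), Φ (Sum.inr y) = y := fun y => rfl
  let H' : Subgroup (Equiv.Perm ((Fin L × X) ⊕ ((Set.range col)ᶜ : Set X))) :=
    H.comap Φ.permCongrHom.toMonoidHom
  have hH' : ∀ τ, τ ∈ H' ↔ Φ.permCongr τ ∈ H := fun τ => Iff.rfl
  have hpull : ∀ γ ∈ H, Φ.symm.permCongr γ ∈ H' := by
    intro γ hγ
    rw [hH']
    have h1 : Φ.permCongr (Φ.symm.permCongr γ) = γ := by
      ext y
      simp [Equiv.permCongr_apply]
    rw [h1]
    exact hγ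
  have hval : ∀ (γ : Equiv.Perm X) q q', γ (Φ q) = Φ q' → Φ.symm.permCongr γ q = q' := by
    intro γ q q' hq
    show Φ.symm (γ (Φ.symm.symm q)) = q'
    rw [Equiv.symm_symm, hq, Equiv.symm_apply_apply]
  set a' := Φ.symm.permCongr (α i) with ha'
  set b' := Φ.symm.permCongr β with hb'
  have ha'H : a' ∈ H' := hpull _ hα
  have hb'H : b' ∈ H' := hpull _ hβ
  have hb : ∀ (a : ℕ) (h1 : a + 1 < L) (x : X), b' (Sum.inl (⟨a, by omega⟩, x)) =
      Sum.inl (⟨a + 1, h1⟩, x) := by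
    intro a h1 x
    apply hval
    rw [hΦ, hΦ]
    exact G.lvl.bP a x
  obtain ⟨a, haL, κ, hκ, k0, k1, k2, k3⟩ : ∃ a, a + 2 < L ∧ Adj H P a := by
    by_cases hid : ∀ x ∈ O none, α i x = x
    · exact G.caseF hα hβ hid
    · exact G.caseU hα hβ hid
  have hk : rho (cyc (⟨a, by omega⟩ : Fin L) ⟨a + 1, by omega⟩ ⟨a + 2, haL⟩) ∈ H' := by
    rw [hH']
    have hn1 : (⟨a, by omega⟩ : Fin L) ≠ ⟨a + 1, by omega⟩ := by simp
    have hn2 : (⟨a, by omega⟩ : Fin L) ≠ ⟨a + 2, haL⟩ := by simp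
    have hn3 : (⟨a + 1, by omega⟩ : Fin L) ≠ ⟨a + 2, haL⟩ := by simp
    have h1 : Φ.permCongr (rho (cyc (⟨a, by omega⟩ : Fin L) ⟨a + 1, by omega⟩ ⟨a + 2, haL⟩)) =
        κ := by
      ext y
      obtain ⟨q, rfl⟩ := Φ.surjective y
      rw [Equiv.permCongr_apply, Equiv.symm_apply_apply]
      rcases q with ⟨m, x⟩ | r
      · rw [rho_inl]
        by_cases m0 : m = ⟨a, by omega⟩
        · subst m0
          rw [cyc_1 hn1 hn2, hΦ, hΦ]
          exact (k0 x).symm
        by_cases m1 : m = ⟨a + 1, by omega⟩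
        · subst m1
          rw [cyc_2 hn2 hn3, hΦ, hΦ]
          exact (k1 x).symm
        by_cases m2 : m = ⟨a + 2, haL⟩
        · subst m2
          rw [cyc_3, hΦ, hΦ]
          exact (k2 x).symm
        rw [cyc_4 m0 m1 m2, hΦ]
        symm
        apply k3
        · intro x' hx'
          have := G.lvl.ne m.2 (show a < L by omega) (fun h5 => m0 (Fin.ext h5)) x x'
          exact this hx'
        · intro x' hx'
          have := G.lvl.ne m.2 (show a + 1 < L by omega) (fun h5 => m1 (Fin.ext h5)) x x'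
          exact this hx'
        · intro x' hx'
          have := G.lvl.ne m.2 (show a + 2 < L by omega) (fun h5 => m2 (Fin.ext h5)) x x'
          exact this hx'
      · rw [rho_inr, hΦr]
        symm
        apply k3
        · intro x' hx'
          exact r.2 ⟨(⟨a, by omega⟩, x'), hx'.symm⟩
        · intro x' hx'
          exact r.2 ⟨(⟨a + 1, by omega⟩, x'), hx'.symm⟩
        · intro x' hx'
          exact r.2 ⟨(⟨a + 2, haL⟩, x'), hx'.symm⟩
    rw [h1]
    exact hκ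
  have halt := core2_alt hb'H hb haL hk
  have hat : ∀ (a : TI J) (x y : X), y = tl z e0 e1 a x →
      a' (Sum.inl (⟨_, hSL (ts a)⟩, y)) = Sum.inl (⟨_, hTL a⟩, x) := by
    intro a x y hy
    apply hval
    rw [hΦ, hΦ]
    have h1 := G.src i (ts a) y
    have h2 := G.tgt i a x
    rw [← hy] at h2
    show α i (P (Hgt (cS i (ts a))) y) = P (Hgt (cT i a)) x
    rw [h1, h2]
  have hL4 : 4 ≤ L := by omega
  have hlab : ∀ (j : Fin J) (m0 m1 : Fin L), m0 ≠ m1 →
      (del m0 (z j) * del m1 (z j)⁻¹ : Equiv.Perm ((Fin L × X) ⊕ ((Set.range col)ᶜ : Set X))) ∈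
        H' := by
    intro j m0 m1 hm
    exact core2_label hL4 ha'H halt (z := z j) (hSne (SI.p j) SI.h (by simp))
      (hSne (SI.p j) SI.n1 (by simp)) (hSne SI.h SI.n1 (by simp))
      (hTne (TI.q j) TI.h1 (by simp)) (hTne (TI.q j) TI.n (by simp))
      (hTne TI.h1 TI.n (by simp))
      (fun x => hat (TI.q j) (z j x) x (by simp only [tl]; rw [ia]))
      (fun x => hat TI.h1 x x rfl) (fun x => hat TI.n x x rfl) hm
  let m0 : Fin L := ⟨0, by omega⟩
  let m1 : Fin L := ⟨1, by omega⟩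
  let m2 : Fin L := ⟨2, by omega⟩
  have h01 : m0 ≠ m1 := by simp [m0, m1]
  have h02 : m0 ≠ m2 := by simp [m0, m2]
  have h12 : m1 ≠ m2 := by simp [m1, m2]
  have hcomm : ∀ j j' : Fin J, (del m0 (z j * z j' * (z j)⁻¹ * (z j')⁻¹) :
      Equiv.Perm ((Fin L × X) ⊕ ((Set.range col)ᶜ : Set X))) ∈ H' := fun j j' =>
    core2_comm h01 h02 h12 (hlab j m0 m1 h01) (hlab j' m0 m2 h02)
  have hmove := core2_move hL4 ha'H hb'H halt hb (hTne TI.c0 TI.c1 (by simp))
    (fun x => hat TI.c0 x (e0 x) rfl) (fun x => hat TI.c1 x (e1 x) rfl) (by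
      intro q
      obtain ⟨n, x, hx⟩ := G.surj i (Φ q)
      refine ⟨n, x, ?_⟩
      rw [hb', permCongr_zpow, hx, ha']
      show _ = Φ.symm (α i (Φ.symm.symm _))
      rw [Equiv.symm_symm, hΦ]
      have h1 := G.src i SI.t x
      show _ = Φ.symm (α i (P (Hgt (cS i SI.t)) x))
      rw [h1]) m0
  let E : X ↪ X := ⟨fun x => Φ (Sum.inl (m0, x)), fun x y hxy => by
    have := Φ.injective hxy
    simpa using this⟩
  have hE : Emb Γ E := hPE 0
  refine criterion h (e := E) hE hHΓ ?_ ?_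
  · have h1 : Γ ≤ H.comap (Equiv.Perm.viaEmbeddingHom E) := by
      apply hgen
      intro d d'
      have h2 := hcomm d d'
      rw [hH', pc_del Φ m0 E (fun x => rfl)] at h2
      exact h2
    intro g' hg'
    exact h1 hg'
  · intro S
    obtain ⟨τ, hτ, hτS⟩ := hmove (S.image Φ.symm)
    refine ⟨Φ.permCongr τ, hτ, fun s hs => ?_⟩
    obtain ⟨x, hx⟩ := hτS (Φ.symm s) (Finset.mem_image_of_mem _ hs)
    exact ⟨x, by
      show Φ (Sum.inl (m0, x)) = Φ (τ (Φ.symm s))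
      rw [hx]⟩

/-- every element without finite orbits has the strong spread property -/
theorem main2 (h : SV Γ) (hfg : Γ.FG) {s : Equiv.Perm X} (hs : s ∈ Γ) (ha : Aper s) (k : ℕ)
    (α : Fin k → Equiv.Perm X) (hα : ∀ i, α i ∈ Γ) (hα1 : ∀ i, α i ≠ 1) :
    ∃ g ∈ Γ, ∀ i, Γ ≤ Subgroup.closure {α i, g * s * g⁻¹} := by
  obtain ⟨J, z, hz, hgen⟩ := fingen h hfg
  obtain ⟨L, g, Lv, P, O, η, e0, e1, Act, hg, hPE, G⟩ :=
    exists_geo h hα hα1 (fun j => (hz j).1) hs ha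
  exact ⟨g, hg, fun i => G.gen h hgen hα (Γ.mul_mem (Γ.mul_mem hg hs) (Γ.inv_mem hg)) hPE i⟩

end Pool.Agent.N59.VG
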