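import Mathlib
import Pool.Agent.N59.VG.Main

set_option autoImplicit false
set_option linter.unusedSectionVars false

/-!
# Transfer from groups of homeomorphisms
-/

namespace Pool.Agent.N59.VG

open Set Topology

/-- Cantor space has no isolated points -/
lemma perf_cantor : Perf (ℕ → Bool) := by
  intro U hU hn hfin
  obtain ⟨x, hx⟩ := hn
  have h1 : IsOpen (U \ (U \ {x})) := by
    have h2 : (U \ {x}).Finite := hfin.subset sdiff_subset
    exact hU.sdiff h2.isClosed
  have h2 : U \ (U \ {x}) = {x} := by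
    ext y
    simp only [mem_sdiff, mem_singleton_iff, not_and, not_not]
    constructor
    · exact fun h3 => h3.2 h3.1
    · rintro rfl; exact ⟨hx, fun _ => rfl⟩
  rw [h2] at h1
  have h3 : Filter.Tendsto (fun n : ℕ => Function.update x n (!x n)) Filter.atTop (𝓝 x) := by
    rw [tendsto_pi_nhds]
    intro i
    apply tendsto_const_nhds.congr'
    filter_upwards [Filter.eventually_gt_atTop i] with n hn
    rw [Function.update_of_ne hn.ne]
  have h4 := h3.eventually (h1.mem_nhds rfl)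
  obtain ⟨n, hn⟩ := h4.exists
  have h5 := congrFun (show Function.update x n (!x n) = x from hn) n
  rw [Function.update_self] at h5
  cases hxn : x n <;> rw [hxn] at h5 <;> exact absurd h5 (by decide)

section
variable {X : Type*} [TopologicalSpace X]

/-- forget the topology -/
def permHom (X : Type*) [TopologicalSpace X] : (X ≃ₜ X) →* Equiv.Perm X where
  toFun := Homeomorph.toEquiv
  map_one' := rfl
  map_mul' _ _ := rfl

lemma permHom_inj : Function.Injective (permHom X) := Homeomorph.toEquiv_injective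

variable [CompactSpace X] [T2Space X] [TotallyDisconnectedSpace X]

lemma sv_of (hP : Perf X) (hne : Nonempty X) {G : Subgroup (X ≃ₜ X)} (hs : IsSimpleGroup G)
    (hv : ∀ A B C : Set X, IsClopen A → IsClopen B → IsClopen C → B.Nonempty → C.Nonempty →
      B ⊂ A → C ⊂ A → ∃ γ ∈ G, γ '' B ⊆ C ∧ ∀ x, x ∉ A → γ x = x) : SV (G.map (permHom X)) where
  perf := hP
  ne := hne
  cont := by
    rintro _ ⟨g, -, rfl⟩
    exact g.continuous
  vig := by
    intro A B C hA hB hC hBA hCA hBn hCn hBA' hCA'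
    obtain ⟨γ, hγ, h1, h2⟩ := hv A B C hA hB hC hBn hCn (hBA.ssubset_of_ne hBA')
      (hCA.ssubset_of_ne hCA')
    exact ⟨permHom X γ, ⟨γ, hγ, rfl⟩, fun x hx => h1 ⟨x, hx, rfl⟩, h2⟩
  simp := by
    intro N hN hNn ⟨n, hn, hn1⟩
    let N' : Subgroup G := N.comap ((permHom X).comp G.subtype)
    have hN' : N'.Normal := by
      constructor
      intro a ha g
      exact hNn _ ha (permHom X g) ⟨g, g.2, rfl⟩
    rcases hs.eq_bot_or_eq_top_of_normal N' hN' with h1 | h1
    · exfalso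
      obtain ⟨g, hg, hgn⟩ := hN hn
      have h2 : (⟨g, hg⟩ : G) ∈ N' := by
        show permHom X g ∈ N
        rw [hgn]; exact hn
      rw [h1, Subgroup.mem_bot] at h2
      apply hn1
      rw [← hgn, show g = 1 from congrArg Subtype.val h2, map_one]
    · rintro _ ⟨g, hg, rfl⟩
      have h2 : (⟨g, hg⟩ : G) ∈ N' := by rw [h1]; trivial
      exact h2

theorem spread_of (hP : Perf X) (hne : Nonempty X) {G : Subgroup (X ≃ₜ X)} (hs : IsSimpleGroup G)
    (hv : ∀ A B C : Set X, IsClopen A → IsClopen B → IsClopen C → B.Nonempty → C.Nonempty →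
      B ⊂ A → C ⊂ A → ∃ γ ∈ G, γ '' B ⊆ C ∧ ∀ x, x ∉ A → γ x = x) (hfg : Group.FG G) (k : ℕ) :
    ∃ σ : G, ∀ α : Fin k → G, (∀ i, α i ≠ 1) →
      ∃ β : G, IsConj σ β ∧ ∀ i, Subgroup.closure {α i, β} = ⊤ := by
  have hSV := sv_of hP hne hs hv
  have hFG : (G.map (permHom X)).FG := by
    obtain ⟨S, hS⟩ := (Group.fg_iff_subgroup_fg G).1 hfg
    classical
    refine ⟨S.image (permHom X), ?_⟩
    rw [Finset.coe_image, ← MonoidHom.map_closure, hS]
  obtain ⟨s, ⟨s0, hs0, rfl⟩, hmain⟩ := main hSV hFG k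
  refine ⟨⟨s0, hs0⟩, fun α hα => ?_⟩
  obtain ⟨g, ⟨g0, hg0, rfl⟩, hg⟩ := hmain (fun i => permHom X (α i)) (fun i => ⟨_, (α i).2, rfl⟩)
    (fun i hi => hα i (Subtype.ext (permHom_inj (by rw [hi]; rfl))))
  refine ⟨⟨g0, hg0⟩ * ⟨s0, hs0⟩ * ⟨g0, hg0⟩⁻¹, isConj_iff.2 ⟨⟨g0, hg0⟩, rfl⟩, fun i => ?_⟩
  rw [eq_top_iff]
  rintro x -
  have h1 : permHom X x ∈ G.map (permHom X) := ⟨x, x.2, rfl⟩
  have h2 := hg i h1
  let φ : G →* Equiv.Perm X := (permHom X).comp G.subtype
  have h3 : ({permHom X (α i), permHom X g0 * permHom X s0 * (permHom X g0)⁻¹} :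
      Set (Equiv.Perm X)) = φ '' {α i, ⟨g0, hg0⟩ * ⟨s0, hs0⟩ * ⟨g0, hg0⟩⁻¹} := by
    rw [image_pair]; rfl
  rw [h3, ← MonoidHom.map_closure] at h2
  obtain ⟨y, hy, hyx⟩ := h2
  have h4 : y = x := Subtype.ext (permHom_inj hyx)
  rw [← h4]; exact hy

end

end Pool.Agent.N59.VG
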