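import Mathlib
import Pool.Agent.N59.VG.Gen2
import Pool.Agent.N59.VG.Transfer

set_option autoImplicit false
set_option linter.unusedSectionVars false

/-!
# Elements without finite orbits: transfer, and the converse
-/

namespace Pool.Agent.N59.VG

open Set Topology

section conv
variable {X : Type*} [TopologicalSpace X] [CompactSpace X] [T2Space X] [TotallyDisconnectedSpace X]
variable {Γ : Subgroup (Equiv.Perm X)}

lemma disj_elts (h : SV Γ) (n : ℕ) : ∃ α : Fin n → Equiv.Perm X, (∀ i, α i ∈ Γ) ∧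
    (∀ i, α i ≠ 1) ∧ ∀ i j x, α i x ≠ x → α j x ≠ x → i = j := by
  have hne := h.ne
  obtain ⟨f, hf1, hf2, hf3, hf4, l, hl1, hl2⟩ := exists_split h.perf isOpen_univ univ_nonempty
    (Fin n)
  have key : ∀ i, ∃ α ∈ Γ, α ≠ 1 ∧ ∀ x, x ∉ f i → α x = x := by
    intro i
    obtain ⟨b, hb1, hb2, hb3, hb4, l', hl1', hl2'⟩ := exists_split h.perf (hf1 i).isOpen (hf2 i)
      (Fin 2)
    obtain ⟨γ, hγ, h1, h2⟩ := h.vig (f i) (b 0) (b 1) (hf1 i) (hb1 0) (hb1 1) (hb3 0) (hb3 1)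
      (hb2 0) (hb2 1) (ne_of_mem_not_mem hl1' (hl2' 0)) (ne_of_mem_not_mem hl1' (hl2' 1))
    refine ⟨γ, hγ, fun h3 => ?_, h2⟩
    obtain ⟨x, hx⟩ := hb2 0
    have h4 := h1 x hx
    rw [h3] at h4
    exact Set.disjoint_left.1 (hb4 0 1 (by decide)) hx h4
  choose α hα1 hα2 hα3 using key
  refine ⟨α, hα1, hα2, fun i j x hi hj => ?_⟩
  by_contra hij
  have h1 : x ∈ f i := by
    by_contra h3
    exact hi (hα3 i x h3)
  have h2 : x ∈ f j := by
    by_contra h3
    exact hj (hα3 j x h3)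
  exact Set.disjoint_left.1 (hf4 i j hij) h1 h2

lemma no_finite_inv (h : SV Γ) {F : Set X} (hF : F.Finite) :
    ∃ γ ∈ Γ, ∀ x ∈ F, γ x ∉ F := by
  have hne := h.ne
  rcases F.eq_empty_or_nonempty with rfl | hFn
  · exact ⟨1, Γ.one_mem, fun x hx => absurd hx (notMem_empty x)⟩
  obtain ⟨y, -, hy⟩ := ((h.perf _ isOpen_univ univ_nonempty).sdiff hF).nonempty
  obtain ⟨V, hV, hyV, -, hVF⟩ := exists_clopen_avoid isOpen_univ (mem_univ y) hF hy
  obtain ⟨f, hf1, hf2, hf3, hf4, l, hl1, hl2⟩ := exists_split h.perf hV.isOpen ⟨y, hyV⟩ (Fin 1)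
  obtain ⟨x0, hx0⟩ := hFn
  obtain ⟨γ, hγ, h1, -⟩ := h.vig univ Vᶜ (f 0) isClopen_univ hV.compl (hf1 0) (subset_univ _)
    (subset_univ _) ⟨x0, hVF x0 hx0⟩ (hf2 0)
    (ne_of_mem_not_mem (mem_univ y) (fun h2 => h2 hyV)) (ne_of_mem_not_mem (mem_univ l) (hl2 0))
  exact ⟨γ, hγ, fun x hx hx2 => hVF _ hx2 (hf3 0 (h1 x (hVF x hx)))⟩

/-- elements with a finite orbit do not have the strong property -/
theorem converse2 (h : SV Γ) {s : Equiv.Perm X} {x : X}
    (hx : (Set.range fun n : ℤ => (s ^ n) x).Finite) :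
    ∃ (k : ℕ) (α : Fin k → Equiv.Perm X), 1 ≤ k ∧ (∀ i, α i ∈ Γ) ∧ (∀ i, α i ≠ 1) ∧
      ∀ g : Equiv.Perm X, ∃ i, ¬ Γ ≤ Subgroup.closure {α i, g * s * g⁻¹} := by
  classical
  set F0 : Finset X := hx.toFinset with hF0
  have hF0m : ∀ y, y ∈ F0 ↔ ∃ n : ℤ, (s ^ n) x = y := fun y => by simp [hF0]
  obtain ⟨α, hα1, hα2, hα3⟩ := disj_elts h (F0.card + 1)
  refine ⟨F0.card + 1, α, by omega, hα1, hα2, fun g => ?_⟩
  by_contra hcon
  push Not at hcon
  let F : Finset X := F0.image g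
  obtain ⟨γ, hγ, hγF⟩ := no_finite_inv h (F := (F : Set X)) F.finite_toSet
  have hgx : g x ∈ F := Finset.mem_image_of_mem _ ((hF0m x).2 ⟨0, by simp⟩)
  have hFs : ∀ y ∈ F, (g * s * g⁻¹) y ∈ F ∧ (g * s * g⁻¹)⁻¹ y ∈ F := by
    intro y hy
    obtain ⟨w, hw, rfl⟩ := Finset.mem_image.1 hy
    obtain ⟨n, hn⟩ := (hF0m w).1 hw
    constructor
    · refine Finset.mem_image.2 ⟨s w, (hF0m _).2 ⟨n + 1, ?_⟩, ?_⟩
      · rw [add_comm, zpow_add, zpow_one, Equiv.Perm.mul_apply, hn]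
      · simp
    · refine Finset.mem_image.2 ⟨s⁻¹ w, (hF0m _).2 ⟨-1 + n, ?_⟩, ?_⟩
      · rw [zpow_add, zpow_neg_one, Equiv.Perm.mul_apply, hn]
      · simp [mul_inv_rev]
  have key : ∀ i, ∃ p ∈ F, α i p ≠ p := by
    intro i
    by_contra h1
    push Not at h1
    let K : Subgroup (Equiv.Perm X) :=
      { carrier := {c | ∀ y, c y ∈ F ↔ y ∈ F}
        mul_mem' := fun {a b} ha hb y => by
          show a (b y) ∈ F ↔ y ∈ F
          rw [ha, hb]
        one_mem' := fun y => Iff.rfl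
        inv_mem' := fun {a} ha y => by
          show a⁻¹ y ∈ F ↔ y ∈ F
          rw [← ha (a⁻¹ y), ai] }
    have h2 : Subgroup.closure {α i, g * s * g⁻¹} ≤ K := by
      rw [Subgroup.closure_le]
      rintro c (rfl | rfl)
      · intro y
        constructor
        · intro hy
          have h3 : α i y = y := (α i).injective (h1 _ hy)
          rwa [h3] at hy
        · intro hy
          rw [h1 y hy]; exact hy
      · intro y
        constructor
        · intro hy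
          have := (hFs _ hy).2
          rwa [ia] at this
        · intro hy
          exact (hFs y hy).1
    have h3 : γ ∈ K := h2 (hcon i hγ)
    exact hγF (g x) hgx ((h3 (g x)).2 hgx)
  choose p hp1 hp2 using key
  have hpi : Function.Injective (fun i => (⟨p i, hp1 i⟩ : F)) := by
    intro i j hij
    have h1 : p i = p j := congrArg Subtype.val hij
    exact hα3 i j (p i) (hp2 i) (h1 ▸ hp2 j)
  have h1 := Fintype.card_le_of_injective _ hpi
  rw [Fintype.card_fin, Fintype.card_coe] at h1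
  have h2 : F.card ≤ F0.card := Finset.card_image_le
  omega

lemma aper_of {s : Equiv.Perm X} (hs : ∀ x, ¬ (Set.range fun n : ℤ => (s ^ n) x).Finite) :
    Aper s := by
  intro j hj x hx
  apply hs x
  have h1 : (Set.range fun n : ℤ => (s ^ n) x) ⊆
      (fun n : ℤ => (s ^ n) x) '' (Set.Ico (0 : ℤ) j) := by
    rintro _ ⟨n, rfl⟩
    have hj' : (0 : ℤ) < j := by exact_mod_cast hj
    refine ⟨n % j, ⟨Int.emod_nonneg _ hj'.ne', Int.emod_lt_of_pos _ hj'⟩, ?_⟩
    show (s ^ (n % j)) x = (s ^ n) x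
    conv_rhs => rw [← Int.emod_add_mul_ediv n j, zpow_add, zpow_mul, zpow_natCast]
    rw [Equiv.Perm.mul_apply, Equiv.Perm.zpow_apply_eq_self_of_apply_eq_self hx]
  exact ((Set.finite_Ico _ _).image _).subset h1

end conv

section
variable {X : Type*} [TopologicalSpace X]
variable [CompactSpace X] [T2Space X] [TotallyDisconnectedSpace X]

theorem strong_iff (hP : Perf X) (hne : Nonempty X) {G : Subgroup (X ≃ₜ X)}
    (hs : IsSimpleGroup G)
    (hv : ∀ A B C : Set X, IsClopen A → IsClopen B → IsClopen C → B.Nonempty → C.Nonempty →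
      B ⊂ A → C ⊂ A → ∃ γ ∈ G, γ '' B ⊆ C ∧ ∀ x, x ∉ A → γ x = x) (hfg : Group.FG G) (σ : G) :
    (∀ k : ℕ, 1 ≤ k → ∀ α : Fin k → G, (∀ i, α i ≠ 1) →
      ∃ β : G, IsConj σ β ∧ ∀ i, Subgroup.closure {α i, β} = ⊤) ↔
    ∀ x, ¬ (Set.range fun n : ℤ => ((σ : X ≃ₜ X) ^ n) x).Finite := by
  have hSV := sv_of hP hne hs hv
  have hFG : (G.map (permHom X)).FG := by
    obtain ⟨S, hS⟩ := (Group.fg_iff_subgroup_fg G).1 hfg
    classical
    refine ⟨S.image (permHom X), ?_⟩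
    rw [Finset.coe_image, ← MonoidHom.map_closure, hS]
  have hpow : ∀ x, (Set.range fun n : ℤ => ((σ : X ≃ₜ X) ^ n) x) =
      (Set.range fun n : ℤ => ((permHom X (σ : X ≃ₜ X)) ^ n) x) := by
    intro x
    congr 1
    funext n
    rw [← map_zpow]; rfl
  let φ : G →* Equiv.Perm X := (permHom X).comp G.subtype
  have hφ : Function.Injective φ := permHom_inj.comp Subtype.val_injective
  have hφr : φ.range = G.map (permHom X) := by
    ext c
    constructor
    · rintro ⟨y, rfl⟩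
      exact ⟨y, y.2, rfl⟩
    · rintro ⟨y, hy, rfl⟩
      exact ⟨⟨y, hy⟩, rfl⟩
  have htop : ∀ a b : G, Subgroup.closure {a, b} = ⊤ ↔
      G.map (permHom X) ≤ Subgroup.closure {φ a, φ b} := by
    intro a b
    have h3 : ({φ a, φ b} : Set (Equiv.Perm X)) = φ '' {a, b} := by
      rw [image_pair]
    rw [h3, ← MonoidHom.map_closure, ← hφr]
    constructor
    · intro h1
      rw [h1, ← MonoidHom.range_eq_map]
    · intro h1
      rw [eq_top_iff]
      rintro x -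
      obtain ⟨y, hy, hyx⟩ := h1 ⟨x, rfl⟩
      rw [← hφ hyx]; exact hy
  constructor
  · intro h1 x hx
    rw [hpow] at hx
    obtain ⟨k, α, hk, hα1, hα2, hα3⟩ := converse2 hSV hx
    choose a ha1 ha2 using hα1
    obtain ⟨β, hβ, hβ2⟩ := h1 k hk (fun i => ⟨a i, ha1 i⟩) (fun i hi => hα2 i (by
      rw [← ha2 i, show a i = 1 from congrArg Subtype.val hi, map_one]))
    obtain ⟨c, hc⟩ := isConj_iff.1 hβ
    obtain ⟨i, hi⟩ := hα3 (φ c)
    apply hi
    have h2 := (htop _ _).1 (hβ2 i)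
    have h3 : φ ⟨a i, ha1 i⟩ = α i := ha2 i
    have h4 : φ β = φ c * permHom X (σ : X ≃ₜ X) * (φ c)⁻¹ := by
      rw [← hc, map_mul, map_mul, map_inv]; rfl
    rw [h3, h4] at h2
    exact h2
  · intro h1 k _ α hα
    have hA : Aper (permHom X (σ : X ≃ₜ X)) := aper_of fun x => by
      rw [← hpow]; exact h1 x
    obtain ⟨g, ⟨g0, hg0, rfl⟩, hg⟩ := main2 hSV hFG (s := permHom X (σ : X ≃ₜ X))
      ⟨σ, σ.2, rfl⟩ hA k (fun i => φ (α i))
      (fun i => ⟨_, (α i).2, rfl⟩) (fun i hi => hα i (hφ (by rw [hi, map_one])))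
    refine ⟨⟨g0, hg0⟩ * σ * ⟨g0, hg0⟩⁻¹, isConj_iff.2 ⟨⟨g0, hg0⟩, rfl⟩, fun i => ?_⟩
    rw [htop]
    exact hg i

end

end Pool.Agent.N59.VG
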